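import Mathlib

/-! Brun-Hooley sieve in abstract form, for MP_0a1886_pr. -/

set_option autoImplicit false
open Finset
set_option linter.unusedSectionVars false

namespace Pool.Agent.MP0a1886

variable {α : Type*} [DecidableEq α]

/-- truncated alternating sum over subsets of size at most `u` -/
noncomputable def altSum (x : α → ℝ) (S : Finset α) (u : ℕ) : ℝ :=
  ∑ B ∈ S.powerset, if B.card ≤ u then (-1 : ℝ) ^ B.card * ∏ P ∈ B, x P else 0

/-- elementary symmetric sum -/
noncomputable def elemSum (x : α → ℝ) (S : Finset α) (k : ℕ) : ℝ :=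
  ∑ B ∈ S.powerset, if B.card = k then ∏ P ∈ B, x P else 0

lemma elemSum_zero (x : α → ℝ) (S : Finset α) : elemSum x S 0 = 1 := by
  unfold elemSum
  rw [Finset.sum_eq_single ∅]
  · simp
  · intro B _ hB
    rw [if_neg]
    simpa using hB
  · simp

lemma elemSum_empty_succ (x : α → ℝ) (k : ℕ) : elemSum x ∅ (k + 1) = 0 := by
  simp [elemSum]

lemma elemSum_insert (x : α → ℝ) {S : Finset α} {a : α} (ha : a ∉ S) (k : ℕ) :
    elemSum x (insert a S) (k + 1) = elemSum x S (k + 1) + x a * elemSum x S k := by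
  unfold elemSum
  rw [Finset.sum_powerset_insert ha, Finset.mul_sum]
  congr 1
  apply Finset.sum_congr rfl
  intro B hB
  have haB : a ∉ B := fun h => ha (Finset.mem_powerset.1 hB h)
  rw [Finset.card_insert_of_notMem haB, Finset.prod_insert haB]
  by_cases h : B.card = k
  · simp [h]
  · simp [h]

lemma altSum_zero (x : α → ℝ) (S : Finset α) : altSum x S 0 = 1 := by
  unfold altSum
  rw [Finset.sum_eq_single ∅]
  · simp
  · intro B _ hB
    rw [if_neg]
    simpa using hB
  · simp

lemma altSum_empty (x : α → ℝ) (u : ℕ) : altSum x ∅ u = 1 := by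
  simp [altSum]

lemma altSum_insert (x : α → ℝ) {S : Finset α} {a : α} (ha : a ∉ S) (u : ℕ) :
    altSum x (insert a S) (u + 1) = altSum x S (u + 1) - x a * altSum x S u := by
  unfold altSum
  rw [Finset.sum_powerset_insert ha, Finset.mul_sum, sub_eq_add_neg, ← Finset.sum_neg_distrib]
  congr 1
  apply Finset.sum_congr rfl
  intro B hB
  have haB : a ∉ B := fun h => ha (Finset.mem_powerset.1 hB h)
  rw [Finset.card_insert_of_notMem haB, Finset.prod_insert haB]
  by_cases h : B.card ≤ u
  · simp [h, pow_succ]; ring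
  · simp [h]

lemma altSum_succ (x : α → ℝ) (S : Finset α) (u : ℕ) :
    altSum x S (u + 1) = altSum x S u + (-1) ^ (u + 1) * elemSum x S (u + 1) := by
  unfold altSum elemSum
  rw [Finset.mul_sum, ← Finset.sum_add_distrib]
  apply Finset.sum_congr rfl
  intro B _
  rcases lt_trichotomy B.card (u + 1) with h | h | h
  · have h1 : B.card ≤ u := by omega
    have h2 : B.card ≤ u + 1 := by omega
    have h3 : B.card ≠ u + 1 := by omega
    simp [h1, h2, h3]
  · have h1 : ¬ B.card ≤ u := by omega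
    simp [h]
  · have h1 : ¬ B.card ≤ u := by omega
    have h2 : ¬ B.card ≤ u + 1 := by omega
    have h3 : B.card ≠ u + 1 := by omega
    simp [h1, h2, h3]

/-- Bonferroni inequalities for product weights. -/
lemma bonferroni (x : α → ℝ) (S : Finset α) (hx0 : ∀ a ∈ S, 0 ≤ x a) (hx1 : ∀ a ∈ S, x a ≤ 1) :
    ∀ u : ℕ, (∏ P ∈ S, (1 - x P)) ≤ altSum x S (2 * u) ∧
      altSum x S (2 * u + 1) ≤ ∏ P ∈ S, (1 - x P) := by
  induction S using Finset.induction_on with
  | empty =>
    intro u
    simp [altSum_empty]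
  | insert a S ha ih =>
    have ih' := ih (fun b hb => hx0 b (Finset.mem_insert_of_mem hb))
      (fun b hb => hx1 b (Finset.mem_insert_of_mem hb))
    have ha0 := hx0 a (Finset.mem_insert_self a S)
    have ha1 := hx1 a (Finset.mem_insert_self a S)
    have hv0 : 0 ≤ ∏ P ∈ S, (1 - x P) :=
      Finset.prod_nonneg fun b hb => sub_nonneg.2 (hx1 b (Finset.mem_insert_of_mem hb))
    have hv1 : ∏ P ∈ S, (1 - x P) ≤ 1 :=
      Finset.prod_le_one (fun b hb => sub_nonneg.2 (hx1 b (Finset.mem_insert_of_mem hb)))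
        (fun b hb => by linarith [hx0 b (Finset.mem_insert_of_mem hb)])
    intro u
    rw [Finset.prod_insert ha]
    constructor
    · cases u with
      | zero =>
        rw [Nat.mul_zero, altSum_zero]
        nlinarith
      | succ u =>
        rw [show 2 * (u + 1) = (2 * u + 1) + 1 by ring, altSum_insert x ha]
        have h1 := (ih' (u + 1)).1
        have h2 := (ih' u).2
        rw [show 2 * (u + 1) = (2 * u + 1) + 1 by ring] at h1
        nlinarith
    · rw [altSum_insert x ha]
      have h1 := (ih' u).2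
      have h2 := (ih' u).1
      nlinarith

lemma elemSum_nonneg (x : α → ℝ) (S : Finset α) (hx0 : ∀ a ∈ S, 0 ≤ x a) (k : ℕ) :
    0 ≤ elemSum x S k := by
  unfold elemSum
  apply Finset.sum_nonneg
  intro B hB
  split_ifs
  · exact Finset.prod_nonneg fun b hb => hx0 b (Finset.mem_powerset.1 hB hb)
  · exact le_rfl

lemma elemSum_le (x : α → ℝ) (S : Finset α) (hx0 : ∀ a ∈ S, 0 ≤ x a) (k : ℕ) :
    elemSum x S k ≤ (∑ P ∈ S, x P) ^ k / (k.factorial : ℝ) := by
  induction S using Finset.induction_on generalizing k with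
  | empty =>
    cases k with
    | zero => simp [elemSum_zero]
    | succ k => simp [elemSum_empty_succ]
  | insert a S ha ih =>
    have hx0' : ∀ b ∈ S, 0 ≤ x b := fun b hb => hx0 b (Finset.mem_insert_of_mem hb)
    have ha0 := hx0 a (Finset.mem_insert_self a S)
    cases k with
    | zero => simp [elemSum_zero]
    | succ k =>
      rw [elemSum_insert x ha, Finset.sum_insert ha]
      set κ := ∑ P ∈ S, x P with hκ
      have hκ0 : 0 ≤ κ := Finset.sum_nonneg hx0'
      have h1 := ih hx0' (k + 1)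
      have h2 := ih hx0' k
      have hb : κ ^ (k + 1) + (k + 1) * κ ^ k * x a ≤ (x a + κ) ^ (k + 1) := by
        clear h1 h2 ih
        induction k with
        | zero => simp; linarith
        | succ k ihk =>
          have hk : (0 : ℝ) ≤ κ ^ k := pow_nonneg hκ0 k
          calc κ ^ (k + 1 + 1) + ((k + 1 : ℕ) + 1 : ℝ) * κ ^ (k + 1) * x a
              ≤ (κ ^ (k + 1) + (k + 1) * κ ^ k * x a) * (x a + κ) := by
                have h3 : 0 ≤ (k + 1 : ℝ) * κ ^ k * x a * x a := by positivity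
                have h4 : (κ ^ (k + 1) + (k + 1) * κ ^ k * x a) * (x a + κ)
                    - (κ ^ (k + 1 + 1) + ((k + 1 : ℕ) + 1 : ℝ) * κ ^ (k + 1) * x a)
                    = (k + 1 : ℝ) * κ ^ k * x a * x a := by
                  push_cast; ring
                linarith
            _ ≤ (x a + κ) ^ (k + 1) * (x a + κ) := by
                apply mul_le_mul_of_nonneg_right ihk
                positivity
            _ = _ := by ring
      have hf : ((k + 1).factorial : ℝ) = (k + 1) * (k.factorial : ℝ) := by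
        rw [Nat.factorial_succ]; push_cast; ring
      have hf0 : (0 : ℝ) < (k.factorial : ℝ) := by positivity
      calc elemSum x S (k + 1) + x a * elemSum x S k
          ≤ κ ^ (k + 1) / ((k + 1).factorial : ℝ) + x a * (κ ^ k / (k.factorial : ℝ)) := by
            gcongr
        _ = (κ ^ (k + 1) + (k + 1) * κ ^ k * x a) / ((k + 1).factorial : ℝ) := by
            rw [hf]; field_simp
        _ ≤ _ := by
            apply div_le_div_of_nonneg_right hb
            positivity

/-- The upper-truncated sum is close to the product. -/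
lemma altSum_even_le (x : α → ℝ) (S : Finset α) (hx0 : ∀ a ∈ S, 0 ≤ x a)
    (hx1 : ∀ a ∈ S, x a ≤ 1) (u : ℕ) :
    altSum x S (2 * u) ≤ (∏ P ∈ S, (1 - x P)) + elemSum x S (2 * u + 1) := by
  have h := (bonferroni x S hx0 hx1 u).2
  rw [altSum_succ] at h
  have : (-1 : ℝ) ^ (2 * u + 1) = -1 := by
    rw [pow_succ, pow_mul]; simp
  rw [this] at h
  linarith

/-- product of nonnegative numbers below upper bounds -/
lemma prod_ge_of_le {ι : Type*} [DecidableEq ι] (I : Finset ι) (x y : ι → ℝ)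
    (hx : ∀ i ∈ I, 0 ≤ x i) (hxy : ∀ i ∈ I, x i ≤ y i) :
    (∏ i ∈ I, y i) - ∑ l ∈ I, (y l - x l) * ∏ i ∈ I.erase l, y i ≤ ∏ i ∈ I, x i := by
  induction I using Finset.induction_on with
  | empty => simp
  | insert a S ha ih =>
    have ih' := ih (fun i hi => hx i (Finset.mem_insert_of_mem hi))
      (fun i hi => hxy i (Finset.mem_insert_of_mem hi))
    rw [Finset.prod_insert ha, Finset.prod_insert ha, Finset.sum_insert ha,
      Finset.erase_insert ha]
    have h1 : ∀ l ∈ S, (insert a S).erase l = insert a (S.erase l) := by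
      intro l hl
      rw [Finset.erase_insert_of_ne]
      rintro rfl
      exact ha hl
    have h2 : ∑ l ∈ S, (y l - x l) * ∏ i ∈ (insert a S).erase l, y i
        = y a * ∑ l ∈ S, (y l - x l) * ∏ i ∈ S.erase l, y i := by
      rw [Finset.mul_sum]
      apply Finset.sum_congr rfl
      intro l hl
      rw [h1 l hl, Finset.prod_insert (fun h => ha (Finset.mem_of_mem_erase h))]
      ring
    rw [h2]
    have hxa := hx a (Finset.mem_insert_self a S)
    have hxya := hxy a (Finset.mem_insert_self a S)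
    have hS : ∑ l ∈ S, (y l - x l) * ∏ i ∈ S.erase l, y i ≥ 0 := by
      apply Finset.sum_nonneg
      intro l hl
      apply mul_nonneg
      · linarith [hxy l (Finset.mem_insert_of_mem hl)]
      · apply Finset.prod_nonneg
        intro i hi
        have hi' := Finset.mem_of_mem_erase hi
        exact (hx i (Finset.mem_insert_of_mem hi')).trans (hxy i (Finset.mem_insert_of_mem hi'))
    nlinarith [mul_le_mul_of_nonneg_left ih' hxa,
      mul_nonneg (sub_nonneg.2 hxya) hS]

/-- coefficient attached to a family of functions of the fibre sizes -/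
noncomputable def lam (r : α → ℕ) (t : ℕ) (γ : ℕ → ℕ → ℝ) (B : Finset α) : ℝ :=
  ∏ i ∈ Finset.range t, γ i (B.filter (fun P => r P = i)).card

lemma sum_powerset_split (S : Finset α) (q : α → Prop) [DecidablePred q]
    (f h : Finset α → ℝ) :
    ∑ B ∈ S.powerset, f (B.filter q) * h (B.filter fun a => ¬ q a)
      = (∑ B ∈ (S.filter q).powerset, f B) *
        (∑ B ∈ (S.filter fun a => ¬ q a).powerset, h B) := by
  rw [Finset.sum_mul_sum, ← Finset.sum_product']
  refine Finset.sum_nbij' (fun B => (B.filter q, B.filter fun a => ¬ q a))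
    (fun p => p.1 ∪ p.2) ?_ ?_ ?_ ?_ ?_
  · intro B hB
    rw [Finset.mem_powerset] at hB
    simp only [Finset.mem_product, Finset.mem_powerset]
    exact ⟨Finset.filter_subset_filter _ hB, Finset.filter_subset_filter _ hB⟩
  · intro p hp
    simp only [Finset.mem_product, Finset.mem_powerset] at hp ⊢
    exact Finset.union_subset (hp.1.trans (Finset.filter_subset _ _))
      (hp.2.trans (Finset.filter_subset _ _))
  · intro B _
    exact Finset.filter_union_filter_not_eq _ _
  · intro p hp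
    simp only [Finset.mem_product, Finset.mem_powerset] at hp
    ext a
    · simp only [Finset.mem_filter, Finset.mem_union]
      constructor
      · rintro ⟨h1 | h1, h2⟩
        · exact h1
        · exact absurd h2 (Finset.mem_filter.1 (hp.2 h1)).2
      · intro h1
        exact ⟨Or.inl h1, (Finset.mem_filter.1 (hp.1 h1)).2⟩
    · simp only [Finset.mem_filter, Finset.mem_union]
      constructor
      · rintro ⟨h1 | h1, h2⟩
        · exact absurd (Finset.mem_filter.1 (hp.1 h1)).2 h2
        · exact h1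
      · intro h1
        exact ⟨Or.inr h1, (Finset.mem_filter.1 (hp.2 h1)).2⟩
  · intro B _
    rfl

lemma sum_powerset_fiber (r : α → ℕ) (g : ℕ → Finset α → ℝ) (t : ℕ) :
    ∀ S : Finset α, (∀ P ∈ S, r P < t) →
    ∑ B ∈ S.powerset, ∏ i ∈ Finset.range t, g i (B.filter fun P => r P = i)
      = ∏ i ∈ Finset.range t, ∑ B ∈ (S.filter fun P => r P = i).powerset, g i B := by
  induction t with
  | zero =>
    intro S hS
    have : S = ∅ := Finset.eq_empty_of_forall_notMem fun a ha => by
      have := hS a ha; omega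
    subst this
    simp
  | succ t ih =>
    intro S hS
    have h1 : ∀ B ∈ S.powerset, ∏ i ∈ Finset.range (t + 1), g i (B.filter fun P => r P = i)
        = g t (B.filter fun P => r P = t) *
          (fun B' : Finset α => ∏ i ∈ Finset.range t, g i (B'.filter fun P => r P = i))
            (B.filter fun P => ¬ r P = t) := by
      intro B _
      rw [Finset.prod_range_succ, mul_comm]
      congr 1
      apply Finset.prod_congr rfl
      intro i hi
      rw [Finset.filter_filter]
      congr 1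
      apply Finset.filter_congr
      intro P _
      have := Finset.mem_range.1 hi
      constructor
      · intro h; exact ⟨by omega, h⟩
      · intro h; exact h.2
    rw [Finset.sum_congr rfl h1, sum_powerset_split S (fun P => r P = t) (g t)
      (fun B' : Finset α => ∏ i ∈ Finset.range t, g i (B'.filter fun P => r P = i))]
    rw [Finset.prod_range_succ, mul_comm]
    congr 1
    have h2 := ih (S.filter fun P => ¬ r P = t) (by
      intro P hP
      rw [Finset.mem_filter] at hP
      have := hS P hP.1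
      have := hP.2
      omega)
    rw [h2]
    apply Finset.prod_congr rfl
    intro i hi
    rw [Finset.filter_filter]
    have h3 : (S.filter fun P => ¬ r P = t ∧ r P = i) = S.filter fun P => r P = i := by
      apply Finset.filter_congr
      intro P _
      have := Finset.mem_range.1 hi
      constructor
      · intro h; exact h.2
      · intro h; exact ⟨by omega, h⟩
    rw [h3]

lemma prod_fiber (r : α → ℕ) (t : ℕ) (x : α → ℝ) (S : Finset α) (hS : ∀ P ∈ S, r P < t) :
    ∏ P ∈ S, x P = ∏ i ∈ Finset.range t, ∏ P ∈ S.filter (fun P => r P = i), x P := by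
  rw [Finset.prod_fiberwise_of_maps_to (g := r) (t := Finset.range t)]
  intro P hP
  exact Finset.mem_range.2 (hS P hP)

/-- sum of `lam` times a product weight -/
lemma sum_lam_mul (r : α → ℕ) (t : ℕ) (γ : ℕ → ℕ → ℝ) (x : α → ℝ) (S : Finset α)
    (hS : ∀ P ∈ S, r P < t) :
    ∑ B ∈ S.powerset, lam r t γ B * ∏ P ∈ B, x P
      = ∏ i ∈ Finset.range t, ∑ B ∈ (S.filter fun P => r P = i).powerset,
          γ i B.card * ∏ P ∈ B, x P := by
  rw [← sum_powerset_fiber r (fun i B => γ i B.card * ∏ P ∈ B, x P) t S hS]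
  apply Finset.sum_congr rfl
  intro B hB
  rw [Finset.mem_powerset] at hB
  rw [Finset.prod_mul_distrib, ← prod_fiber r t x B (fun P hP => hS P (hB hP))]
  rfl

/-- the two kinds of local coefficients -/
noncomputable def gam (u : ℕ → ℕ) (i k : ℕ) : ℝ := if k ≤ 2 * u i then (-1) ^ k else 0

noncomputable def gam' (u : ℕ → ℕ) (l i k : ℕ) : ℝ :=
  if i = l then (if k = 2 * u i + 1 then 1 else 0) else gam u i k

lemma sum_gam (u : ℕ → ℕ) (i : ℕ) (x : α → ℝ) (S : Finset α) :
    ∑ B ∈ S.powerset, gam u i B.card * ∏ P ∈ B, x P = altSum x S (2 * u i) := by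
  unfold gam altSum
  apply Finset.sum_congr rfl
  intro B _
  split_ifs <;> simp

lemma sum_gam'_self (u : ℕ → ℕ) (l : ℕ) (x : α → ℝ) (S : Finset α) :
    ∑ B ∈ S.powerset, gam' u l l B.card * ∏ P ∈ B, x P = elemSum x S (2 * u l + 1) := by
  unfold gam' elemSum
  apply Finset.sum_congr rfl
  intro B _
  split_ifs <;> simp_all

lemma sum_gam'_ne (u : ℕ → ℕ) (l i : ℕ) (h : i ≠ l) (x : α → ℝ) (S : Finset α) :
    ∑ B ∈ S.powerset, gam' u l i B.card * ∏ P ∈ B, x P = altSum x S (2 * u i) := by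
  rw [← sum_gam u i x S]
  apply Finset.sum_congr rfl
  intro B _
  unfold gam'
  rw [if_neg h]

lemma abs_gam_le (u : ℕ → ℕ) (i k : ℕ) : |gam u i k| ≤ if k ≤ 2 * u i + 1 then 1 else 0 := by
  unfold gam
  split_ifs with h1 h2 h2
  · rw [abs_pow]; simp
  · omega
  · simp
  · simp

lemma abs_gam'_le (u : ℕ → ℕ) (l i k : ℕ) :
    |gam' u l i k| ≤ if k ≤ 2 * u i + 1 then 1 else 0 := by
  unfold gam'
  split_ifs with h1 h2 h3 h3 h3
  · simp
  · omega
  · simp
  · simp
  · have := abs_gam_le u i k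
    rwa [if_pos h3] at this
  · have := abs_gam_le u i k
    rwa [if_neg h3] at this

/-- admissible sets -/
def Adm (r : α → ℕ) (t : ℕ) (u : ℕ → ℕ) (B : Finset α) : Prop :=
  ∀ i < t, (B.filter fun P => r P = i).card ≤ 2 * u i + 1

open Classical in
lemma abs_lam_le (r : α → ℕ) (t : ℕ) (u : ℕ → ℕ) (γ : ℕ → ℕ → ℝ)
    (hγ : ∀ i k, |γ i k| ≤ if k ≤ 2 * u i + 1 then 1 else 0) (B : Finset α) :
    |lam r t γ B| ≤ if Adm r t u B then 1 else 0 := by
  unfold lam
  rw [Finset.abs_prod]
  by_cases h : Adm r t u B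
  · rw [if_pos h]
    apply Finset.prod_le_one
    · intro i _; exact abs_nonneg _
    · intro i _
      refine (hγ i _).trans ?_
      split_ifs <;> norm_num
  · rw [if_neg h]
    unfold Adm at h
    push Not at h
    obtain ⟨i, hi, hB⟩ := h
    have : |γ i (B.filter fun P => r P = i).card| = 0 := by
      apply le_antisymm _ (abs_nonneg _)
      refine (hγ i _).trans ?_
      rw [if_neg (by omega)]
    rw [Finset.prod_eq_zero (Finset.mem_range.2 hi) this]

/-- the sieve function attached to the family `u` at weight `x` -/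
noncomputable def sieveVal (r : α → ℕ) (t : ℕ) (u : ℕ → ℕ) (x : α → ℝ) (S : Finset α) : ℝ :=
  (∏ i ∈ Finset.range t, altSum x (S.filter fun P => r P = i) (2 * u i))
    - ∑ l ∈ Finset.range t, elemSum x (S.filter fun P => r P = l) (2 * u l + 1) *
      ∏ i ∈ (Finset.range t).erase l, altSum x (S.filter fun P => r P = i) (2 * u i)

lemma sieveVal_eq (r : α → ℕ) (t : ℕ) (u : ℕ → ℕ) (x : α → ℝ) (S : Finset α)
    (hS : ∀ P ∈ S, r P < t) :
    sieveVal r t u x S = ∑ B ∈ S.powerset,
      (lam r t (gam u) B - ∑ l ∈ Finset.range t, lam r t (gam' u l) B) * ∏ P ∈ B, x P := by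
  unfold sieveVal
  simp_rw [sub_mul, Finset.sum_sub_distrib, Finset.sum_mul]
  rw [sum_lam_mul r t (gam u) x S hS, Finset.sum_comm]
  congr 1
  · apply Finset.prod_congr rfl
    intro i _
    rw [sum_gam]
  · apply Finset.sum_congr rfl
    intro l hl
    rw [sum_lam_mul r t (gam' u l) x S hS, ← Finset.mul_prod_erase _ _ hl, sum_gam'_self]
    congr 1
    apply Finset.prod_congr rfl
    intro i hi
    rw [sum_gam'_ne u l i (Finset.ne_of_mem_erase hi)]

/-- lower bound for the product -/
lemma sieveVal_le_prod (r : α → ℕ) (t : ℕ) (u : ℕ → ℕ) (x : α → ℝ) (S : Finset α)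
    (hS : ∀ P ∈ S, r P < t) (hx0 : ∀ a ∈ S, 0 ≤ x a) (hx1 : ∀ a ∈ S, x a ≤ 1) :
    sieveVal r t u x S ≤ ∏ P ∈ S, (1 - x P) := by
  rw [prod_fiber r t (fun P => 1 - x P) S hS]
  have hsub : ∀ i, ∀ a ∈ S.filter (fun P => r P = i), a ∈ S := fun i a ha =>
    (Finset.mem_filter.1 ha).1
  have h := prod_ge_of_le (Finset.range t)
    (fun i => ∏ P ∈ S.filter (fun P => r P = i), (1 - x P))
    (fun i => altSum x (S.filter fun P => r P = i) (2 * u i))
    (fun i _ => Finset.prod_nonneg fun a ha => sub_nonneg.2 (hx1 a (hsub i a ha)))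
    (fun i _ => (bonferroni x _ (fun a ha => hx0 a (hsub i a ha))
      (fun a ha => hx1 a (hsub i a ha)) (u i)).1)
  refine le_trans ?_ h
  unfold sieveVal
  apply sub_le_sub_left
  apply Finset.sum_le_sum
  intro l _
  apply mul_le_mul_of_nonneg_right
  · have := altSum_even_le x (S.filter fun P => r P = l) (fun a ha => hx0 a (hsub l a ha))
      (fun a ha => hx1 a (hsub l a ha)) (u l)
    linarith
  · apply Finset.prod_nonneg
    intro i _
    refine le_trans ?_ (bonferroni x _ (fun a ha => hx0 a (hsub i a ha))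
      (fun a ha => hx1 a (hsub i a ha)) (u i)).1
    exact Finset.prod_nonneg fun a ha => sub_nonneg.2 (hx1 a (hsub i a ha))

/-! ### numerical bounds in the product model -/

lemma exp_neg_two_le {x : ℝ} (h0 : 0 ≤ x) (h1 : x ≤ 1 / 2) : Real.exp (-2 * x) ≤ 1 - x := by
  have h2 : 1 + 2 * x + (2 * x) ^ 2 / 2 ≤ Real.exp (2 * x) :=
    Real.quadratic_le_exp_of_nonneg (by linarith)
  have h3 : Real.exp (-2 * x) * Real.exp (2 * x) = 1 := by
    rw [← Real.exp_add]; simp
  have h4 : 0 < Real.exp (-2 * x) := Real.exp_pos _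
  have h5 : 1 ≤ (1 - x) * Real.exp (2 * x) := by
    have : (1 - x) * (1 + 2 * x + (2 * x) ^ 2 / 2) ≤ (1 - x) * Real.exp (2 * x) := by
      apply mul_le_mul_of_nonneg_left h2; linarith
    nlinarith [mul_nonneg h0 (sub_nonneg.2 h1), mul_nonneg (mul_nonneg h0 h0) (sub_nonneg.2 h1)]
  calc Real.exp (-2 * x) = Real.exp (-2 * x) * 1 := by ring
    _ ≤ Real.exp (-2 * x) * ((1 - x) * Real.exp (2 * x)) := by gcongr
    _ = (1 - x) * (Real.exp (-2 * x) * Real.exp (2 * x)) := by ring
    _ = 1 - x := by rw [h3]; ring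

lemma prod_one_sub_ge (x : α → ℝ) (S : Finset α) (hx0 : ∀ a ∈ S, 0 ≤ x a)
    (hx1 : ∀ a ∈ S, x a ≤ 1 / 2) (hκ : ∑ P ∈ S, x P ≤ 1) :
    1 / 8 ≤ ∏ P ∈ S, (1 - x P) := by
  have h1 : Real.exp (-2 * ∑ P ∈ S, x P) ≤ ∏ P ∈ S, (1 - x P) := by
    rw [Finset.mul_sum, Real.exp_sum]
    apply Finset.prod_le_prod
    · intro i _; exact (Real.exp_pos _).le
    · intro i hi; exact exp_neg_two_le (hx0 i hi) (hx1 i hi)
  have h2 : Real.exp (-2 : ℝ) ≤ Real.exp (-2 * ∑ P ∈ S, x P) := by
    apply Real.exp_le_exp.2; linarith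
  have h3 : (1 / 8 : ℝ) ≤ Real.exp (-2 : ℝ) := by
    have h4 : Real.exp 1 < 2.7182818286 := Real.exp_one_lt_d9
    have h5 : Real.exp 2 = Real.exp 1 * Real.exp 1 := by rw [← Real.exp_add]; norm_num
    rw [Real.exp_neg, one_div]
    apply inv_anti₀ (Real.exp_pos _)
    rw [h5]
    nlinarith [Real.exp_pos 1]
  linarith

/-- relative error parameter -/
noncomputable def eta (u : ℕ → ℕ) (i : ℕ) : ℝ := 8 / ((2 * u i + 1).factorial : ℝ)

lemma eta_nonneg (u : ℕ → ℕ) (i : ℕ) : 0 ≤ eta u i := by unfold eta; positivity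

lemma elemSum_le_eta (u : ℕ → ℕ) (i : ℕ) (x : α → ℝ) (S : Finset α)
    (hx0 : ∀ a ∈ S, 0 ≤ x a) (hx1 : ∀ a ∈ S, x a ≤ 1 / 2) (hκ : ∑ P ∈ S, x P ≤ 1) :
    elemSum x S (2 * u i + 1) ≤ (∏ P ∈ S, (1 - x P)) * eta u i := by
  have h1 := elemSum_le x S hx0 (2 * u i + 1)
  have h2 := prod_one_sub_ge x S hx0 hx1 hκ
  have hκ0 : 0 ≤ ∑ P ∈ S, x P := Finset.sum_nonneg hx0
  have h3 : (∑ P ∈ S, x P) ^ (2 * u i + 1) / ((2 * u i + 1).factorial : ℝ)
      ≤ 1 / ((2 * u i + 1).factorial : ℝ) := by
    apply div_le_div_of_nonneg_right _ (by positivity)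
    exact pow_le_one₀ hκ0 hκ
  have h4 : (1 / 8 : ℝ) * eta u i = 1 / ((2 * u i + 1).factorial : ℝ) := by
    unfold eta; ring
  calc elemSum x S (2 * u i + 1) ≤ 1 / ((2 * u i + 1).factorial : ℝ) := h1.trans h3
    _ = (1 / 8 : ℝ) * eta u i := h4.symm
    _ ≤ _ := mul_le_mul_of_nonneg_right h2 (eta_nonneg u i)

lemma altSum_le_eta (u : ℕ → ℕ) (i : ℕ) (x : α → ℝ) (S : Finset α)
    (hx0 : ∀ a ∈ S, 0 ≤ x a) (hx1 : ∀ a ∈ S, x a ≤ 1 / 2) (hκ : ∑ P ∈ S, x P ≤ 1) :
    altSum x S (2 * u i) ≤ (∏ P ∈ S, (1 - x P)) * (1 + eta u i) := by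
  have h1 := altSum_even_le x S hx0 (fun a ha => (hx1 a ha).trans (by norm_num)) (u i)
  have h2 := elemSum_le_eta u i x S hx0 hx1 hκ
  linarith

lemma prod_altSum_le (r : α → ℕ) (t : ℕ) (u : ℕ → ℕ) (x : α → ℝ) (S : Finset α)
    (hS : ∀ P ∈ S, r P < t) (hx0 : ∀ a ∈ S, 0 ≤ x a) (hx1 : ∀ a ∈ S, x a ≤ 1 / 2)
    (hκ : ∀ i < t, ∑ P ∈ S.filter (fun P => r P = i), x P ≤ 1) :
    (∏ i ∈ Finset.range t, altSum x (S.filter fun P => r P = i) (2 * u i))
      ≤ (∏ P ∈ S, (1 - x P)) * Real.exp (∑ i ∈ Finset.range t, eta u i) := by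
  rw [prod_fiber r t (fun P => 1 - x P) S hS, Real.exp_sum, ← Finset.prod_mul_distrib]
  have hsub : ∀ i, ∀ a ∈ S.filter (fun P => r P = i), a ∈ S := fun i a ha =>
    (Finset.mem_filter.1 ha).1
  have hv : ∀ i, 0 ≤ ∏ P ∈ S.filter (fun P => r P = i), (1 - x P) := fun i =>
    Finset.prod_nonneg fun a ha => by linarith [hx1 a (hsub i a ha)]
  apply Finset.prod_le_prod
  · intro i _
    refine le_trans (hv i) (bonferroni x _ (fun a ha => hx0 a (hsub i a ha))
      (fun a ha => (hx1 a (hsub i a ha)).trans (by norm_num)) (u i)).1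
  · intro i hi
    refine (altSum_le_eta u i x _ (fun a ha => hx0 a (hsub i a ha))
      (fun a ha => hx1 a (hsub i a ha)) (hκ i (Finset.mem_range.1 hi))).trans ?_
    apply mul_le_mul_of_nonneg_left _ (hv i)
    rw [add_comm]
    exact Real.add_one_le_exp _

lemma sieveVal_ge (r : α → ℕ) (t : ℕ) (u : ℕ → ℕ) (x : α → ℝ) (S : Finset α)
    (hS : ∀ P ∈ S, r P < t) (hx0 : ∀ a ∈ S, 0 ≤ x a) (hx1 : ∀ a ∈ S, x a ≤ 1 / 2)
    (hκ : ∀ i < t, ∑ P ∈ S.filter (fun P => r P = i), x P ≤ 1) :
    (∏ P ∈ S, (1 - x P)) * (1 - (∑ i ∈ Finset.range t, eta u i) *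
      Real.exp (∑ i ∈ Finset.range t, eta u i)) ≤ sieveVal r t u x S := by
  have hsub : ∀ i, ∀ a ∈ S.filter (fun P => r P = i), a ∈ S := fun i a ha =>
    (Finset.mem_filter.1 ha).1
  have hv : ∀ i, 0 ≤ ∏ P ∈ S.filter (fun P => r P = i), (1 - x P) := fun i =>
    Finset.prod_nonneg fun a ha => by linarith [hx1 a (hsub i a ha)]
  have hav : ∀ i, ∏ P ∈ S.filter (fun P => r P = i), (1 - x P) ≤
      altSum x (S.filter fun P => r P = i) (2 * u i) := fun i =>
    (bonferroni x _ (fun a ha => hx0 a (hsub i a ha))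
      (fun a ha => (hx1 a (hsub i a ha)).trans (by norm_num)) (u i)).1
  have hV := prod_fiber r t (fun P => 1 - x P) S hS
  have h1 : (∏ P ∈ S, (1 - x P)) ≤
      ∏ i ∈ Finset.range t, altSum x (S.filter fun P => r P = i) (2 * u i) := by
    rw [hV]
    exact Finset.prod_le_prod (fun i _ => hv i) (fun i _ => hav i)
  have h2 : ∑ l ∈ Finset.range t, elemSum x (S.filter fun P => r P = l) (2 * u l + 1) *
      ∏ i ∈ (Finset.range t).erase l, altSum x (S.filter fun P => r P = i) (2 * u i)
      ≤ (∏ P ∈ S, (1 - x P)) * ((∑ i ∈ Finset.range t, eta u i) *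
      Real.exp (∑ i ∈ Finset.range t, eta u i)) := by
    rw [Finset.sum_mul, Finset.mul_sum]
    apply Finset.sum_le_sum
    intro l hl
    have h3 := elemSum_le_eta u l x _ (fun a ha => hx0 a (hsub l a ha))
      (fun a ha => hx1 a (hsub l a ha)) (hκ l (Finset.mem_range.1 hl))
    have h4 : ∏ i ∈ (Finset.range t).erase l, altSum x (S.filter fun P => r P = i) (2 * u i)
        ≤ (∏ i ∈ (Finset.range t).erase l, ∏ P ∈ S.filter (fun P => r P = i), (1 - x P)) *
          Real.exp (∑ i ∈ Finset.range t, eta u i) := by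
      have h5 : Real.exp (∑ i ∈ (Finset.range t).erase l, eta u i) ≤
          Real.exp (∑ i ∈ Finset.range t, eta u i) := by
        apply Real.exp_le_exp.2
        exact Finset.sum_le_sum_of_subset_of_nonneg (Finset.erase_subset _ _)
          (fun i _ _ => eta_nonneg u i)
      refine le_trans ?_ (mul_le_mul_of_nonneg_left h5 (Finset.prod_nonneg fun i _ => hv i))
      rw [Real.exp_sum, ← Finset.prod_mul_distrib]
      apply Finset.prod_le_prod
      · intro i _
        exact (hv i).trans (hav i)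
      · intro i hi
        refine (altSum_le_eta u i x _ (fun a ha => hx0 a (hsub i a ha))
          (fun a ha => hx1 a (hsub i a ha))
          (hκ i (Finset.mem_range.1 (Finset.mem_of_mem_erase hi)))).trans ?_
        apply mul_le_mul_of_nonneg_left _ (hv i)
        rw [add_comm]
        exact Real.add_one_le_exp _
    have h6 : 0 ≤ elemSum x (S.filter fun P => r P = l) (2 * u l + 1) :=
      elemSum_nonneg x _ (fun a ha => hx0 a (hsub l a ha)) _
    have h7 : 0 ≤ ∏ i ∈ (Finset.range t).erase l,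
        altSum x (S.filter fun P => r P = i) (2 * u i) :=
      Finset.prod_nonneg fun i _ => (hv i).trans (hav i)
    refine (mul_le_mul h3 h4 h7 (mul_nonneg (hv l) (eta_nonneg u l))).trans (le_of_eq ?_)
    rw [hV, ← Finset.mul_prod_erase _ _ hl]
    ring
  unfold sieveVal
  rw [mul_sub, mul_one]
  linarith

/-! ### the sieve in a finite weighted space -/

section prob

variable {Ω : Type*} [Fintype Ω] (W : Ω → ℝ) (A : Ω → Finset α)

/-- weight of the event that all members of `H` are hit -/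
noncomputable def hit (H : Finset α) : ℝ := ∑ ω, if H ⊆ A ω then W ω else 0

lemma sum_sieve_identity (PP Q : Finset α) (hA : ∀ ω, A ω ⊆ PP)
    (c : Finset α → ℝ) :
    ∑ ω, (if Q ⊆ A ω then W ω * ∑ B ∈ (A ω \ Q).powerset, c B else 0)
      = ∑ B ∈ (PP \ Q).powerset, c B * hit W A (Q ∪ B) := by
  unfold hit
  simp_rw [Finset.mul_sum]
  rw [Finset.sum_comm]
  apply Finset.sum_congr rfl
  intro ω _
  by_cases h : Q ⊆ A ω
  · rw [if_pos h]
    have hsub : (A ω \ Q).powerset ⊆ (PP \ Q).powerset :=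
      Finset.powerset_mono.2 (Finset.sdiff_subset_sdiff (hA ω) (le_refl _))
    rw [← Finset.sum_subset hsub]
    · apply Finset.sum_congr rfl
      intro B hB
      rw [Finset.mem_powerset] at hB
      rw [if_pos (Finset.union_subset h (hB.trans Finset.sdiff_subset))]
      ring
    · intro B hB hB'
      rw [if_neg, mul_zero]
      intro hQB
      apply hB'
      rw [Finset.mem_powerset] at hB ⊢
      intro a ha
      rw [Finset.mem_sdiff]
      exact ⟨hQB (Finset.mem_union_right _ ha), (Finset.mem_sdiff.1 (hB ha)).2⟩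
  · rw [if_neg h]
    symm
    apply Finset.sum_eq_zero
    intro B _
    rw [if_neg, mul_zero]
    intro hQB
    exact h (Finset.subset_union_left.trans hQB)

open Classical in
lemma sieve_lower (hW : ∀ ω, 0 ≤ W ω) (PP Q : Finset α) (hA : ∀ ω, A ω ⊆ PP)
    (r : α → ℕ) (t : ℕ) (u : ℕ → ℕ) (x : α → ℝ) (hr : ∀ P ∈ PP, r P < t) :
    (∏ P ∈ Q, x P) * sieveVal r t u x (PP \ Q)
      - (t + 1) * ∑ B ∈ (PP \ Q).powerset, (if Adm r t u B then
          |hit W A (Q ∪ B) - ∏ P ∈ Q ∪ B, x P| else 0)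
      ≤ ∑ ω, if A ω = Q then W ω else 0 := by
  set c : Finset α → ℝ := fun B => lam r t (gam u) B - ∑ l ∈ Finset.range t, lam r t (gam' u l) B
    with hc
  have h1 : ∑ ω, (if Q ⊆ A ω then W ω * ∑ B ∈ (A ω \ Q).powerset, c B else 0)
      ≤ ∑ ω, if A ω = Q then W ω else 0 := by
    apply Finset.sum_le_sum
    intro ω _
    by_cases h : Q ⊆ A ω
    · rw [if_pos h]
      have hr' : ∀ P ∈ A ω \ Q, r P < t := fun P hP => hr P (hA ω (Finset.mem_sdiff.1 hP).1)
      have h2 : ∑ B ∈ (A ω \ Q).powerset, c B = sieveVal r t u (fun _ => 1) (A ω \ Q) := by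
        rw [sieveVal_eq r t u (fun _ => 1) _ hr']
        apply Finset.sum_congr rfl
        intro B _
        simp [hc]
      have h3 := sieveVal_le_prod r t u (fun _ => (1 : ℝ)) (A ω \ Q) hr'
        (fun _ _ => zero_le_one) (fun _ _ => le_rfl)
      rw [h2]
      by_cases h4 : A ω = Q
      · rw [if_pos h4]
        rw [h4] at h3 ⊢
        simp only [sdiff_self, Finset.bot_eq_empty, Finset.prod_empty] at h3 ⊢
        nlinarith [hW ω]
      · rw [if_neg h4]
        have h5 : (A ω \ Q).Nonempty := by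
          rw [Finset.sdiff_nonempty]
          intro h6
          exact h4 (Finset.Subset.antisymm h6 h)
        have h6 : ∏ P ∈ A ω \ Q, (1 - (fun _ : α => (1 : ℝ)) P) = 0 := by
          obtain ⟨a, ha⟩ := h5
          exact Finset.prod_eq_zero ha (by simp)
        rw [h6] at h3
        nlinarith [hW ω]
    · rw [if_neg h]
      split_ifs
      · exact hW ω
      · exact le_rfl
  rw [sum_sieve_identity W A PP Q hA c] at h1
  refine le_trans ?_ h1
  have hr' : ∀ P ∈ PP \ Q, r P < t := fun P hP => hr P (Finset.mem_sdiff.1 hP).1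
  rw [sieveVal_eq r t u x _ hr', Finset.mul_sum, Finset.mul_sum, ← Finset.sum_sub_distrib]
  apply Finset.sum_le_sum
  intro B hB
  rw [Finset.mem_powerset] at hB
  have hdisj : Disjoint Q B := by
    rw [Finset.disjoint_left]
    intro a ha hb
    exact (Finset.mem_sdiff.1 (hB hb)).2 ha
  have hprod : ∏ P ∈ Q ∪ B, x P = (∏ P ∈ Q, x P) * ∏ P ∈ B, x P :=
    Finset.prod_union hdisj
  have hcB : |c B| ≤ if Adm r t u B then (t + 1 : ℝ) else 0 := by
    have h7 := abs_lam_le r t u (gam u) (fun i k => abs_gam_le u i k) B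
    have h8 : ∀ l, |lam r t (gam' u l) B| ≤ if Adm r t u B then 1 else 0 := fun l =>
      abs_lam_le r t u (gam' u l) (fun i k => abs_gam'_le u l i k) B
    have h9 : |∑ l ∈ Finset.range t, lam r t (gam' u l) B|
        ≤ ∑ l ∈ Finset.range t, if Adm r t u B then (1 : ℝ) else 0 :=
      (Finset.abs_sum_le_sum_abs _ _).trans (Finset.sum_le_sum fun l _ => h8 l)
    rw [Finset.sum_const, Finset.card_range, nsmul_eq_mul] at h9
    have h10 : |c B| ≤ |lam r t (gam u) B| + |∑ l ∈ Finset.range t, lam r t (gam' u l) B| :=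
      abs_sub _ _
    split_ifs at h7 h9 ⊢ <;> linarith
  have hdiff : c B * (hit W A (Q ∪ B) - ∏ P ∈ Q ∪ B, x P) ≥
      - ((t + 1) * (if Adm r t u B then |hit W A (Q ∪ B) - ∏ P ∈ Q ∪ B, x P| else 0)) := by
    have h11 : |c B * (hit W A (Q ∪ B) - ∏ P ∈ Q ∪ B, x P)| ≤
        (t + 1) * (if Adm r t u B then |hit W A (Q ∪ B) - ∏ P ∈ Q ∪ B, x P| else 0) := by
      rw [abs_mul]
      split_ifs at hcB ⊢
      · exact mul_le_mul_of_nonneg_right hcB (abs_nonneg _)
      · have : |c B| = 0 := le_antisymm hcB (abs_nonneg _)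
        rw [this]; simp
    exact (abs_le.1 h11).1
  rw [hprod] at hdiff ⊢
  have hcB' : c B = lam r t (gam u) B - ∑ l ∈ Finset.range t, lam r t (gam' u l) B := rfl
  rw [← hcB']
  linarith

open Classical in
lemma sieve_upper (hW : ∀ ω, 0 ≤ W ω) (PP : Finset α) (hA : ∀ ω, A ω ⊆ PP)
    (r : α → ℕ) (t : ℕ) (u : ℕ → ℕ) (x : α → ℝ) (hr : ∀ P ∈ PP, r P < t) :
    (∑ ω, if A ω = ∅ then W ω else 0) ≤
      (∏ i ∈ Finset.range t, altSum x (PP.filter fun P => r P = i) (2 * u i))
      + ∑ B ∈ PP.powerset, (if Adm r t u B then |hit W A B - ∏ P ∈ B, x P| else 0) := by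
  have h1 : (∑ ω, if A ω = ∅ then W ω else 0) ≤
      ∑ ω, (if ∅ ⊆ A ω then W ω * ∑ B ∈ (A ω \ ∅).powerset, lam r t (gam u) B else 0) := by
    apply Finset.sum_le_sum
    intro ω _
    rw [if_pos (Finset.empty_subset _), Finset.sdiff_empty]
    have hr' : ∀ P ∈ A ω, r P < t := fun P hP => hr P (hA ω hP)
    have h2 : ∑ B ∈ (A ω).powerset, lam r t (gam u) B
        = ∏ i ∈ Finset.range t, altSum (fun _ => (1 : ℝ)) ((A ω).filter fun P => r P = i)
            (2 * u i) := by
      have := sum_lam_mul r t (gam u) (fun _ => (1 : ℝ)) (A ω) hr'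
      simp_rw [sum_gam] at this
      rw [← this]
      apply Finset.sum_congr rfl
      intro B _
      simp
    rw [h2]
    have h3 : ∀ i, 0 ≤ altSum (fun _ => (1 : ℝ)) ((A ω).filter fun P => r P = i) (2 * u i) := by
      intro i
      refine le_trans ?_ (bonferroni (fun _ => (1 : ℝ)) _ (fun _ _ => zero_le_one)
        (fun _ _ => le_rfl) (u i)).1
      exact Finset.prod_nonneg fun _ _ => by simp
    by_cases h4 : A ω = ∅
    · rw [if_pos h4, h4]
      simp [altSum_empty]
    · rw [if_neg h4]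
      exact mul_nonneg (hW ω) (Finset.prod_nonneg fun i _ => h3 i)
  rw [sum_sieve_identity W A PP ∅ hA] at h1
  rw [Finset.sdiff_empty] at h1
  refine h1.trans ?_
  have h5 : (∏ i ∈ Finset.range t, altSum x (PP.filter fun P => r P = i) (2 * u i))
      = ∑ B ∈ PP.powerset, lam r t (gam u) B * ∏ P ∈ B, x P := by
    rw [sum_lam_mul r t (gam u) x PP hr]
    simp_rw [sum_gam]
  rw [h5, ← Finset.sum_add_distrib]
  apply Finset.sum_le_sum
  intro B _
  rw [Finset.empty_union]
  have h7 := abs_lam_le r t u (gam u) (fun i k => abs_gam_le u i k) B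
  have h8 : |lam r t (gam u) B * (hit W A B - ∏ P ∈ B, x P)| ≤
      (if Adm r t u B then |hit W A B - ∏ P ∈ B, x P| else 0) := by
    rw [abs_mul]
    split_ifs at h7 ⊢
    · exact mul_le_of_le_one_left (abs_nonneg _) h7
    · have : |lam r t (gam u) B| = 0 := le_antisymm h7 (abs_nonneg _)
      rw [this]; simp
  have h9 := (abs_le.1 h8).2
  linarith

end prob

/-! ### total variation -/

/-- product (independent) model -/
noncomputable def model (x : α → ℝ) (PP Q : Finset α) : ℝ :=
  (∏ P ∈ Q, x P) * ∏ P ∈ PP \ Q, (1 - x P)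

lemma sum_model (x : α → ℝ) (PP : Finset α) : ∑ Q ∈ PP.powerset, model x PP Q = 1 := by
  unfold model
  rw [← Finset.prod_add]
  simp

lemma model_nonneg (x : α → ℝ) (PP Q : Finset α) (hx0 : ∀ a ∈ PP, 0 ≤ x a)
    (hx1 : ∀ a ∈ PP, x a ≤ 1) (hQ : Q ⊆ PP) : 0 ≤ model x PP Q := by
  unfold model
  apply mul_nonneg
  · exact Finset.prod_nonneg fun a ha => hx0 a (hQ ha)
  · exact Finset.prod_nonneg fun a ha => sub_nonneg.2 (hx1 a (Finset.mem_sdiff.1 ha).1)

/-- Rankin bound for the tail of the independent model -/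
lemma model_tail (x a : α → ℝ) (PP : Finset α) (hx0 : ∀ b ∈ PP, 0 ≤ x b)
    (hx1 : ∀ b ∈ PP, x b ≤ 1) (K : ℝ) :
    ∑ Q ∈ PP.powerset, (if K < ∑ P ∈ Q, a P then model x PP Q else 0)
      ≤ Real.exp (-K) * Real.exp (∑ P ∈ PP, x P * (Real.exp (a P) - 1)) := by
  have h1 : ∑ Q ∈ PP.powerset, (if K < ∑ P ∈ Q, a P then model x PP Q else 0)
      ≤ ∑ Q ∈ PP.powerset, Real.exp (-K) * ((∏ P ∈ Q, x P * Real.exp (a P)) *
        ∏ P ∈ PP \ Q, (1 - x P)) := by
    apply Finset.sum_le_sum
    intro Q hQ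
    rw [Finset.mem_powerset] at hQ
    have h2 := model_nonneg x PP Q hx0 hx1 hQ
    have h3 : Real.exp (-K) * ((∏ P ∈ Q, x P * Real.exp (a P)) * ∏ P ∈ PP \ Q, (1 - x P))
        = Real.exp (-K + ∑ P ∈ Q, a P) * model x PP Q := by
      unfold model
      rw [Real.exp_add, Real.exp_sum, Finset.prod_mul_distrib]
      ring
    rw [h3]
    split_ifs with h
    · have : 1 ≤ Real.exp (-K + ∑ P ∈ Q, a P) := Real.one_le_exp (by linarith)
      nlinarith
    · exact mul_nonneg (Real.exp_pos _).le h2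
  refine h1.trans ?_
  rw [← Finset.mul_sum, ← Finset.prod_add]
  apply mul_le_mul_of_nonneg_left _ (Real.exp_pos _).le
  rw [Real.exp_sum]
  apply Finset.prod_le_prod
  · intro b hb
    have := hx0 b hb
    have := hx1 b hb
    have := Real.exp_pos (a b)
    nlinarith
  · intro b hb
    have h4 := Real.add_one_le_exp (x b * (Real.exp (a b) - 1))
    nlinarith

section prob2

variable {Ω : Type*} [Fintype Ω] (W : Ω → ℝ) (A : Ω → Finset α)

open Classical in
lemma tv_of_lower (PP : Finset α) (hA : ∀ ω, A ω ⊆ PP)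
    (hW : ∀ ω, 0 ≤ W ω) (hW1 : ∑ ω, W ω = 1)
    (M : Finset α → ℝ) (hM0 : ∀ Q ∈ PP.powerset, 0 ≤ M Q) (hM1 : ∑ Q ∈ PP.powerset, M Q = 1)
    (good : Finset α → Prop) [DecidablePred good] (ε : ℝ) (hε : 0 ≤ ε) (e : Finset α → ℝ)
    (he : ∀ Q ∈ PP.powerset, 0 ≤ e Q)
    (hlow : ∀ Q ∈ PP.powerset, good Q → M Q * (1 - ε) - e Q ≤ ∑ ω, if A ω = Q then W ω else 0)
    (E : Finset α → Prop) :
    |(∑ ω, if E (A ω) then W ω else 0) - ∑ Q ∈ PP.powerset, if E Q then M Q else 0|
      ≤ ε + (∑ Q ∈ PP.powerset, if good Q then 0 else M Q) +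
        ∑ Q ∈ PP.powerset, if good Q then e Q else 0 := by
  set L : Finset α → ℝ := fun Q => ∑ ω, if A ω = Q then W ω else 0 with hL
  have hL0 : ∀ Q, 0 ≤ L Q := fun Q => Finset.sum_nonneg fun ω _ => by
    split_ifs
    · exact hW ω
    · exact le_rfl
  have hLE : ∀ (F : Finset α → Prop) [DecidablePred F], (∑ ω, if F (A ω) then W ω else 0) =
      ∑ Q ∈ PP.powerset, if F Q then L Q else 0 := by
    intro F _
    have h1 : ∀ Q ∈ PP.powerset, (if F Q then L Q else 0) =
        ∑ ω, if A ω = Q then (if F (A ω) then W ω else 0) else 0 := by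
      intro Q _
      split_ifs with hF
      · apply Finset.sum_congr rfl
        intro ω _
        by_cases h : A ω = Q
        · simp [h, hF]
        · simp [h]
      · symm
        apply Finset.sum_eq_zero
        intro ω _
        by_cases h : A ω = Q
        · simp [h, hF]
        · simp [h]
    rw [Finset.sum_congr rfl h1, Finset.sum_comm]
    apply Finset.sum_congr rfl
    intro ω _
    rw [Finset.sum_ite_eq, if_pos (Finset.mem_powerset.2 (hA ω))]
  have hdef : ∀ Q ∈ PP.powerset, M Q - L Q ≤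
      (if good Q then 0 else M Q) + (if good Q then e Q else 0) + ε * M Q := by
    intro Q hQ
    have hm := hM0 Q hQ
    by_cases hg : good Q
    · have := hlow Q hQ hg
      rw [if_pos hg, if_pos hg]
      have : M Q * (1 - ε) - e Q ≤ L Q := this
      linarith
    · rw [if_neg hg, if_neg hg]
      have := hL0 Q
      nlinarith
  have hdef0 : ∀ Q ∈ PP.powerset, 0 ≤
      (if good Q then 0 else M Q) + (if good Q then e Q else 0) + ε * M Q := by
    intro Q hQ
    have hm := hM0 Q hQ
    have he' := he Q hQ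
    by_cases hg : good Q
    · rw [if_pos hg, if_pos hg]; positivity
    · rw [if_neg hg, if_neg hg]; positivity
  have key : ∀ (F : Finset α → Prop) [DecidablePred F],
      (∑ Q ∈ PP.powerset, if F Q then M Q else 0) -
      (∑ Q ∈ PP.powerset, if F Q then L Q else 0) ≤
      ε + (∑ Q ∈ PP.powerset, if good Q then 0 else M Q) +
        ∑ Q ∈ PP.powerset, if good Q then e Q else 0 := by
    intro F _
    rw [← Finset.sum_sub_distrib]
    have h2 : ∑ Q ∈ PP.powerset, ((if F Q then M Q else 0) - (if F Q then L Q else 0)) ≤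
        ∑ Q ∈ PP.powerset, ((if good Q then 0 else M Q) + (if good Q then e Q else 0)
          + ε * M Q) := by
      apply Finset.sum_le_sum
      intro Q hQ
      by_cases hF : F Q
      · rw [if_pos hF, if_pos hF]
        exact hdef Q hQ
      · rw [if_neg hF, if_neg hF, sub_zero]
        exact hdef0 Q hQ
    refine h2.trans (le_of_eq ?_)
    rw [Finset.sum_add_distrib, Finset.sum_add_distrib, ← Finset.mul_sum, hM1]
    ring
  rw [hLE E, abs_le]
  constructor
  · have := key E
    linarith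
  · have h3 := key (fun Q => ¬ E Q)
    have h4 : ∀ G : Finset α → ℝ, ∑ Q ∈ PP.powerset, (if ¬ E Q then G Q else 0) =
        (∑ Q ∈ PP.powerset, G Q) - ∑ Q ∈ PP.powerset, if E Q then G Q else 0 := by
      intro G
      rw [← Finset.sum_sub_distrib]
      apply Finset.sum_congr rfl
      intro Q _
      by_cases h : E Q <;> simp [h]
    have h5 : ∑ Q ∈ PP.powerset, L Q = 1 := by
      have := hLE (fun _ => True)
      simp only [if_true] at this
      rw [← this, hW1]
    rw [h4 M, h4 L, hM1, h5] at h3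
    linarith

/-- passing from pairs `(Q, B)` to their union -/
lemma sum_pairs (PP : Finset α) (f : Finset α → ℝ) :
    ∑ Q ∈ PP.powerset, ∑ B ∈ (PP \ Q).powerset, f (Q ∪ B)
      = ∑ H ∈ PP.powerset, 2 ^ H.card * f H := by
  have h1 : ∀ H ∈ PP.powerset, (2 : ℝ) ^ H.card * f H = ∑ Q ∈ H.powerset, f H := by
    intro H _
    rw [Finset.sum_const, Finset.card_powerset, nsmul_eq_mul]
    push_cast
    ring
  rw [Finset.sum_congr rfl h1, Finset.sum_sigma', Finset.sum_sigma']
  refine Finset.sum_nbij' (fun q => ⟨q.1 ∪ q.2, q.1⟩) (fun q => ⟨q.2, q.1 \ q.2⟩) ?_ ?_ ?_ ?_ ?_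
  · rintro ⟨Q, B⟩ h
    simp only [Finset.mem_sigma, Finset.mem_powerset] at h ⊢
    exact ⟨Finset.union_subset h.1 (h.2.trans Finset.sdiff_subset), Finset.subset_union_left⟩
  · rintro ⟨H, Q⟩ h
    simp only [Finset.mem_sigma, Finset.mem_powerset] at h ⊢
    exact ⟨h.2.trans h.1, Finset.sdiff_subset_sdiff h.1 (le_refl _)⟩
  · rintro ⟨Q, B⟩ h
    simp only [Finset.mem_sigma, Finset.mem_powerset] at h ⊢
    congr 1
    rw [Finset.union_sdiff_left]
    rw [Finset.sdiff_eq_self_iff_disjoint]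
    exact Finset.disjoint_left.2 fun a ha ha' => (Finset.mem_sdiff.1 (h.2 ha)).2 ha'
  · rintro ⟨H, Q⟩ h
    simp only [Finset.mem_sigma, Finset.mem_powerset] at h ⊢
    congr 1
    exact Finset.union_sdiff_of_subset h.2
  · rintro ⟨Q, B⟩ _
    rfl

open Classical in
/-- The fundamental lemma in total variation form. -/
theorem tv_bound (PP : Finset α) (hA : ∀ ω, A ω ⊆ PP)
    (hW : ∀ ω, 0 ≤ W ω) (hW1 : ∑ ω, W ω = 1)
    (r : α → ℕ) (t : ℕ) (u : ℕ → ℕ) (x : α → ℝ) (hr : ∀ P ∈ PP, r P < t)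
    (hx0 : ∀ a ∈ PP, 0 ≤ x a) (hx1 : ∀ a ∈ PP, x a ≤ 1 / 2)
    (hκ : ∀ i < t, ∑ P ∈ PP.filter (fun P => r P = i), x P ≤ 1)
    (d : α → ℕ) (D : ℕ → ℕ) (hd : ∀ P ∈ PP, d P ≤ D (r P)) (K : ℕ)
    (hK : ∑ i ∈ Finset.range t, (2 * u i + 1) * D i ≤ K)
    (E : Finset α → Prop) :
    |(∑ ω, if E (A ω) then W ω else 0) - ∑ Q ∈ PP.powerset, if E Q then model x PP Q else 0|
      ≤ (∑ i ∈ Finset.range t, eta u i) * Real.exp (∑ i ∈ Finset.range t, eta u i)
        + (∑ Q ∈ PP.powerset, if K < ∑ P ∈ Q, d P then model x PP Q else 0)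
        + (t + 1) * ∑ H ∈ PP.powerset, (if ∑ P ∈ H, d P ≤ 2 * K then
            2 ^ H.card * |hit W A H - ∏ P ∈ H, x P| else 0) := by
  set ε := (∑ i ∈ Finset.range t, eta u i) * Real.exp (∑ i ∈ Finset.range t, eta u i) with hε
  have hε0 : 0 ≤ ε := mul_nonneg (Finset.sum_nonneg fun i _ => eta_nonneg u i)
    (Real.exp_pos _).le
  set e : Finset α → ℝ := fun Q => (t + 1) * ∑ B ∈ (PP \ Q).powerset, (if Adm r t u B then
          |hit W A (Q ∪ B) - ∏ P ∈ Q ∪ B, x P| else 0) with he
  have he0 : ∀ Q, 0 ≤ e Q := by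
    intro Q
    apply mul_nonneg (by positivity)
    apply Finset.sum_nonneg
    intro B _
    split_ifs
    · exact abs_nonneg _
    · exact le_rfl
  have h1 := tv_of_lower W A PP hA hW hW1 (model x PP)
    (fun Q hQ => model_nonneg x PP Q hx0 (fun a ha => (hx1 a ha).trans (by norm_num))
      (Finset.mem_powerset.1 hQ))
    (sum_model x PP) (fun Q => ¬ (K < ∑ P ∈ Q, d P)) ε hε0 e (fun Q _ => he0 Q)
    (by
      intro Q hQ _
      rw [Finset.mem_powerset] at hQ
      have h2 := sieve_lower W A hW PP Q hA r t u x hr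
      have h3 := sieveVal_ge r t u x (PP \ Q)
        (fun P hP => hr P (Finset.mem_sdiff.1 hP).1)
        (fun P hP => hx0 P (Finset.mem_sdiff.1 hP).1)
        (fun P hP => hx1 P (Finset.mem_sdiff.1 hP).1)
        (fun i hi => (Finset.sum_le_sum_of_subset_of_nonneg
          (Finset.filter_subset_filter _ Finset.sdiff_subset)
          (fun P hP _ => hx0 P (Finset.mem_filter.1 hP).1)).trans (hκ i hi))
      have h4 : 0 ≤ ∏ P ∈ Q, x P := Finset.prod_nonneg fun P hP => hx0 P (hQ hP)
      have h5 := mul_le_mul_of_nonneg_left h3 h4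
      refine le_trans ?_ h2
      unfold model
      simp only [he]
      rw [← hε] at h5
      linarith)
    E
  refine h1.trans ?_
  have h6 : (∑ Q ∈ PP.powerset, if ¬ (K < ∑ P ∈ Q, d P) then 0 else model x PP Q)
      = ∑ Q ∈ PP.powerset, if K < ∑ P ∈ Q, d P then model x PP Q else 0 := by
    apply Finset.sum_congr rfl
    intro Q _
    by_cases h : K < ∑ P ∈ Q, d P <;> simp [h]
  have hadm : ∀ B ⊆ PP, Adm r t u B → ∑ P ∈ B, d P ≤ K := by
    intro B hB hadm
    refine le_trans ?_ hK
    rw [← Finset.sum_fiberwise_of_maps_to (g := r) (t := Finset.range t)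
      (fun P hP => Finset.mem_range.2 (hr P (hB hP)))]
    apply Finset.sum_le_sum
    intro i hi
    refine (Finset.sum_le_card_nsmul _ _ (D i) ?_).trans ?_
    · intro P hP
      rw [Finset.mem_filter] at hP
      have := hd P (hB hP.1)
      rwa [hP.2] at this
    · rw [smul_eq_mul]
      exact Nat.mul_le_mul_right _ (hadm i (Finset.mem_range.1 hi))
  have h7 : (∑ Q ∈ PP.powerset, if ¬ (K < ∑ P ∈ Q, d P) then e Q else 0) ≤
      (t + 1) * ∑ H ∈ PP.powerset, (if ∑ P ∈ H, d P ≤ 2 * K then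
            2 ^ H.card * |hit W A H - ∏ P ∈ H, x P| else 0) := by
    have h8 : ∀ Q ∈ PP.powerset, (if ¬ (K < ∑ P ∈ Q, d P) then e Q else 0) ≤
        (t + 1) * ∑ B ∈ (PP \ Q).powerset,
          (fun H : Finset α => if ∑ P ∈ H, d P ≤ 2 * K then
            |hit W A H - ∏ P ∈ H, x P| else 0) (Q ∪ B) := by
      intro Q hQ
      have hnn : 0 ≤ (t + 1) * ∑ B ∈ (PP \ Q).powerset,
          (fun H : Finset α => if ∑ P ∈ H, d P ≤ 2 * K then
            |hit W A H - ∏ P ∈ H, x P| else 0) (Q ∪ B) := by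
        apply mul_nonneg (by positivity)
        apply Finset.sum_nonneg
        intro B _
        simp only
        split_ifs
        · exact abs_nonneg _
        · exact le_rfl
      by_cases hQK : K < ∑ P ∈ Q, d P
      · rw [if_neg (not_not.2 hQK)]
        exact hnn
      · rw [if_pos hQK]
        apply mul_le_mul_of_nonneg_left _ (by positivity)
        apply Finset.sum_le_sum
        intro B hB
        rw [Finset.mem_powerset] at hB
        beta_reduce
        split_ifs with h9 h10 h10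
        · exact le_rfl
        · exfalso
          apply h10
          have h11 := hadm B (hB.trans Finset.sdiff_subset) h9
          have h12 : Disjoint Q B := by
            rw [Finset.disjoint_left]
            intro a ha hb
            exact (Finset.mem_sdiff.1 (hB hb)).2 ha
          rw [Finset.sum_union h12]
          omega
        · exact abs_nonneg _
        · exact le_rfl
    refine (Finset.sum_le_sum h8).trans (le_of_eq ?_)
    rw [← Finset.mul_sum, sum_pairs PP (fun H : Finset α => if ∑ P ∈ H, d P ≤ 2 * K then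
            |hit W A H - ∏ P ∈ H, x P| else 0)]
    congr 1
    apply Finset.sum_congr rfl
    intro H _
    split_ifs <;> simp
  rw [h6]
  linarith

end prob2

end Pool.Agent.MP0a1886
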