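import Pool.Agent.MP0a1886.Irr
import Mathlib.Algebra.MonoidAlgebra.Defs

/-! The convolution algebra of polynomials over `F_p` for MP_0a1886_pr (near-uniform laws). -/

set_option autoImplicit false
set_option linter.unusedSectionVars false
open Finset Polynomial

namespace Pool.Agent.MP0a1886

variable {p : ℕ} [hp : Fact p.Prime]

/-- formal real combinations of polynomials over `F_p`; the product is the convolution -/
abbrev PA (p : ℕ) : Type := MonoidAlgebra ℝ (ZMod p)[X]

/-- the sum of all monic polynomials of degree `k` -/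
noncomputable def uno (p : ℕ) [Fact p.Prime] (k : ℕ) : PA p :=
  ∑ f ∈ mon p k, MonoidAlgebra.single f 1

/-- all irreducible factors of `f` have degree in `A` -/
def Fac (A : ℕ → Prop) (f : (ZMod p)[X]) : Prop :=
  ∀ P : (ZMod p)[X], Irreducible P → P ∣ f → A P.natDegree

open Classical in
/-- the sum of all monic polynomials of degree `k` with all irreducible factors of degree in `A` -/
noncomputable def smo (p : ℕ) [Fact p.Prime] (A : ℕ → Prop) (k : ℕ) : PA p :=
  ∑ f ∈ (mon p k).filter (Fac A), MonoidAlgebra.single f 1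

open Classical in
/-- the von Mangoldt function on degree `k`, restricted to powers of irreducible polynomials with
degree in `A` -/
noncomputable def Lam (p : ℕ) [Fact p.Prime] (A : ℕ → Prop) (k : ℕ) : PA p :=
  ∑ d ∈ k.divisors.filter A, ∑ P ∈ irr p d, MonoidAlgebra.single (P ^ (k / d)) (d : ℝ)

/-- the Möbius function on degree `k`, restricted to products of irreducible polynomials with
degree in `A`, defined by its recursion -/
noncomputable def mu (p : ℕ) [Fact p.Prime] (A : ℕ → Prop) : ℕ → PA p
  | 0 => 1
  | (k + 1) => (-(1 / ((k : ℝ) + 1))) • ∑ j : Fin (k + 1), Lam p A (j + 1) * mu p A (k - j)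

/-- `S` is supported on monic polynomials of degree `k`, with coefficients bounded by `M` -/
def Bd (k : ℕ) (M : ℝ) (S : PA p) : Prop :=
  (∀ f, S.coeff f ≠ 0 → f ∈ mon p k) ∧ ∀ f, |S.coeff f| ≤ M

/-- every monic polynomial of degree at most `n` has at most `T` monic divisors -/
def DivB (p n : ℕ) (T : ℝ) : Prop :=
  ∀ f : (ZMod p)[X], f.Monic → f.natDegree ≤ n → ∀ D : Finset (ZMod p)[X],
    (∀ g ∈ D, g.Monic ∧ g ∣ f) → (D.card : ℝ) ≤ T

/-- the sum of the coefficients -/
noncomputable def tot (p : ℕ) : PA p →+* ℝ :=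
  (MonoidAlgebra.lift ℝ ℝ (ZMod p)[X] (1 : (ZMod p)[X] →* ℝ)).toRingHom

end Pool.Agent.MP0a1886
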