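import Mathlib

/-! Permutations all of whose cycles have length at most `m`: the recursion for their proportion,
for MP_0a1886_pr. -/

set_option autoImplicit false
open Finset

namespace Pool.Agent.MP0a1886

/-- the proportion of permutations of `n` points with all cycles of length at most `m` -/
noncomputable def cperm (n m : ℕ) : ℝ :=
  ((Finset.univ.filter (fun σ : Equiv.Perm (Fin n) => ∀ k ∈ σ.cycleType, k ≤ m)).card : ℝ)
    / (n.factorial : ℝ)

/-- the number of permutations of `α` with all cycles of length at most `m` -/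
def NP (α : Type) [Fintype α] [DecidableEq α] (m : ℕ) : ℕ :=
  (Finset.univ.filter (fun σ : Equiv.Perm α => ∀ k ∈ σ.cycleType, k ≤ m)).card

lemma NP_le {α β : Type} [Fintype α] [DecidableEq α] [Fintype β] [DecidableEq β]
    (e : α ≃ β) (m : ℕ) : NP α m ≤ NP β m := by
  unfold NP
  let f : α ≃ Subtype (fun _ : β => True) := e.trans (Equiv.subtypeUnivEquiv (fun _ => trivial)).symm
  apply Finset.card_le_card_of_injOn (fun σ => σ.extendDomain f)
  · intro σ hσ
    simp only [Finset.coe_filter, Finset.mem_univ, true_and, Set.mem_ofPred_eq] at hσ ⊢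
    rw [Equiv.Perm.cycleType_extendDomain]
    exact hσ
  · intro σ _ τ _ h
    exact Equiv.Perm.extendDomainHom_injective f h

lemma NP_congr {α β : Type} [Fintype α] [DecidableEq α] [Fintype β] [DecidableEq β]
    (e : α ≃ β) (m : ℕ) : NP α m = NP β m :=
  le_antisymm (NP_le e m) (NP_le e.symm m)

lemma NP_eq_fin {α : Type} [Fintype α] [DecidableEq α] {n : ℕ} (h : Fintype.card α = n) (m : ℕ) :
    NP α m = NP (Fin n) m :=
  NP_congr (Fintype.equivFinOfCardEq h) m

/-- the permutations with a given cycle `c` -/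
lemma card_cycle {n m : ℕ} (c : Equiv.Perm (Fin n)) (hc : c.IsCycle) (hm : c.support.card ≤ m) :
    (Finset.univ.filter (fun σ : Equiv.Perm (Fin n) => (∀ k ∈ σ.cycleType, k ≤ m) ∧
      c ∈ σ.cycleFactorsFinset)).card = NP (Fin (n - c.support.card)) m := by
  classical
  have hcard : Fintype.card {x // x ∉ c.support} = n - c.support.card := by
    rw [Fintype.card_subtype_compl (p := fun x => x ∈ c.support), Fintype.card_fin,
      Fintype.card_coe]
  rw [← NP_eq_fin hcard m]
  unfold NP
  symm
  have hdis : ∀ τ : Equiv.Perm {x // x ∉ c.support},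
      Equiv.Perm.Disjoint c (Equiv.Perm.ofSubtype τ) := by
    intro τ x
    by_cases hx : x ∈ c.support
    · right
      exact Equiv.Perm.ofSubtype_apply_of_not_mem τ (by simpa using hx)
    · left
      simpa using hx
  apply Finset.card_bij (fun τ _ => c * Equiv.Perm.ofSubtype τ)
  · intro τ hτ
    simp only [Finset.mem_filter, Finset.mem_univ, true_and] at hτ ⊢
    constructor
    · rw [(hdis τ).cycleType_mul, hc.cycleType, Equiv.Perm.cycleType_ofSubtype]
      intro k hk
      rw [Multiset.mem_add, Multiset.mem_singleton] at hk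
      rcases hk with rfl | hk
      · exact hm
      · exact hτ k hk
    · rw [(hdis τ).cycleFactorsFinset_mul_eq_union, hc.cycleFactorsFinset_eq_singleton]
      simp
  · intro τ _ τ' _ h
    exact Equiv.Perm.ofSubtype_injective (mul_left_cancel h)
  · intro σ hσ
    simp only [Finset.mem_filter, Finset.mem_univ, true_and] at hσ
    obtain ⟨hσ1, hσ2⟩ := hσ
    have hd := Equiv.Perm.disjoint_mul_inv_of_mem_cycleFactorsFinset hσ2
    have hcomm : σ * c⁻¹ * c = c * (σ * c⁻¹) := hd.commute
    have h2 : ∀ x, (σ * c⁻¹) x ≠ x → x ∉ c.support := by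
      intro x hx hx'
      rcases hd x with h | h
      · exact hx h
      · exact (Equiv.Perm.mem_support.mp hx') h
    have h1 : ∀ x, ((σ * c⁻¹) x ∉ c.support ↔ x ∉ c.support) := by
      intro x
      by_cases hx : (σ * c⁻¹) x = x
      · rw [hx]
      · constructor
        · intro _
          exact h2 x hx
        · intro _
          apply h2
          intro h
          exact hx ((σ * c⁻¹).injective h)
    refine ⟨(σ * c⁻¹).subtypePerm h1, ?_, ?_⟩
    · simp only [Finset.mem_filter, Finset.mem_univ, true_and]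
      intro k hk
      apply hσ1
      have h3 : σ = (σ * c⁻¹) * c := by group
      rw [h3, hd.cycleType_mul, Multiset.mem_add]
      left
      rw [← Equiv.Perm.ofSubtype_subtypePerm h1 h2, Equiv.Perm.cycleType_ofSubtype]
      exact hk
    · rw [Equiv.Perm.ofSubtype_subtypePerm h1 h2, ← hcomm]
      group

/-- the permutations with a given fixed point -/
lemma card_fixed {n m : ℕ} (x : Fin n) :
    (Finset.univ.filter (fun σ : Equiv.Perm (Fin n) => (∀ k ∈ σ.cycleType, k ≤ m) ∧
      σ x = x)).card = NP (Fin (n - 1)) m := by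
  classical
  have hcard : Fintype.card {y : Fin n // y ≠ x} = n - 1 := by
    rw [Fintype.card_subtype_compl, Fintype.card_fin]
    simp
  rw [← NP_eq_fin hcard m]
  unfold NP
  symm
  apply Finset.card_bij (fun τ _ => Equiv.Perm.ofSubtype τ)
  · intro τ hτ
    simp only [Finset.mem_filter, Finset.mem_univ, true_and] at hτ ⊢
    constructor
    · rw [Equiv.Perm.cycleType_ofSubtype]
      exact hτ
    · exact Equiv.Perm.ofSubtype_apply_of_not_mem τ (by simp)
  · intro τ _ τ' _ h
    exact Equiv.Perm.ofSubtype_injective h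
  · intro σ hσ
    simp only [Finset.mem_filter, Finset.mem_univ, true_and] at hσ
    obtain ⟨hσ1, hσ2⟩ := hσ
    have h2 : ∀ y, σ y ≠ y → y ≠ x := by
      rintro y hy rfl
      exact hy hσ2
    have h1 : ∀ y, (σ y ≠ x ↔ y ≠ x) := by
      intro y
      rw [not_iff_not]
      constructor
      · intro h
        exact σ.injective (h.trans hσ2.symm)
      · rintro rfl
        exact hσ2
    refine ⟨σ.subtypePerm h1, ?_, ?_⟩
    · simp only [Finset.mem_filter, Finset.mem_univ, true_and]
      intro k hk
      apply hσ1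
      rw [← Equiv.Perm.ofSubtype_subtypePerm h1 h2, Equiv.Perm.cycleType_ofSubtype]
      exact hk
    · exact Equiv.Perm.ofSubtype_subtypePerm h1 h2

lemma isCycle_card_iff {n ℓ : ℕ} (c : Equiv.Perm (Fin n)) :
    c.cycleType = {ℓ} ↔ c.IsCycle ∧ c.support.card = ℓ := by
  constructor
  · intro h
    have h1 : c.IsCycle := by
      rw [← Equiv.Perm.card_cycleType_eq_one, h]
      simp
    refine ⟨h1, ?_⟩
    rw [h1.cycleType] at h
    simpa using h
  · rintro ⟨h1, h2⟩
    rw [h1.cycleType, h2]

lemma sum_support (n m : ℕ) :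
    ∑ σ ∈ Finset.univ.filter (fun σ : Equiv.Perm (Fin n) => ∀ k ∈ σ.cycleType, k ≤ m),
      σ.support.card = ∑ ℓ ∈ Finset.Icc 2 (min m n),
        (Finset.univ.filter (fun c : Equiv.Perm (Fin n) => c.cycleType = {ℓ})).card *
          (ℓ * NP (Fin (n - ℓ)) m) := by
  classical
  have h1 : ∀ σ : Equiv.Perm (Fin n), σ.support.card =
      ∑ c : Equiv.Perm (Fin n), if c ∈ σ.cycleFactorsFinset then c.support.card else 0 := by
    intro σ
    rw [← Equiv.Perm.sum_cycleType, Equiv.Perm.cycleType_def, Finset.sum_ite_mem,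
      Finset.univ_inter]
    rfl
  rw [Finset.sum_congr rfl (fun σ _ => h1 σ), Finset.sum_comm]
  have h2 : ∀ c : Equiv.Perm (Fin n),
      (∑ σ ∈ Finset.univ.filter (fun σ : Equiv.Perm (Fin n) => ∀ k ∈ σ.cycleType, k ≤ m),
        if c ∈ σ.cycleFactorsFinset then c.support.card else 0) =
      if c.IsCycle ∧ c.support.card ≤ m then c.support.card * NP (Fin (n - c.support.card)) m
        else 0 := by
    intro c
    rw [← Finset.sum_filter, Finset.filter_filter, Finset.sum_const, smul_eq_mul]
    split_ifs with h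
    · rw [card_cycle c h.1 h.2, mul_comm]
    · rw [Finset.card_eq_zero.mpr, zero_mul]
      rw [Finset.filter_eq_empty_iff]
      rintro σ _ ⟨h3, h4⟩
      apply h
      have h5 := (Equiv.Perm.mem_cycleFactorsFinset_iff.mp h4).1
      refine ⟨h5, h3 _ ?_⟩
      rw [Equiv.Perm.cycleType_def]
      exact Multiset.mem_map.mpr ⟨c, h4, rfl⟩
  rw [Finset.sum_congr rfl (fun c _ => h2 c), ← Finset.sum_filter]
  rw [← Finset.sum_fiberwise_of_maps_to (g := fun c : Equiv.Perm (Fin n) => c.support.card)
    (t := Finset.Icc 2 (min m n))]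
  · apply Finset.sum_congr rfl
    intro ℓ hℓ
    rw [Finset.mem_Icc] at hℓ
    rw [Finset.filter_filter]
    have h3 : (Finset.univ.filter (fun c : Equiv.Perm (Fin n) =>
        (c.IsCycle ∧ c.support.card ≤ m) ∧ c.support.card = ℓ)) =
        Finset.univ.filter (fun c : Equiv.Perm (Fin n) => c.cycleType = {ℓ}) := by
      ext c
      simp only [Finset.mem_filter, Finset.mem_univ, true_and]
      rw [isCycle_card_iff]
      constructor
      · rintro ⟨⟨a, _⟩, b⟩
        exact ⟨a, b⟩
      · rintro ⟨a, b⟩
        refine ⟨⟨a, ?_⟩, b⟩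
        rw [b]
        exact hℓ.2.trans (min_le_left _ _)
    rw [h3]
    rw [Finset.sum_congr rfl (g := fun _ => ℓ * NP (Fin (n - ℓ)) m)]
    · rw [Finset.sum_const, smul_eq_mul]
    · intro c hc
      simp only [Finset.mem_filter, Finset.mem_univ, true_and] at hc
      rw [((isCycle_card_iff c).mp hc).2]
  · intro c hc
    simp only [Finset.mem_filter, Finset.mem_univ, true_and] at hc
    rw [Finset.mem_Icc]
    refine ⟨hc.1.two_le_card_support, le_min hc.2 ?_⟩
    have := Finset.card_le_univ c.support
    simpa using this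

lemma sum_fixed (n m : ℕ) :
    ∑ σ ∈ Finset.univ.filter (fun σ : Equiv.Perm (Fin n) => ∀ k ∈ σ.cycleType, k ≤ m),
      (n - σ.support.card) = n * NP (Fin (n - 1)) m := by
  classical
  have h1 : ∀ σ : Equiv.Perm (Fin n), n - σ.support.card =
      ∑ x : Fin n, if σ x = x then 1 else 0 := by
    intro σ
    rw [Finset.sum_boole, Nat.cast_id]
    have h2 : (Finset.univ.filter (fun x => σ x = x)) = (σ.support)ᶜ := by
      ext x
      simp
    rw [h2, Finset.card_compl, Fintype.card_fin]
  rw [Finset.sum_congr rfl (fun σ _ => h1 σ), Finset.sum_comm]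
  rw [Finset.sum_congr rfl (g := fun _ => NP (Fin (n - 1)) m)]
  · simp
  · intro x _
    rw [← Finset.sum_filter, Finset.filter_filter, Finset.sum_const, smul_eq_mul, mul_one]
    exact card_fixed x

lemma NP_rec (n m : ℕ) :
    n * NP (Fin n) m = n * NP (Fin (n - 1)) m + ∑ ℓ ∈ Finset.Icc 2 (min m n),
        (Finset.univ.filter (fun c : Equiv.Perm (Fin n) => c.cycleType = {ℓ})).card *
          (ℓ * NP (Fin (n - ℓ)) m) := by
  rw [← sum_fixed, ← sum_support, ← Finset.sum_add_distrib]
  rw [Finset.sum_congr rfl (g := fun _ => n)]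
  · rw [Finset.sum_const, smul_eq_mul, mul_comm]
    rfl
  · intro σ _
    have := Finset.card_le_univ σ.support
    rw [Fintype.card_fin] at this
    omega

lemma cperm_eq (n m : ℕ) : cperm n m = (NP (Fin n) m : ℝ) / (n.factorial : ℝ) := rfl

theorem cperm_rec (n m : ℕ) (hn : 1 ≤ n) (hm : 1 ≤ m) :
    (n : ℝ) * cperm n m = ∑ i ∈ Finset.range (min m n), cperm (n - 1 - i) m := by
  have h1 := NP_rec n m
  have hf : (n.factorial : ℝ) ≠ 0 := by exact_mod_cast n.factorial_ne_zero
  have h2 : (n : ℝ) * cperm n m = ((n * NP (Fin n) m : ℕ) : ℝ) / n.factorial := by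
    rw [cperm_eq]
    push_cast
    ring
  have hmn : 1 ≤ min m n := le_min hm hn
  obtain ⟨q, hq⟩ : ∃ q, min m n = q + 1 := ⟨min m n - 1, by omega⟩
  rw [h2, h1, hq, Finset.sum_range_succ', Nat.cast_add, add_div, add_comm]
  congr 1
  · rw [Nat.cast_sum, Finset.sum_div]
    rw [Finset.range_eq_Ico, Finset.sum_Ico_add' (fun i => cperm (n - 1 - i) m) 0 q 1]
    have h3 : Finset.Icc 2 (q + 1) = Finset.Ico 2 (q + 2) := by
      ext x
      simp only [Finset.mem_Icc, Finset.mem_Ico]
      omega
    rw [h3, ← Finset.sum_Ico_add' (fun ℓ => ((((Finset.univ.filter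
      (fun c : Equiv.Perm (Fin n) => c.cycleType = {ℓ})).card * (ℓ * NP (Fin (n - ℓ)) m) : ℕ) : ℝ)
        / (n.factorial : ℝ))) 1 (q + 1) 1]
    apply Finset.sum_congr (by simp)
    intro i hi
    rw [Finset.mem_Ico] at hi
    have hi2 : 2 ≤ i + 1 := by omega
    have hi3 : i + 1 ≤ n := by
      have := min_le_right m n
      omega
    rw [Equiv.Perm.card_of_cycleType_singleton hi2 (by simpa using hi3), Fintype.card_fin,
      cperm_eq]
    have h4 : n - 1 - i = n - (i + 1) := by omega
    rw [h4]
    have h5 : n.choose (i + 1) * (i + 1).factorial * (n - (i + 1)).factorial = n.factorial :=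
      Nat.choose_mul_factorial_mul_factorial hi3
    have h6 : ((n - (i + 1)).factorial : ℝ) ≠ 0 := by
      exact_mod_cast Nat.factorial_ne_zero _
    rw [div_eq_div_iff hf h6, ← h5]
    simp only [Nat.add_sub_cancel]
    rw [Nat.factorial_succ]
    push_cast
    ring
  · rw [cperm_eq]
    obtain ⟨k, rfl⟩ : ∃ k, n = k + 1 := ⟨n - 1, by omega⟩
    simp only [Nat.add_sub_cancel, Nat.sub_zero]
    rw [Nat.factorial_succ]
    have h6 : (k.factorial : ℝ) ≠ 0 := by exact_mod_cast Nat.factorial_ne_zero _
    have h7 : ((k : ℝ) + 1) ≠ 0 := by positivity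
    push_cast
    field_simp

lemma cperm_nonneg (n m : ℕ) : 0 ≤ cperm n m := by
  unfold cperm
  positivity

lemma cperm_le_one (n m : ℕ) : cperm n m ≤ 1 := by
  unfold cperm
  have hf : (0 : ℝ) < (n.factorial : ℝ) := by exact_mod_cast n.factorial_pos
  rw [div_le_one hf]
  have h := Finset.card_filter_le (Finset.univ : Finset (Equiv.Perm (Fin n)))
    (fun σ => ∀ k ∈ σ.cycleType, k ≤ m)
  rw [Finset.card_univ, Fintype.card_perm, Fintype.card_fin] at h
  exact_mod_cast h

lemma cperm_zero (m : ℕ) : cperm 0 m = 1 := by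
  unfold cperm
  have h : (Finset.univ.filter (fun σ : Equiv.Perm (Fin 0) => ∀ k ∈ σ.cycleType, k ≤ m)) =
      Finset.univ := by
    rw [Finset.filter_eq_self]
    intro σ _ k hk
    have h1 : σ = 1 := Subsingleton.elim _ _
    rw [h1, Equiv.Perm.cycleType_one] at hk
    simp at hk
  rw [h, Finset.card_univ, Fintype.card_perm]
  simp

lemma cperm_diff (n m : ℕ) (hm : 1 ≤ m) : |cperm (n + 1) m - cperm n m| ≤ 1 / ((n : ℝ) + 1) := by
  have hn1 : (0 : ℝ) < (n : ℝ) + 1 := by positivity
  rcases Nat.eq_zero_or_pos n with rfl | hn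
  · have h1 := cperm_rec 1 m le_rfl hm
    rw [min_eq_right hm] at h1
    simp only [Finset.sum_range_one, Nat.cast_one, one_mul, Nat.sub_self] at h1
    rw [zero_add, h1, sub_self, abs_zero]
    positivity
  · have h1 := cperm_rec (n + 1) m (by omega) hm
    have h2 := cperm_rec n m hn hm
    have hmin : 1 ≤ min m (n + 1) := le_min hm (by omega)
    obtain ⟨q, hq⟩ : ∃ q, min m (n + 1) = q + 1 := ⟨min m (n + 1) - 1, by omega⟩
    rw [hq, Finset.sum_range_succ'] at h1
    simp only [Nat.add_sub_cancel, Nat.sub_zero] at h1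
    have h3 : ∑ i ∈ Finset.range q, cperm (n - (i + 1)) m =
        ∑ i ∈ Finset.range q, cperm (n - 1 - i) m := by
      apply Finset.sum_congr rfl
      intro i _
      congr 1
      omega
    rw [h3] at h1
    push_cast at h1
    rcases Nat.lt_or_ge n m with hlt | hge
    · have hq' : q = n := by
        have : min m (n + 1) = n + 1 := min_eq_right (by omega)
        omega
      have h4 : min m n = n := min_eq_right hlt.le
      rw [hq'] at h1
      rw [h4] at h2
      have h5 : cperm (n + 1) m = cperm n m := by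
        have : ((n : ℝ) + 1) * cperm (n + 1) m = ((n : ℝ) + 1) * cperm n m := by
          rw [h1, ← h2]
          ring
        exact mul_left_cancel₀ hn1.ne' this
      rw [h5, sub_self, abs_zero]
      positivity
    · have hq' : q + 1 = m := by
        have : min m (n + 1) = m := min_eq_left (by omega)
        omega
      have h4 : min m n = q + 1 := by rw [hq']; exact min_eq_left hge
      rw [h4, Finset.sum_range_succ] at h2
      have h5 : ((n : ℝ) + 1) * (cperm (n + 1) m - cperm n m) = - cperm (n - 1 - q) m := by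
        rw [mul_sub, h1]
        linarith [h2]
      have h6 : cperm (n + 1) m - cperm n m = - cperm (n - 1 - q) m / ((n : ℝ) + 1) := by
        field_simp
        linarith [h5]
      rw [h6, abs_div, abs_neg, abs_of_pos hn1, abs_of_nonneg (cperm_nonneg _ _)]
      exact div_le_div_of_nonneg_right (cperm_le_one _ _) hn1.le

lemma rec_compare (m : ℕ) (hm : 1 ≤ m) (b : ℕ → ℝ) (η : ℝ) (hη : 0 ≤ η) (hb0 : b 0 = 1)
    (hb : ∀ n : ℕ, 1 ≤ n → |(n : ℝ) * b n - ∑ i ∈ Finset.range (min m n), b (n - 1 - i)| ≤ η) :
    ∀ n, |b n - cperm n m| ≤ η := by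
  intro n
  induction n using Nat.strong_induction_on with
  | _ n ih =>
    rcases Nat.eq_zero_or_pos n with rfl | hn
    · rw [hb0, cperm_zero, sub_self, abs_zero]
      exact hη
    · have h1 := cperm_rec n m hn hm
      have h2 := hb n hn
      have hn0 : (0 : ℝ) < n := by exact_mod_cast hn
      have h3 : (n : ℝ) * (b n - cperm n m) = ((n : ℝ) * b n -
          ∑ i ∈ Finset.range (min m n), b (n - 1 - i)) +
          ∑ i ∈ Finset.range (min m n), (b (n - 1 - i) - cperm (n - 1 - i) m) := by
        rw [Finset.sum_sub_distrib, ← h1]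
        ring
      have h4 : |∑ i ∈ Finset.range (min m n), (b (n - 1 - i) - cperm (n - 1 - i) m)| ≤
          ∑ i ∈ Finset.range n, |b (n - 1 - i) - cperm (n - 1 - i) m| := by
        refine (Finset.abs_sum_le_sum_abs _ _).trans ?_
        apply Finset.sum_le_sum_of_subset_of_nonneg
        · intro i hi
          rw [Finset.mem_range] at hi ⊢
          exact lt_of_lt_of_le hi (min_le_right _ _)
        · intro i _ _
          exact abs_nonneg _
      have h5 : ∑ i ∈ Finset.range n, |b (n - 1 - i) - cperm (n - 1 - i) m| ≤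
          ((n : ℝ) - 1) * η := by
        obtain ⟨k, rfl⟩ : ∃ k, n = k + 1 := ⟨n - 1, by omega⟩
        rw [Finset.sum_range_succ]
        have h6 : k + 1 - 1 - k = 0 := by omega
        rw [h6, hb0, cperm_zero, sub_self, abs_zero, add_zero]
        have h7 : ∑ i ∈ Finset.range k, |b (k + 1 - 1 - i) - cperm (k + 1 - 1 - i) m| ≤
            ∑ _i ∈ Finset.range k, η := by
          apply Finset.sum_le_sum
          intro i _
          exact ih _ (by omega)
        refine h7.trans ?_
        rw [Finset.sum_const, Finset.card_range, nsmul_eq_mul]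
        push_cast
        linarith
      have h6 : (n : ℝ) * |b n - cperm n m| ≤ n * η := by
        have h7 : (n : ℝ) * |b n - cperm n m| = |(n : ℝ) * (b n - cperm n m)| := by
          rw [abs_mul, abs_of_pos hn0]
        rw [h7, h3]
        refine (abs_add_le _ _).trans ?_
        linarith
      exact le_of_mul_le_mul_left h6 hn0

end Pool.Agent.MP0a1886
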