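import Pool.Agent.MP0a1886.Alg
import Pool.Agent.MP0a1886.Perm
import Mathlib

/-! The convolution algebra of polynomials over `F_p`: the identities of Chebyshev and Vaughan,
for MP_0a1886_pr (near-uniform laws). -/

set_option autoImplicit false
set_option linter.unusedSectionVars false
open Finset Polynomial

namespace Pool.Agent.MP0a1886

variable {p : ℕ} [hp : Fact p.Prime]

/-! ### Basics -/

lemma coeff_single_mul_mul {g : (ZMod p)[X]} (hg : g ≠ 0) (h : (ZMod p)[X]) (c : ℝ) (S : PA p) :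
    (MonoidAlgebra.single g c * S).coeff (g * h) = c * S.coeff h :=
  MonoidAlgebra.coeff_single_mul_eq_mul_coeff h (fun _ _ => mul_right_inj' hg)

lemma coeff_single_mul_of_not_dvd {g f : (ZMod p)[X]} (hgf : ¬ g ∣ f) (c : ℝ) (S : PA p) :
    (MonoidAlgebra.single g c * S).coeff f = 0 :=
  MonoidAlgebra.coeff_single_mul_of_forall_mul_ne _ _ (fun d h => hgf ⟨d, h.symm⟩)

open Classical in
/-- (1) the coefficients of a translate -/
lemma coeff_single_mul' {g : (ZMod p)[X]} (hg : g.Monic) (f : (ZMod p)[X]) (c : ℝ) (S : PA p) :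
    (MonoidAlgebra.single g c * S).coeff f = if g ∣ f then c * S.coeff (f /ₘ g) else 0 := by
  split_ifs with h
  · obtain ⟨h, rfl⟩ := h
    rw [coeff_single_mul_mul hg.ne_zero, Polynomial.mul_divByMonic_cancel_left _ hg]
  · exact coeff_single_mul_of_not_dvd h c S

lemma mul_mem_mon {a b : ℕ} {f g : (ZMod p)[X]} (hf : f ∈ mon p a) (hg : g ∈ mon p b) :
    f * g ∈ mon p (a + b) := by
  rw [mem_mon] at hf hg ⊢
  refine ⟨hf.1.mul hg.1, ?_⟩
  rw [hf.1.natDegree_mul hg.1, hf.2, hg.2]

lemma mem_mon_of_mul {a n : ℕ} {f g : (ZMod p)[X]} (hf : f ∈ mon p a) (hg : f * g ∈ mon p n) :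
    a ≤ n ∧ g ∈ mon p (n - a) := by
  rw [mem_mon] at hf hg
  have hgm : g.Monic := hf.1.of_mul_monic_left hg.1
  have h1 := hg.2
  rw [hf.1.natDegree_mul hgm, hf.2] at h1
  refine ⟨by omega, ?_⟩
  rw [mem_mon]
  exact ⟨hgm, by omega⟩

lemma pow_mem_mon {d : ℕ} {P : (ZMod p)[X]} (hP : P ∈ irr p d) (i : ℕ) : P ^ i ∈ mon p (i * d) := by
  rw [mem_irr] at hP
  rw [mem_mon]
  refine ⟨hP.1.pow i, ?_⟩
  rw [hP.1.natDegree_pow, hP.2.1]

lemma irr_pos {d : ℕ} {P : (ZMod p)[X]} (hP : P ∈ irr p d) : 0 < d := by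
  rw [mem_irr] at hP
  rw [← hP.2.1]
  exact hP.2.2.natDegree_pos

lemma Fac.mul {A : ℕ → Prop} {f g : (ZMod p)[X]} (hf : Fac A f) (hg : Fac A g) :
    Fac A (f * g) := by
  intro P hP hd
  rcases hP.prime.dvd_or_dvd hd with h | h
  · exact hf P hP h
  · exact hg P hP h

lemma Fac.of_dvd {A : ℕ → Prop} {f g : (ZMod p)[X]} (hf : Fac A f) (hg : g ∣ f) :
    Fac A g := fun P hP hd => hf P hP (hd.trans hg)

lemma Fac_pow {A : ℕ → Prop} {d : ℕ} (hA : A d) {P : (ZMod p)[X]} (hP : P ∈ irr p d) (i : ℕ) :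
    Fac A (P ^ i) := by
  intro Q hQ hd
  rw [mem_irr] at hP
  have h1 : Q ∣ P := hQ.prime.dvd_of_dvd_pow hd
  have h2 : Associated Q P := hQ.associated_of_dvd hP.2.2 h1
  have h3 : Q.natDegree = P.natDegree := Polynomial.natDegree_eq_of_degree_eq
    (Polynomial.degree_eq_degree_of_associated h2)
  rw [h3, hP.2.1]
  exact hA

lemma Fac_one {A : ℕ → Prop} : Fac A (1 : (ZMod p)[X]) := by
  intro Q hQ hd
  exact absurd (isUnit_of_dvd_one hd) hQ.not_isUnit

open Classical in
lemma coeff_smo (A : ℕ → Prop) (k : ℕ) (f : (ZMod p)[X]) :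
    (smo p A k).coeff f = if f ∈ mon p k ∧ Fac A f then 1 else 0 := by
  unfold smo
  rw [MonoidAlgebra.coeff_sum, Finsupp.finsetSum_apply]
  simp only [MonoidAlgebra.coeff_single, Finsupp.single_apply, Finset.sum_ite_eq',
    Finset.mem_filter]

open Classical in
lemma coeff_uno (k : ℕ) (f : (ZMod p)[X]) :
    (uno p k).coeff f = if f ∈ mon p k then 1 else 0 := by
  unfold uno
  rw [MonoidAlgebra.coeff_sum, Finsupp.finsetSum_apply]
  simp only [MonoidAlgebra.coeff_single, Finsupp.single_apply, Finset.sum_ite_eq']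

lemma smo_true (n : ℕ) : smo p (fun _ => True) n = uno p n := by
  classical
  rw [← MonoidAlgebra.coeff_inj]
  ext f
  rw [coeff_smo, coeff_uno]
  have h : Fac (fun _ => True) f := fun _ _ _ => trivial
  simp only [h, and_true]

lemma mon_zero : mon p 0 = {1} := by
  ext f
  rw [mem_mon, Finset.mem_singleton]
  constructor
  · rintro ⟨h1, h2⟩
    exact Polynomial.eq_one_of_monic_natDegree_zero h1 h2
  · rintro rfl
    exact ⟨Polynomial.monic_one, Polynomial.natDegree_one⟩

lemma smo_zero (A : ℕ → Prop) : smo p A 0 = 1 := by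
  classical
  rw [← MonoidAlgebra.coeff_inj]
  ext f
  rw [coeff_smo, MonoidAlgebra.one_def, MonoidAlgebra.coeff_single, Finsupp.single_apply]
  by_cases hf : f = 1
  · rw [if_pos ⟨by rw [mon_zero, Finset.mem_singleton]; exact hf, hf ▸ Fac_one⟩, if_pos hf.symm]
  · rw [if_neg (fun h => hf (by have := h.1; rwa [mon_zero, Finset.mem_singleton] at this)),
      if_neg (fun h => hf h.symm)]

lemma Lam_zero (A : ℕ → Prop) : Lam p A 0 = 0 := by
  classical
  simp [Lam]

/-! ### The identity of Chebyshev -/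

lemma pow_dvd_iff {f P : (ZMod p)[X]} (hf : f ≠ 0) (hP : Irreducible P) (hm : P.Monic) (i : ℕ) :
    P ^ i ∣ f ↔ i ≤ (UniqueFactorizationMonoid.normalizedFactors f).count P := by
  rw [pow_dvd_iff_le_emultiplicity,
    UniqueFactorizationMonoid.emultiplicity_eq_count_normalizedFactors hP hf, hm.normalize_eq_self]
  exact Nat.cast_le

lemma natDegree_eq_sum {f : (ZMod p)[X]} (hf : f ≠ 0) :
    f.natDegree = ∑ P ∈ (UniqueFactorizationMonoid.normalizedFactors f).toFinset,
      (UniqueFactorizationMonoid.normalizedFactors f).count P * P.natDegree := by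
  have hprod := Polynomial.leadingCoeff_mul_prod_normalizedFactors f
  have hlc : f.leadingCoeff ≠ 0 := Polynomial.leadingCoeff_ne_zero.2 hf
  have h1 : f.natDegree
      = ((UniqueFactorizationMonoid.normalizedFactors f).map Polynomial.natDegree).sum := by
    conv_lhs => rw [← hprod]
    rw [Polynomial.natDegree_C_mul hlc, Polynomial.natDegree_multiset_prod]
    intro h0
    exact UniqueFactorizationMonoid.zero_notMem_normalizedFactors f h0
  rw [h1, Finset.sum_multiset_map_count]
  simp only [smul_eq_mul]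

lemma count_sum {f : (ZMod p)[X]} {n : ℕ} (hf : f ∈ mon p n) (A : ℕ → Prop) [DecidablePred A]
    (hA : Fac A f) [DecidablePred (fun g => g ∣ f)] :
    ∑ j ∈ range (n + 1), ∑ d ∈ j.divisors.filter A, ∑ P ∈ irr p d,
      (if P ^ (j / d) ∣ f then (d : ℝ) else 0) = n := by
  classical
  rw [mem_mon] at hf
  have hf0 := hf.1.ne_zero
  set s := UniqueFactorizationMonoid.normalizedFactors f with hs
  have hmem : ∀ P, P ∈ s.toFinset ↔ Irreducible P ∧ P.Monic ∧ P ∣ f := by
    intro P
    rw [Multiset.mem_toFinset, Polynomial.mem_normalizedFactors_iff hf0]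
  have h1 : (n : ℝ) = ∑ P ∈ s.toFinset, ∑ _i ∈ Finset.Icc 1 (s.count P), (P.natDegree : ℝ) := by
    rw [← hf.2, natDegree_eq_sum hf0, ← hs]
    push_cast
    apply Finset.sum_congr rfl
    intro P _
    rw [Finset.sum_const, Nat.card_Icc, nsmul_eq_mul]
    simp
  rw [h1]
  simp_rw [Finset.sum_sigma']
  rw [← Finset.sum_filter]
  symm
  refine Finset.sum_bij'
    (i := fun x _ => ⟨x.2 * x.1.natDegree, ⟨x.1.natDegree, x.1⟩⟩)
    (j := fun y _ => ⟨y.2.2, y.1 / y.2.1⟩) ?_ ?_ ?_ ?_ ?_
  · rintro ⟨P, i⟩ hx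
    rw [Finset.mem_sigma, hmem, Finset.mem_Icc] at hx
    obtain ⟨⟨h2, h3, h4⟩, h5, h6⟩ := hx
    have hd : 0 < P.natDegree := h2.natDegree_pos
    simp only at h5 h6
    have h7 : P ^ i ∣ f := (pow_dvd_iff hf0 h2 h3 i).mpr h6
    have h8 : (P ^ i).natDegree ≤ f.natDegree := Polynomial.natDegree_le_of_dvd h7 hf0
    rw [h3.natDegree_pow, hf.2] at h8
    simp only [Finset.mem_filter, Finset.mem_sigma, Finset.mem_range, Nat.mem_divisors]
    refine ⟨⟨Nat.lt_succ_of_le h8, ⟨⟨dvd_mul_left _ _, by positivity⟩, hA P h2 h4⟩, ?_⟩, ?_⟩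
    · rw [mem_irr]
      exact ⟨h3, rfl, h2⟩
    · rw [Nat.mul_div_cancel _ hd]
      exact h7
  · rintro ⟨j, d, P⟩ hy
    simp only [Finset.mem_filter, Finset.mem_sigma, Finset.mem_range, Nat.mem_divisors] at hy
    obtain ⟨⟨h2, ⟨⟨h3, h4⟩, h5⟩, h6⟩, h7⟩ := hy
    have hd := irr_pos h6
    rw [mem_irr] at h6
    have h8 : 0 < j / d := Nat.div_pos (Nat.le_of_dvd (Nat.pos_of_ne_zero h4) h3) hd
    rw [Finset.mem_sigma, hmem, Finset.mem_Icc]
    refine ⟨⟨h6.2.2, h6.1, (dvd_pow_self P h8.ne').trans h7⟩, h8, ?_⟩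
    exact (pow_dvd_iff hf0 h6.2.2 h6.1 _).mp h7
  · rintro ⟨P, i⟩ hx
    rw [Finset.mem_sigma, hmem, Finset.mem_Icc] at hx
    have hd : 0 < P.natDegree := hx.1.1.natDegree_pos
    simp only [Nat.mul_div_cancel _ hd]
  · rintro ⟨j, d, P⟩ hy
    simp only [Finset.mem_filter, Finset.mem_sigma, Finset.mem_range, Nat.mem_divisors] at hy
    obtain ⟨⟨h2, ⟨⟨h3, h4⟩, h5⟩, h6⟩, h7⟩ := hy
    rw [mem_irr] at h6
    have h8 := h6.2.1
    subst h8
    simp only [Nat.div_mul_cancel h3]
  · rintro ⟨P, i⟩ hx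
    rfl

/-- (2) the identity of Chebyshev -/
theorem smo_rec (A : ℕ → Prop) (n : ℕ) :
    (n : ℝ) • smo p A n = ∑ j ∈ range (n + 1), Lam p A j * smo p A (n - j) := by
  classical
  rw [← MonoidAlgebra.coeff_inj]
  ext f
  rw [MonoidAlgebra.coeff_smul_apply, coeff_smo, MonoidAlgebra.coeff_sum,
    Finsupp.finsetSum_apply]
  have h1 : ∀ j ∈ range (n + 1), (Lam p A j * smo p A (n - j)).coeff f =
      ∑ d ∈ j.divisors.filter A, ∑ P ∈ irr p d,
        (if f ∈ mon p n ∧ Fac A f then (if P ^ (j / d) ∣ f then (d : ℝ) else 0) else 0) := by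
    intro j hj
    rw [Finset.mem_range] at hj
    unfold Lam
    rw [Finset.sum_mul, MonoidAlgebra.coeff_sum, Finsupp.finsetSum_apply]
    apply Finset.sum_congr rfl
    intro d hd
    rw [Finset.mem_filter, Nat.mem_divisors] at hd
    rw [Finset.sum_mul, MonoidAlgebra.coeff_sum, Finsupp.finsetSum_apply]
    apply Finset.sum_congr rfl
    intro P hP
    have hPm : P ^ (j / d) ∈ mon p j := by
      have := pow_mem_mon hP (j / d)
      rwa [Nat.div_mul_cancel hd.1.1] at this
    by_cases h2 : P ^ (j / d) ∣ f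
    · obtain ⟨h, rfl⟩ := h2
      rw [coeff_single_mul_mul (mem_mon.mp hPm).1.ne_zero, coeff_smo,
        if_pos (dvd_mul_right _ _)]
      by_cases h3 : P ^ (j / d) * h ∈ mon p n ∧ Fac A (P ^ (j / d) * h)
      · rw [if_pos h3, if_pos, mul_one]
        exact ⟨(mem_mon_of_mul hPm h3.1).2, h3.2.of_dvd (dvd_mul_left _ _)⟩
      · rw [if_neg h3, if_neg, mul_zero]
        rintro ⟨h4, h5⟩
        apply h3
        refine ⟨?_, (Fac_pow hd.2 hP _).mul h5⟩
        have := mul_mem_mon hPm h4
        rwa [Nat.add_sub_cancel' (by omega)] at this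
    · rw [coeff_single_mul_of_not_dvd h2, if_neg h2, ite_self]
  rw [Finset.sum_congr rfl h1]
  by_cases hf : f ∈ mon p n ∧ Fac A f
  · simp only [if_pos hf]
    rw [count_sum hf.1 A hf.2, smul_eq_mul, mul_one]
  · simp only [if_neg hf]
    simp

/-! ### The Möbius function -/

theorem mu_rec (A : ℕ → Prop) (k : ℕ) :
    (k : ℝ) • mu p A k = - ∑ j ∈ range (k + 1), Lam p A j * mu p A (k - j) := by
  cases k with
  | zero => simp [Lam_zero]
  | succ k =>
    rw [mu, Finset.sum_range_succ', Lam_zero, zero_mul, add_zero, smul_smul]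
    have h0 : ((k : ℝ) + 1) ≠ 0 := by positivity
    have h1 : (((k + 1 : ℕ) : ℝ)) * (-(1 / ((k : ℝ) + 1))) = -1 := by
      push_cast
      field_simp
    rw [h1, neg_smul, one_smul, Finset.sum_range]
    congr 1
    apply Finset.sum_congr rfl
    intro j _
    congr 2
    omega

lemma mu_zero (A : ℕ → Prop) : mu p A 0 = 1 := by rw [mu]

lemma Lam_all (A : ℕ → Prop) (hA : ∀ d, A d) (k : ℕ) : Lam p A k =
    ∑ d ∈ k.divisors, ∑ P ∈ irr p d, MonoidAlgebra.single (P ^ (k / d)) (d : ℝ) := by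
  classical
  unfold Lam
  exact Finset.sum_congr (by ext d; simp [hA]) (fun _ _ => rfl)

lemma Lam_split (A : ℕ → Prop) (j : ℕ) :
    Lam p (fun _ => True) j = Lam p A j + Lam p (fun d => ¬ A d) j := by
  classical
  rw [Lam_all _ (fun _ => trivial)]
  unfold Lam
  rw [← Finset.sum_filter_add_sum_filter_not j.divisors A]
  congr 1
  exact Finset.sum_congr (by ext d; simp) (fun _ _ => rfl)

/-- recursions of the form `n a_n = sum_j L_j a_{n-j}` -/
def Rec (L a : ℕ → PA p) : Prop :=
  ∀ n : ℕ, (n : ℝ) • a n = ∑ j ∈ range (n + 1), L j * a (n - j)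

open PowerSeries in
lemma Rec_iff (L a : ℕ → PA p) :
    Rec L a ↔ (PowerSeries.X : PowerSeries (PA p)) * PowerSeries.derivative (PA p)
      (PowerSeries.mk a) = PowerSeries.mk L * PowerSeries.mk a := by
  have h1 : ∀ n, PowerSeries.coeff n ((PowerSeries.X : PowerSeries (PA p)) *
      PowerSeries.derivative (PA p) (PowerSeries.mk a)) = (n : ℝ) • a n := by
    intro n
    cases n with
    | zero => simp
    | succ n =>
      rw [PowerSeries.coeff_succ_X_mul, PowerSeries.coeff_derivative, PowerSeries.coeff_mk]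
      have h2 : ((n : PA p) + 1) = (((n + 1 : ℕ) : ℝ)) • (1 : PA p) := by
        rw [Nat.cast_smul_eq_nsmul, nsmul_eq_mul, mul_one]
        push_cast
        rfl
      rw [h2, mul_smul_comm, mul_one]
  have h2 : ∀ n, PowerSeries.coeff n (PowerSeries.mk L * PowerSeries.mk a) =
      ∑ j ∈ range (n + 1), L j * a (n - j) := by
    intro n
    rw [PowerSeries.coeff_mul]
    simp only [PowerSeries.coeff_mk]
    rw [Finset.Nat.sum_antidiagonal_eq_sum_range_succ (fun i j => L i * a j)]
  constructor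
  · intro h
    ext n : 1
    rw [h1, h2, h n]
  · intro h n
    rw [← h1, ← h2, h]

lemma Rec.unique {L a b : ℕ → PA p} (hL : L 0 = 0) (ha : Rec L a) (hb : Rec L b)
    (h0 : a 0 = b 0) : a = b := by
  funext n
  induction n using Nat.strong_induction_on with
  | _ n ih =>
    rcases Nat.eq_zero_or_pos n with rfl | hn
    · exact h0
    · have h1 : (n : ℝ) • a n = (n : ℝ) • b n := by
        rw [ha n, hb n]
        apply Finset.sum_congr rfl
        intro j _
        rcases Nat.eq_zero_or_pos j with rfl | hj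
        · rw [hL, zero_mul, zero_mul]
        · rw [ih (n - j) (by omega)]
      have hn0 : (n : ℝ) ≠ 0 := by exact_mod_cast hn.ne'
      have h2 := congrArg (fun x => ((n : ℝ)⁻¹) • x) h1
      simpa only [smul_smul, inv_mul_cancel₀ hn0, one_smul] using h2

lemma rec_smo (A : ℕ → Prop) : Rec (Lam p A) (smo p A) := fun n => smo_rec A n

lemma rec_uno : Rec (Lam p (fun _ => True)) (uno p) := by
  have h := rec_smo (p := p) (fun _ => True)
  have h2 : smo p (fun _ => True) = uno p := funext smo_true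
  rwa [h2] at h

lemma rec_mu (A : ℕ → Prop) : Rec (fun j => - Lam p A j) (mu p A) := by
  intro n
  rw [mu_rec]
  simp only [neg_mul, Finset.sum_neg_distrib]

lemma uno_zero : uno p 0 = 1 := by
  rw [← smo_true, smo_zero]

/-- (4) -/
theorem uno_mu (A : ℕ → Prop) (n : ℕ) :
    ∑ k ∈ range (n + 1), mu p A k * uno p (n - k) = smo p (fun d => ¬ A d) n := by
  set X' : ℕ → PA p := fun n => ∑ k ∈ range (n + 1), mu p A k * uno p (n - k) with hX
  have h1 : PowerSeries.mk X' = PowerSeries.mk (mu p A) * PowerSeries.mk (uno p) := by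
    ext n : 1
    rw [PowerSeries.coeff_mul]
    simp only [PowerSeries.coeff_mk]
    rw [Finset.Nat.sum_antidiagonal_eq_sum_range_succ (fun i j => mu p A i * uno p j)]
  have h2 : Rec (Lam p (fun d => ¬ A d)) X' := by
    rw [Rec_iff, h1, Derivation.leibniz, smul_eq_mul, smul_eq_mul, mul_add]
    have h3 := (Rec_iff _ _).mp (rec_mu (p := p) A)
    have h4 := (Rec_iff _ _).mp (rec_uno (p := p))
    have h5 : PowerSeries.mk (Lam p (fun _ => True)) =
        PowerSeries.mk (Lam p A) + PowerSeries.mk (Lam p (fun d => ¬ A d)) := by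
      ext n : 1
      rw [map_add]
      simp only [PowerSeries.coeff_mk]
      exact Lam_split A n
    have h6 : PowerSeries.mk (fun j => - Lam p A j) = - PowerSeries.mk (Lam p A) := by
      ext n : 1
      rw [map_neg]
      simp only [PowerSeries.coeff_mk]
    rw [h6] at h3
    rw [h5] at h4
    calc _ = PowerSeries.mk (mu p A) * (PowerSeries.X *
            PowerSeries.derivative (PA p) (PowerSeries.mk (uno p))) +
          PowerSeries.mk (uno p) * (PowerSeries.X *
            PowerSeries.derivative (PA p) (PowerSeries.mk (mu p A))) := by ring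
      _ = _ := by
        rw [h3, h4]
        ring
  have h7 := Rec.unique (Lam_zero _) h2 (rec_smo (fun d => ¬ A d))
    (by rw [hX, smo_zero]; simp [mu_zero, uno_zero])
  exact congrFun h7 n

lemma smo_false {n : ℕ} (hn : 0 < n) : smo p (fun _ => False) n = 0 := by
  classical
  rw [← MonoidAlgebra.coeff_inj]
  ext f
  rw [coeff_smo, if_neg]
  · rfl
  · rintro ⟨h1, h2⟩
    rw [mem_mon] at h1
    have h3 : f.natDegree ≠ 0 := by omega
    obtain ⟨P, _, hP2, hP3⟩ := Polynomial.exists_monic_irreducible_factor f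
      (by
        intro hu
        exact h3 (Polynomial.natDegree_eq_zero_of_isUnit hu))
    exact h2 P (by assumption) hP3

/-- (4) for all degrees -/
theorem mu_uno_true (n : ℕ) :
    ∑ k ∈ range (n + 1), mu p (fun _ => True) k * uno p (n - k) = if n = 0 then 1 else 0 := by
  rw [uno_mu]
  simp only [not_true]
  split_ifs with h
  · rw [h, smo_zero]
  · exact smo_false (Nat.pos_of_ne_zero h)

/-! ### Bounds for the coefficients -/

lemma coeff_mul_expand (a b : PA p) (s t : Finset (ZMod p)[X]) (hs : a.coeff.support ⊆ s)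
    (ht : b.coeff.support ⊆ t) (f : (ZMod p)[X]) [DecidableEq (ZMod p)[X]] :
    (a * b).coeff f = ∑ x ∈ s, ∑ y ∈ t, if x * y = f then a.coeff x * b.coeff y else 0 := by
  classical
  rw [MonoidAlgebra.coeff_mul, Finsupp.sum_of_support_subset _ hs]
  · apply Finset.sum_congr rfl
    intro x _
    rw [Finsupp.sum_of_support_subset _ ht _ (by intro y _; simp)]
  · intro x _
    simp

lemma coeff_mul_ne_zero {a b : PA p} {f : (ZMod p)[X]} (h : (a * b).coeff f ≠ 0) :
    ∃ x y, a.coeff x ≠ 0 ∧ b.coeff y ≠ 0 ∧ x * y = f := by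
  classical
  rw [coeff_mul_expand a b _ _ subset_rfl subset_rfl] at h
  obtain ⟨x, hx, h1⟩ := Finset.exists_ne_zero_of_sum_ne_zero h
  obtain ⟨y, hy, h2⟩ := Finset.exists_ne_zero_of_sum_ne_zero h1
  rw [Finsupp.mem_support_iff] at hx hy
  refine ⟨x, y, hx, hy, ?_⟩
  by_contra h3
  rw [if_neg h3] at h2
  exact h2 rfl

lemma support_subset_of_abs_le {a b : PA p} (h : ∀ f, |a.coeff f| ≤ b.coeff f) :
    a.coeff.support ⊆ b.coeff.support := by
  intro f hf
  rw [Finsupp.mem_support_iff] at hf ⊢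
  intro h0
  have := h f
  rw [h0] at this
  exact hf (abs_nonpos_iff.mp this)

lemma coeff_mul_abs_le {a a' b b' : PA p} (h : ∀ f, |a.coeff f| ≤ b.coeff f)
    (h' : ∀ f, |a'.coeff f| ≤ b'.coeff f) (f : (ZMod p)[X]) :
    |(a * a').coeff f| ≤ (b * b').coeff f := by
  classical
  rw [coeff_mul_expand a a' _ _ (support_subset_of_abs_le h) (support_subset_of_abs_le h'),
    coeff_mul_expand b b' _ _ subset_rfl subset_rfl]
  refine (Finset.abs_sum_le_sum_abs _ _).trans (Finset.sum_le_sum fun x _ => ?_)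
  refine (Finset.abs_sum_le_sum_abs _ _).trans (Finset.sum_le_sum fun y _ => ?_)
  split_ifs
  · rw [abs_mul]
    exact mul_le_mul (h x) (h' y) (abs_nonneg _) ((abs_nonneg _).trans (h x))
  · simp

lemma coeff_mul_nonneg {a b : PA p} (h : ∀ f, 0 ≤ a.coeff f) (h' : ∀ f, 0 ≤ b.coeff f)
    (f : (ZMod p)[X]) : 0 ≤ (a * b).coeff f :=
  (abs_nonneg _).trans (coeff_mul_abs_le (fun f => (abs_of_nonneg (h f)).le)
    (fun f => (abs_of_nonneg (h' f)).le) f)

open Classical in
lemma coeff_Lam (A : ℕ → Prop) (k : ℕ) (f : (ZMod p)[X]) :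
    (Lam p A k).coeff f = ∑ d ∈ k.divisors.filter A, ∑ P ∈ irr p d,
      if P ^ (k / d) = f then (d : ℝ) else 0 := by
  unfold Lam
  rw [MonoidAlgebra.coeff_sum, Finsupp.finsetSum_apply]
  apply Finset.sum_congr rfl
  intro d _
  rw [MonoidAlgebra.coeff_sum, Finsupp.finsetSum_apply]
  apply Finset.sum_congr rfl
  intro P _
  rw [MonoidAlgebra.coeff_single, Finsupp.single_apply]

lemma Lam_nonneg (A : ℕ → Prop) (k : ℕ) (f : (ZMod p)[X]) : 0 ≤ (Lam p A k).coeff f := by
  classical
  rw [coeff_Lam]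
  apply Finset.sum_nonneg
  intro d _
  apply Finset.sum_nonneg
  intro P _
  split_ifs
  · exact Nat.cast_nonneg _
  · exact le_rfl

lemma Lam_le_true (A : ℕ → Prop) (k : ℕ) (f : (ZMod p)[X]) :
    |(Lam p A k).coeff f| ≤ (Lam p (fun _ => True) k).coeff f := by
  rw [abs_of_nonneg (Lam_nonneg A k f), Lam_split A, MonoidAlgebra.coeff_add, Finsupp.add_apply]
  have := Lam_nonneg (p := p) (fun d => ¬ A d) k f
  linarith

lemma Lam_supp {A : ℕ → Prop} {k : ℕ} {f : (ZMod p)[X]} (h : (Lam p A k).coeff f ≠ 0) :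
    ∃ d ∈ k.divisors, A d ∧ ∃ P ∈ irr p d, P ^ (k / d) = f := by
  classical
  rw [coeff_Lam] at h
  obtain ⟨d, hd, h1⟩ := Finset.exists_ne_zero_of_sum_ne_zero h
  obtain ⟨P, hP, h2⟩ := Finset.exists_ne_zero_of_sum_ne_zero h1
  rw [Finset.mem_filter] at hd
  refine ⟨d, hd.1, hd.2, P, hP, ?_⟩
  by_contra h3
  rw [if_neg h3] at h2
  exact h2 rfl

lemma Lam_mem {A : ℕ → Prop} {k : ℕ} {f : (ZMod p)[X]} (h : (Lam p A k).coeff f ≠ 0) :
    f ∈ mon p k := by
  obtain ⟨d, hd, _, P, hP, rfl⟩ := Lam_supp h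
  rw [Nat.mem_divisors] at hd
  have := pow_mem_mon hP (k / d)
  rwa [Nat.div_mul_cancel hd.1] at this

lemma Lam_fac {A : ℕ → Prop} {k : ℕ} {f : (ZMod p)[X]} (h : (Lam p A k).coeff f ≠ 0) :
    Fac A f := by
  obtain ⟨d, _, hA, P, hP, rfl⟩ := Lam_supp h
  exact Fac_pow hA hP _

lemma irr_pow_inj {d e i j : ℕ} {P Q : (ZMod p)[X]} (hP : P ∈ irr p d) (hQ : Q ∈ irr p e)
    (hi : 0 < i) (h : P ^ i = Q ^ j) : P = Q := by
  rw [mem_irr] at hP hQ
  have h1 : P ∣ Q ^ j := by
    rw [← h]
    exact dvd_pow_self P hi.ne'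
  have h2 : P ∣ Q := hP.2.2.prime.dvd_of_dvd_pow h1
  exact Polynomial.eq_of_monic_of_associated hP.1 hQ.1 (hP.2.2.associated_of_dvd hQ.2.2 h2)

/-- (5) -/
lemma Lam_Bd (A : ℕ → Prop) (k : ℕ) : Bd k k (Lam p A k) := by
  classical
  refine ⟨fun f hf => Lam_mem hf, fun f => ?_⟩
  by_cases h0 : (Lam p A k).coeff f = 0
  · rw [h0, abs_zero]
    exact Nat.cast_nonneg _
  · obtain ⟨d, hd, hA, P, hP, hPf⟩ := Lam_supp h0
    have hdk := Nat.mem_divisors.mp hd
    have hpos : ∀ e ∈ k.divisors, 0 < k / e := by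
      intro e he
      exact Nat.div_pos (Nat.divisor_le he) (Nat.pos_of_mem_divisors he)
    have h1 : (Lam p A k).coeff f = d := by
      rw [coeff_Lam, Finset.sum_eq_single d]
      · rw [Finset.sum_eq_single P]
        · rw [if_pos hPf]
        · intro Q hQ hQP
          rw [if_neg]
          intro h2
          exact hQP (irr_pow_inj hQ hP (hpos d hd) (h2.trans hPf.symm))
        · intro h
          exact absurd hP h
      · intro e he hed
        rw [Finset.mem_filter] at he
        apply Finset.sum_eq_zero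
        intro Q hQ
        rw [if_neg]
        intro h2
        have h3 := irr_pow_inj hQ hP (hpos e he.1) (h2.trans hPf.symm)
        rw [mem_irr] at hQ hP
        apply hed
        rw [← hQ.2.1, ← hP.2.1, h3]
      · intro h
        exact absurd (Finset.mem_filter.mpr ⟨hd, hA⟩) h
    rw [h1, abs_of_nonneg (Nat.cast_nonneg _)]
    exact_mod_cast Nat.le_of_dvd (Nat.pos_of_ne_zero hdk.2) hdk.1

lemma mu_abs_le (A : ℕ → Prop) (k : ℕ) (f : (ZMod p)[X]) :
    |(mu p A k).coeff f| ≤ (uno p k).coeff f := by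
  classical
  induction k using Nat.strong_induction_on generalizing f with
  | _ k ih =>
    rcases Nat.eq_zero_or_pos k with rfl | hk
    · rw [mu_zero, uno_zero, MonoidAlgebra.one_def, MonoidAlgebra.coeff_single,
        Finsupp.single_apply]
      split_ifs <;> simp
    · have hk0 : (0 : ℝ) < k := by exact_mod_cast hk
      have h1 : (k : ℝ) * (mu p A k).coeff f =
          - ∑ j ∈ range (k + 1), (Lam p A j * mu p A (k - j)).coeff f := by
        have := congrArg (fun x : PA p => x.coeff f) (mu_rec A k)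
        simp only [MonoidAlgebra.coeff_smul_apply, MonoidAlgebra.coeff_neg,
          MonoidAlgebra.coeff_sum, Finsupp.neg_apply, Finsupp.finsetSum_apply, smul_eq_mul] at this
        exact this
      have h2 : (k : ℝ) * (uno p k).coeff f =
          ∑ j ∈ range (k + 1), (Lam p (fun _ => True) j * uno p (k - j)).coeff f := by
        have := congrArg (fun x : PA p => x.coeff f) (rec_uno (p := p) k)
        simp only [MonoidAlgebra.coeff_smul_apply,
          MonoidAlgebra.coeff_sum, Finsupp.finsetSum_apply, smul_eq_mul] at this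
        exact this
      have h3 : (k : ℝ) * |(mu p A k).coeff f| ≤ k * (uno p k).coeff f := by
        rw [h2]
        have h4 : (k : ℝ) * |(mu p A k).coeff f| = |(k : ℝ) * (mu p A k).coeff f| := by
          rw [abs_mul, abs_of_pos hk0]
        rw [h4, h1, abs_neg]
        refine (Finset.abs_sum_le_sum_abs _ _).trans (Finset.sum_le_sum fun j _ => ?_)
        rcases Nat.eq_zero_or_pos j with rfl | hj
        · rw [Lam_zero, Lam_zero, zero_mul, zero_mul]
          simp
        · exact coeff_mul_abs_le (Lam_le_true A j) (fun g => ih (k - j) (by omega) g) f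
      exact le_of_mul_le_mul_left h3 hk0

/-- (5) -/
lemma mu_Bd (A : ℕ → Prop) (k : ℕ) : Bd k 1 (mu p A k) := by
  classical
  have h := mu_abs_le (p := p) A k
  constructor
  · intro f hf
    by_contra h1
    have h2 := h f
    rw [coeff_uno, if_neg h1] at h2
    exact hf (abs_nonpos_iff.mp h2)
  · intro f
    refine (h f).trans ?_
    rw [coeff_uno]
    split_ifs <;> simp

/-- (5) -/
lemma mu_fac (A : ℕ → Prop) (k : ℕ) (f : (ZMod p)[X]) (hf : (mu p A k).coeff f ≠ 0) :
    Fac A f := by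
  classical
  induction k using Nat.strong_induction_on generalizing f with
  | _ k ih =>
    rcases Nat.eq_zero_or_pos k with rfl | hk
    · rw [mu_zero, MonoidAlgebra.one_def, MonoidAlgebra.coeff_single,
        Finsupp.single_apply] at hf
      have h1 : (1 : (ZMod p)[X]) = f := by
        by_contra h2
        rw [if_neg h2] at hf
        exact hf rfl
      rw [← h1]
      exact Fac_one
    · have hk0 : (0 : ℝ) < k := by exact_mod_cast hk
      have h1 : (k : ℝ) * (mu p A k).coeff f =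
          - ∑ j ∈ range (k + 1), (Lam p A j * mu p A (k - j)).coeff f := by
        have := congrArg (fun x : PA p => x.coeff f) (mu_rec A k)
        simp only [MonoidAlgebra.coeff_smul_apply, MonoidAlgebra.coeff_neg,
          MonoidAlgebra.coeff_sum, Finsupp.neg_apply, Finsupp.finsetSum_apply, smul_eq_mul] at this
        exact this
      have h2 : ∑ j ∈ range (k + 1), (Lam p A j * mu p A (k - j)).coeff f ≠ 0 := by
        intro h3
        rw [h3, neg_zero] at h1
        exact (mul_ne_zero hk0.ne' hf) h1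
      obtain ⟨j, hj, h3⟩ := Finset.exists_ne_zero_of_sum_ne_zero h2
      obtain ⟨x, y, hx, hy, rfl⟩ := coeff_mul_ne_zero h3
      have hj0 : 0 < j := by
        rcases Nat.eq_zero_or_pos j with rfl | h
        · rw [Lam_zero] at hx
          exact absurd rfl hx
        · exact h
      exact (Lam_fac hx).mul (ih (k - j) (by omega) y hy)

end Pool.Agent.MP0a1886
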