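import Pool.Agent.MP0a1886.Alg2

/-! The identity of Vaughan for polynomials over `F_p`, for MP_0a1886_pr (near-uniform laws). -/

set_option autoImplicit false
set_option linter.unusedSectionVars false
open Finset Polynomial

namespace Pool.Agent.MP0a1886

variable {p : ℕ} [hp : Fact p.Prime]

/-- the convolution of the Möbius function restricted to degrees above `V` with the constant one -/
noncomputable def EE (p : ℕ) [Fact p.Prime] (V n : ℕ) : PA p :=
  ∑ k ∈ (range (n + 1)).filter (V < ·), mu p (fun _ => True) k * uno p (n - k)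

lemma EE_zero {V n : ℕ} (h : n ≤ V) : EE p V n = 0 := by
  unfold EE
  apply Finset.sum_eq_zero
  intro k hk
  rw [Finset.mem_filter, Finset.mem_range] at hk
  omega

lemma coeff_mk_mul (a b : ℕ → PA p) (n : ℕ) :
    PowerSeries.coeff n (PowerSeries.mk a * PowerSeries.mk b) =
      ∑ j ∈ range (n + 1), a j * b (n - j) := by
  rw [PowerSeries.coeff_mul]
  simp only [PowerSeries.coeff_mk]
  rw [Finset.Nat.sum_antidiagonal_eq_sum_range_succ (fun i j => a i * b j)]

/-- (6) the identity of Vaughan -/
theorem vaughan {U V j : ℕ} (hU : U < j) :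
    Lam p (fun _ => True) j =
      ∑ k ∈ range (V + 1), (if k ≤ j then
        ((j - k : ℕ) : ℝ) • (mu p (fun _ => True) k * uno p (j - k)) else 0)
      - ∑ i ∈ range (U + 1), ∑ k ∈ range (V + 1), (if i + k ≤ j then
          Lam p (fun _ => True) i * mu p (fun _ => True) k * uno p (j - i - k) else 0)
      + ∑ i ∈ (range (j + 1)).filter (U < ·), Lam p (fun _ => True) i * EE p V (j - i) := by
  classical
  set T : ℕ → Prop := fun _ => True with hT
  set M1 : ℕ → PA p := fun k => if k ≤ V then mu p T k else 0 with hM1
  set M2 : ℕ → PA p := fun k => if V < k then mu p T k else 0 with hM2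
  set L1 : ℕ → PA p := fun k => if k ≤ U then Lam p T k else 0 with hL1
  set L2 : ℕ → PA p := fun k => if U < k then Lam p T k else 0 with hL2
  set D : ℕ → PA p := fun n => ((n : ℕ) : ℝ) • uno p n with hD
  set W1 : ℕ → PA p := fun n => ∑ k ∈ range (n + 1), M1 k * uno p (n - k) with hW1
  have e1 : PowerSeries.mk M1 + PowerSeries.mk M2 = PowerSeries.mk (mu p T) := by
    ext n : 1
    rw [map_add]
    simp only [PowerSeries.coeff_mk, hM1, hM2]
    by_cases h : n ≤ V
    · rw [if_pos h, if_neg (by omega), add_zero]
    · rw [if_neg h, if_pos (by omega), zero_add]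
  have e2 : PowerSeries.mk L1 + PowerSeries.mk L2 = PowerSeries.mk (Lam p T) := by
    ext n : 1
    rw [map_add]
    simp only [PowerSeries.coeff_mk, hL1, hL2]
    by_cases h : n ≤ U
    · rw [if_pos h, if_neg (by omega), add_zero]
    · rw [if_neg h, if_pos (by omega), zero_add]
  have e3 : PowerSeries.mk (mu p T) * PowerSeries.mk (uno p) = 1 := by
    ext n : 1
    rw [coeff_mk_mul, mu_uno_true, PowerSeries.coeff_one]
  have e4 : PowerSeries.mk D = PowerSeries.mk (Lam p T) * PowerSeries.mk (uno p) := by
    ext n : 1
    rw [coeff_mk_mul, PowerSeries.coeff_mk, hD]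
    exact rec_uno n
  have e5 : PowerSeries.mk W1 = PowerSeries.mk M1 * PowerSeries.mk (uno p) := by
    ext n : 1
    rw [coeff_mk_mul, PowerSeries.coeff_mk]
  have e6 : PowerSeries.mk (EE p V) = PowerSeries.mk M2 * PowerSeries.mk (uno p) := by
    ext n : 1
    rw [coeff_mk_mul, PowerSeries.coeff_mk]
    unfold EE
    rw [Finset.sum_filter]
    apply Finset.sum_congr rfl
    intro k _
    simp only [hM2]
    split_ifs
    · rfl
    · rw [zero_mul]
  have e7 : PowerSeries.mk L2 = PowerSeries.mk M1 * PowerSeries.mk D
      - PowerSeries.mk L1 * PowerSeries.mk W1 + PowerSeries.mk L2 * PowerSeries.mk (EE p V) := by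
    rw [e4, e5, e6, ← e2]
    calc PowerSeries.mk L2 = PowerSeries.mk L2 * (PowerSeries.mk (mu p T) *
            PowerSeries.mk (uno p)) := by rw [e3, mul_one]
      _ = _ := by
        rw [← e1]
        ring
  have e8 := congrArg (PowerSeries.coeff j) e7
  rw [map_add, map_sub, coeff_mk_mul, coeff_mk_mul, coeff_mk_mul, PowerSeries.coeff_mk] at e8
  have e9 : L2 j = Lam p T j := by
    simp only [hL2]
    rw [if_pos hU]
  rw [← e9, e8]
  congr 1
  · congr 1
    · have h1 : ∀ k ∈ range (j + 1), M1 k * D (j - k) =
          if k ≤ V then ((j - k : ℕ) : ℝ) • (mu p T k * uno p (j - k)) else 0 := by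
        intro k _
        simp only [hM1, hD]
        split_ifs
        · rw [mul_smul_comm]
        · rw [zero_mul]
      rw [Finset.sum_congr rfl h1, ← Finset.sum_filter, ← Finset.sum_filter]
      apply Finset.sum_congr _ (fun _ _ => rfl)
      ext k
      simp only [Finset.mem_filter, Finset.mem_range]
      omega
    · have h1 : ∀ i ∈ range (U + 1), (∑ k ∈ range (V + 1), (if i + k ≤ j then
          Lam p T i * mu p T k * uno p (j - i - k) else 0)) = L1 i * W1 (j - i) := by
        intro i hi
        rw [Finset.mem_range] at hi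
        simp only [hL1, hW1]
        rw [if_pos (by omega), Finset.mul_sum]
        have h2 : ∀ k ∈ range (j - i + 1), Lam p T i * (M1 k * uno p (j - i - k)) =
            if k ≤ V then Lam p T i * mu p T k * uno p (j - i - k) else 0 := by
          intro k _
          simp only [hM1]
          split_ifs
          · rw [mul_assoc]
          · rw [zero_mul, mul_zero]
        rw [Finset.sum_congr rfl h2, ← Finset.sum_filter, ← Finset.sum_filter]
        apply Finset.sum_congr _ (fun _ _ => rfl)
        ext k
        simp only [Finset.mem_filter, Finset.mem_range]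
        omega
      rw [Finset.sum_congr rfl h1]
      have h3 : ∑ i ∈ range (j + 1), L1 i * W1 (j - i) =
          ∑ i ∈ (range (j + 1)).filter (· ≤ U), L1 i * W1 (j - i) := by
        rw [Finset.sum_filter]
        apply Finset.sum_congr rfl
        intro i _
        split_ifs with h
        · rfl
        · simp only [hL1]
          rw [if_neg h, zero_mul]
      rw [h3]
      apply Finset.sum_congr _ (fun _ _ => rfl)
      ext k
      simp only [Finset.mem_filter, Finset.mem_range]
      omega
  · rw [Finset.sum_filter]
    apply Finset.sum_congr rfl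
    intro i _
    simp only [hL2]
    split_ifs
    · rfl
    · rw [zero_mul]

end Pool.Agent.MP0a1886
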