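import Pool.Agent.MP0a1886.Alg3

/-! Masses in the convolution algebra of polynomials over `F_p`, smooth polynomials and
permutations, for MP_0a1886_pr (near-uniform laws). -/

set_option autoImplicit false
set_option linter.unusedSectionVars false
open Finset Polynomial

namespace Pool.Agent.MP0a1886

variable {p : ℕ} [hp : Fact p.Prime]

lemma tot_single (f : (ZMod p)[X]) (c : ℝ) : tot p (MonoidAlgebra.single f c) = c := by
  unfold tot
  change (MonoidAlgebra.lift ℝ ℝ (ZMod p)[X] (1 : (ZMod p)[X] →* ℝ))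
    (MonoidAlgebra.single f c) = c
  rw [MonoidAlgebra.lift_single]
  simp

lemma tot_eq_sum (S : PA p) (s : Finset (ZMod p)[X]) (hs : S.coeff.support ⊆ s) :
    tot p S = ∑ f ∈ s, S.coeff f := by
  unfold tot
  change (MonoidAlgebra.lift ℝ ℝ (ZMod p)[X] (1 : (ZMod p)[X] →* ℝ)) S = _
  rw [MonoidAlgebra.lift_apply, Finsupp.sum_of_support_subset _ hs _ (by intro x _; simp)]
  simp

lemma tot_smul (c : ℝ) (S : PA p) : tot p (c • S) = c * tot p S := by
  unfold tot
  change (MonoidAlgebra.lift ℝ ℝ (ZMod p)[X] (1 : (ZMod p)[X] →* ℝ)) (c • S) =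
    c * (MonoidAlgebra.lift ℝ ℝ (ZMod p)[X] (1 : (ZMod p)[X] →* ℝ)) S
  rw [map_smul, smul_eq_mul]

lemma tot_nonneg {S : PA p} (h : ∀ f, 0 ≤ S.coeff f) : 0 ≤ tot p S := by
  rw [tot_eq_sum S _ subset_rfl]
  exact Finset.sum_nonneg fun f _ => h f

lemma tot_mono {S S' : PA p} (h : ∀ f, S.coeff f ≤ S'.coeff f) : tot p S ≤ tot p S' := by
  classical
  rw [tot_eq_sum S (S.coeff.support ∪ S'.coeff.support) Finset.subset_union_left,
    tot_eq_sum S' (S.coeff.support ∪ S'.coeff.support) Finset.subset_union_right]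
  exact Finset.sum_le_sum fun f _ => h f

/-- (7) -/
lemma tot_smo (A : ℕ → Prop) (k : ℕ) [DecidablePred (fun f : (ZMod p)[X] => Fac A f)] :
    tot p (smo p A k) = (((mon p k).filter (Fac A)).card : ℝ) := by
  unfold smo
  rw [map_sum, Finset.sum_congr rfl (fun f _ => tot_single f 1), Finset.sum_const, nsmul_eq_mul,
    mul_one]
  have h : ∀ s t : Finset (ZMod p)[X], (∀ f, f ∈ s ↔ f ∈ t) → ((s.card : ℕ) : ℝ) = (t.card : ℝ) := by
    intro s t hst
    rw [Finset.ext hst]
  apply h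
  intro f
  simp only [Finset.mem_filter]

/-- (7) -/
lemma tot_uno (k : ℕ) : tot p (uno p k) = (p : ℝ) ^ k := by
  unfold uno
  rw [map_sum, Finset.sum_congr rfl (fun f _ => tot_single f 1), Finset.sum_const, nsmul_eq_mul,
    mul_one, card_mon]
  push_cast
  rfl

lemma tot_Lam (A : ℕ → Prop) [DecidablePred A] (k : ℕ) :
    tot p (Lam p A k) = ((∑ d ∈ k.divisors.filter A, d * (irr p d).card : ℕ) : ℝ) := by
  classical
  unfold Lam
  rw [map_sum]
  push_cast
  apply Finset.sum_congr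
  · ext d
    simp
  · intro d _
    rw [map_sum, Finset.sum_congr rfl (fun P _ => tot_single _ _), Finset.sum_const,
      nsmul_eq_mul, mul_comm]

/-- (7) -/
lemma tot_Lam_true {k : ℕ} (hk : 1 ≤ k) : tot p (Lam p (fun _ => True) k) = (p : ℝ) ^ k := by
  classical
  rw [tot_Lam]
  have h : (k.divisors.filter fun _ => True) = k.divisors := by
    ext d
    simp
  rw [h, sum_divisors_irr k (by omega)]
  push_cast
  rfl

/-- (7) -/
lemma tot_Lam_le {k m : ℕ} (hk : 1 ≤ k) (hkm : k ≤ m) :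
    tot p (Lam p (fun d => d ≤ m) k) = (p : ℝ) ^ k := by
  classical
  rw [tot_Lam]
  have h : (k.divisors.filter fun d => d ≤ m) = k.divisors := by
    ext d
    simp only [Finset.mem_filter, Nat.mem_divisors, and_iff_left_iff_imp]
    rintro ⟨h1, h2⟩
    exact (Nat.le_of_dvd (by omega) h1).trans hkm
  rw [h, sum_divisors_irr k (by omega)]
  push_cast
  rfl

lemma sum_pow_le (m : ℕ) : ∑ d ∈ Finset.Icc 1 m, p ^ d ≤ 2 * p ^ m := by
  induction m with
  | zero => simp
  | succ m ih =>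
    rw [Finset.sum_Icc_succ_top (by omega)]
    have hp2 : 2 ≤ p := hp.out.two_le
    have : 2 * p ^ m ≤ p ^ (m + 1) := by
      rw [pow_succ, mul_comm]
      exact Nat.mul_le_mul_left _ hp2
    omega

/-- (7) a sharper form -/
lemma tot_Lam_gt' {k m : ℕ} (hkm : m < k) :
    tot p (Lam p (fun d => d ≤ m) k) ≤ 2 * (p : ℝ) ^ (k / 2) := by
  classical
  rw [tot_Lam]
  have h2 : ∑ d ∈ k.divisors.filter (fun d => d ≤ m), d * (irr p d).card ≤
      ∑ d ∈ Finset.Icc 1 (k / 2), p ^ d := by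
    have hsub : k.divisors.filter (fun d => d ≤ m) ⊆ Finset.Icc 1 (k / 2) := by
      intro d hd
      rw [Finset.mem_filter, Nat.mem_divisors] at hd
      obtain ⟨⟨⟨c, hc⟩, _⟩, hdm⟩ := hd
      rw [Finset.mem_Icc]
      have hd0 : 0 < d := by
        rcases Nat.eq_zero_or_pos d with h | h
        · subst h; simp at hc; omega
        · exact h
      have hc2 : 2 ≤ c := by
        rcases c with _ | _ | c
        · simp at hc; omega
        · simp at hc; omega
        · omega
      refine ⟨hd0, ?_⟩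
      rw [Nat.le_div_iff_mul_le (by norm_num)]
      calc d * 2 ≤ d * c := Nat.mul_le_mul_left _ hc2
        _ = k := hc.symm
    refine (Finset.sum_le_sum_of_subset hsub).trans ?_
    apply Finset.sum_le_sum
    intro d hd
    rw [Finset.mem_Icc] at hd
    exact mul_card_irr_le d (by omega)
  have h3 := h2.trans (sum_pow_le (k / 2))
  exact_mod_cast h3

/-- (7) -/
lemma tot_Lam_gt {k m : ℕ} (hkm : m < k) :
    tot p (Lam p (fun d => d ≤ m) k) ≤ 2 * k * (p : ℝ) ^ (k / 2) := by
  refine (tot_Lam_gt' hkm).trans ?_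
  have h1 : (1 : ℝ) ≤ k := by exact_mod_cast (by omega : 1 ≤ k)
  have h2 : (0 : ℝ) ≤ (p : ℝ) ^ (k / 2) := by positivity
  nlinarith

lemma tot_Lam_mono (A : ℕ → Prop) (k : ℕ) : tot p (Lam p A k) ≤ (p : ℝ) ^ k := by
  rcases Nat.eq_zero_or_pos k with rfl | hk
  · rw [Lam_zero, map_zero]
    positivity
  · rw [← tot_Lam_true hk]
    exact tot_mono fun f => (le_abs_self _).trans (Lam_le_true A k f)

/-- (7) -/
lemma Lam_large_zero {m k : ℕ} (hk : k ≤ m) : Lam p (fun d => m < d) k = 0 := by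
  classical
  unfold Lam
  apply Finset.sum_eq_zero
  intro d hd
  simp only [Finset.mem_filter, Nat.mem_divisors] at hd
  have := Nat.le_of_dvd (Nat.pos_of_ne_zero hd.1.2) hd.1.1
  omega

/-! ### The `ℓ¹` norm -/

/-- the coefficientwise absolute value -/
noncomputable def absA (S : PA p) : PA p :=
  MonoidAlgebra.ofCoeff (S.coeff.mapRange (fun x => |x|) abs_zero)

lemma coeff_absA (S : PA p) (f : (ZMod p)[X]) : (absA S).coeff f = |S.coeff f| := by
  unfold absA
  rw [MonoidAlgebra.coeff_ofCoeff, Finsupp.mapRange_apply]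

lemma tot_absA_mul (a b : PA p) : tot p (absA (a * b)) ≤ tot p (absA a) * tot p (absA b) := by
  rw [← map_mul]
  apply tot_mono
  intro f
  rw [coeff_absA]
  exact coeff_mul_abs_le (fun g => (coeff_absA a g).ge) (fun g => (coeff_absA b g).ge) f

lemma tot_absA_sum {ι : Type} (s : Finset ι) (g : ι → PA p) :
    tot p (absA (∑ i ∈ s, g i)) ≤ ∑ i ∈ s, tot p (absA (g i)) := by
  rw [← map_sum]
  apply tot_mono
  intro f
  rw [coeff_absA, MonoidAlgebra.coeff_sum, MonoidAlgebra.coeff_sum, Finsupp.finsetSum_apply,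
    Finsupp.finsetSum_apply]
  simp only [coeff_absA]
  exact Finset.abs_sum_le_sum_abs _ _

lemma absA_neg (a : PA p) : absA (-a) = absA a := by
  rw [← MonoidAlgebra.coeff_inj]
  ext f
  rw [coeff_absA, coeff_absA, MonoidAlgebra.coeff_neg, Finsupp.neg_apply, abs_neg]

lemma tot_absA_smul (c : ℝ) (a : PA p) : tot p (absA (c • a)) = |c| * tot p (absA a) := by
  rw [← tot_smul]
  congr 1
  rw [← MonoidAlgebra.coeff_inj]
  ext f
  rw [coeff_absA, MonoidAlgebra.coeff_smul_apply, MonoidAlgebra.coeff_smul_apply, coeff_absA,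
    smul_eq_mul, smul_eq_mul, abs_mul]

lemma absA_of_nonneg {a : PA p} (h : ∀ f, 0 ≤ a.coeff f) : absA a = a := by
  rw [← MonoidAlgebra.coeff_inj]
  ext f
  rw [coeff_absA, abs_of_nonneg (h f)]

lemma tot_absA_eq {k : ℕ} {S : PA p} (h : ∀ f, S.coeff f ≠ 0 → f ∈ mon p k) :
    tot p (absA S) = ∑ f ∈ mon p k, |S.coeff f| := by
  rw [tot_eq_sum _ (mon p k)]
  · apply Finset.sum_congr rfl
    intro f _
    rw [coeff_absA]
  · intro f hf
    rw [Finsupp.mem_support_iff, coeff_absA, abs_ne_zero] at hf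
    exact h f hf

lemma mu_mass_rec (m k : ℕ) :
    (k : ℝ) * (((p : ℝ) ^ k)⁻¹ * tot p (absA (mu p (fun d => m < d) k))) ≤
      ∑ i ∈ range (k - m), ((p : ℝ) ^ i)⁻¹ * tot p (absA (mu p (fun d => m < d) i)) := by
  classical
  have hp0 : (0 : ℝ) < p := by exact_mod_cast hp.out.pos
  set B : ℕ → Prop := fun d => m < d with hB
  set N : ℕ → ℝ := fun i => tot p (absA (mu p B i)) with hN
  have hN0 : ∀ i, 0 ≤ N i := by
    intro i
    apply tot_nonneg
    intro f
    rw [coeff_absA]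
    exact abs_nonneg _
  have h1 : (k : ℝ) * N k ≤ ∑ j ∈ range (k + 1), (if m < j then (p : ℝ) ^ j * N (k - j) else 0) := by
    have h2 : (k : ℝ) * N k = tot p (absA ((k : ℝ) • mu p B k)) := by
      rw [tot_absA_smul, abs_of_nonneg (Nat.cast_nonneg k)]
    rw [h2, mu_rec, absA_neg]
    refine (tot_absA_sum _ _).trans (Finset.sum_le_sum fun j _ => ?_)
    split_ifs with hj
    · refine (tot_absA_mul _ _).trans ?_
      rw [absA_of_nonneg (Lam_nonneg B j)]
      exact mul_le_mul_of_nonneg_right (tot_Lam_mono B j) (hN0 _)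
    · rw [hB, Lam_large_zero (by omega), zero_mul]
      have : absA (0 : PA p) = 0 := absA_of_nonneg (fun f => le_rfl)
      rw [this, map_zero]
  have h3 : (k : ℝ) * (((p : ℝ) ^ k)⁻¹ * N k) ≤
      ∑ j ∈ range (k + 1), (if m < j then ((p : ℝ) ^ (k - j))⁻¹ * N (k - j) else 0) := by
    have h4 : (k : ℝ) * (((p : ℝ) ^ k)⁻¹ * N k) = ((p : ℝ) ^ k)⁻¹ * ((k : ℝ) * N k) := by ring
    rw [h4]
    refine (mul_le_mul_of_nonneg_left h1 (by positivity)).trans ?_
    rw [Finset.mul_sum]
    apply le_of_eq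
    apply Finset.sum_congr rfl
    intro j hj
    rw [Finset.mem_range] at hj
    split_ifs
    · have h5 : (p : ℝ) ^ k = (p : ℝ) ^ j * (p : ℝ) ^ (k - j) := by
        rw [← pow_add]
        congr 1
        omega
      rw [h5]
      field_simp
    · rw [mul_zero]
  refine h3.trans ?_
  rw [← Finset.sum_filter]
  apply le_of_eq
  refine Finset.sum_bij' (i := fun j _ => k - j) (j := fun i _ => k - i) ?_ ?_ ?_ ?_ ?_
  · intro j hj
    simp only [Finset.mem_filter, Finset.mem_range] at hj ⊢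
    omega
  · intro j hj
    simp only [Finset.mem_filter, Finset.mem_range] at hj ⊢
    omega
  · intro j hj
    simp only [Finset.mem_filter, Finset.mem_range] at hj
    omega
  · intro j hj
    simp only [Finset.mem_range] at hj
    omega
  · intro j _
    rfl

/-- (7) the tail -/
theorem mu_mass (m k : ℕ) (hk : 1 ≤ k) :
    ((p : ℝ) ^ k)⁻¹ * ∑ f ∈ mon p k, |(mu p (fun d => m < d) k).coeff f| ≤
      ((k : ℝ) / ((m : ℝ) + 1) + 1) / ((m : ℝ) + 1) := by
  classical
  set a : ℕ → ℝ := fun i => ((p : ℝ) ^ i)⁻¹ * tot p (absA (mu p (fun d => m < d) i)) with ha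
  have hM : (0 : ℝ) < (m : ℝ) + 1 := by positivity
  have ha0 : a 0 = 1 := by
    simp only [ha]
    rw [mu_zero, absA_of_nonneg]
    · simp
    · intro f
      rw [MonoidAlgebra.one_def, MonoidAlgebra.coeff_single, Finsupp.single_apply]
      split_ifs <;> simp
  have key : ∀ k : ℕ, 1 ≤ k → a k ≤ ((k : ℝ) / ((m : ℝ) + 1) + 1) / ((m : ℝ) + 1) := by
    intro k
    induction k using Nat.strong_induction_on with
    | _ k ih =>
      intro hk
      have hk0 : (0 : ℝ) < k := by exact_mod_cast hk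
      have h1 := mu_mass_rec (p := p) m k
      change (k : ℝ) * a k ≤ ∑ i ∈ range (k - m), a i at h1
      set c : ℝ := ((k : ℝ) / ((m : ℝ) + 1) + 1) / ((m : ℝ) + 1) with hc
      have hc0 : 0 ≤ c := by positivity
      have hc1 : 1 ≤ ((m : ℝ) + 1) * c := by
        rw [hc, mul_div_cancel₀ _ hM.ne']
        have : 0 ≤ (k : ℝ) / ((m : ℝ) + 1) := by positivity
        linarith
      have h2 : (k : ℝ) * a k ≤ k * c := by
        rcases Nat.lt_or_ge m k with hmk | hmk
        · obtain ⟨q, hq⟩ : ∃ q, k - m = q + 1 := ⟨k - m - 1, by omega⟩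
          rw [hq, Finset.sum_range_succ', ha0] at h1
          have h3 : ∑ i ∈ range q, a (i + 1) ≤ ∑ _i ∈ range q, c := by
            apply Finset.sum_le_sum
            intro i hi
            rw [Finset.mem_range] at hi
            refine (ih (i + 1) (by omega) (by omega)).trans ?_
            rw [hc]
            have h4 : (((i + 1 : ℕ) : ℝ)) ≤ k := by exact_mod_cast (by omega : i + 1 ≤ k)
            gcongr
          rw [Finset.sum_const, Finset.card_range, nsmul_eq_mul] at h3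
          have h5 : (k : ℝ) = q + ((m : ℝ) + 1) := by
            have : k = q + (m + 1) := by omega
            exact_mod_cast this
          calc (k : ℝ) * a k ≤ q * c + 1 := by linarith
            _ ≤ q * c + ((m : ℝ) + 1) * c := by linarith
            _ = k * c := by rw [h5]; ring
        · have h3 : k - m = 0 := by omega
          rw [h3, Finset.sum_range_zero] at h1
          exact h1.trans (by positivity)
      exact le_of_mul_le_mul_left h2 hk0
  have h := key k hk
  simp only [ha] at h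
  rwa [tot_absA_eq (mu_Bd _ _).1] at h

/-! ### Smooth polynomials and permutations -/

lemma sum_half_pow (a b : ℕ) (hab : a ≤ b) :
    ∑ j ∈ Finset.Ico a b, ((1 : ℝ) / 2) ^ (j / 2) =
      (4 - ((a % 2 : ℕ) : ℝ)) * (1 / 2) ^ (a / 2) - (4 - ((b % 2 : ℕ) : ℝ)) * (1 / 2) ^ (b / 2) := by
  induction b, hab using Nat.le_induction with
  | base => simp
  | succ b hb ih =>
    rw [Finset.sum_Ico_succ_top hb, ih]
    rcases Nat.even_or_odd' b with ⟨q, rfl | rfl⟩
    · have h1 : (2 * q) % 2 = 0 := by omega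
      have h2 : (2 * q + 1) % 2 = 1 := by omega
      have h3 : (2 * q) / 2 = q := by omega
      have h4 : (2 * q + 1) / 2 = q := by omega
      rw [h1, h2, h3, h4]
      push_cast
      ring
    · have h1 : (2 * q + 1) % 2 = 1 := by omega
      have h2 : (2 * q + 1 + 1) % 2 = 0 := by omega
      have h3 : (2 * q + 1) / 2 = q := by omega
      have h4 : (2 * q + 1 + 1) / 2 = q + 1 := by omega
      rw [h1, h2, h3, h4, pow_succ]
      push_cast
      ring

lemma sum_half_pow_le (a b : ℕ) :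
    ∑ j ∈ Finset.Ico a b, ((1 : ℝ) / 2) ^ (j / 2) ≤ 4 * (1 / 2) ^ (a / 2) := by
  rcases Nat.lt_or_ge b a with h | h
  · rw [Finset.Ico_eq_empty_of_le h.le]
    simp
  · rw [sum_half_pow a b h]
    have h1 : ((b % 2 : ℕ) : ℝ) ≤ 1 := by exact_mod_cast (by omega : b % 2 ≤ 1)
    have h2 : (0 : ℝ) ≤ ((a % 2 : ℕ) : ℝ) := Nat.cast_nonneg _
    have h3 : (0 : ℝ) ≤ (1 / 2) ^ (a / 2) := by positivity
    have h4 : (0 : ℝ) ≤ (1 / 2) ^ (b / 2) := by positivity
    nlinarith

/-- the proportion of monic polynomials of degree `n` whose irreducible factors have degree at most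
`m` -/
noncomputable def bsm (p : ℕ) [Fact p.Prime] (m n : ℕ) : ℝ :=
  tot p (smo p (fun d => d ≤ m) n) / (p : ℝ) ^ n

lemma bsm_nonneg (m n : ℕ) : 0 ≤ bsm p m n := by
  classical
  unfold bsm
  have hp0 : (0 : ℝ) < p := by exact_mod_cast hp.out.pos
  apply div_nonneg _ (by positivity)
  rw [tot_smo]
  exact Nat.cast_nonneg _

lemma bsm_le_one (m n : ℕ) : bsm p m n ≤ 1 := by
  classical
  unfold bsm
  have hp0 : (0 : ℝ) < p := by exact_mod_cast hp.out.pos
  rw [div_le_one (by positivity), tot_smo]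
  have h := Finset.card_filter_le (mon p n) (Fac (fun d => d ≤ m))
  rw [card_mon] at h
  exact_mod_cast h

lemma bsm_zero (m : ℕ) : bsm p m 0 = 1 := by
  unfold bsm
  rw [smo_zero]
  simp

lemma bsm_rec (m n : ℕ) : (n : ℝ) * bsm p m n =
    ∑ j ∈ range (n + 1), (tot p (Lam p (fun d => d ≤ m) j) / (p : ℝ) ^ j) * bsm p m (n - j) := by
  have hp0 : (0 : ℝ) < p := by exact_mod_cast hp.out.pos
  have h := congrArg (tot p) (smo_rec (p := p) (fun d => d ≤ m) n)
  rw [tot_smul, map_sum] at h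
  unfold bsm
  rw [← mul_div_assoc, h, Finset.sum_div]
  apply Finset.sum_congr rfl
  intro j hj
  rw [Finset.mem_range] at hj
  rw [map_mul]
  have h5 : (p : ℝ) ^ n = (p : ℝ) ^ j * (p : ℝ) ^ (n - j) := by
    rw [← pow_add]
    congr 1
    omega
  rw [h5]
  field_simp

lemma bsm_almost (m n : ℕ) (_hn : 1 ≤ n) :
    |(n : ℝ) * bsm p m n - ∑ i ∈ Finset.range (min m n), bsm p m (n - 1 - i)| ≤
      8 * (1 / 2) ^ ((m + 1) / 2) := by
  have hp2 : (2 : ℝ) ≤ p := by exact_mod_cast hp.out.two_le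
  have hp0 : (0 : ℝ) < p := by linarith
  rw [bsm_rec, Finset.sum_range_succ', Lam_zero, map_zero, zero_div, zero_mul, add_zero]
  have h1 : ∑ i ∈ range n, (tot p (Lam p (fun d => d ≤ m) (i + 1)) / (p : ℝ) ^ (i + 1)) *
      bsm p m (n - (i + 1)) = ∑ i ∈ Finset.range (min m n), bsm p m (n - 1 - i) +
      ∑ i ∈ Finset.Ico (min m n) n, (tot p (Lam p (fun d => d ≤ m) (i + 1)) / (p : ℝ) ^ (i + 1)) *
      bsm p m (n - (i + 1)) := by
    rw [Finset.range_eq_Ico, ← Finset.sum_Ico_consecutive _ (Nat.zero_le _) (min_le_right m n)]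
    congr 1
    rw [← Finset.range_eq_Ico]
    apply Finset.sum_congr rfl
    intro i hi
    rw [Finset.mem_range] at hi
    have hi1 : i + 1 ≤ m := by
      have := min_le_left m n
      omega
    rw [tot_Lam_le (by omega) hi1, div_self (by positivity), one_mul]
    congr 1
    omega
  rw [h1, add_sub_cancel_left]
  rcases Nat.lt_or_ge m n with hmn | hmn
  · rw [min_eq_left hmn.le]
    have h2 : ∀ i ∈ Finset.Ico m n, |(tot p (Lam p (fun d => d ≤ m) (i + 1)) /
        (p : ℝ) ^ (i + 1)) * bsm p m (n - (i + 1))| ≤ 2 * (1 / 2) ^ ((i + 1) / 2) := by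
      intro i hi
      rw [Finset.mem_Ico] at hi
      have h3 : 0 ≤ tot p (Lam p (fun d => d ≤ m) (i + 1)) := tot_nonneg (Lam_nonneg _ _)
      rw [abs_of_nonneg (mul_nonneg (by positivity) (bsm_nonneg _ _))]
      have h4 : tot p (Lam p (fun d => d ≤ m) (i + 1)) / (p : ℝ) ^ (i + 1) ≤
          2 * (1 / 2) ^ ((i + 1) / 2) := by
        rw [div_le_iff₀ (by positivity)]
        refine (tot_Lam_gt' (by omega)).trans ?_
        have h5 : (p : ℝ) ^ (i + 1) = (p : ℝ) ^ ((i + 1) / 2) *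
            (p : ℝ) ^ ((i + 1) - (i + 1) / 2) := by
          rw [← pow_add]
          congr 1
          omega
        rw [h5]
        have h6 : (2 : ℝ) ^ ((i + 1) / 2) ≤ (p : ℝ) ^ ((i + 1) - (i + 1) / 2) := by
          calc (2 : ℝ) ^ ((i + 1) / 2) ≤ 2 ^ ((i + 1) - (i + 1) / 2) :=
                pow_le_pow_right₀ (by norm_num) (by omega)
            _ ≤ _ := pow_le_pow_left₀ (by norm_num) hp2 _
        have h7 : (1 / 2 : ℝ) ^ ((i + 1) / 2) * (2 : ℝ) ^ ((i + 1) / 2) = 1 := by
          rw [← mul_pow]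
          norm_num
        have h8 : 1 ≤ (1 / 2 : ℝ) ^ ((i + 1) / 2) * (p : ℝ) ^ ((i + 1) - (i + 1) / 2) :=
          h7.symm.le.trans (mul_le_mul_of_nonneg_left h6 (by positivity))
        have h9 : 0 < (p : ℝ) ^ ((i + 1) / 2) := by positivity
        nlinarith [mul_le_mul_of_nonneg_left h8 h9.le]
      calc _ ≤ 2 * (1 / 2) ^ ((i + 1) / 2) * 1 :=
            mul_le_mul h4 (bsm_le_one _ _) (bsm_nonneg _ _) (by positivity)
        _ = _ := by ring
    refine (Finset.abs_sum_le_sum_abs _ _).trans ((Finset.sum_le_sum h2).trans ?_)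
    rw [← Finset.mul_sum, Finset.sum_Ico_add' (fun i => ((1 : ℝ) / 2) ^ (i / 2)) m n 1]
    have h3 := sum_half_pow_le (m + 1) (n + 1)
    linarith
  · rw [min_eq_right hmn, Finset.Ico_self, Finset.sum_empty, abs_zero]
    positivity

/-- (8) quantitative form -/
theorem bsm_cperm (m n : ℕ) (hm : 1 ≤ m) : |bsm p m n - cperm n m| ≤ 8 * (1 / 2) ^ ((m + 1) / 2) :=
  rec_compare m hm (bsm p m) _ (by positivity) (bsm_zero m) (fun n hn => bsm_almost m n hn) n

open Classical in
/-- (8) -/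
theorem smooth_perm (p : ℕ) [Fact p.Prime] : ∀ ε : ℝ, 0 < ε → ∃ M0 : ℕ, ∀ m ≥ M0, ∀ n : ℕ,
    |(((mon p n).filter (Fac (fun d => d ≤ m))).card : ℝ) / (p : ℝ) ^ n - cperm n m| ≤ ε := by
  intro ε hε
  obtain ⟨k, hk⟩ : ∃ k : ℕ, ((1 : ℝ) / 2) ^ k < ε / 8 :=
    exists_pow_lt_of_lt_one (by positivity) (by norm_num)
  refine ⟨2 * k + 1, fun m hm n => ?_⟩
  have h1 := bsm_cperm (p := p) m n (by omega)
  unfold bsm at h1
  rw [tot_smo] at h1
  refine h1.trans ?_
  have h2 : ((1 : ℝ) / 2) ^ ((m + 1) / 2) ≤ (1 / 2) ^ k :=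
    pow_le_pow_of_le_one (by norm_num) (by norm_num) (by omega)
  linarith

end Pool.Agent.MP0a1886
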