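import Pool.Agent.MP0a1886.Level

/-! Assembling the total variation estimate. -/

set_option autoImplicit false
set_option linter.unusedSectionVars false
open Finset Polynomial

namespace Pool.Agent.MP0a1886

variable {p : ℕ} [hp : Fact p.Prime]

/-- the level of distribution, numerically -/
theorem exists_level (μ : ZMod p → ℝ) (h0 : ∀ a, 0 ≤ μ a) (h1 : ∑ a, μ a = 1)
    (hlt : ∀ a, μ a < 1) : ∃ J0 : ℕ, 0 < J0 ∧ ∃ C c : ℝ, 0 < C ∧ 0 < c ∧ ∀ n K : ℕ,
      J0 * (2 * K) ≤ n + 1 →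
      ∑ j ∈ Finset.Icc 1 K, (Real.sqrt 2 ^ p * (1 / Real.sqrt 2) ^ j) *
        ∑ l ∈ SF p j, GW μ (n + 1) l ≤ C * K * Real.exp (-(c * Real.sqrt n)) := by
  obtain ⟨ρ, hρ0, hρ1, hρ⟩ := exists_rho μ h0 h1 hlt
  obtain ⟨J0, hJ0, hJ⟩ := exists_J0 p ρ hρ0 hρ1
  have hpr : (0 : ℝ) < p := by exact_mod_cast hp.out.pos
  have hL : 0 < Real.log ρ⁻¹ := Real.log_pos ((one_lt_inv₀ hρ0).2 hρ1)
  have hb : 0 < Real.log (9 / 8) := Real.log_pos (by norm_num)
  have hri : 0 < ρ⁻¹ := inv_pos.2 hρ0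
  refine ⟨J0, hJ0, Real.sqrt 2 ^ p * (18 * p * ρ⁻¹),
    Real.sqrt (4 * (Real.log ρ⁻¹ / 2) * Real.log (9 / 8)), by positivity, by positivity, ?_⟩
  intro n K hK
  have h2 : ∀ j ∈ Finset.Icc 1 K, (Real.sqrt 2 ^ p * (1 / Real.sqrt 2) ^ j) *
        ∑ l ∈ SF p j, GW μ (n + 1) l ≤ Real.sqrt 2 ^ p * (18 * p * ρ⁻¹ *
          Real.exp (- (Real.sqrt (4 * (Real.log ρ⁻¹ / 2) * Real.log (9 / 8)) *
          Real.sqrt n))) := by
    intro j hj
    rw [Finset.mem_Icc] at hj
    have h3 : J0 * (2 * j) ≤ n + 1 :=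
      (Nat.mul_le_mul_left _ (Nat.mul_le_mul_left _ hj.2)).trans hK
    have hJpos : 0 < (n + 1) / (2 * j) := by
      apply Nat.div_pos _ (by omega)
      calc 2 * j = 1 * (2 * j) := by ring
        _ ≤ J0 * (2 * j) := Nat.mul_le_mul_right _ hJ0
        _ ≤ n + 1 := h3
    have h4 := sum_GW_bound μ h0 h1 ρ hρ j ((n + 1) / (2 * j)) (n + 1) hj.1 hJpos
      (Nat.mul_div_le _ _)
    have h5 := term_bound p ρ hρ0 hρ1 J0 hJ n j hj.1 h3
    rw [mul_assoc]
    apply mul_le_mul_of_nonneg_left _ (by positivity)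
    refine le_trans ?_ h5
    exact mul_le_mul_of_nonneg_left h4 (by positivity)
  refine (Finset.sum_le_card_nsmul _ _ _ h2).trans (le_of_eq ?_)
  rw [Nat.card_Icc, nsmul_eq_mul]
  push_cast
  ring

/-! ### the sets of irreducible factors -/

open Classical in
/-- the members of `PP` dividing `f` -/
noncomputable def facs (PP : Finset (ZMod p)[X]) (f : (ZMod p)[X]) : Finset (ZMod p)[X] :=
  PP.filter fun P => P ∣ f

lemma facs_subset (PP : Finset (ZMod p)[X]) (f : (ZMod p)[X]) : facs PP f ⊆ PP := by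
  classical
  exact Finset.filter_subset _ _

lemma subset_facs_iff (PP : Finset (ZMod p)[X]) (hPP : ∀ P ∈ PP, P.Monic ∧ Irreducible P)
    (T : Finset (ZMod p)[X]) (hT : T ⊆ PP) (f : (ZMod p)[X]) :
    T ⊆ facs PP f ↔ (∏ P ∈ T, P) ∣ f := by
  classical
  rw [prod_dvd_iff T fun P hP => hPP P (hT hP)]
  constructor
  · intro h P hP
    have := h hP
    unfold facs at this
    exact (Finset.mem_filter.1 this).2
  · intro h P hP
    unfold facs
    exact Finset.mem_filter.2 ⟨hT hP, h P hP⟩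

lemma wt_nonneg (μ : ZMod p → ℝ) (h0 : ∀ a, 0 ≤ μ a) (n : ℕ) (ε : Fin (n + 1) → ZMod p) :
    0 ≤ wt μ n ε := Finset.prod_nonneg fun _ _ => h0 _

lemma sum_wt (μ : ZMod p → ℝ) (h1 : ∑ a, μ a = 1) (n : ℕ) :
    ∑ ε : Fin (n + 1) → ZMod p, wt μ n ε = 1 := by
  unfold wt
  rw [sum_prod_pi (fun _ a => μ a)]
  simp [h1]

lemma hit_err (μ : ZMod p → ℝ) (n : ℕ) (PP : Finset (ZMod p)[X])
    (hPP : ∀ P ∈ PP, P.Monic ∧ Irreducible P) (T : Finset (ZMod p)[X]) (hT : T ⊆ PP) :
    |hit (wt μ n) (fun ε => facs PP (rpoly n ε)) T - ∏ P ∈ T, xw P|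
      = Err μ n (∏ P ∈ T, P) := by
  classical
  unfold Err
  rw [prod_xw T fun P hP => (hPP P (hT hP)).1]
  congr 2
  unfold hit Pr
  apply Finset.sum_congr rfl
  intro ε _
  by_cases h : (∏ P ∈ T, P) ∣ rpoly n ε
  · rw [if_pos h, if_pos ((subset_facs_iff PP hPP T hT _).2 h)]
  · rw [if_neg h, if_neg (fun h' => h ((subset_facs_iff PP hPP T hT _).1 h'))]

/-! ### the uniform model -/

/-- the probability that `E` holds for a uniformly random monic polynomial of degree `n` -/
noncomputable def PrU (p : ℕ) [Fact p.Prime] (n : ℕ) (E : (ZMod p)[X] → Prop) : ℝ := by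
  classical
  exact ∑ a : Fin n → ZMod p, if E (monPoly n a) then ((p : ℝ) ^ n)⁻¹ else 0

lemma sum_uniform (n : ℕ) : ∑ _a : Fin n → ZMod p, ((p : ℝ) ^ n)⁻¹ = 1 := by
  have hpr : (0 : ℝ) < p := by exact_mod_cast hp.out.pos
  rw [Finset.sum_const, Finset.card_univ, Fintype.card_fun, ZMod.card, Fintype.card_fin,
    nsmul_eq_mul]
  push_cast
  field_simp

lemma PrU_dvd (n : ℕ) (h : (ZMod p)[X]) (hh : h.Monic) (hn : h.natDegree ≤ n) :
    PrU p n (fun f => h ∣ f) = ((p : ℝ) ^ h.natDegree)⁻¹ := by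
  classical
  have hpr : (0 : ℝ) < p := by exact_mod_cast hp.out.pos
  have h1 : ((Finset.univ : Finset (Fin n → ZMod p)).filter fun a => h ∣ monPoly n a).card
      = p ^ (n - h.natDegree) := by
    rw [← card_mon (p := p) (n - h.natDegree)]
    symm
    refine Finset.card_bij (fun q _ => fun i : Fin n => (h * q).coeff i) ?_ ?_ ?_
    · intro q hq
      rw [mem_mon] at hq
      rw [Finset.mem_filter]
      refine ⟨Finset.mem_univ _, ?_⟩
      have hm : h * q ∈ mon p n := by
        rw [mem_mon]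
        refine ⟨hh.mul hq.1, ?_⟩
        rw [hh.natDegree_mul hq.1, hq.2]; omega
      unfold mon at hm
      rw [Finset.mem_image] at hm
      obtain ⟨a, _, ha⟩ := hm
      have h2 : (fun i : Fin n => (h * q).coeff i) = a := by
        funext i
        rw [← ha]
        unfold monPoly
        rw [Polynomial.coeff_add, coeff_lowPoly, Polynomial.coeff_X_pow]
        rw [if_neg (by have := i.2; omega), dif_pos i.2, zero_add]
      rw [h2, ha]
      exact dvd_mul_right h q
    · intro q hq q' hq' heq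
      rw [mem_mon] at hq hq'
      have h3 : h * q = h * q' := by
        ext i
        by_cases hi : i < n
        · exact congrFun heq ⟨i, hi⟩
        · have h4 : (h * q).Monic := hh.mul hq.1
          have h5 : (h * q').Monic := hh.mul hq'.1
          have h6 : (h * q).natDegree = n := by rw [hh.natDegree_mul hq.1, hq.2]; omega
          have h7 : (h * q').natDegree = n := by rw [hh.natDegree_mul hq'.1, hq'.2]; omega
          rcases eq_or_lt_of_le (not_lt.1 hi) with h8 | h8
          · have h9 := h4.coeff_natDegree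
            have h10 := h5.coeff_natDegree
            rw [h6] at h9
            rw [h7] at h10
            rw [← h8, h9, h10]
          · rw [Polynomial.coeff_eq_zero_of_natDegree_lt (by omega),
              Polynomial.coeff_eq_zero_of_natDegree_lt (by omega)]
      exact mul_left_cancel₀ hh.ne_zero h3
    · intro a ha
      rw [Finset.mem_filter] at ha
      obtain ⟨q, hq⟩ := ha.2
      have hm := monPoly_monic n a
      have hqm : q.Monic := by
        rw [hq] at hm
        exact hh.of_mul_monic_left hm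
      refine ⟨q, ?_, ?_⟩
      · rw [mem_mon]
        refine ⟨hqm, ?_⟩
        have h2 := natDegree_monPoly n a
        rw [hq, hh.natDegree_mul hqm] at h2
        omega
      · funext i
        rw [← hq]
        unfold monPoly
        rw [Polynomial.coeff_add, coeff_lowPoly, Polynomial.coeff_X_pow]
        rw [if_neg (by have := i.2; omega), dif_pos i.2, zero_add]
  unfold PrU
  rw [← Finset.sum_filter, Finset.sum_const, h1, nsmul_eq_mul]
  push_cast
  have h2 : (p : ℝ) ^ n = (p : ℝ) ^ (n - h.natDegree) * (p : ℝ) ^ h.natDegree := by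
    rw [← pow_add]
    congr 1
    omega
  rw [h2]
  field_simp

lemma hit_uniform (n : ℕ) (PP : Finset (ZMod p)[X])
    (hPP : ∀ P ∈ PP, P.Monic ∧ Irreducible P) (T : Finset (ZMod p)[X]) (hT : T ⊆ PP)
    (hn : ∑ P ∈ T, P.natDegree ≤ n) :
    hit (fun _ : Fin n → ZMod p => ((p : ℝ) ^ n)⁻¹) (fun a => facs PP (monPoly n a)) T
      - ∏ P ∈ T, xw P = 0 := by
  classical
  have hm := fun P hP => (hPP P (hT hP)).1
  rw [prod_xw T hm, ← PrU_dvd n (∏ P ∈ T, P) (Polynomial.monic_prod_of_monic _ _ hm)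
    (by rw [Polynomial.natDegree_prod_of_monic _ _ hm]; exact hn), sub_eq_zero]
  unfold hit PrU
  apply Finset.sum_congr rfl
  intro ε _
  by_cases h : (∏ P ∈ T, P) ∣ monPoly n ε
  · rw [if_pos h, if_pos ((subset_facs_iff PP hPP T hT _).2 h)]
  · rw [if_neg h, if_neg (fun h' => h ((subset_facs_iff PP hPP T hT _).1 h'))]

end Pool.Agent.MP0a1886
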