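import Pool.Agent.MP0a1886.Final2

/-! Explicit families of near-uniform laws for MP_0a1886_pr. -/

set_option autoImplicit false
set_option linter.unusedSectionVars false
open Finset Polynomial

namespace Pool.Agent.MP0a1886

variable {p : ℕ} [hp : Fact p.Prime]

lemma sum_mw_sq (μ : ZMod p → ℝ) : ∑ c, mw μ c ^ 2 = p * ∑ a, μ a ^ 2 := by
  classical
  have h1 : ((∑ c, mw μ c ^ 2 : ℝ) : ℂ) = ((p * ∑ a, μ a ^ 2 : ℝ) : ℂ) := by
    push_cast
    have h2 : ∀ c : ZMod p, ((mw μ c : ℂ)) ^ 2 = ∑ a : ZMod p, ∑ b : ZMod p,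
        (μ a : ℂ) * (μ b : ℂ) * ZMod.stdAddChar (c * (a - b)) := by
      intro c
      unfold mw
      rw [← Complex.mul_conj']
      unfold muhat
      rw [map_sum, Finset.sum_mul_sum]
      apply Finset.sum_congr rfl
      intro a _
      apply Finset.sum_congr rfl
      intro b _
      rw [(starRingEnd ℂ).map_mul, Complex.conj_ofReal, ← AddChar.map_neg_eq_conj]
      have h3 : c * (a - b) = a * c + -(b * c) := by ring
      rw [h3, AddChar.map_add_eq_mul]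
      ring
    rw [Finset.sum_congr rfl (fun c _ => h2 c), Finset.sum_comm, Finset.mul_sum]
    apply Finset.sum_congr rfl
    intro a _
    rw [Finset.sum_comm, Finset.sum_eq_single a]
    · rw [← Finset.mul_sum, AddChar.sum_mulShift _ (ZMod.isPrimitive_stdAddChar p),
        if_pos (sub_self a), ZMod.card]
      ring
    · intro b _ hb
      rw [← Finset.mul_sum, AddChar.sum_mulShift _ (ZMod.isPrimitive_stdAddChar p), if_neg]
      · simp
      · intro h4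
        exact hb (sub_eq_zero.1 h4).symm
    · simp
  exact_mod_cast h1

lemma sum_mw_rpow_le (μ : ZMod p → ℝ) (h1 : ∑ a, μ a = 1) (t : ℝ)
    (ht1 : 1 ≤ t) (ht2 : t < 2) :
    ∑ c, mw μ c ^ t ≤ 1 + (p : ℝ) ^ (1 - t / 2) * ((p : ℝ) * ∑ a, μ a ^ 2 - 1) ^ (t / 2) := by
  classical
  have hp0 : (0 : ℝ) < p := by exact_mod_cast hp.out.pos
  have hsq := sum_mw_sq μ
  rw [← Finset.add_sum_erase _ _ (Finset.mem_univ (0 : ZMod p)), mw_zero μ h1] at hsq
  rw [← Finset.add_sum_erase _ _ (Finset.mem_univ (0 : ZMod p)), mw_zero μ h1, Real.one_rpow]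
  have hV : ∑ c ∈ (Finset.univ : Finset (ZMod p)).erase 0, mw μ c ^ 2 =
      (p : ℝ) * ∑ a, μ a ^ 2 - 1 := by
    rw [← hsq]; ring
  rw [← hV]
  apply add_le_add le_rfl
  have hconj : (2 / t).HolderConjugate (1 - t / 2)⁻¹ := by
    rw [Real.holderConjugate_iff]
    constructor
    · rw [lt_div_iff₀ (by linarith)]
      linarith
    · rw [inv_inv]
      field_simp
      ring
  have h2 := Real.inner_le_Lp_mul_Lq ((Finset.univ : Finset (ZMod p)).erase 0)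
    (fun c => mw μ c ^ t) (fun _ => 1) hconj
  simp only [mul_one, abs_one, Real.one_rpow, Finset.sum_const, nsmul_eq_mul] at h2
  refine h2.trans ?_
  have h3 : ∀ c : ZMod p, |mw μ c ^ t| ^ (2 / t) = mw μ c ^ 2 := by
    intro c
    rw [abs_of_nonneg (Real.rpow_nonneg (mw_nonneg μ c) t), ← Real.rpow_mul (mw_nonneg μ c)]
    have : t * (2 / t) = ((2 : ℕ) : ℝ) := by
      push_cast
      field_simp
    rw [this, Real.rpow_natCast]
  simp_rw [h3]
  rw [mul_comm]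
  have h4 : (1 : ℝ) / (2 / t) = t / 2 := by field_simp
  have h5 : (1 : ℝ) / (1 - t / 2)⁻¹ = 1 - t / 2 := by rw [one_div, inv_inv]
  rw [h4, h5]
  apply mul_le_mul_of_nonneg_right
  · apply Real.rpow_le_rpow (by positivity) _ (by linarith)
    rw [Finset.card_erase_of_mem (Finset.mem_univ _), Finset.card_univ, ZMod.card]
    exact_mod_cast Nat.sub_le p 1
  · exact Real.rpow_nonneg (Finset.sum_nonneg fun c _ => by positivity) _

lemma chi_nonneg (μ : ZMod p → ℝ) (h1 : ∑ a, μ a = 1) : 0 ≤ (p : ℝ) * ∑ a, μ a ^ 2 - 1 := by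
  classical
  have hsq := sum_mw_sq μ
  rw [← Finset.add_sum_erase _ _ (Finset.mem_univ (0 : ZMod p)), mw_zero μ h1] at hsq
  have : 0 ≤ ∑ c ∈ (Finset.univ : Finset (ZMod p)).erase 0, mw μ c ^ 2 :=
    Finset.sum_nonneg fun c _ => by positivity
  linarith

/-- the criterion in terms of the second moment -/
lemma crit (μ : ZMod p → ℝ) (h1 : ∑ a, μ a = 1) (y τ : ℝ) (hy : 1 < y) (hτ0 : 0 < τ)
    (hτ1 : τ ≤ 1) (hpy : (p : ℝ) ^ τ = y ^ 6)
    (hV : y ^ 3 * ((p : ℝ) * ∑ a, μ a ^ 2 - 1) ^ (1 - τ / 2) < y - 1) :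
    (∑ c, mw μ c ^ (2 - τ)) ^ 6 < (p : ℝ) ^ (2 - (2 - τ)) := by
  have hp0 : (0 : ℝ) < p := by exact_mod_cast hp.out.pos
  have h2 := sum_mw_rpow_le μ h1 (2 - τ) (by linarith) (by linarith)
  rw [show 1 - (2 - τ) / 2 = τ / 2 by ring, show (2 - τ) / 2 = 1 - τ / 2 by ring] at h2
  have h3 : (p : ℝ) ^ (τ / 2) = y ^ 3 := by
    have h4 : ((p : ℝ) ^ (τ / 2)) ^ 2 = (y ^ 3) ^ 2 := by
      rw [← Real.rpow_natCast, ← Real.rpow_mul hp0.le, ← pow_mul]
      rw [show τ / 2 * ((2 : ℕ) : ℝ) = τ by push_cast; ring, hpy]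
    exact (pow_left_inj₀ (by positivity) (by positivity) (by norm_num)).1 h4
  rw [h3] at h2
  have h5 : ∑ c, mw μ c ^ (2 - τ) < y := by linarith
  rw [show 2 - (2 - τ) = τ by ring, hpy]
  apply pow_lt_pow_left₀ h5 _ (by norm_num)
  exact Finset.sum_nonneg fun c _ => Real.rpow_nonneg (mw_nonneg μ c) _

/-- for every `p`, an absolute constant works -/
lemma crit_abs (μ : ZMod p → ℝ) (h1 : ∑ a, μ a = 1)
    (hV : (p : ℝ) * ∑ a, μ a ^ 2 ≤ 1 + 1 / 55) :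
    ∃ t : ℝ, 1 ≤ t ∧ t < 2 ∧ (∑ c, mw μ c ^ t) ^ 6 < (p : ℝ) ^ (2 - t) := by
  have hp2 : (2 : ℝ) ≤ p := by exact_mod_cast hp.out.two_le
  have hp0 : (0 : ℝ) < p := by linarith
  have hlp : 0 < Real.log p := Real.log_pos (by linarith)
  obtain ⟨y, hy⟩ : ∃ y : ℝ, y = 1.059 := ⟨_, rfl⟩
  have hy1 : 1 < y := by rw [hy]; norm_num
  have hly : 0 < Real.log y := Real.log_pos hy1
  obtain ⟨τ, hτ⟩ : ∃ τ, τ = 6 * Real.log y / Real.log p := ⟨_, rfl⟩
  have hτ0 : 0 < τ := by rw [hτ]; positivity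
  have hτ2 : τ ≤ 1 / 2 := by
    rw [hτ, div_le_iff₀ hlp]
    have h2 : 12 * Real.log y ≤ Real.log p := by
      have h3 : Real.log (y ^ 12) ≤ Real.log p := by
        apply Real.log_le_log (by positivity)
        have : y ^ 12 ≤ 2 := by rw [hy]; norm_num
        linarith
      rw [Real.log_pow] at h3
      push_cast at h3
      exact h3
    linarith
  have hpy : (p : ℝ) ^ τ = y ^ 6 := by
    rw [Real.rpow_def_of_pos hp0, hτ]
    have h2 : Real.log p * (6 * Real.log y / Real.log p) = ((6 : ℕ) : ℝ) * Real.log y := by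
      push_cast
      field_simp
    rw [h2, ← Real.log_pow, Real.exp_log (by positivity)]
  refine ⟨2 - τ, by linarith, by linarith, crit μ h1 y τ hy1 hτ0 (by linarith) hpy ?_⟩
  have hV0 := chi_nonneg μ h1
  have h2 : ((p : ℝ) * ∑ a, μ a ^ 2 - 1) ^ (1 - τ / 2) ≤ (1 / 55 : ℝ) ^ (3 / 4 : ℝ) := by
    calc ((p : ℝ) * ∑ a, μ a ^ 2 - 1) ^ (1 - τ / 2) ≤ (1 / 55 : ℝ) ^ (1 - τ / 2) :=
          Real.rpow_le_rpow hV0 (by linarith) (by linarith)
      _ ≤ (1 / 55 : ℝ) ^ (3 / 4 : ℝ) :=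
          Real.rpow_le_rpow_of_exponent_ge (by norm_num) (by norm_num) (by linarith)
  have h3 : (1 / 55 : ℝ) ^ (3 / 4 : ℝ) < (y - 1) / y ^ 3 := by
    apply lt_of_pow_lt_pow_left₀ 4 (by rw [hy]; norm_num)
    rw [← Real.rpow_natCast, ← Real.rpow_mul (by norm_num)]
    rw [show (3 / 4 : ℝ) * ((4 : ℕ) : ℝ) = ((3 : ℕ) : ℝ) by push_cast; norm_num,
      Real.rpow_natCast, hy]
    norm_num
  have hy3 : 0 < y ^ 3 := by positivity
  calc y ^ 3 * ((p : ℝ) * ∑ a, μ a ^ 2 - 1) ^ (1 - τ / 2)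
      ≤ y ^ 3 * (1 / 55 : ℝ) ^ (3 / 4 : ℝ) := mul_le_mul_of_nonneg_left h2 hy3.le
    _ < y ^ 3 * ((y - 1) / y ^ 3) := mul_lt_mul_of_pos_left h3 hy3
    _ = y - 1 := by field_simp

/-- for large `p`, second moment up to `(1 + 4/27)/p` -/
lemma crit_large (V : ℝ) (hV : V < 4 / 27) : ∃ p0 : ℕ, ∀ p : ℕ, ∀ _ : Fact p.Prime, p0 ≤ p →
    ∀ μ : ZMod p → ℝ, ∑ a, μ a = 1 → (p : ℝ) * ∑ a, μ a ^ 2 ≤ 1 + V →
    ∃ t : ℝ, 1 ≤ t ∧ t < 2 ∧ (∑ c, mw μ c ^ t) ^ 6 < (p : ℝ) ^ (2 - t) := by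
  obtain ⟨W, hW⟩ : ∃ W, W = max V (1 / 27) := ⟨_, rfl⟩
  have hW0 : 0 < W := by
    rw [hW]
    exact lt_max_of_lt_right (by norm_num)
  have hW1 : W < 4 / 27 := by rw [hW]; exact max_lt hV (by norm_num)
  have hVW : V ≤ W := by rw [hW]; exact le_max_left _ _
  have hly : 0 < Real.log (3 / 2 : ℝ) := Real.log_pos (by norm_num)
  have ht1 : Filter.Tendsto (fun n : ℕ => 6 * Real.log (3 / 2 : ℝ) / Real.log n) Filter.atTop
      (nhds 0) :=
    Filter.Tendsto.const_div_atTop (Real.tendsto_log_atTop.comp tendsto_natCast_atTop_atTop) _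
  have ht2 : Filter.Tendsto (fun n : ℕ => W ^ (1 - 6 * Real.log (3 / 2 : ℝ) / Real.log n / 2))
      Filter.atTop (nhds (W ^ (1 - (0 : ℝ) / 2))) := by
    have ht3 := (ht1.div_const 2).const_sub 1
    exact (Real.continuousAt_const_rpow hW0.ne').tendsto.comp ht3
  rw [zero_div, sub_zero, Real.rpow_one] at ht2
  obtain ⟨N1, hN1⟩ := (ht1.eventually (gt_mem_nhds (by norm_num : (0 : ℝ) < 1))).exists_forall_of_atTop
  obtain ⟨N2, hN2⟩ := (ht2.eventually (gt_mem_nhds hW1)).exists_forall_of_atTop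
  refine ⟨max N1 N2, ?_⟩
  intro p hp hpN μ h1 hμV
  have hp2 : (2 : ℝ) ≤ p := by exact_mod_cast hp.out.two_le
  have hp0 : (0 : ℝ) < p := by linarith
  have hlp : 0 < Real.log p := Real.log_pos (by linarith)
  have e1 := hN1 p ((le_max_left _ _).trans hpN)
  have e2 := hN2 p ((le_max_right _ _).trans hpN)
  obtain ⟨τ, hτ⟩ : ∃ τ, τ = 6 * Real.log (3 / 2 : ℝ) / Real.log p := ⟨_, rfl⟩
  rw [← hτ] at e1 e2
  have hτ0 : 0 < τ := by rw [hτ]; positivity
  have hpy : (p : ℝ) ^ τ = (3 / 2 : ℝ) ^ 6 := by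
    rw [Real.rpow_def_of_pos hp0, hτ]
    have h2 : Real.log p * (6 * Real.log (3 / 2 : ℝ) / Real.log p) =
        ((6 : ℕ) : ℝ) * Real.log (3 / 2 : ℝ) := by
      push_cast
      field_simp
    rw [h2, ← Real.log_pow, Real.exp_log (by positivity)]
  refine ⟨2 - τ, by linarith, by linarith, crit μ h1 (3 / 2) τ (by norm_num) hτ0 e1.le hpy ?_⟩
  have hV0 := chi_nonneg μ h1
  have h2 : ((p : ℝ) * ∑ a, μ a ^ 2 - 1) ^ (1 - τ / 2) ≤ W ^ (1 - τ / 2) :=
    Real.rpow_le_rpow hV0 (by linarith) (by linarith)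
  have h3 : W ^ (1 - τ / 2) < 4 / 27 := e2
  nlinarith

end Pool.Agent.MP0a1886
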