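import Pool.Agent.MP0a1886.Assemble

/-! The total variation estimate. -/

set_option autoImplicit false
set_option linter.unusedSectionVars false
open Finset Polynomial

namespace Pool.Agent.MP0a1886

variable {p : ℕ} [hp : Fact p.Prime]

lemma prs_spec {a b : ℕ} : ∀ P ∈ prs p a b, P.Monic ∧ Irreducible P := fun P hP => by
  rw [mem_prs] at hP; exact ⟨hP.2.2.2.1, hP.2.2.2.2⟩

lemma kappa_le (a b i : ℕ) :
    ∑ P ∈ (prs p a b).filter (fun P => Nat.log 2 P.natDegree = i), xw P ≤ 1 := by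
  have h := sum_irr_le (p := p) (Finset.Ico (2 ^ i) (2 ^ (i + 1)))
    (fun d hd => by
      rw [Finset.mem_Ico] at hd
      have : 0 < 2 ^ i := by positivity
      omega)
    (fun _ => 1) (fun _ _ => zero_le_one)
    ((prs p a b).filter (fun P => Nat.log 2 P.natDegree = i))
    (by
      intro P hP
      rw [Finset.mem_filter] at hP
      have h1 := mem_prs.1 hP.1
      refine ⟨h1.2.2.2.1, h1.2.2.2.2, ?_⟩
      rw [Finset.mem_Ico, ← hP.2]
      exact ⟨Nat.pow_log_le_self 2 (by omega), Nat.lt_pow_succ_log_self (by norm_num) _⟩)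
  simp only [mul_one] at h
  refine h.trans ?_
  have h2 : ∀ d ∈ Finset.Ico (2 ^ i) (2 ^ (i + 1)), (1 : ℝ) / ((d : ℕ) : ℝ) ≤ 1 / 2 ^ i := by
    intro d hd
    rw [Finset.mem_Ico] at hd
    apply one_div_le_one_div_of_le (by positivity)
    exact_mod_cast hd.1
  refine (Finset.sum_le_card_nsmul _ _ _ h2).trans (le_of_eq ?_)
  rw [Nat.card_Ico, nsmul_eq_mul, pow_succ]
  have : 2 ^ i * 2 - 2 ^ i = 2 ^ i := by omega
  rw [this]
  push_cast
  field_simp

lemma sum_xw_deg_le (m : ℕ) : ∑ P ∈ prs p 0 m, xw P * (P.natDegree : ℝ) ≤ m := by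
  have h := sum_irr_le (p := p) (Finset.Ioc 0 m)
    (fun d hd => by rw [Finset.mem_Ioc] at hd; omega)
    (fun d => (d : ℝ)) (fun _ _ => by positivity) (prs p 0 m)
    (by
      intro P hP
      have h1 := mem_prs.1 hP
      exact ⟨h1.2.2.2.1, h1.2.2.2.2, Finset.mem_Ioc.2 ⟨h1.2.1, h1.2.2.1⟩⟩)
  refine h.trans ?_
  have h2 : ∀ d ∈ Finset.Ioc 0 m, (1 : ℝ) / d * d ≤ 1 := by
    intro d hd
    rw [Finset.mem_Ioc] at hd
    have : (0 : ℝ) < d := by exact_mod_cast hd.1
    rw [one_div_mul_cancel this.ne']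
  refine (Finset.sum_le_card_nsmul _ _ _ h2).trans (le_of_eq ?_)
  rw [Nat.card_Ioc, nsmul_eq_mul]
  simp

lemma sum_xw_le (m : ℕ) : ∑ P ∈ prs p 0 m, xw P ≤ 1 + Real.log m := by
  have h := sum_irr_le (p := p) (Finset.Ioc 0 m)
    (fun d hd => by rw [Finset.mem_Ioc] at hd; omega)
    (fun _ => 1) (fun _ _ => zero_le_one) (prs p 0 m)
    (by
      intro P hP
      have h1 := mem_prs.1 hP
      exact ⟨h1.2.2.2.1, h1.2.2.2.2, Finset.mem_Ioc.2 ⟨h1.2.1, h1.2.2.1⟩⟩)
  simp only [mul_one] at h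
  refine h.trans ?_
  have h2 := harmonic_le_one_add_log m
  refine le_trans (le_of_eq ?_) h2
  rw [harmonic_eq_sum_Icc]
  push_cast
  apply Finset.sum_congr
  · ext d
    simp [Finset.mem_Ioc, Finset.mem_Icc]
    omega
  · intro d _
    rw [one_div]

lemma exp_sub_one_le {t : ℝ} (h0 : 0 ≤ t) (h1 : t ≤ 1) : Real.exp t - 1 ≤ 2 * t := by
  have h := Real.abs_exp_sub_one_sub_id_le (x := t) (by rw [abs_of_nonneg h0]; exact h1)
  have h2 := (abs_le.1 h).2
  nlinarith

open Classical in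
/-- the total variation estimate for an abstract source of polynomials -/
theorem tv_core {Ω : Type*} [Fintype Ω] (W : Ω → ℝ) (F : Ω → (ZMod p)[X])
    (hW : ∀ ω, 0 ≤ W ω) (hW1 : ∑ ω, W ω = 1) (m R : ℕ) (hm : 1 ≤ m)
    (E : Finset (ZMod p)[X] → Prop) :
    |(∑ ω, if E (facs (prs p 0 m) (F ω)) then W ω else 0)
        - ∑ Q ∈ (prs p 0 m).powerset, if E Q then model xw (prs p 0 m) Q else 0|
      ≤ (11 * Real.exp 11 + 1) * (1 / 4) ^ R
        + (m + 2) * ∑ H ∈ (prs p 0 m).powerset,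
          (if ∑ P ∈ H, P.natDegree ≤ 2 * (4 * m * (2 * R + 3)) then
            2 ^ H.card * |hit W (fun ω => facs (prs p 0 m) (F ω)) H - ∏ P ∈ H, xw P| else 0) := by
  set I := Nat.log 2 m with hI
  set PP := prs p 0 m with hPP
  set K := 4 * m * (2 * R + 3) with hK
  have hlog : ∀ P ∈ PP, Nat.log 2 P.natDegree < I + 1 := by
    intro P hP
    rw [hPP, mem_prs] at hP
    have := Nat.log_mono_right (b := 2) hP.2.2.1
    omega
  have hpos : ∀ P ∈ PP, 1 ≤ P.natDegree := by
    intro P hP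
    rw [hPP, mem_prs] at hP
    omega
  have h1 := tv_bound W (fun ω => facs PP (F ω)) PP (fun ω => facs_subset PP _) hW hW1
    (fun P => Nat.log 2 P.natDegree) (I + 1) (fun i => R + (I - i)) xw hlog
    (fun P _ => xw_nonneg P) (fun P hP => xw_le_half (hpos P hP))
    (fun i _ => kappa_le 0 m i) Polynomial.natDegree (fun i => 2 ^ (i + 1))
    (fun P _ => (Nat.lt_pow_succ_log_self (by norm_num) _).le) K
    (by
      have h2 := sum_params R I
      have h3 : 2 ^ (I + 2) * (2 * R + 3) ≤ K := by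
        rw [hK]
        apply Nat.mul_le_mul_right
        have : 2 ^ I ≤ m := Nat.pow_log_le_self 2 (by omega)
        calc 2 ^ (I + 2) = 4 * 2 ^ I := by ring
          _ ≤ 4 * m := Nat.mul_le_mul_left _ this
      omega)
    E
  refine h1.trans ?_
  have hη : ∑ i ∈ Finset.range (I + 1), eta (fun i => R + (I - i)) i ≤ 11 * (1 / 4) ^ R :=
    sum_eta_le R I
  have hη0 : 0 ≤ ∑ i ∈ Finset.range (I + 1), eta (fun i => R + (I - i)) i :=
    Finset.sum_nonneg fun i _ => eta_nonneg _ i
  have hR1 : (1 / 4 : ℝ) ^ R ≤ 1 := pow_le_one₀ (by norm_num) (by norm_num)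
  have hR0 : (0 : ℝ) < (1 / 4) ^ R := by positivity
  have hεb : (∑ i ∈ Finset.range (I + 1), eta (fun i => R + (I - i)) i) *
      Real.exp (∑ i ∈ Finset.range (I + 1), eta (fun i => R + (I - i)) i)
      ≤ 11 * Real.exp 11 * (1 / 4) ^ R := by
    have h4 : Real.exp (∑ i ∈ Finset.range (I + 1), eta (fun i => R + (I - i)) i)
        ≤ Real.exp 11 := by
      apply Real.exp_le_exp.2
      nlinarith
    calc _ ≤ (11 * (1 / 4) ^ R) * Real.exp 11 := by
          apply mul_le_mul hη h4 (Real.exp_pos _).le (by positivity)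
      _ = _ := by ring
  have hm0 : (0 : ℝ) < m := by exact_mod_cast hm
  have htail : ∑ Q ∈ PP.powerset, (if K < ∑ P ∈ Q, P.natDegree then model xw PP Q else 0)
      ≤ (1 / 4) ^ R := by
    have h5 := model_tail xw (fun P : (ZMod p)[X] => (P.natDegree : ℝ) / m) PP
      (fun P _ => xw_nonneg P) (fun P hP => (xw_le_half (hpos P hP)).trans (by norm_num))
      ((K : ℝ) / m)
    have h6 : ∑ Q ∈ PP.powerset, (if K < ∑ P ∈ Q, P.natDegree then model xw PP Q else 0)
        = ∑ Q ∈ PP.powerset, (if (K : ℝ) / m < ∑ P ∈ Q, (P.natDegree : ℝ) / m then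
            model xw PP Q else 0) := by
      apply Finset.sum_congr rfl
      intro Q _
      have h7 : (K : ℝ) / m < ∑ P ∈ Q, (P.natDegree : ℝ) / m ↔ K < ∑ P ∈ Q, P.natDegree := by
        rw [← Finset.sum_div, div_lt_div_iff_of_pos_right hm0]
        constructor
        · intro h; exact_mod_cast h
        · intro h; exact_mod_cast h
      by_cases h8 : K < ∑ P ∈ Q, P.natDegree
      · rw [if_pos h8, if_pos (h7.2 h8)]
      · rw [if_neg h8, if_neg (fun h9 => h8 (h7.1 h9))]
    rw [h6]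
    refine h5.trans ?_
    have h9 : ∑ P ∈ PP, xw P * (Real.exp ((P.natDegree : ℝ) / m) - 1) ≤ 2 := by
      have h10 : ∀ P ∈ PP, xw P * (Real.exp ((P.natDegree : ℝ) / m) - 1) ≤
          (2 / m) * (xw P * (P.natDegree : ℝ)) := by
        intro P hP
        have h11 : (P.natDegree : ℝ) / m ≤ 1 := by
          rw [div_le_one hm0]
          rw [hPP, mem_prs] at hP
          exact_mod_cast hP.2.2.1
        have h12 := exp_sub_one_le (t := (P.natDegree : ℝ) / m) (by positivity) h11
        calc xw P * (Real.exp ((P.natDegree : ℝ) / m) - 1)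
            ≤ xw P * (2 * ((P.natDegree : ℝ) / m)) :=
              mul_le_mul_of_nonneg_left h12 (xw_nonneg P)
          _ = _ := by ring
      refine (Finset.sum_le_sum h10).trans ?_
      rw [← Finset.mul_sum]
      calc (2 / (m : ℝ)) * ∑ P ∈ PP, xw P * (P.natDegree : ℝ) ≤ (2 / m) * m := by
            apply mul_le_mul_of_nonneg_left (sum_xw_deg_le m) (by positivity)
        _ = 2 := by field_simp
    rw [← Real.exp_add]
    have h13 : (K : ℝ) / m = 8 * R + 12 := by
      rw [hK]; push_cast; field_simp; ring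
    rw [h13]
    have h14 : (1 / 4 : ℝ) ^ R = Real.exp (- (Real.log 4 * R)) := by
      rw [← Real.exp_log (by norm_num : (0 : ℝ) < 1 / 4), ← Real.exp_nat_mul]
      congr 1
      rw [one_div, Real.log_inv]; ring
    rw [h14]
    apply Real.exp_le_exp.2
    have h15 : Real.log 4 ≤ 8 := by
      have := Real.log_le_sub_one_of_pos (by norm_num : (0 : ℝ) < 4)
      linarith
    have h16 : (0 : ℝ) ≤ R := by positivity
    nlinarith
  have hI2 : ((I + 1 : ℕ) : ℝ) + 1 ≤ m + 2 := by
    have : I ≤ m := Nat.log_le_self 2 m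
    push_cast
    have : (I : ℝ) ≤ m := by exact_mod_cast this
    linarith
  have hnn : 0 ≤ ∑ H ∈ PP.powerset, (if ∑ P ∈ H, P.natDegree ≤ 2 * K then
            2 ^ H.card * |hit W (fun ω => facs PP (F ω)) H - ∏ P ∈ H, xw P| else 0) := by
    apply Finset.sum_nonneg
    intro H _
    split_ifs
    · positivity
    · exact le_rfl
  have hlast := mul_le_mul_of_nonneg_right hI2 hnn
  linarith

/-- bound for the sieve parameter -/
lemma param_bound (J0 n m : ℕ) (hJ0 : 0 < J0) (hm : 1 ≤ m) (hq : 3 ≤ n / (16 * J0 * m)) :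
    16 * J0 * m * (2 * ((n / (16 * J0 * m) - 3) / 2) + 3) ≤ n ∧
    (1 / 4 : ℝ) ^ ((n / (16 * J0 * m) - 3) / 2) ≤
      Real.exp 3 * Real.exp (-(1 / (32 * J0) * ((n : ℝ) / m))) := by
  set q := n / (16 * J0 * m) with hqdef
  set R := (q - 3) / 2 with hR
  constructor
  · have h1 : 2 * R + 3 ≤ q := by omega
    calc 16 * J0 * m * (2 * R + 3) ≤ 16 * J0 * m * q := Nat.mul_le_mul_left _ h1
      _ ≤ n := Nat.mul_div_le _ _
  · have hpos : 0 < 16 * J0 * m := by positivity
    have hm0 : (0 : ℝ) < m := by exact_mod_cast hm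
    have hJr : (0 : ℝ) < J0 := by exact_mod_cast hJ0
    have h1 : q ≤ 2 * R + 4 := by omega
    have h2 : n < 16 * J0 * m * (q + 1) := by
      have := Nat.div_add_mod n (16 * J0 * m)
      have := Nat.mod_lt n hpos
      rw [← hqdef] at *
      nlinarith
    have h3 : (n : ℝ) < 16 * J0 * m * (2 * R + 5) := by
      have h4 : n < 16 * J0 * m * (2 * R + 5) :=
        h2.trans_le (Nat.mul_le_mul_left _ (by omega))
      exact_mod_cast h4
    have h5 : (n : ℝ) / m < 16 * J0 * (2 * R + 5) := by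
      rw [div_lt_iff₀ hm0]
      linarith
    have h6 : 1 / (32 * (J0 : ℝ)) * ((n : ℝ) / m) < R + 3 := by
      rw [one_div_mul_eq_div, div_lt_iff₀ (by positivity)]
      nlinarith
    have h14 : (1 / 4 : ℝ) ^ R = Real.exp (- (Real.log 4 * R)) := by
      rw [← Real.exp_log (by norm_num : (0 : ℝ) < 1 / 4), ← Real.exp_nat_mul]
      congr 1
      rw [one_div, Real.log_inv]; ring
    rw [h14, ← Real.exp_add]
    apply Real.exp_le_exp.2
    have h15 : 1 ≤ Real.log 4 := by
      rw [Real.le_log_iff_exp_le (by norm_num)]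
      linarith [Real.exp_one_lt_d9]
    have h16 : (0 : ℝ) ≤ R := by positivity
    nlinarith

lemma Pr_eq (μ : ZMod p → ℝ) (n : ℕ) (E : (ZMod p)[X] → Prop) [DecidablePred E] :
    Pr μ n E = ∑ ε : Fin (n + 1) → ZMod p, if E (rpoly n ε) then wt μ n ε else 0 := by
  unfold Pr
  apply Finset.sum_congr rfl
  intro ε _
  congr

lemma PrU_eq (n : ℕ) (E : (ZMod p)[X] → Prop) [DecidablePred E] :
    PrU p n E = ∑ a : Fin n → ZMod p, if E (monPoly n a) then ((p : ℝ) ^ n)⁻¹ else 0 := by
  unfold PrU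
  apply Finset.sum_congr rfl
  intro ε _
  congr

lemma Pr_nonneg (μ : ZMod p → ℝ) (h0 : ∀ a, 0 ≤ μ a) (n : ℕ) (E : (ZMod p)[X] → Prop) :
    0 ≤ Pr μ n E := by
  classical
  rw [Pr_eq]
  apply Finset.sum_nonneg
  intro ε _
  split_ifs
  · exact wt_nonneg μ h0 n ε
  · exact le_rfl

lemma Pr_le_one (μ : ZMod p → ℝ) (h0 : ∀ a, 0 ≤ μ a) (h1 : ∑ a, μ a = 1) (n : ℕ)
    (E : (ZMod p)[X] → Prop) : Pr μ n E ≤ 1 := by
  classical
  rw [Pr_eq, ← sum_wt μ h1 n]
  apply Finset.sum_le_sum
  intro ε _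
  split_ifs
  · exact le_rfl
  · exact wt_nonneg μ h0 n ε

lemma PrU_nonneg (n : ℕ) (E : (ZMod p)[X] → Prop) : 0 ≤ PrU p n E := by
  classical
  rw [PrU_eq]
  apply Finset.sum_nonneg
  intro ε _
  split_ifs
  · positivity
  · exact le_rfl

lemma PrU_le_one (n : ℕ) (E : (ZMod p)[X] → Prop) : PrU p n E ≤ 1 := by
  classical
  rw [PrU_eq, ← sum_uniform (p := p) n]
  apply Finset.sum_le_sum
  intro ε _
  split_ifs
  · exact le_rfl
  · positivity

/-- the constant-times-exponential form for the random polynomial -/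
theorem tv_random (μ : ZMod p → ℝ) (h0 : ∀ a, 0 ≤ μ a) (h1 : ∑ a, μ a = 1)
    (hlt : ∀ a, μ a < 1) : ∃ C c : ℝ, 0 < C ∧ 0 < c ∧ ∀ n m : ℕ, 1 ≤ m → m ≤ n →
      ∀ E : Set (Set (ZMod p)[X]),
        |Pr μ n (fun f => (facs (prs p 0 m) f : Set (ZMod p)[X]) ∈ E) -
          PrU p n (fun f => (facs (prs p 0 m) f : Set (ZMod p)[X]) ∈ E)| ≤
          C * Real.exp (-(c * min ((n : ℝ) / m) (Real.sqrt n))) := by
  classical
  obtain ⟨J0, hJ0, C1, c1, hC1, hc1, hlev⟩ := exists_level μ h0 h1 hlt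
  obtain ⟨C2, hC2, hpoly⟩ := poly_exp_bound 4 c1 hc1
  have hJr : (0 : ℝ) < J0 := by exact_mod_cast hJ0
  set A : ℝ := (11 * Real.exp 11 + 1) * Real.exp 3 with hA
  have hA0 : 0 < A := by positivity
  set B : ℝ := 6 * Real.exp 2 * C1 * C2 with hB
  have hB0 : 0 < B := by positivity
  set c : ℝ := min (1 / (32 * J0)) (c1 / 2) with hc
  have hc0 : 0 < c := by
    rw [hc, lt_min_iff]
    exact ⟨by positivity, by positivity⟩
  refine ⟨2 * A + B + Real.exp (c * (48 * J0)), c, by positivity, hc0, ?_⟩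
  intro n m hm hmn E
  have hm0 : (0 : ℝ) < m := by exact_mod_cast hm
  have hn1 : 1 ≤ n := hm.trans hmn
  have hnr : (1 : ℝ) ≤ n := by exact_mod_cast hn1
  set M := min ((n : ℝ) / m) (Real.sqrt n) with hM
  by_cases hq : 3 ≤ n / (16 * J0 * m)
  swap
  · -- trivial bound
    have h2 : |Pr μ n (fun f => (facs (prs p 0 m) f : Set (ZMod p)[X]) ∈ E) -
          PrU p n (fun f => (facs (prs p 0 m) f : Set (ZMod p)[X]) ∈ E)| ≤ 1 := by
      rw [abs_le]
      have h3 := Pr_nonneg μ h0 n (fun f => (facs (prs p 0 m) f : Set (ZMod p)[X]) ∈ E)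
      have h4 := Pr_le_one μ h0 h1 n (fun f => (facs (prs p 0 m) f : Set (ZMod p)[X]) ∈ E)
      have h5 := PrU_nonneg n (fun f => (facs (prs p 0 m) f : Set (ZMod p)[X]) ∈ E)
      have h6 := PrU_le_one n (fun f => (facs (prs p 0 m) f : Set (ZMod p)[X]) ∈ E)
      constructor <;> linarith
    refine h2.trans ?_
    have h3 : M ≤ 48 * J0 := by
      rw [hM]
      refine (min_le_left _ _).trans ?_
      have hpos : 0 < 16 * J0 * m := by positivity
      have h4 : n < 16 * J0 * m * 3 := by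
        rw [not_le, Nat.div_lt_iff_lt_mul hpos] at hq
        linarith
      rw [div_le_iff₀ hm0]
      have h5 : (n : ℝ) < 16 * J0 * m * 3 := by exact_mod_cast h4
      linarith
    have h4 : Real.exp (-(c * (48 * J0))) ≤ Real.exp (-(c * M)) := by
      apply Real.exp_le_exp.2
      have := mul_le_mul_of_nonneg_left h3 hc0.le
      linarith
    calc (1 : ℝ) = Real.exp (c * (48 * J0)) * Real.exp (-(c * (48 * J0))) := by
          rw [← Real.exp_add]; simp
      _ ≤ Real.exp (c * (48 * J0)) * Real.exp (-(c * M)) := by gcongr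
      _ ≤ (2 * A + B + Real.exp (c * (48 * J0))) * Real.exp (-(c * M)) := by
          apply mul_le_mul_of_nonneg_right _ (Real.exp_pos _).le
          linarith
  · set R := (n / (16 * J0 * m) - 3) / 2 with hR
    obtain ⟨hp1, hp2⟩ := param_bound J0 n m hJ0 hm hq
    rw [← hR] at hp1 hp2
    set PP := prs p 0 m with hPP
    have hPs : ∀ P ∈ PP, P.Monic ∧ Irreducible P := prs_spec
    set EE : Finset (ZMod p)[X] → Prop := fun Q => (Q : Set (ZMod p)[X]) ∈ E with hEE
    have hcR := tv_core (wt μ n) (rpoly n) (wt_nonneg μ h0 n) (sum_wt μ h1 n) m R hm EE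
    have hcU := tv_core (fun _ : Fin n → ZMod p => ((p : ℝ) ^ n)⁻¹) (monPoly n)
      (fun _ => by positivity) (sum_uniform n) m R hm EE
    rw [← hPP] at hcR hcU
    have hKn : 2 * (4 * m * (2 * R + 3)) ≤ n := by
      have : 16 * J0 * m * (2 * R + 3) ≥ 2 * (4 * m * (2 * R + 3)) := by
        have h5 : 1 ≤ J0 := hJ0
        calc 2 * (4 * m * (2 * R + 3)) = 8 * m * (2 * R + 3) * 1 := by ring
          _ ≤ 8 * m * (2 * R + 3) * (2 * J0) := Nat.mul_le_mul_left _ (by omega)
          _ = 16 * J0 * m * (2 * R + 3) := by ring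
      omega
    -- uniform model: no error
    have hU0 : ∑ H ∈ PP.powerset,
          (if ∑ P ∈ H, P.natDegree ≤ 2 * (4 * m * (2 * R + 3)) then
            2 ^ H.card * |hit (fun _ : Fin n → ZMod p => ((p : ℝ) ^ n)⁻¹)
              (fun ω => facs PP (monPoly n ω)) H - ∏ P ∈ H, xw P| else 0) = 0 := by
      apply Finset.sum_eq_zero
      intro H hH
      rw [Finset.mem_powerset] at hH
      split_ifs with h6
      · rw [hit_uniform n PP hPs H hH (h6.trans hKn), abs_zero, mul_zero]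
      · rfl
    rw [hU0, mul_zero, add_zero] at hcU
    -- random model: level of distribution
    have hR0 : ∑ H ∈ PP.powerset,
          (if ∑ P ∈ H, P.natDegree ≤ 2 * (4 * m * (2 * R + 3)) then
            2 ^ H.card * |hit (wt μ n) (fun ω => facs PP (rpoly n ω)) H - ∏ P ∈ H, xw P| else 0)
        ≤ Real.exp (2 * ∑ P ∈ PP, xw P) * (C1 * (2 * (4 * m * (2 * R + 3)) : ℕ) *
          Real.exp (-(c1 * Real.sqrt n))) := by
      have h7 := level_weighted μ h1 n (2 * (4 * m * (2 * R + 3))) PP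
        (fun P hP => ⟨(hPs P hP).1, (hPs P hP).2, prs_coeff hP⟩)
      have h8 := hlev n (2 * (4 * m * (2 * R + 3))) (by
        calc J0 * (2 * (2 * (4 * m * (2 * R + 3)))) = 16 * J0 * m * (2 * R + 3) := by ring
          _ ≤ n + 1 := by omega)
      have h9 : ∑ H ∈ PP.powerset,
          (if ∑ P ∈ H, P.natDegree ≤ 2 * (4 * m * (2 * R + 3)) then
            2 ^ H.card * |hit (wt μ n) (fun ω => facs PP (rpoly n ω)) H - ∏ P ∈ H, xw P| else 0)
          = ∑ T ∈ PP.powerset, (if ∑ P ∈ T, P.natDegree ≤ 2 * (4 * m * (2 * R + 3)) then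
              2 ^ T.card * Err μ n (∏ P ∈ T, P) else 0) := by
        apply Finset.sum_congr rfl
        intro T hT
        rw [Finset.mem_powerset] at hT
        rw [hit_err μ n PP hPs T hT]
      rw [h9]
      refine h7.trans ?_
      simp_rw [mul_assoc (Real.exp (2 * ∑ P ∈ PP, xw P))]
      rw [← Finset.mul_sum]
      exact mul_le_mul_of_nonneg_left h8 (Real.exp_pos _).le
    have hS : Real.exp (2 * ∑ P ∈ PP, xw P) ≤ Real.exp 2 * (m : ℝ) ^ 2 := by
      have h10 := sum_xw_le (p := p) m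
      have h11 : Real.exp 2 * (m : ℝ) ^ 2 = Real.exp (2 * (1 + Real.log m)) := by
        rw [mul_add, Real.exp_add, mul_one]
        congr 1
        rw [show (2 : ℝ) * Real.log m = ((2 : ℕ) : ℝ) * Real.log m by norm_num,
          Real.exp_nat_mul, Real.exp_log hm0]
      rw [h11]
      apply Real.exp_le_exp.2
      linarith
    have hmnr : (m : ℝ) ≤ n := by exact_mod_cast hmn
    have hKr : ((2 * (4 * m * (2 * R + 3)) : ℕ) : ℝ) ≤ n := by exact_mod_cast hKn
    have hRlev : ((m : ℝ) + 2) * ∑ H ∈ PP.powerset,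
          (if ∑ P ∈ H, P.natDegree ≤ 2 * (4 * m * (2 * R + 3)) then
            2 ^ H.card * |hit (wt μ n) (fun ω => facs PP (rpoly n ω)) H - ∏ P ∈ H, xw P| else 0)
        ≤ B * Real.exp (-(c1 / 2 * Real.sqrt n)) := by
      calc _ ≤ (3 * (n : ℝ)) * ((Real.exp 2 * (n : ℝ) ^ 2) * (C1 * n *
            Real.exp (-(c1 * Real.sqrt n)))) := by
            apply mul_le_mul (by linarith) _ _ (by positivity)
            · refine hR0.trans ?_
              apply mul_le_mul
              · refine hS.trans ?_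
                gcongr
              · gcongr
              · positivity
              · positivity
            · apply Finset.sum_nonneg
              intro H _
              split_ifs
              · positivity
              · exact le_rfl
        _ = 3 * Real.exp 2 * C1 * ((n : ℝ) ^ 4 * Real.exp (-(c1 * Real.sqrt n))) := by ring
        _ ≤ 3 * Real.exp 2 * C1 * (C2 * Real.exp (-(c1 / 2 * Real.sqrt n))) := by
            apply mul_le_mul_of_nonneg_left (hpoly n) (by positivity)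
        _ ≤ B * Real.exp (-(c1 / 2 * Real.sqrt n)) := by
            rw [hB]
            have : 0 < Real.exp 2 * C1 * C2 * Real.exp (-(c1 / 2 * Real.sqrt n)) := by positivity
            nlinarith
    have hexp1 : Real.exp (-(1 / (32 * J0) * ((n : ℝ) / m))) ≤ Real.exp (-(c * M)) := by
      apply Real.exp_le_exp.2
      apply neg_le_neg
      apply mul_le_mul (min_le_left _ _) (min_le_left _ _) _ (by positivity)
      positivity
    have hexp2 : Real.exp (-(c1 / 2 * Real.sqrt n)) ≤ Real.exp (-(c * M)) := by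
      apply Real.exp_le_exp.2
      apply neg_le_neg
      apply mul_le_mul (min_le_right _ _) (min_le_right _ _) _ (by positivity)
      positivity
    have hAexp : (11 * Real.exp 11 + 1) * (1 / 4 : ℝ) ^ R ≤ A * Real.exp (-(c * M)) := by
      calc (11 * Real.exp 11 + 1) * (1 / 4 : ℝ) ^ R
          ≤ (11 * Real.exp 11 + 1) * (Real.exp 3 *
            Real.exp (-(1 / (32 * J0) * ((n : ℝ) / m)))) := by gcongr
        _ ≤ (11 * Real.exp 11 + 1) * (Real.exp 3 * Real.exp (-(c * M))) := by gcongr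
        _ = _ := by rw [hA]; ring
    have hBexp : B * Real.exp (-(c1 / 2 * Real.sqrt n)) ≤ B * Real.exp (-(c * M)) := by gcongr
    have e1 : Pr μ n (fun f => (facs PP f : Set (ZMod p)[X]) ∈ E)
        = ∑ ε, if EE (facs PP (rpoly n ε)) then wt μ n ε else 0 := Pr_eq μ n _
    have e2 : PrU p n (fun f => (facs PP f : Set (ZMod p)[X]) ∈ E)
        = ∑ ε, if EE (facs PP (monPoly n ε)) then ((p : ℝ) ^ n)⁻¹ else 0 := PrU_eq n _
    rw [e1, e2]
    have hfin := abs_sub_le (∑ ε, if EE (facs PP (rpoly n ε)) then wt μ n ε else 0)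
      (∑ Q ∈ PP.powerset, if EE Q then model xw PP Q else 0)
      (∑ ε, if EE (facs PP (monPoly n ε)) then ((p : ℝ) ^ n)⁻¹ else 0)
    rw [abs_sub_comm (∑ Q ∈ PP.powerset, if EE Q then model xw PP Q else 0)] at hfin
    have hexp3 : 0 < Real.exp (c * (48 * J0)) * Real.exp (-(c * M)) := by positivity
    nlinarith

end Pool.Agent.MP0a1886
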