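import Pool.Agent.MP0a1886.EMon
import Pool.Agent.MP0a1886.TV

/-! Decomposition of the random polynomial according to its degree, for MP_0a1886_pr. -/

set_option autoImplicit false
set_option linter.unusedSectionVars false
open Finset Polynomial

namespace Pool.Agent.MP0a1886

variable {p : ℕ} [hp : Fact p.Prime]

/-- the law of `ε / c` -/
def mus (μ : ZMod p → ℝ) (c : ZMod p) : ZMod p → ℝ := fun a => μ (c * a)

/-- expectation of a function at `X^n + (iid lower coefficients)` -/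
noncomputable def EMF (μ : ZMod p → ℝ) (n : ℕ) (F : (ZMod p)[X] → ℝ) : ℝ :=
  ∑ v : Fin n → ZMod p, (∏ i, μ (v i)) * F (monPoly n v)

lemma EM_eq_EMF (μ : ZMod p → ℝ) (n : ℕ) (S : PA p) : EM μ n S = EMF μ n (fun f => S.coeff f) := rfl

/-- sums over all coefficient vectors of length `n` -/
noncomputable def GG (μ : ZMod p → ℝ) (F : (ZMod p)[X] → ℝ) (n : ℕ) : ℝ :=
  ∑ ε : Fin n → ZMod p, (∏ i, μ (ε i)) * F (lowPoly n ε)

lemma lowPoly_snoc (n : ℕ) (w : Fin n → ZMod p) (c : ZMod p) :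
    lowPoly (n + 1) (Fin.snoc w c : Fin (n + 1) → ZMod p) = lowPoly n w + C c * X ^ n := by
  unfold lowPoly
  rw [Fin.sum_univ_castSucc]
  simp

lemma GG_succ (μ : ZMod p → ℝ) (F : (ZMod p)[X] → ℝ) (hF : ∀ c : ZMod p, c ≠ 0 → ∀ f, F (C c * f) = F f)
    (n : ℕ) : GG μ F (n + 1) = μ 0 * GG μ F n +
      ∑ c ∈ (Finset.univ : Finset (ZMod p)).erase 0, μ c * EMF (mus μ c) n F := by
  classical
  have h1 : GG μ F (n + 1) = ∑ c : ZMod p, ∑ w : Fin n → ZMod p,
      μ c * ((∏ i, μ (w i)) * F (lowPoly n w + C c * X ^ n)) := by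
    unfold GG
    rw [← Fintype.sum_prod_type' (f := fun (c : ZMod p) (w : Fin n → ZMod p) =>
      μ c * ((∏ i, μ (w i)) * F (lowPoly n w + C c * X ^ n)))]
    symm
    apply Fintype.sum_equiv (Fin.snocEquiv (fun _ => ZMod p))
    rintro ⟨c, w⟩
    have h2 : (Fin.snocEquiv (fun _ => ZMod p)) (c, w) = (Fin.snoc w c : Fin (n + 1) → ZMod p) := rfl
    rw [h2, lowPoly_snoc, Fin.prod_univ_castSucc]
    simp only [Fin.snoc_castSucc, Fin.snoc_last]
    ring
  rw [h1, ← Finset.add_sum_erase _ _ (Finset.mem_univ (0 : ZMod p))]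
  congr 1
  · unfold GG
    rw [Finset.mul_sum]
    apply Finset.sum_congr rfl
    intro w _
    simp
  · apply Finset.sum_congr rfl
    intro c hc
    have hc0 : c ≠ 0 := (Finset.mem_erase.1 hc).1
    rw [← Finset.mul_sum]
    congr 1
    unfold EMF mus
    symm
    apply Fintype.sum_equiv (Equiv.piCongrRight (fun _ : Fin n => Equiv.mulLeft₀ c hc0))
    intro v
    have h2 : (Equiv.piCongrRight (fun _ : Fin n => Equiv.mulLeft₀ c hc0)) v = fun i => c * v i := by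
      funext i
      rfl
    rw [h2]
    have h3 : lowPoly n (fun i => c * v i) + C c * X ^ n = C c * monPoly n v := by
      unfold monPoly lowPoly
      rw [mul_add, Finset.mul_sum, add_comm]
      congr 1
      apply Finset.sum_congr rfl
      intro i _
      rw [Polynomial.C_mul]
      ring
    rw [h3, hF c hc0]

/-- decomposition according to the degree and the leading coefficient -/
theorem GG_decomp (μ : ZMod p → ℝ) (F : (ZMod p)[X] → ℝ)
    (hF : ∀ c : ZMod p, c ≠ 0 → ∀ f, F (C c * f) = F f) (n : ℕ) :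
    GG μ F n = μ 0 ^ n * F 0 + ∑ D ∈ Finset.range n, μ 0 ^ (n - 1 - D) *
      ∑ c ∈ (Finset.univ : Finset (ZMod p)).erase 0, μ c * EMF (mus μ c) D F := by
  induction n with
  | zero =>
    unfold GG
    simp [lowPoly]
  | succ n ih =>
    rw [GG_succ μ F hF, ih, Finset.sum_range_succ]
    rw [show n + 1 - 1 - n = 0 by omega, pow_zero, one_mul, mul_add, ← mul_assoc, ← pow_succ',
      Finset.mul_sum, add_assoc]
    congr 2
    apply Finset.sum_congr rfl
    intro D hD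
    have := Finset.mem_range.1 hD
    rw [← mul_assoc, ← pow_succ']
    congr 2
    omega

lemma Pr_eq_GG (μ : ZMod p → ℝ) (n : ℕ) (E : (ZMod p)[X] → Prop) [DecidablePred E] :
    Pr μ n E = GG μ (fun f => if E f then 1 else 0) (n + 1) := by
  classical
  rw [Pr_eq]
  unfold GG wt rpoly
  apply Finset.sum_congr rfl
  intro ε _
  beta_reduce
  by_cases h : E (lowPoly (n + 1) ε)
  · rw [if_pos h, if_pos h, mul_one]
  · rw [if_neg h, if_neg h, mul_zero]

/-! ### the law of the normalised coefficients -/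

lemma mus_nonneg {μ : ZMod p → ℝ} (h0 : ∀ a, 0 ≤ μ a) (c a : ZMod p) : 0 ≤ mus μ c a := h0 _

lemma sum_mus {μ : ZMod p → ℝ} (h1 : ∑ a, μ a = 1) {c : ZMod p} (hc : c ≠ 0) :
    ∑ a, mus μ c a = 1 := by
  rw [← h1]
  unfold mus
  exact Fintype.sum_equiv (Equiv.mulLeft₀ c hc) _ _ (fun a => rfl)

lemma muhat_mus (μ : ZMod p → ℝ) {c : ZMod p} (hc : c ≠ 0) (b : ZMod p) :
    muhat (mus μ c) b = muhat μ (c⁻¹ * b) := by
  unfold muhat mus
  apply Fintype.sum_equiv (Equiv.mulLeft₀ c hc)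
  intro a
  have h1 : (Equiv.mulLeft₀ c hc) a = c * a := rfl
  rw [h1]
  congr 2
  field_simp

lemma sum_mw_mus (μ : ZMod p → ℝ) {c : ZMod p} (hc : c ≠ 0) (t : ℝ) :
    ∑ b, mw (mus μ c) b ^ t = ∑ b, mw μ b ^ t := by
  unfold mw
  simp_rw [muhat_mus μ hc]
  exact Fintype.sum_equiv (Equiv.mulLeft₀ c⁻¹ (inv_ne_zero hc)) _ _ (fun a => rfl)

lemma mw_zero (μ : ZMod p → ℝ) (h1 : ∑ a, μ a = 1) : mw μ 0 = 1 := by
  unfold mw
  rw [muhat_zero μ h1, norm_one]

/-! ### basic properties of `EMF` -/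

lemma EMF_nonneg {μ : ZMod p → ℝ} (h0 : ∀ a, 0 ≤ μ a) (n : ℕ) {F : (ZMod p)[X] → ℝ}
    (hF : ∀ f, 0 ≤ F f) : 0 ≤ EMF μ n F :=
  Finset.sum_nonneg fun _ _ => mul_nonneg (Finset.prod_nonneg fun _ _ => h0 _) (hF _)

lemma EMF_mono {μ : ZMod p → ℝ} (h0 : ∀ a, 0 ≤ μ a) (n : ℕ) {F G : (ZMod p)[X] → ℝ}
    (h : ∀ f ∈ mon p n, F f ≤ G f) : EMF μ n F ≤ EMF μ n G :=
  Finset.sum_le_sum fun v _ => mul_le_mul_of_nonneg_left
    (h _ (mem_mon.2 ⟨monPoly_monic n v, natDegree_monPoly n v⟩))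
    (Finset.prod_nonneg fun _ _ => h0 _)

lemma abs_EMF_le {μ : ZMod p → ℝ} (h0 : ∀ a, 0 ≤ μ a) (n : ℕ) {F G : (ZMod p)[X] → ℝ}
    (h : ∀ f ∈ mon p n, |F f| ≤ G f) : |EMF μ n F| ≤ EMF μ n G := by
  unfold EMF
  refine (Finset.abs_sum_le_sum_abs _ _).trans (Finset.sum_le_sum fun v _ => ?_)
  rw [abs_mul, abs_of_nonneg (Finset.prod_nonneg fun _ _ => h0 _)]
  exact mul_le_mul_of_nonneg_left
    (h _ (mem_mon.2 ⟨monPoly_monic n v, natDegree_monPoly n v⟩))
    (Finset.prod_nonneg fun _ _ => h0 _)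

lemma EMF_const {μ : ZMod p → ℝ} (h1 : ∑ a, μ a = 1) (n : ℕ) (c : ℝ) :
    EMF μ n (fun _ => c) = c := by
  unfold EMF
  rw [← Finset.sum_mul, sum_prod_pi (fun (_ : Fin n) a => μ a)]
  simp [h1]

lemma EMF_mul_left (μ : ZMod p → ℝ) (n : ℕ) (c : ℝ) (F : (ZMod p)[X] → ℝ) :
    EMF μ n (fun f => c * F f) = c * EMF μ n F := by
  unfold EMF
  rw [Finset.mul_sum]
  apply Finset.sum_congr rfl
  intro v _
  ring

end Pool.Agent.MP0a1886
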