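import Pool.Agent.MP0a1886.Alg

/-! The divisor bound for polynomials over `F_p`. For MP_0a1886_pr. -/

set_option autoImplicit false
set_option linter.unusedSectionVars false
open Finset Polynomial

namespace Pool.Agent.MP0a1886

namespace Div

variable {p : ℕ} [hp : Fact p.Prime]

open UniqueFactorizationMonoid in
lemma monic_eq_prod {g : (ZMod p)[X]} (hg : g.Monic) : g = (normalizedFactors g).prod := by
  have h := Polynomial.leadingCoeff_mul_prod_normalizedFactors g
  rw [hg.leadingCoeff, map_one, one_mul] at h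
  exact h.symm

open UniqueFactorizationMonoid in
open Classical in
lemma card_le_prod (f : (ZMod p)[X]) (hf : f.Monic) (D : Finset (ZMod p)[X])
    (hD : ∀ g ∈ D, g.Monic ∧ g ∣ f) :
    D.card ≤ ∏ P ∈ (normalizedFactors f).toFinset, ((normalizedFactors f).count P + 1) := by
  rw [← Multiset.card_Iic]
  apply Finset.card_le_card_of_injOn (fun g => normalizedFactors g)
  · intro g hg
    obtain ⟨hm, hd⟩ := hD g hg
    rw [Finset.mem_coe, Finset.mem_Iic]
    exact (dvd_iff_normalizedFactors_le_normalizedFactors hm.ne_zero hf.ne_zero).1 hd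
  · intro g hg g' hg' hgg
    rw [monic_eq_prod (hD g hg).1, monic_eq_prod (hD g' hg').1]
    exact congrArg Multiset.prod hgg

open UniqueFactorizationMonoid in
open Classical in
lemma sum_count_deg (f : (ZMod p)[X]) (hf : f.Monic) :
    ∑ P ∈ (normalizedFactors f).toFinset, (normalizedFactors f).count P * P.natDegree
      = f.natDegree := by
  have h1 : f.natDegree = ((normalizedFactors f).map Polynomial.natDegree).sum := by
    conv_lhs => rw [monic_eq_prod hf]
    rw [Polynomial.natDegree_multiset_prod]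
    intro h0
    exact zero_notMem_normalizedFactors f h0
  rw [h1, Finset.sum_multiset_map_count]
  simp [smul_eq_mul]

open UniqueFactorizationMonoid in
open Classical in
lemma main_bound (f : (ZMod p)[X]) (hf : f.Monic) (T : ℕ) (hT : 0 < T) :
    ((∏ P ∈ (normalizedFactors f).toFinset, ((normalizedFactors f).count P + 1) : ℕ) : ℝ) ≤
      ((f.natDegree : ℝ) + 1) ^ (∑ k ∈ Finset.range (T + 1), p ^ k) *
        Real.exp (Real.log 2 / T * f.natDegree) := by
  set s := normalizedFactors f with hs
  set n := f.natDegree with hn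
  have hsum := sum_count_deg f hf
  rw [← hs, ← hn] at hsum
  have hmem : ∀ P ∈ s.toFinset, P.Monic ∧ Irreducible P ∧ 1 ≤ P.natDegree := by
    intro P hP
    rw [Multiset.mem_toFinset, hs, Polynomial.mem_normalizedFactors_iff hf.ne_zero] at hP
    exact ⟨hP.2.1, hP.1, Nat.one_le_iff_ne_zero.2 (Irreducible.natDegree_pos hP.1).ne'⟩
  rw [← Finset.prod_filter_mul_prod_filter_not s.toFinset (fun P => P.natDegree ≤ T)]
  push_cast
  have hn0 : (0 : ℝ) ≤ n := Nat.cast_nonneg _
  apply mul_le_mul
  · -- small primes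
    have h1 : ∀ P ∈ s.toFinset.filter (fun P => P.natDegree ≤ T),
        ((s.count P : ℝ) + 1) ≤ (n : ℝ) + 1 := by
      intro P hP
      rw [Finset.mem_filter] at hP
      have h2 : s.count P * P.natDegree ≤ n := by
        rw [← hsum]
        exact Finset.single_le_sum (f := fun P => s.count P * P.natDegree)
          (fun _ _ => Nat.zero_le _) hP.1
      have h3 : s.count P ≤ n := by
        calc s.count P = s.count P * 1 := (mul_one _).symm
          _ ≤ s.count P * P.natDegree := Nat.mul_le_mul_left _ (hmem P hP.1).2.2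
          _ ≤ n := h2
      have h4 : (s.count P : ℝ) ≤ n := by exact_mod_cast h3
      linarith
    refine (Finset.prod_le_prod (fun P _ => by positivity) h1).trans ?_
    rw [Finset.prod_const]
    apply pow_le_pow_right₀ (by linarith)
    have h2 : s.toFinset.filter (fun P => P.natDegree ≤ T) ⊆
        (Finset.range (T + 1)).biUnion (fun k => mon p k) := by
      intro P hP
      rw [Finset.mem_filter] at hP
      rw [Finset.mem_biUnion]
      exact ⟨P.natDegree, Finset.mem_range.2 (by omega), mem_mon.2 ⟨(hmem P hP.1).1, rfl⟩⟩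
    refine (Finset.card_le_card h2).trans (Finset.card_biUnion_le.trans ?_)
    apply Finset.sum_le_sum
    intro k _
    rw [card_mon]
  · -- large primes
    have h1 : ∀ P ∈ s.toFinset.filter (fun P => ¬ P.natDegree ≤ T),
        ((s.count P : ℝ) + 1) ≤ 2 ^ (s.count P) := by
      intro P _
      have : s.count P + 1 ≤ 2 ^ (s.count P) := Nat.lt_two_pow_self
      exact_mod_cast this
    refine (Finset.prod_le_prod (fun P _ => by positivity) h1).trans ?_
    rw [Finset.prod_pow_eq_pow_sum]
    set S := ∑ P ∈ s.toFinset.filter (fun P => ¬ P.natDegree ≤ T), s.count P with hS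
    have h2 : S * T ≤ n := by
      rw [hS, Finset.sum_mul, ← hsum]
      refine (Finset.sum_le_sum (g := fun P => s.count P * P.natDegree) ?_).trans
        (Finset.sum_le_sum_of_subset (Finset.filter_subset _ _))
      intro P hP
      rw [Finset.mem_filter] at hP
      exact Nat.mul_le_mul_left _ (by omega)
    have hT' : (0 : ℝ) < T := by exact_mod_cast hT
    have h3 : (S : ℝ) ≤ n / T := by
      rw [le_div_iff₀ hT']
      exact_mod_cast h2
    have h4 : (2 : ℝ) ^ S = Real.exp (Real.log 2 * S) := by
      rw [Real.exp_mul, Real.exp_log (by norm_num), Real.rpow_natCast]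
    rw [h4]
    apply Real.exp_le_exp.2
    have h5 : 0 ≤ Real.log 2 := Real.log_nonneg (by norm_num)
    calc Real.log 2 * S ≤ Real.log 2 * (n / T) := by gcongr
      _ = Real.log 2 / T * n := by ring
  · exact Finset.prod_nonneg (fun P _ => by positivity)
  · positivity

end Div

open UniqueFactorizationMonoid in
open Classical in
theorem exists_divB (p : ℕ) [Fact p.Prime] (ε : ℝ) (hε : 0 < ε) :
    ∃ C : ℝ, 1 ≤ C ∧ ∀ n : ℕ, DivB p n (C * Real.exp (ε * n)) := by
  obtain ⟨T, hT⟩ := exists_nat_gt (2 * Real.log 2 / ε)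
  have hl2 : 0 < Real.log 2 := Real.log_pos (by norm_num)
  have hT0 : (0 : ℝ) < T := lt_trans (by positivity) hT
  have hTn : 0 < T := by exact_mod_cast hT0
  have hT1 : Real.log 2 / T ≤ ε / 2 := by
    rw [div_lt_iff₀ hε] at hT
    rw [div_le_iff₀ hT0]
    linarith
  set B := ∑ k ∈ Finset.range (T + 1), p ^ k with hB
  set C0 : ℝ := (B.factorial : ℝ) * (2 / ε) ^ B * Real.exp (ε / 2) with hC0
  refine ⟨max 1 C0, le_max_left _ _, ?_⟩
  intro n f hf hn D hD
  have h1 : (D.card : ℝ) ≤
      ((∏ P ∈ (normalizedFactors f).toFinset, ((normalizedFactors f).count P + 1) : ℕ) : ℝ) := by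
    exact_mod_cast Div.card_le_prod f hf D hD
  refine h1.trans ((Div.main_bound f hf T hTn).trans ?_)
  have hn' : (f.natDegree : ℝ) ≤ n := by exact_mod_cast hn
  have h0 : (0 : ℝ) ≤ f.natDegree := Nat.cast_nonneg _
  have hn0 : (0 : ℝ) ≤ n := Nat.cast_nonneg _
  have h2 : ((f.natDegree : ℝ) + 1) ^ B ≤ ((n : ℝ) + 1) ^ B := by
    gcongr
  have h3 : ((n : ℝ) + 1) ^ B ≤ C0 * Real.exp (ε / 2 * n) := by
    have h4 := Real.pow_div_factorial_le_exp (ε / 2 * (n + 1)) (by positivity) B
    rw [div_le_iff₀ (by positivity)] at h4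
    have h5 : ((n : ℝ) + 1) ^ B = (2 / ε) ^ B * (ε / 2 * (n + 1)) ^ B := by
      rw [← mul_pow]
      congr 1
      field_simp
    rw [h5]
    calc (2 / ε) ^ B * (ε / 2 * (n + 1)) ^ B
        ≤ (2 / ε) ^ B * (Real.exp (ε / 2 * (n + 1)) * B.factorial) := by gcongr
      _ = C0 * Real.exp (ε / 2 * n) := by
          rw [hC0, mul_add, Real.exp_add, mul_one]
          ring
  have h6 : Real.exp (Real.log 2 / T * f.natDegree) ≤ Real.exp (ε / 2 * n) := by
    apply Real.exp_le_exp.2
    calc Real.log 2 / T * f.natDegree ≤ ε / 2 * f.natDegree := by gcongr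
      _ ≤ ε / 2 * n := by gcongr
  calc ((f.natDegree : ℝ) + 1) ^ B * Real.exp (Real.log 2 / T * f.natDegree)
      ≤ (C0 * Real.exp (ε / 2 * n)) * Real.exp (ε / 2 * n) :=
        mul_le_mul (h2.trans h3) h6 (Real.exp_nonneg _) (by positivity)
    _ = C0 * Real.exp (ε * n) := by
        rw [mul_assoc, ← Real.exp_add]
        congr 2
        ring
    _ ≤ max 1 C0 * Real.exp (ε * n) := by
        gcongr
        exact le_max_right _ _

end Pool.Agent.MP0a1886
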