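import Pool.Agent.MP0a1886.Semi
import Pool.Agent.MP0a1886.Alg4

/-! Expectations in the monic model for MP_0a1886_pr. -/

set_option autoImplicit false
set_option linter.unusedSectionVars false
open Finset Polynomial

namespace Pool.Agent.MP0a1886

variable {p : ℕ} [hp : Fact p.Prime]

/-- the expectation of `S` at `X^n + (iid lower coefficients of law μ)` -/
noncomputable def EM (μ : ZMod p → ℝ) (n : ℕ) (S : PA p) : ℝ :=
  ∑ v : Fin n → ZMod p, (∏ i, μ (v i)) * S.coeff (monPoly n v)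

lemma EM_add (μ : ZMod p → ℝ) (n : ℕ) (S S' : PA p) : EM μ n (S + S') = EM μ n S + EM μ n S' := by
  unfold EM
  rw [← Finset.sum_add_distrib]
  apply Finset.sum_congr rfl
  intro v _
  rw [MonoidAlgebra.coeff_add, Finsupp.add_apply, mul_add]

lemma EM_zero (μ : ZMod p → ℝ) (n : ℕ) : EM μ n (0 : PA p) = 0 := by
  unfold EM
  simp

lemma EM_sum {ι : Type*} (μ : ZMod p → ℝ) (n : ℕ) (s : Finset ι) (S : ι → PA p) :
    EM μ n (∑ i ∈ s, S i) = ∑ i ∈ s, EM μ n (S i) := by
  classical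
  induction s using Finset.induction_on with
  | empty => simp [EM_zero]
  | insert a s ha ih => rw [Finset.sum_insert ha, Finset.sum_insert ha, EM_add, ih]

/-- Fourier inversion for the law -/
lemma muhat_inversion (μ : ZMod p → ℝ) (v : ZMod p) :
    ∑ c : ZMod p, muhat μ c * ZMod.stdAddChar (-(c * v)) = (p : ℂ) * μ v := by
  unfold muhat
  simp_rw [Finset.sum_mul]
  rw [Finset.sum_comm]
  have h1 : ∀ a : ZMod p, ∑ c : ZMod p, (μ a : ℂ) * ZMod.stdAddChar (a * c) *
      ZMod.stdAddChar (-(c * v)) = if a = v then (p : ℂ) * μ v else 0 := by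
    intro a
    have h2 : ∀ c : ZMod p, (μ a : ℂ) * ZMod.stdAddChar (a * c) * ZMod.stdAddChar (-(c * v))
        = (μ a : ℂ) * ZMod.stdAddChar (c * (a - v)) := by
      intro c
      rw [mul_assoc, ← AddChar.map_add_eq_mul]
      congr 2
      ring
    simp_rw [h2]
    rw [← Finset.mul_sum, AddChar.sum_mulShift _ (ZMod.isPrimitive_stdAddChar p)]
    split_ifs with h3 h4 h4
    · rw [h4, ZMod.card]
      ring
    · exact absurd (sub_eq_zero.1 h3) h4
    · exact absurd (sub_eq_zero.2 h4) h3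
    · simp
  rw [Finset.sum_congr rfl (fun a _ => h1 a), Finset.sum_ite_eq' Finset.univ v]
  simp

lemma EM_fourier (μ : ZMod p → ℝ) {n : ℕ} {M : ℝ} {S : PA p} (h : Bd n M S) :
    (EM μ n S : ℂ) = ((p : ℂ) ^ n)⁻¹ * ∑ α : Fin n → ZMod p, (∏ i, muhat μ (α i)) * SH n α S := by
  classical
  have hp0 : (p : ℂ) ≠ 0 := by exact_mod_cast hp.out.ne_zero
  have h1 : ∑ α : Fin n → ZMod p, (∏ i, muhat μ (α i)) * SH n α S =
      ∑ v : Fin n → ZMod p, (S.coeff (monPoly n v) : ℂ) * ((p : ℂ) ^ n * ∏ i, (μ (v i) : ℂ)) := by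
    simp_rw [SH_vec _ h, Finset.mul_sum]
    rw [Finset.sum_comm]
    apply Finset.sum_congr rfl
    intro v _
    have h2 : ∀ α : Fin n → ZMod p, (∏ i, muhat μ (α i)) * ((S.coeff (monPoly n v) : ℂ) *
        ZMod.stdAddChar (-(∑ i, α i * v i))) = (S.coeff (monPoly n v) : ℂ) *
        ∏ i, (muhat μ (α i) * ZMod.stdAddChar (-(α i * v i))) := by
      intro α
      rw [Finset.prod_mul_distrib, ← addChar_sum, Finset.sum_neg_distrib]
      ring
    rw [Finset.sum_congr rfl (fun α _ => h2 α), ← Finset.mul_sum,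
      sum_prod_pi (fun (i : Fin n) c => muhat μ c * ZMod.stdAddChar (-(c * v i)))]
    congr 1
    simp_rw [muhat_inversion]
    rw [Finset.prod_mul_distrib, Finset.prod_const, Finset.card_univ, Fintype.card_fin]
  rw [h1]
  unfold EM
  push_cast
  rw [Finset.mul_sum]
  apply Finset.sum_congr rfl
  intro v _
  field_simp

lemma tot_eq {k : ℕ} {M : ℝ} {S : PA p} (h : Bd k M S) : tot p S = ∑ f ∈ mon p k, S.coeff f := by
  conv_lhs => rw [h.eq_sum]
  rw [map_sum]
  apply Finset.sum_congr rfl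
  intro f _
  rw [tot_single]

lemma SH_zero_freq {n k : ℕ} {M : ℝ} {S : PA p} (h : Bd k M S) :
    SH n (0 : Fin n → ZMod p) S = (tot p S : ℂ) := by
  rw [SH_eq 0 h, tot_eq h]
  push_cast
  apply Finset.sum_congr rfl
  intro f _
  have h1 : fa n (0 : Fin n → ZMod p) f = 0 := by
    rw [fa_apply]; simp
  rw [h1]
  simp

lemma zero_mem_bad (n r : ℕ) : (0 : Fin n → ZMod p) ∈ bad p n r := by
  classical
  unfold bad
  rw [Finset.mem_filter]
  refine ⟨Finset.mem_univ _, 1, ⟨by simp, ?_⟩, one_ne_zero⟩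
  intro i _
  rw [fa_apply]
  simp

/-- the main term and the error term -/
theorem EM_main (μ : ZMod p → ℝ) (h1 : ∑ a, μ a = 1) {n ρ : ℕ} {M : ℝ} {S : PA p}
    (h : Bd n M S) (hz : ∀ α ∈ bad p n ρ, α ≠ 0 → SH n α S = 0) :
    |EM μ n S - tot p S / (p : ℝ) ^ n| ≤ EGen (mw μ) n ρ S := by
  classical
  have hp0 : (p : ℂ) ≠ 0 := by exact_mod_cast hp.out.ne_zero
  have h2 := EM_fourier μ h
  have h3 : ∑ α : Fin n → ZMod p, (∏ i, muhat μ (α i)) * SH n α S = (tot p S : ℂ) +
      ∑ α ∈ Finset.univ.filter (fun α : Fin n → ZMod p => α ∉ bad p n ρ),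
        (∏ i, muhat μ (α i)) * SH n α S := by
    rw [← Finset.sum_filter_add_sum_filter_not Finset.univ (fun α => α ∈ bad p n ρ)]
    congr 1
    rw [Finset.sum_eq_single (0 : Fin n → ZMod p)]
    · rw [SH_zero_freq h]
      simp only [Pi.zero_apply, muhat_zero μ h1, Finset.prod_const_one, one_mul]
    · intro α hα hα0
      rw [hz α (Finset.mem_filter.1 hα).2 hα0, mul_zero]
    · intro h0
      exact absurd (Finset.mem_filter.2 ⟨Finset.mem_univ _, zero_mem_bad n ρ⟩) h0
  have h4 : ((EM μ n S - tot p S / (p : ℝ) ^ n : ℝ) : ℂ) = ((p : ℂ) ^ n)⁻¹ *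
      ∑ α ∈ Finset.univ.filter (fun α : Fin n → ZMod p => α ∉ bad p n ρ),
        (∏ i, muhat μ (α i)) * SH n α S := by
    push_cast
    rw [h2, h3]
    ring
  have h5 : |EM μ n S - tot p S / (p : ℝ) ^ n| =
      ‖((EM μ n S - tot p S / (p : ℝ) ^ n : ℝ) : ℂ)‖ := by
    rw [Complex.norm_real, Real.norm_eq_abs]
  rw [h5, h4, norm_mul, norm_inv, norm_pow, Complex.norm_natCast]
  unfold EGen
  apply mul_le_mul_of_nonneg_left _ (by positivity)
  refine (norm_sum_le _ _).trans (le_of_eq ?_)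
  apply Finset.sum_congr rfl
  intro α _
  rw [norm_mul, norm_prod]
  rfl

/-- the exponential sums of `C * uno` vanish at small nonzero frequencies if `C` is supported on
products of large irreducible polynomials -/
theorem SH_exact {n k m ρ : ℕ} {M : ℝ} {A : PA p} (hA : Bd k M A)
    (hF : ∀ f, A.coeff f ≠ 0 → Fac (fun d => m < d) f) (hρm : ρ ≤ m) (hρk : ρ + k ≤ n)
    (α : Fin n → ZMod p) (hα : α ∈ bad p n ρ) (hα0 : α ≠ 0) :
    SH n α (A * uno p (n - k)) = 0 := by
  classical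
  rw [SH_mul α hA (Bd_uno (p := p) (n - k))]
  apply Finset.sum_eq_zero
  intro a ha
  by_cases hAa : A.coeff a = 0
  · apply Finset.sum_eq_zero
    intro b _
    rw [hAa]
    push_cast
    ring
  have huno : ∀ b ∈ mon p (n - k), (uno p (n - k)).coeff b = 1 := by
    intro b hb
    unfold uno
    rw [MonoidAlgebra.coeff_sum]
    simp only [MonoidAlgebra.coeff_single]
    rw [Finsupp.finsetSum_apply]
    simp only [Finsupp.single_apply]
    rw [Finset.sum_ite_eq' (mon p (n - k)) b, if_pos hb]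
  have h2 : ∑ b ∈ mon p (n - k),
      (A.coeff a : ℂ) * ((uno p (n - k)).coeff b : ℂ) * ZMod.stdAddChar (-(fa n α (a * b)))
      = (A.coeff a : ℂ) * ∑ b ∈ mon p (n - k), ZMod.stdAddChar (-(fa n α (a * b))) := by
    rw [Finset.mul_sum]
    apply Finset.sum_congr rfl
    intro b hb
    rw [huno b hb]
    push_cast
    ring
  rw [h2, inner_sum, if_neg, mul_zero]
  intro hker
  have ham := mem_mon.1 ha
  have haK : a ∈ KK (fa n α) n k := ⟨by rw [ham.2], fun i hi => hker i (by omega)⟩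
  -- the minimal degree of a kernel form
  have hex : ∃ t, ∃ d ∈ KK (fa n α) n t, d ≠ 0 := by
    unfold bad at hα
    exact ⟨ρ, (Finset.mem_filter.1 hα).2⟩
  obtain ⟨r0, hr0⟩ : ∃ r0, r0 = Nat.find hex := ⟨_, rfl⟩
  obtain ⟨d, hd, hd0⟩ := Nat.find_spec hex
  rw [← hr0] at hd
  have hmin : ∀ t < r0, ∀ d' ∈ KK (fa n α) n t, d' = 0 := by
    intro t ht d' hd'
    by_contra h0
    rw [hr0] at ht
    exact Nat.find_min hex ht ⟨d', hd', h0⟩
  have hr0ρ : r0 ≤ ρ := by
    rw [hr0]
    apply Nat.find_min' hex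
    unfold bad at hα
    exact (Finset.mem_filter.1 hα).2
  have hr01 : 1 ≤ r0 := by
    by_contra hcon
    have h00 : r0 = 0 := by omega
    rw [h00] at hd
    obtain ⟨c, hc⟩ := Polynomial.natDegree_eq_zero.1 (Nat.le_zero.1 hd.1)
    have hc0 : c ≠ 0 := by
      rintro rfl
      rw [Polynomial.C_0] at hc
      exact hd0 hc.symm
    apply hα0
    funext i
    have h3 := hd.2 (i : ℕ) (by have := i.2; omega)
    rw [← hc, ← Polynomial.smul_eq_C_mul, map_smul, smul_eq_mul, fa_apply,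
      Finset.sum_eq_single i] at h3
    · rw [Polynomial.coeff_X_pow, if_pos rfl, mul_one] at h3
      exact (mul_eq_zero.1 h3).resolve_left hc0
    · intro b _ hb
      rw [Polynomial.coeff_X_pow, if_neg, mul_zero]
      intro h4
      exact hb (Fin.ext h4)
    · simp
  by_cases hrk : r0 ≤ k
  · obtain ⟨u, hu, hud⟩ := kk_structure (fa n α) hd hd0 hmin haK (by omega) hrk
    have hu0 : u ≠ 0 := by
      rintro rfl
      rw [mul_zero] at hu
      exact ham.1.ne_zero hu
    have hdeg : d.natDegree + u.natDegree = k := by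
      rw [← ham.2, hu, Polynomial.natDegree_mul hd0 hu0]
    have hdd : 1 ≤ d.natDegree := by omega
    obtain ⟨P, hP, hPd⟩ := Polynomial.exists_irreducible_of_natDegree_ne_zero
      (f := d) (by omega)
    have h3 := hF a hAa P hP (hPd.trans ⟨u, hu⟩)
    have h4 := Polynomial.natDegree_le_of_dvd hPd hd0
    have h5 := hd.1
    simp only at h3
    omega
  · exact ham.1.ne_zero (hmin k (by omega) a haK)

end Pool.Agent.MP0a1886
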