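import Pool.Agent.MP0a1886.Kern
import Pool.Agent.MP0a1886.Alg

/-! Exponential sums over convolutions (type I and type II) for MP_0a1886_pr. -/

set_option autoImplicit false
set_option linter.unusedSectionVars false
open Finset Polynomial

namespace Pool.Agent.MP0a1886

variable {p : ℕ} [hp : Fact p.Prime]

/-! ### basic facts on the algebra -/

lemma eq_sum_of_supp {S : PA p} {s : Finset (ZMod p)[X]} (h : ∀ f, S.coeff f ≠ 0 → f ∈ s) :
    S = ∑ f ∈ s, MonoidAlgebra.single f (S.coeff f) := by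
  classical
  ext g
  rw [MonoidAlgebra.coeff_sum]
  simp only [MonoidAlgebra.coeff_single]
  rw [Finsupp.finsetSum_apply]
  simp only [Finsupp.single_apply]
  rw [Finset.sum_ite_eq' s g]
  split_ifs with hg
  · rfl
  · by_contra h0
    exact hg (h g h0)

lemma Bd.eq_sum {k : ℕ} {M : ℝ} {S : PA p} (h : Bd k M S) :
    S = ∑ f ∈ mon p k, MonoidAlgebra.single f (S.coeff f) := eq_sum_of_supp h.1

lemma Bd.nonneg {k : ℕ} {M : ℝ} {S : PA p} (h : Bd k M S) : 0 ≤ M :=
  (abs_nonneg _).trans (h.2 0)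

lemma Bd.mono {k : ℕ} {M N : ℝ} {S : PA p} (h : Bd k M S) (hMN : M ≤ N) : Bd k N S :=
  ⟨h.1, fun f => (h.2 f).trans hMN⟩

lemma Bd.zero (k : ℕ) {M : ℝ} (hM : 0 ≤ M) : Bd k M (0 : PA p) := by
  refine ⟨?_, ?_⟩
  · intro f hf
    simp at hf
  · intro f
    simpa using hM

lemma Bd.add {k : ℕ} {M N : ℝ} {S S' : PA p} (h : Bd k M S) (h' : Bd k N S') :
    Bd k (M + N) (S + S') := by
  refine ⟨?_, ?_⟩
  · intro f hf
    rw [MonoidAlgebra.coeff_add, Finsupp.add_apply] at hf
    by_cases h0 : S.coeff f = 0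
    · rw [h0, zero_add] at hf
      exact h'.1 f hf
    · exact h.1 f h0
  · intro f
    rw [MonoidAlgebra.coeff_add, Finsupp.add_apply]
    exact (abs_add_le _ _).trans (add_le_add (h.2 f) (h'.2 f))

lemma Bd.smul {k : ℕ} {M : ℝ} {S : PA p} (c : ℝ) (h : Bd k M S) :
    Bd k (|c| * M) (c • S) := by
  refine ⟨?_, ?_⟩
  · intro f hf
    rw [MonoidAlgebra.coeff_smul, Finsupp.smul_apply, smul_eq_mul] at hf
    exact h.1 f (right_ne_zero_of_mul hf)
  · intro f
    rw [MonoidAlgebra.coeff_smul, Finsupp.smul_apply, smul_eq_mul, abs_mul]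
    exact mul_le_mul_of_nonneg_left (h.2 f) (abs_nonneg _)

lemma Bd.neg {k : ℕ} {M : ℝ} {S : PA p} (h : Bd k M S) : Bd k M (-S) := by
  have := h.smul (-1)
  simpa using this

lemma Bd.sum {ι : Type*} {k : ℕ} {M : ℝ} (s : Finset ι) {S : ι → PA p}
    (h : ∀ i ∈ s, Bd k M (S i)) : Bd k (s.card * M) (∑ i ∈ s, S i) := by
  classical
  induction s using Finset.induction_on with
  | empty => simpa using Bd.zero k le_rfl
  | insert a s ha ih =>
    rw [Finset.sum_insert ha, Finset.card_insert_of_notMem ha]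
    have h1 := (h a (Finset.mem_insert_self _ _)).add
      (ih fun i hi => h i (Finset.mem_insert_of_mem hi))
    refine h1.mono (le_of_eq ?_)
    push_cast
    ring

lemma Bd_uno (k : ℕ) : Bd k 1 (uno p k) := by
  classical
  have key : ∀ f : (ZMod p)[X], (uno p k).coeff f = if f ∈ mon p k then 1 else 0 := by
    intro f
    unfold uno
    rw [MonoidAlgebra.coeff_sum]
    simp only [MonoidAlgebra.coeff_single]
    rw [Finsupp.finsetSum_apply]
    simp only [Finsupp.single_apply]
    rw [Finset.sum_ite_eq' (mon p k) f]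
  refine ⟨?_, ?_⟩
  · intro f hf
    rw [key] at hf
    by_contra h0
    rw [if_neg h0] at hf
    exact hf rfl
  · intro f
    rw [key]
    split_ifs <;> simp

/-- coefficient of a product of two combinations of monic polynomials -/
lemma coeff_mul_mon {k l : ℕ} {M N : ℝ} {A B : PA p} (hA : Bd k M A) (hB : Bd l N B)
    (f : (ZMod p)[X]) : (A * B).coeff f = ∑ a ∈ mon p k, ∑ b ∈ mon p l,
      if a * b = f then A.coeff a * B.coeff b else 0 := by
  classical
  conv_lhs => rw [hA.eq_sum, hB.eq_sum]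
  rw [Finset.sum_mul_sum, MonoidAlgebra.coeff_sum, Finsupp.finsetSum_apply]
  apply Finset.sum_congr rfl
  intro a _
  rw [MonoidAlgebra.coeff_sum, Finsupp.finsetSum_apply]
  apply Finset.sum_congr rfl
  intro b _
  rw [MonoidAlgebra.single_mul_single, MonoidAlgebra.coeff_single, Finsupp.single_apply]

lemma Bd.mul {n k l : ℕ} {M N T : ℝ} {A B : PA p} (hT : DivB p n T) (hkl : k + l ≤ n)
    (hA : Bd k M A) (hB : Bd l N B) : Bd (k + l) (M * N * T) (A * B) := by
  classical
  have hM := hA.nonneg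
  have hN := hB.nonneg
  have h1T : 1 ≤ T := by
    have := hT 1 Polynomial.monic_one (by simp) {1} (by simp [Polynomial.monic_one])
    simpa using this
  refine ⟨?_, ?_⟩
  · intro f hf
    rw [coeff_mul_mon hA hB] at hf
    obtain ⟨a, ha, h1⟩ := Finset.exists_ne_zero_of_sum_ne_zero hf
    obtain ⟨b, hb, h2⟩ := Finset.exists_ne_zero_of_sum_ne_zero h1
    have h3 : a * b = f := by
      by_contra h0
      rw [if_neg h0] at h2
      exact h2 rfl
    rw [mem_mon] at ha hb ⊢
    rw [← h3]
    exact ⟨ha.1.mul hb.1, by rw [ha.1.natDegree_mul hb.1, ha.2, hb.2]⟩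
  · intro f
    rw [coeff_mul_mon hA hB]
    by_cases hf : f.Monic ∧ f.natDegree = k + l
    · set D := (mon p k).filter (· ∣ f) with hD
      have hDc : (D.card : ℝ) ≤ T := by
        apply hT f hf.1 (by rw [hf.2]; exact hkl) D
        intro g hg
        rw [hD, Finset.mem_filter, mem_mon] at hg
        exact ⟨hg.1.1, hg.2⟩
      have h1 : ∀ a ∈ mon p k, |∑ b ∈ mon p l, if a * b = f then A.coeff a * B.coeff b else 0| ≤
          if a ∣ f then M * N else 0 := by
        intro a ha
        split_ifs with hdvd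
        · obtain ⟨b, hb⟩ := hdvd
          have ha' := mem_mon.1 ha
          rw [Finset.sum_eq_single b]
          · rw [if_pos hb.symm, abs_mul]
            exact mul_le_mul (hA.2 a) (hB.2 b) (abs_nonneg _) hM
          · intro b' _ hb'
            rw [if_neg]
            intro h2
            apply hb'
            rw [hb] at h2
            exact mul_left_cancel₀ ha'.1.ne_zero h2
          · intro hb'
            exfalso
            apply hb'
            rw [mem_mon]
            have hbm : b.Monic := by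
              apply ha'.1.of_mul_monic_left
              rw [← hb]; exact hf.1
            refine ⟨hbm, ?_⟩
            have h3 := hf.2
            rw [hb, ha'.1.natDegree_mul hbm, ha'.2] at h3
            omega
        · rw [Finset.sum_eq_zero, abs_zero]
          intro b _
          rw [if_neg]
          rintro rfl
          exact hdvd (dvd_mul_right a b)
      refine (Finset.abs_sum_le_sum_abs _ _).trans ((Finset.sum_le_sum h1).trans ?_)
      rw [← Finset.sum_filter, Finset.sum_const, nsmul_eq_mul, ← hD, mul_comm]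
      exact mul_le_mul_of_nonneg_left hDc (mul_nonneg hM hN)
    · rw [Finset.sum_eq_zero, abs_zero]
      · exact mul_nonneg (mul_nonneg hM hN) (by linarith)
      · intro a ha
        apply Finset.sum_eq_zero
        intro b hb
        rw [if_neg]
        rintro rfl
        rw [mem_mon] at ha hb
        exact hf ⟨ha.1.mul hb.1, by rw [ha.1.natDegree_mul hb.1, ha.2, hb.2]⟩

/-! ### the exponential sum -/

/-- the exponential sum attached to `S` and the frequency `α` -/
noncomputable def SH (n : ℕ) (α : Fin n → ZMod p) (S : PA p) : ℂ :=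
  S.coeff.sum fun f c => (c : ℂ) * ZMod.stdAddChar (-(fa n α f))

lemma SH_add (n : ℕ) (α : Fin n → ZMod p) (S S' : PA p) :
    SH n α (S + S') = SH n α S + SH n α S' := by
  unfold SH
  rw [MonoidAlgebra.coeff_add]
  apply Finsupp.sum_add_index
  · intro a _
    simp
  · intro a _ b c
    push_cast
    ring

lemma SH_zero (n : ℕ) (α : Fin n → ZMod p) : SH n α (0 : PA p) = 0 := by
  unfold SH
  simp

lemma SH_smul (n : ℕ) (α : Fin n → ZMod p) (c : ℝ) (S : PA p) :
    SH n α (c • S) = c * SH n α S := by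
  unfold SH
  rw [MonoidAlgebra.coeff_smul, Finsupp.sum_smul_index, Finsupp.mul_sum]
  · apply Finsupp.sum_congr
    intro x _
    push_cast
    ring
  · intro i
    simp

lemma SH_sum {ι : Type*} (n : ℕ) (α : Fin n → ZMod p) (s : Finset ι) (S : ι → PA p) :
    SH n α (∑ i ∈ s, S i) = ∑ i ∈ s, SH n α (S i) := by
  classical
  induction s using Finset.induction_on with
  | empty => simp [SH_zero]
  | insert a s ha ih => rw [Finset.sum_insert ha, Finset.sum_insert ha, SH_add, ih]

lemma SH_single (n : ℕ) (α : Fin n → ZMod p) (f : (ZMod p)[X]) (c : ℝ) :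
    SH n α (MonoidAlgebra.single f c) = (c : ℂ) * ZMod.stdAddChar (-(fa n α f)) := by
  unfold SH
  rw [MonoidAlgebra.coeff_single, Finsupp.sum_single_index]
  simp

lemma SH_eq {n k : ℕ} {M : ℝ} (α : Fin n → ZMod p) {S : PA p} (h : Bd k M S) :
    SH n α S = ∑ f ∈ mon p k, (S.coeff f : ℂ) * ZMod.stdAddChar (-(fa n α f)) := by
  conv_lhs => rw [h.eq_sum]
  rw [SH_sum]
  apply Finset.sum_congr rfl
  intro f _
  rw [SH_single]

lemma SH_mul {n k l : ℕ} {M N : ℝ} (α : Fin n → ZMod p) {A B : PA p} (hA : Bd k M A)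
    (hB : Bd l N B) : SH n α (A * B) = ∑ a ∈ mon p k, ∑ b ∈ mon p l,
      (A.coeff a : ℂ) * (B.coeff b : ℂ) * ZMod.stdAddChar (-(fa n α (a * b))) := by
  conv_lhs => rw [hA.eq_sum, hB.eq_sum]
  rw [Finset.sum_mul_sum, SH_sum]
  apply Finset.sum_congr rfl
  intro a _
  rw [SH_sum]
  apply Finset.sum_congr rfl
  intro b _
  rw [MonoidAlgebra.single_mul_single, SH_single]
  push_cast
  ring

lemma sum_mon_eq {R : Type*} [AddCommMonoid R] (k : ℕ) (F : (ZMod p)[X] → R) :
    ∑ f ∈ mon p k, F f = ∑ v : Fin k → ZMod p, F (monPoly k v) := by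
  classical
  unfold mon
  rw [Finset.sum_image]
  intro v _ w _ h
  exact monPoly_injective k h

/-- the free sum over monic polynomials -/
lemma inner_sum (l : (ZMod p)[X] →ₗ[ZMod p] ZMod p) (c : (ZMod p)[X]) (k : ℕ)
    [Decidable (∀ i < k, l (c * X ^ i) = 0)] :
    ∑ b ∈ mon p k, (ZMod.stdAddChar (-(l (c * b))) : ℂ) =
      if (∀ i < k, l (c * X ^ i) = 0) then (ZMod.stdAddChar (-(l (c * X ^ k))) : ℂ) * (p : ℂ) ^ k
      else 0 := by
  classical
  rw [sum_mon_eq]
  have h1 : ∀ v : Fin k → ZMod p, (ZMod.stdAddChar (-(l (c * monPoly k v))) : ℂ) =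
      ZMod.stdAddChar (-(l (c * X ^ k))) *
        ZMod.stdAddChar (∑ t, v t * (-(l (c * X ^ (t : ℕ))))) := by
    intro v
    rw [← AddChar.map_add_eq_mul]
    congr 1
    unfold monPoly lowPoly
    rw [mul_add, map_add, neg_add, Finset.mul_sum, map_sum]
    congr 1
    rw [← Finset.sum_neg_distrib]
    apply Finset.sum_congr rfl
    intro t _
    have h2 : c * (C (v t) * X ^ (t : ℕ)) = v t • (c * X ^ (t : ℕ)) := by
      rw [Polynomial.smul_eq_C_mul]; ring
    rw [h2, map_smul, smul_eq_mul]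
    ring
  simp_rw [h1]
  rw [← Finset.mul_sum, sum_stdAddChar]
  have h3 : ((fun t : Fin k => -(l (c * X ^ (t : ℕ)))) = 0) ↔ (∀ i < k, l (c * X ^ i) = 0) := by
    constructor
    · intro h i hi
      have := congrFun h ⟨i, hi⟩
      simpa using this
    · intro h
      funext t
      simp [h t t.2]
  by_cases h4 : ∀ i < k, l (c * X ^ i) = 0
  · rw [if_pos h4, if_pos (h3.2 h4)]
  · rw [if_neg h4, if_neg (fun h => h4 (h3.1 h)), mul_zero]

/-- counting the kernel when the functional is not bad at level `r` -/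
lemma card_ker_le {n r s : ℕ} (α : Fin n → ZMod p) (hα : α ∉ bad p n r) (hrs : r ≤ s)
    (hs : 2 * s ≤ n) (T : Finset (ZMod p)[X]) (hT : ∀ e ∈ T, e ∈ KK (fa n α) n s) :
    T.card ≤ p ^ (s - r) := by
  classical
  have hnb : ∀ d ∈ KK (fa n α) n r, d = 0 := by
    intro d hd
    by_contra h0
    apply hα
    unfold bad
    rw [Finset.mem_filter]
    exact ⟨Finset.mem_univ _, d, hd, h0⟩
  by_cases hex : ∃ t, t ≤ s ∧ ∃ d ∈ KK (fa n α) n t, d ≠ 0
  · have hex' : ∃ t, ∃ d ∈ KK (fa n α) n t, d ≠ 0 := by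
      obtain ⟨t, _, h⟩ := hex
      exact ⟨t, h⟩
    obtain ⟨r0, hr0⟩ : ∃ r0, r0 = Nat.find hex' := ⟨_, rfl⟩
    obtain ⟨d, hd, hd0⟩ := Nat.find_spec hex'
    rw [← hr0] at hd
    have hmin : ∀ t < r0, ∀ d' ∈ KK (fa n α) n t, d' = 0 := by
      intro t ht d' hd'
      by_contra h0
      rw [hr0] at ht
      exact Nat.find_min hex' ht ⟨d', hd', h0⟩
    have hr0s : r0 ≤ s := by
      obtain ⟨t, hts, h⟩ := hex
      exact (hr0 ▸ Nat.find_min' hex' h).trans hts
    have hrr0 : r < r0 := by
      by_contra hcon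
      exact hd0 (hnb d (KK_mono _ (by omega) hd))
    refine (card_KK_le (fa n α) hd hd0 hmin (by omega) hr0s T hT).trans ?_
    exact Nat.pow_le_pow_right hp.out.pos (by omega)
  · push Not at hex
    have h1 : T ⊆ {0} := by
      intro e he
      rw [Finset.mem_singleton]
      exact hex s le_rfl e (hT e he)
    refine (Finset.card_le_card h1).trans ?_
    rw [Finset.card_singleton]
    exact Nat.one_le_pow _ _ hp.out.pos

/-- the bound for exponential sums that we propagate -/
def TB (n h : ℕ) (M : ℝ) (S : PA p) : Prop :=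
  Bd n M S ∧ ∀ r ≤ h, ∀ α : Fin n → ZMod p, α ∉ bad p n r →
    ‖SH n α S‖ ≤ M * (p : ℝ) ^ n / (Real.sqrt p) ^ r

lemma sqrt_p_pos : 0 < Real.sqrt (p : ℝ) := Real.sqrt_pos.2 (by exact_mod_cast hp.out.pos)

lemma one_le_sqrt_p : 1 ≤ Real.sqrt (p : ℝ) := by
  rw [Real.one_le_sqrt]
  exact_mod_cast hp.out.one_lt.le

lemma TB.mono {n h : ℕ} {M N : ℝ} {S : PA p} (hS : TB n h M S) (hMN : M ≤ N) : TB n h N S := by
  refine ⟨hS.1.mono hMN, fun r hr α hα => (hS.2 r hr α hα).trans ?_⟩
  have := sqrt_p_pos (p := p)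
  gcongr

lemma TB.zero (n h : ℕ) {M : ℝ} (hM : 0 ≤ M) : TB n h M (0 : PA p) := by
  refine ⟨Bd.zero n hM, fun r _ α _ => ?_⟩
  rw [SH_zero, norm_zero]
  have := sqrt_p_pos (p := p)
  positivity

lemma TB.add {n h : ℕ} {M N : ℝ} {S S' : PA p} (hS : TB n h M S) (hS' : TB n h N S') :
    TB n h (M + N) (S + S') := by
  refine ⟨hS.1.add hS'.1, fun r hr α hα => ?_⟩
  rw [SH_add]
  refine (norm_add_le _ _).trans ((add_le_add (hS.2 r hr α hα) (hS'.2 r hr α hα)).trans
    (le_of_eq ?_))
  ring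

lemma TB.smul {n h : ℕ} {M : ℝ} {S : PA p} (c : ℝ) (hS : TB n h M S) :
    TB n h (|c| * M) (c • S) := by
  refine ⟨hS.1.smul c, fun r hr α hα => ?_⟩
  rw [SH_smul, norm_mul, Complex.norm_real, Real.norm_eq_abs]
  refine (mul_le_mul_of_nonneg_left (hS.2 r hr α hα) (abs_nonneg _)).trans (le_of_eq ?_)
  ring

lemma TB.neg {n h : ℕ} {M : ℝ} {S : PA p} (hS : TB n h M S) : TB n h M (-S) := by
  have := hS.smul (-1)
  simpa using this

lemma TB.nonneg {n h : ℕ} {M : ℝ} {S : PA p} (hS : TB n h M S) : 0 ≤ M := hS.1.nonneg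

lemma TB.sum {ι : Type*} {n h : ℕ} {M : ℝ} (s : Finset ι) {S : ι → PA p}
    (hS : ∀ i ∈ s, TB n h M (S i)) : TB n h (s.card * M) (∑ i ∈ s, S i) := by
  classical
  induction s using Finset.induction_on with
  | empty => simpa using TB.zero n h le_rfl
  | insert a s ha ih =>
    rw [Finset.sum_insert ha, Finset.card_insert_of_notMem ha]
    have h1 := (hS a (Finset.mem_insert_self _ _)).add
      (ih fun i hi => hS i (Finset.mem_insert_of_mem hi))
    refine h1.mono (le_of_eq ?_)
    push_cast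
    ring

end Pool.Agent.MP0a1886
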