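import Pool.Agent.MP0a1886.ExpSum

/-! Type I and type II bounds for MP_0a1886_pr. -/

set_option autoImplicit false
set_option linter.unusedSectionVars false
open Finset Polynomial

namespace Pool.Agent.MP0a1886

variable {p : ℕ} [hp : Fact p.Prime]

lemma norm_inner_sum (l : (ZMod p)[X] →ₗ[ZMod p] ZMod p) (c : (ZMod p)[X]) (k : ℕ)
    [Decidable (∀ i < k, l (c * X ^ i) = 0)] :
    ‖∑ b ∈ mon p k, (ZMod.stdAddChar (-(l (c * b))) : ℂ)‖ =
      if (∀ i < k, l (c * X ^ i) = 0) then (p : ℝ) ^ k else 0 := by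
  rw [inner_sum]
  split_ifs
  · rw [norm_mul, AddChar.norm_apply, one_mul, norm_pow, Complex.norm_natCast]
  · exact norm_zero

lemma sqrt_p_le : Real.sqrt (p : ℝ) ≤ p := by
  have h1 := one_le_sqrt_p (p := p)
  have h2 : Real.sqrt (p : ℝ) * Real.sqrt (p : ℝ) = p := Real.mul_self_sqrt (by positivity)
  calc Real.sqrt (p : ℝ) = Real.sqrt (p : ℝ) * 1 := by ring
    _ ≤ Real.sqrt (p : ℝ) * Real.sqrt (p : ℝ) := by gcongr
    _ = p := h2

lemma DivB.one_le {n : ℕ} {T : ℝ} (hT : DivB p n T) : 1 ≤ T := by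
  have := hT 1 Polynomial.monic_one (by simp) {1} (by simp [Polynomial.monic_one])
  simpa using this

lemma sum_norm_coeff_le {k : ℕ} {M : ℝ} {S : PA p} (h : Bd k M S) :
    ∑ f ∈ mon p k, ‖(S.coeff f : ℂ)‖ ≤ (p : ℝ) ^ k * M := by
  have h1 : ∀ f ∈ mon p k, ‖(S.coeff f : ℂ)‖ ≤ M := by
    intro f _
    rw [Complex.norm_real, Real.norm_eq_abs]
    exact h.2 f
  refine (Finset.sum_le_card_nsmul _ _ _ h1).trans (le_of_eq ?_)
  rw [card_mon, nsmul_eq_mul]
  push_cast
  ring

/-- trivial bound -/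
lemma norm_SH_le {n k : ℕ} {M : ℝ} (α : Fin n → ZMod p) {S : PA p} (h : Bd k M S) :
    ‖SH n α S‖ ≤ ∑ f ∈ mon p k, |S.coeff f| := by
  rw [SH_eq α h]
  refine (norm_sum_le _ _).trans (le_of_eq ?_)
  apply Finset.sum_congr rfl
  intro f _
  rw [norm_mul, AddChar.norm_apply, mul_one, Complex.norm_real, Real.norm_eq_abs]

/-- type I -/
lemma type_one {n h s : ℕ} {M T : ℝ} {A : PA p} (hT : DivB p n T) (hA : Bd s M A)
    (hs : 2 * s ≤ n) (hsn : s + h ≤ n) : TB n h (M * T) (A * uno p (n - s)) := by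
  classical
  have hM := hA.nonneg
  have h1T := hT.one_le
  refine ⟨?_, ?_⟩
  · have := Bd.mul hT (by omega) hA (Bd_uno (p := p) (n - s))
    rw [mul_one] at this
    rwa [show s + (n - s) = n by omega] at this
  · intro r hr α hα
    have huno : ∀ b ∈ mon p (n - s), (uno p (n - s)).coeff b = 1 := by
      intro b hb
      unfold uno
      rw [MonoidAlgebra.coeff_sum]
      simp only [MonoidAlgebra.coeff_single]
      rw [Finsupp.finsetSum_apply]
      simp only [Finsupp.single_apply]
      rw [Finset.sum_ite_eq' (mon p (n - s)) b, if_pos hb]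
    rw [SH_mul α hA (Bd_uno (p := p) (n - s))]
    have h1 : ∀ a ∈ mon p s, ‖∑ b ∈ mon p (n - s),
        (A.coeff a : ℂ) * ((uno p (n - s)).coeff b : ℂ) * ZMod.stdAddChar (-(fa n α (a * b)))‖ ≤
        if (∀ i < n - s, fa n α (a * X ^ i) = 0) then M * (p : ℝ) ^ (n - s) else 0 := by
      intro a _
      have h2 : ∑ b ∈ mon p (n - s),
          (A.coeff a : ℂ) * ((uno p (n - s)).coeff b : ℂ) * ZMod.stdAddChar (-(fa n α (a * b)))
          = (A.coeff a : ℂ) * ∑ b ∈ mon p (n - s), ZMod.stdAddChar (-(fa n α (a * b))) := by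
        rw [Finset.mul_sum]
        apply Finset.sum_congr rfl
        intro b hb
        rw [huno b hb]
        push_cast
        ring
      rw [h2, norm_mul, norm_inner_sum, Complex.norm_real, Real.norm_eq_abs]
      split_ifs
      · exact mul_le_mul_of_nonneg_right (hA.2 a) (by positivity)
      · rw [mul_zero]
    refine (norm_sum_le _ _).trans ((Finset.sum_le_sum h1).trans ?_)
    rw [← Finset.sum_filter, Finset.sum_const, nsmul_eq_mul]
    set F := (mon p s).filter (fun a => ∀ i < n - s, fa n α (a * X ^ i) = 0) with hF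
    have hFK : ∀ e ∈ F, e ∈ KK (fa n α) n s := by
      intro e he
      rw [hF, Finset.mem_filter, mem_mon] at he
      refine ⟨by rw [he.1.2], fun i hi => he.2 i (by omega)⟩
    have hq1 := one_le_sqrt_p (p := p)
    have hq0 := sqrt_p_pos (p := p)
    have hpp : Real.sqrt (p : ℝ) ^ 2 = p := Real.sq_sqrt (by positivity)
    have hp0 : (0 : ℝ) < p := by exact_mod_cast hp.out.pos
    have key : (F.card : ℝ) * (p : ℝ) ^ (n - s) ≤ (p : ℝ) ^ n / Real.sqrt p ^ r := by
      by_cases hrs : r ≤ s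
      · have h3 := card_ker_le α hα hrs hs F hFK
        have h4 : (F.card : ℝ) ≤ (p : ℝ) ^ (s - r) := by exact_mod_cast h3
        rw [le_div_iff₀ (pow_pos hq0 r)]
        calc (F.card : ℝ) * (p : ℝ) ^ (n - s) * Real.sqrt p ^ r
            ≤ (p : ℝ) ^ (s - r) * (p : ℝ) ^ (n - s) * (p : ℝ) ^ r := by
              apply mul_le_mul
              · exact mul_le_mul_of_nonneg_right h4 (by positivity)
              · exact pow_le_pow_left₀ hq0.le sqrt_p_le _
              · positivity
              · positivity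
          _ = (p : ℝ) ^ n := by
              rw [← pow_add, ← pow_add]; congr 1; omega
      · -- no monic polynomial of degree `s` in the kernel
        have h3 : F = ∅ := by
          rw [Finset.eq_empty_iff_forall_notMem]
          intro e he
          have he' := hFK e he
          rw [hF, Finset.mem_filter, mem_mon] at he
          apply hα
          unfold bad
          rw [Finset.mem_filter]
          exact ⟨Finset.mem_univ _, e, KK_mono _ (by omega) he', he.1.1.ne_zero⟩
        rw [h3]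
        simp only [Finset.card_empty, Nat.cast_zero, zero_mul]
        positivity
    calc (F.card : ℝ) * (M * (p : ℝ) ^ (n - s)) = M * ((F.card : ℝ) * (p : ℝ) ^ (n - s)) := by ring
      _ ≤ M * ((p : ℝ) ^ n / Real.sqrt p ^ r) := mul_le_mul_of_nonneg_left key hM
      _ ≤ M * T * (p : ℝ) ^ n / Real.sqrt p ^ r := by
          rw [mul_div_assoc]
          apply mul_le_mul_of_nonneg_right _ (by positivity)
          nlinarith

/-- type II, the square of the sum, `s` the degree of the short variable -/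
lemma type_two_sq {n s : ℕ} {M N : ℝ} {A B : PA p} (hA : Bd s M A) (hB : Bd (n - s) N B)
    (hs : 2 * s ≤ n) {r : ℕ} (hr : r ≤ s) (α : Fin n → ZMod p) (hα : α ∉ bad p n r) :
    ‖SH n α (A * B)‖ ^ 2 ≤ (M * N) ^ 2 * ((p : ℝ) ^ (2 * n - r)) := by
  classical
  have hM := hA.nonneg
  have hN := hB.nonneg
  rw [SH_mul α hA hB, Finset.sum_comm]
  set y : (ZMod p)[X] → ℂ := fun b => ∑ a ∈ mon p s,
    (A.coeff a : ℂ) * ZMod.stdAddChar (-(fa n α (a * b))) with hy
  have h1 : ∑ b ∈ mon p (n - s), ∑ a ∈ mon p s,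
      (A.coeff a : ℂ) * (B.coeff b : ℂ) * ZMod.stdAddChar (-(fa n α (a * b)))
      = ∑ b ∈ mon p (n - s), (B.coeff b : ℂ) * y b := by
    apply Finset.sum_congr rfl
    intro b _
    rw [hy, Finset.mul_sum]
    apply Finset.sum_congr rfl
    intro a _
    ring
  rw [h1]
  -- Cauchy-Schwarz
  have h2 : ‖∑ b ∈ mon p (n - s), (B.coeff b : ℂ) * y b‖ ^ 2 ≤
      (N ^ 2 * (p : ℝ) ^ (n - s)) * ∑ b ∈ mon p (n - s), ‖y b‖ ^ 2 := by
    have h3 : ‖∑ b ∈ mon p (n - s), (B.coeff b : ℂ) * y b‖ ≤
        ∑ b ∈ mon p (n - s), |B.coeff b| * ‖y b‖ := by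
      refine (norm_sum_le _ _).trans (le_of_eq ?_)
      apply Finset.sum_congr rfl
      intro b _
      rw [norm_mul, Complex.norm_real, Real.norm_eq_abs]
    calc ‖∑ b ∈ mon p (n - s), (B.coeff b : ℂ) * y b‖ ^ 2
        ≤ (∑ b ∈ mon p (n - s), |B.coeff b| * ‖y b‖) ^ 2 :=
          pow_le_pow_left₀ (norm_nonneg _) h3 2
      _ ≤ (∑ b ∈ mon p (n - s), |B.coeff b| ^ 2) * ∑ b ∈ mon p (n - s), ‖y b‖ ^ 2 :=
          Finset.sum_mul_sq_le_sq_mul_sq _ _ _
      _ ≤ (N ^ 2 * (p : ℝ) ^ (n - s)) * ∑ b ∈ mon p (n - s), ‖y b‖ ^ 2 := by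
          apply mul_le_mul_of_nonneg_right _ (Finset.sum_nonneg fun _ _ => by positivity)
          have h4 : ∀ b ∈ mon p (n - s), |B.coeff b| ^ 2 ≤ N ^ 2 := fun b _ =>
            pow_le_pow_left₀ (abs_nonneg _) (hB.2 b) 2
          refine (Finset.sum_le_card_nsmul _ _ _ h4).trans (le_of_eq ?_)
          rw [card_mon, nsmul_eq_mul]
          push_cast
          ring
  -- opening the square
  have h3 : ((∑ b ∈ mon p (n - s), ‖y b‖ ^ 2 : ℝ) : ℂ) = ∑ a ∈ mon p s, ∑ a' ∈ mon p s,
      (A.coeff a : ℂ) * (A.coeff a' : ℂ) *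
        ∑ b ∈ mon p (n - s), ZMod.stdAddChar (-(fa n α ((a - a') * b))) := by
    push_cast
    have h4 : ∀ b ∈ mon p (n - s), ((‖y b‖ : ℂ)) ^ 2 = ∑ a ∈ mon p s, ∑ a' ∈ mon p s,
        (A.coeff a : ℂ) * (A.coeff a' : ℂ) * ZMod.stdAddChar (-(fa n α ((a - a') * b))) := by
      intro b _
      rw [← Complex.mul_conj', hy]
      simp only
      rw [map_sum, Finset.sum_mul_sum]
      apply Finset.sum_congr rfl
      intro a _
      apply Finset.sum_congr rfl
      intro a' _
      rw [(starRingEnd ℂ).map_mul, Complex.conj_ofReal, ← AddChar.map_neg_eq_conj, neg_neg]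
      have h5 : -(fa n α ((a - a') * b)) = -(fa n α (a * b)) + fa n α (a' * b) := by
        rw [sub_mul, map_sub]; ring
      rw [h5, AddChar.map_add_eq_mul]
      ring
    rw [Finset.sum_congr rfl h4, Finset.sum_comm]
    apply Finset.sum_congr rfl
    intro a _
    rw [Finset.sum_comm]
    apply Finset.sum_congr rfl
    intro a' _
    rw [Finset.mul_sum]
  set F := ((Finset.univ : Finset (Fin s → ZMod p)).image (lowPoly s)).filter
    (fun d => ∀ i < n - s, fa n α (d * X ^ i) = 0) with hF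
  have hFK : ∀ e ∈ F, e ∈ KK (fa n α) n s := by
    intro e he
    rw [hF, Finset.mem_filter, Finset.mem_image] at he
    obtain ⟨⟨v, _, rfl⟩, h5⟩ := he
    refine ⟨?_, fun i hi => h5 i (by omega)⟩
    have := degree_lowPoly_lt s v
    exact Polynomial.natDegree_le_of_degree_le this.le
  have hFc := card_ker_le α hα hr hs F hFK
  have h4 : ∑ b ∈ mon p (n - s), ‖y b‖ ^ 2 ≤
      M ^ 2 * (p : ℝ) ^ (n - s) * ((p : ℝ) ^ s * F.card) := by
    have h5 : ∑ b ∈ mon p (n - s), ‖y b‖ ^ 2 =
        ‖((∑ b ∈ mon p (n - s), ‖y b‖ ^ 2 : ℝ) : ℂ)‖ := by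
      rw [Complex.norm_real, Real.norm_eq_abs, abs_of_nonneg]
      exact Finset.sum_nonneg fun _ _ => by positivity
    rw [h5, h3]
    have h6 : ∀ a ∈ mon p s, ‖∑ a' ∈ mon p s, (A.coeff a : ℂ) * (A.coeff a' : ℂ) *
        ∑ b ∈ mon p (n - s), ZMod.stdAddChar (-(fa n α ((a - a') * b)))‖ ≤
        M ^ 2 * (p : ℝ) ^ (n - s) * F.card := by
      intro a ha
      have h7 : ∀ a' ∈ mon p s, ‖(A.coeff a : ℂ) * (A.coeff a' : ℂ) *
          ∑ b ∈ mon p (n - s), ZMod.stdAddChar (-(fa n α ((a - a') * b)))‖ ≤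
          if (a - a') ∈ F then M ^ 2 * (p : ℝ) ^ (n - s) else 0 := by
        intro a' ha'
        rw [norm_mul, norm_mul, Complex.norm_real, Complex.norm_real, Real.norm_eq_abs,
          Real.norm_eq_abs, norm_inner_sum]
        by_cases hc : ∀ i < n - s, fa n α ((a - a') * X ^ i) = 0
        · rw [if_pos hc]
          have h8 : (a - a') ∈ F := by
            rw [hF, Finset.mem_filter, Finset.mem_image]
            refine ⟨?_, hc⟩
            obtain ⟨v, hv⟩ := exists_lowPoly s (a - a') (by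
              have ha1 := mem_mon.1 ha
              have ha2 := mem_mon.1 ha'
              have h9 := Polynomial.degree_sub_lt_left (p := a) (q := a')
                (by rw [Polynomial.degree_eq_natDegree ha1.1.ne_zero,
                  Polynomial.degree_eq_natDegree ha2.1.ne_zero, ha1.2, ha2.2])
                ha1.1.ne_zero (by rw [ha1.1.leadingCoeff, ha2.1.leadingCoeff])
              rwa [Polynomial.degree_eq_natDegree ha1.1.ne_zero, ha1.2] at h9)
            exact ⟨v, Finset.mem_univ _, hv⟩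
          rw [if_pos h8, sq]
          apply mul_le_mul_of_nonneg_right _ (by positivity)
          exact mul_le_mul (hA.2 a) (hA.2 a') (abs_nonneg _) hM
        · rw [if_neg hc, mul_zero]
          split_ifs
          · positivity
          · exact le_rfl
      refine (norm_sum_le _ _).trans ((Finset.sum_le_sum h7).trans ?_)
      rw [← Finset.sum_filter, Finset.sum_const, nsmul_eq_mul, mul_comm]
      apply mul_le_mul_of_nonneg_left _ (by positivity)
      have h8 : ((mon p s).filter (fun a' => (a - a') ∈ F)).card ≤ F.card := by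
        apply Finset.card_le_card_of_injOn (fun a' => a - a')
        · intro a' ha'
          exact (Finset.mem_filter.1 ha').2
        · intro x _ y _ hxy
          have : a - x = a - y := hxy
          exact sub_right_injective this
      exact_mod_cast h8
    refine (norm_sum_le _ _).trans ((Finset.sum_le_card_nsmul _ _ _ h6).trans (le_of_eq ?_))
    rw [card_mon, nsmul_eq_mul]
    push_cast
    ring
  have hFc' : (F.card : ℝ) ≤ (p : ℝ) ^ (s - r) := by exact_mod_cast hFc
  calc ‖∑ b ∈ mon p (n - s), (B.coeff b : ℂ) * y b‖ ^ 2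
      ≤ (N ^ 2 * (p : ℝ) ^ (n - s)) * ∑ b ∈ mon p (n - s), ‖y b‖ ^ 2 := h2
    _ ≤ (N ^ 2 * (p : ℝ) ^ (n - s)) * (M ^ 2 * (p : ℝ) ^ (n - s) *
          ((p : ℝ) ^ s * (p : ℝ) ^ (s - r))) := by
        apply mul_le_mul_of_nonneg_left _ (by positivity)
        refine h4.trans ?_
        apply mul_le_mul_of_nonneg_left _ (by positivity)
        exact mul_le_mul_of_nonneg_left hFc' (by positivity)
    _ = (M * N) ^ 2 * (p : ℝ) ^ (2 * n - r) := by
        have h9 : (p : ℝ) ^ (2 * n - r) = (p : ℝ) ^ (n - s) * (p : ℝ) ^ (n - s) *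
            ((p : ℝ) ^ s * (p : ℝ) ^ (s - r)) := by
          rw [← pow_add, ← pow_add, ← pow_add]; congr 1; omega
        rw [h9]
        ring

lemma type_two_aux {n h s : ℕ} {M N T : ℝ} {A B : PA p} (hT : DivB p n T) (hA : Bd s M A)
    (hB : Bd (n - s) N B) (hs : 2 * s ≤ n) (hh : h ≤ s) : TB n h (M * N * T) (A * B) := by
  have hM := hA.nonneg
  have hN := hB.nonneg
  have h1T := hT.one_le
  refine ⟨?_, ?_⟩
  · have := Bd.mul hT (by omega) hA hB
    rwa [show s + (n - s) = n by omega] at this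
  · intro r hr α hα
    have h1 := type_two_sq hA hB hs (hr.trans hh) α hα
    have hq0 := sqrt_p_pos (p := p)
    have hpp : Real.sqrt (p : ℝ) ^ 2 = p := Real.sq_sqrt (by positivity)
    have h2 : ‖SH n α (A * B)‖ ≤ M * N * (p : ℝ) ^ n / Real.sqrt p ^ r := by
      apply le_of_sq_le_sq _ (by positivity)
      refine h1.trans (le_of_eq ?_)
      have hp0 : (0 : ℝ) < p := by exact_mod_cast hp.out.pos
      have h3 : (Real.sqrt (p : ℝ) ^ r) ^ 2 = (p : ℝ) ^ r := by
        rw [← pow_mul, mul_comm r 2, pow_mul, hpp]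
      have h4 : (p : ℝ) ^ (2 * n - r) * (p : ℝ) ^ r = ((p : ℝ) ^ n) ^ 2 := by
        rw [← pow_add, ← pow_mul]
        congr 1
        omega
      rw [div_pow, h3, eq_div_iff (by positivity), mul_assoc, h4]
      ring
    refine h2.trans ?_
    apply div_le_div_of_nonneg_right _ (by positivity)
    apply mul_le_mul_of_nonneg_right _ (by positivity)
    exact le_mul_of_one_le_right (mul_nonneg hM hN) h1T

/-- type II -/
lemma type_two {n h s : ℕ} {M N T : ℝ} {A B : PA p} (hT : DivB p n T) (hA : Bd s M A)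
    (hB : Bd (n - s) N B) (hs : h ≤ s) (hs' : s + h ≤ n) : TB n h (M * N * T) (A * B) := by
  by_cases h2 : 2 * s ≤ n
  · exact type_two_aux hT hA hB h2 hs
  · have hA' : Bd (n - (n - s)) M A := by
      rwa [show n - (n - s) = s by omega]
    have := type_two_aux hT hB hA' (by omega) (by omega : h ≤ n - s)
    rw [mul_comm A B, mul_comm M N]
    exact this

end Pool.Agent.MP0a1886
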