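import Pool.Agent.MP0a1886.ExpSum2
import Pool.Agent.MP0a1886.Alg4

/-! Vaughan's identity and the recursion for the Möbius function, for MP_0a1886_pr. -/

set_option autoImplicit false
set_option linter.unusedSectionVars false
open Finset Polynomial

namespace Pool.Agent.MP0a1886

variable {p : ℕ} [hp : Fact p.Prime]

/-! ### formal part -/

/-- the convolution of the truncated von Mangoldt and Möbius functions -/
noncomputable def AAc (p : ℕ) [Fact p.Prime] (U V w : ℕ) : PA p :=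
  ∑ y ∈ HasAntidiagonal.antidiagonal w,
    (if y.1 ≤ U then Lam p (fun _ => True) y.1 else 0) * (if y.2 ≤ V then mu p (fun _ => True) y.2
      else 0)

/-- the convolution of the tail of the Möbius function with one -/
noncomputable def EEc (p : ℕ) [Fact p.Prime] (V m : ℕ) : PA p :=
  ∑ y ∈ HasAntidiagonal.antidiagonal m, (if V < y.1 then mu p (fun _ => True) y.1 else 0) * uno p y.2

lemma vaughan_ring {R : Type*} [CommRing R] {L LL LG M ML MG E : R} (h1 : M * E = 1)
    (h3 : M = ML + MG) (h4 : L = LL + LG) :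
    L = L * E * ML - LL * ML * E + LG * (MG * E) + LL := by
  rw [h4]
  rw [h3] at h1
  linear_combination (-LG) * h1

/-- Vaughan's identity -/
lemma vaughan_anti {U V j : ℕ} (hU : U < j) :
    Lam p (fun _ => True) j
      = ∑ x ∈ HasAntidiagonal.antidiagonal j, ((x.1 : ℝ) • uno p x.1) *
          (if x.2 ≤ V then mu p (fun _ => True) x.2 else 0)
        - ∑ x ∈ HasAntidiagonal.antidiagonal j, AAc p U V x.1 * uno p x.2
        + ∑ x ∈ HasAntidiagonal.antidiagonal j, (if U < x.1 then Lam p (fun _ => True) x.1 else 0) *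
          EEc p V x.2 := by
  have h1 : (PowerSeries.mk (mu p (fun _ => True))) * (PowerSeries.mk (uno p)) = 1 := by
    refine PowerSeries.ext fun n => ?_
    rw [PowerSeries.coeff_mul]
    simp only [PowerSeries.coeff_mk]
    rw [Finset.Nat.sum_antidiagonal_eq_sum_range_succ (fun a b => mu p (fun _ => True) a * uno p b),
      mu_uno_true, PowerSeries.coeff_one]
  have h2 : (PowerSeries.mk (fun n => (n : ℝ) • uno p n))
      = (PowerSeries.mk (Lam p (fun _ => True))) * (PowerSeries.mk (uno p)) := by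
    refine PowerSeries.ext fun n => ?_
    rw [PowerSeries.coeff_mul]
    simp only [PowerSeries.coeff_mk]
    rw [Finset.Nat.sum_antidiagonal_eq_sum_range_succ
      (fun a b => Lam p (fun _ => True) a * uno p b)]
    have := smo_rec (p := p) (fun _ => True) n
    simp only [smo_true] at this
    exact this
  have h3 : PowerSeries.mk (mu p (fun _ => True))
      = PowerSeries.mk (fun k => if k ≤ V then mu p (fun _ => True) k else 0)
        + PowerSeries.mk (fun k => if V < k then mu p (fun _ => True) k else 0) := by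
    refine PowerSeries.ext fun n => ?_
    rw [map_add]
    simp only [PowerSeries.coeff_mk]
    by_cases hn : n ≤ V
    · rw [if_pos hn, if_neg (by omega), add_zero]
    · rw [if_neg hn, if_pos (by omega), zero_add]
  have h4 : PowerSeries.mk (Lam p (fun _ => True))
      = PowerSeries.mk (fun k => if k ≤ U then Lam p (fun _ => True) k else 0)
        + PowerSeries.mk (fun k => if U < k then Lam p (fun _ => True) k else 0) := by
    refine PowerSeries.ext fun n => ?_
    rw [map_add]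
    simp only [PowerSeries.coeff_mk]
    by_cases hn : n ≤ U
    · rw [if_pos hn, if_neg (by omega), add_zero]
    · rw [if_neg hn, if_pos (by omega), zero_add]
  have h5 : PowerSeries.mk (Lam p (fun _ => True))
      = PowerSeries.mk (fun n => (n : ℝ) • uno p n)
          * PowerSeries.mk (fun k => if k ≤ V then mu p (fun _ => True) k else 0)
        - PowerSeries.mk (AAc p U V) * PowerSeries.mk (uno p)
        + PowerSeries.mk (fun k => if U < k then Lam p (fun _ => True) k else 0)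
          * PowerSeries.mk (EEc p V)
        + PowerSeries.mk (fun k => if k ≤ U then Lam p (fun _ => True) k else 0) := by
    have h6 : PowerSeries.mk (AAc p U V)
        = PowerSeries.mk (fun k => if k ≤ U then Lam p (fun _ => True) k else 0)
          * PowerSeries.mk (fun k => if k ≤ V then mu p (fun _ => True) k else 0) := by
      refine PowerSeries.ext fun n => ?_
      rw [PowerSeries.coeff_mul]
      simp only [PowerSeries.coeff_mk]
      rfl
    have h7 : PowerSeries.mk (EEc p V)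
        = PowerSeries.mk (fun k => if V < k then mu p (fun _ => True) k else 0)
          * PowerSeries.mk (uno p) := by
      refine PowerSeries.ext fun n => ?_
      rw [PowerSeries.coeff_mul]
      simp only [PowerSeries.coeff_mk]
      rfl
    rw [h6, h7, h2]
    exact vaughan_ring h1 h3 h4
  have h8 := congrArg (PowerSeries.coeff j) h5
  rw [map_add, map_add, map_sub, PowerSeries.coeff_mul, PowerSeries.coeff_mul,
    PowerSeries.coeff_mul] at h8
  simp only [PowerSeries.coeff_mk] at h8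
  rw [if_neg (by omega : ¬ j ≤ U), add_zero] at h8
  exact h8

/-! ### bounds for the pieces -/

lemma ite_Bd {P : Prop} [Decidable P] {k : ℕ} {M : ℝ} {S : PA p} (hS : Bd k M S) :
    Bd k M (if P then S else 0) := by
  split_ifs
  · exact hS
  · exact Bd.zero k hS.nonneg

lemma Bd.mul' {n k l m : ℕ} {M N T : ℝ} {A B : PA p} (hT : DivB p n T) (hm : k + l = m)
    (hmn : m ≤ n) (hA : Bd k M A) (hB : Bd l N B) : Bd m (M * N * T) (A * B) := by
  subst hm
  exact Bd.mul hT hmn hA hB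

lemma AAc_Bd {n U V w : ℕ} {T : ℝ} (hT : DivB p n T) (hw : w ≤ n) :
    Bd w (((n : ℝ) + 1) * (n * T)) (AAc p U V w) := by
  have h1T := hT.one_le
  unfold AAc
  have h1 : ∀ y ∈ HasAntidiagonal.antidiagonal w, Bd w ((n : ℝ) * T)
      ((if y.1 ≤ U then Lam p (fun _ => True) y.1 else 0) *
        (if y.2 ≤ V then mu p (fun _ => True) y.2 else 0)) := by
    intro y hy
    rw [HasAntidiagonal.mem_antidiagonal] at hy
    refine (Bd.mul' hT hy hw (ite_Bd (Lam_Bd _ y.1)) (ite_Bd (mu_Bd _ y.2))).mono ?_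
    rw [mul_one]
    have : (y.1 : ℝ) ≤ n := by exact_mod_cast (by omega : y.1 ≤ n)
    exact mul_le_mul_of_nonneg_right this (by linarith)
  refine (Bd.sum _ h1).mono ?_
  rw [Finset.Nat.card_antidiagonal]
  have : ((w + 1 : ℕ) : ℝ) ≤ (n : ℝ) + 1 := by exact_mod_cast (by omega : w + 1 ≤ n + 1)
  exact mul_le_mul_of_nonneg_right this (by positivity)

lemma EEc_Bd {n V m : ℕ} {T : ℝ} (hT : DivB p n T) (hm : m ≤ n) :
    Bd m (((n : ℝ) + 1) * T) (EEc p V m) := by
  have h1T := hT.one_le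
  unfold EEc
  have h1 : ∀ y ∈ HasAntidiagonal.antidiagonal m, Bd m T
      ((if V < y.1 then mu p (fun _ => True) y.1 else 0) * uno p y.2) := by
    intro y hy
    rw [HasAntidiagonal.mem_antidiagonal] at hy
    refine (Bd.mul' hT hy hm (ite_Bd (mu_Bd _ y.1)) (Bd_uno y.2)).mono ?_
    rw [mul_one, one_mul]
  refine (Bd.sum _ h1).mono ?_
  rw [Finset.Nat.card_antidiagonal]
  have : ((m + 1 : ℕ) : ℝ) ≤ (n : ℝ) + 1 := by exact_mod_cast (by omega : m + 1 ≤ n + 1)
  exact mul_le_mul_of_nonneg_right this (by linarith)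

lemma EEc_zero {V m : ℕ} (hm : m ≤ V) : EEc p V m = 0 := by
  unfold EEc
  apply Finset.sum_eq_zero
  intro y hy
  rw [HasAntidiagonal.mem_antidiagonal] at hy
  rw [if_neg (by omega), zero_mul]

/-- type I or type II, as needed -/
lemma type_any {n h s : ℕ} {M T : ℝ} {A : PA p} (hT : DivB p n T) (hA : Bd s M A)
    (h3 : 2 * h ≤ n) (hsn : s + h ≤ n) : TB n h (M * T) (A * uno p (n - s)) := by
  by_cases hs : 2 * s ≤ n
  · exact type_one hT hA hs hsn
  · have := type_two hT hA (Bd_uno (p := p) (n - s)) (by omega : h ≤ s) hsn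
    rwa [mul_one] at this

/-- the first sum in Vaughan's identity -/
lemma TB_first {n j : ℕ} {T MD : ℝ} {D : PA p} (hT : DivB p n T) (hj : n - n / 3 < j)
    (hjn : j ≤ n) (hD : Bd (n - j) MD D) :
    TB n (n / 3) (((n : ℝ) + 1) ^ 2 * T ^ 2 * MD)
      ((∑ x ∈ HasAntidiagonal.antidiagonal j, ((x.1 : ℝ) • uno p x.1) *
          (if x.2 ≤ n / 3 then mu p (fun _ => True) x.2 else 0)) * D) := by
  have h1T := hT.one_le
  have hMD := hD.nonneg
  rw [Finset.sum_mul]
  have h1 : ∀ x ∈ HasAntidiagonal.antidiagonal j, TB n (n / 3) ((n : ℝ) * (T ^ 2 * MD))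
      ((((x.1 : ℝ) • uno p x.1) * (if x.2 ≤ n / 3 then mu p (fun _ => True) x.2 else 0)) * D) := by
    intro x hx
    rw [HasAntidiagonal.mem_antidiagonal] at hx
    by_cases hk : x.2 ≤ n / 3
    · rw [if_pos hk]
      have h2 : Bd (x.2 + (n - j)) (1 * MD * T) (mu p (fun _ => True) x.2 * D) :=
        Bd.mul hT (by omega) (mu_Bd _ _) hD
      have h3 := type_any (h := n / 3) hT h2 (by omega) (by omega)
      rw [show n - (x.2 + (n - j)) = x.1 by omega] at h3
      have h4 := (h3.smul (x.1 : ℝ))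
      have h5 : (((x.1 : ℝ) • uno p x.1) * mu p (fun _ => True) x.2) * D
          = (x.1 : ℝ) • (mu p (fun _ => True) x.2 * D * uno p x.1) := by
        rw [smul_mul_assoc, smul_mul_assoc]
        congr 1
        ring
      rw [h5]
      refine h4.mono ?_
      rw [abs_of_nonneg (Nat.cast_nonneg _)]
      have h6 : (x.1 : ℝ) ≤ n := by exact_mod_cast (by omega : x.1 ≤ n)
      calc (x.1 : ℝ) * (1 * MD * T * T) = (x.1 : ℝ) * (T ^ 2 * MD) := by ring
        _ ≤ n * (T ^ 2 * MD) := mul_le_mul_of_nonneg_right h6 (by positivity)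
    · rw [if_neg hk, mul_zero, zero_mul]
      exact TB.zero _ _ (by positivity)
  refine (TB.sum _ h1).mono ?_
  rw [Finset.Nat.card_antidiagonal]
  have h7 : ((j + 1 : ℕ) : ℝ) ≤ (n : ℝ) + 1 := by exact_mod_cast (by omega : j + 1 ≤ n + 1)
  calc ((j + 1 : ℕ) : ℝ) * ((n : ℝ) * (T ^ 2 * MD))
      ≤ ((n : ℝ) + 1) * (((n : ℝ) + 1) * (T ^ 2 * MD)) := by
        apply mul_le_mul h7 _ (by positivity) (by positivity)
        exact mul_le_mul_of_nonneg_right (by linarith) (by positivity)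
    _ = ((n : ℝ) + 1) ^ 2 * T ^ 2 * MD := by ring

/-- the second sum in Vaughan's identity -/
lemma TB_second {n j : ℕ} {T MD : ℝ} {D : PA p} (hT : DivB p n T) (hj : n - n / 3 < j)
    (hjn : j ≤ n) (hD : Bd (n - j) MD D) :
    TB n (n / 3) (((n : ℝ) + 1) ^ 3 * T ^ 3 * MD)
      ((∑ x ∈ HasAntidiagonal.antidiagonal j, AAc p (n / 3) (n / 3) x.1 * uno p x.2) * D) := by
  have h1T := hT.one_le
  have hMD := hD.nonneg
  rw [Finset.sum_mul]
  have h1 : ∀ x ∈ HasAntidiagonal.antidiagonal j, TB n (n / 3)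
      (((n : ℝ) + 1) * (n * T) * MD * T * T)
      (AAc p (n / 3) (n / 3) x.1 * uno p x.2 * D) := by
    intro x hx
    rw [HasAntidiagonal.mem_antidiagonal] at hx
    by_cases hw : x.1 ≤ 2 * (n / 3)
    · by_cases hw' : n / 3 ≤ x.1
      · have h2 : Bd (n - x.1) (1 * MD * T) (uno p x.2 * D) :=
          Bd.mul' hT (by omega) (by omega) (Bd_uno _) hD
        have h3 := type_two hT (AAc_Bd (U := n / 3) (V := n / 3) hT (by omega : x.1 ≤ n)) h2 hw'
          (by omega)
        rw [mul_assoc (AAc p (n / 3) (n / 3) x.1) (uno p x.2) D]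
        refine h3.mono (le_of_eq ?_)
        ring
      · have h2 : Bd (x.1 + (n - j)) (((n : ℝ) + 1) * (n * T) * MD * T)
            (AAc p (n / 3) (n / 3) x.1 * D) :=
          Bd.mul hT (by omega) (AAc_Bd hT (by omega)) hD
        have h3 := type_any (h := n / 3) hT h2 (by omega) (by omega)
        rw [show n - (x.1 + (n - j)) = x.2 by omega] at h3
        rw [mul_right_comm (AAc p (n / 3) (n / 3) x.1) (uno p x.2) D]
        exact h3
    · have h4 : AAc p (n / 3) (n / 3) x.1 = 0 := by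
        unfold AAc
        apply Finset.sum_eq_zero
        intro y hy
        rw [HasAntidiagonal.mem_antidiagonal] at hy
        by_cases hy1 : y.1 ≤ n / 3
        · rw [if_neg (by omega : ¬ y.2 ≤ n / 3), mul_zero]
        · rw [if_neg hy1, zero_mul]
      rw [h4, zero_mul, zero_mul]
      exact TB.zero _ _ (by positivity)
  refine (TB.sum _ h1).mono ?_
  rw [Finset.Nat.card_antidiagonal]
  have h7 : ((j + 1 : ℕ) : ℝ) ≤ (n : ℝ) + 1 := by exact_mod_cast (by omega : j + 1 ≤ n + 1)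
  calc ((j + 1 : ℕ) : ℝ) * (((n : ℝ) + 1) * (n * T) * MD * T * T)
      ≤ ((n : ℝ) + 1) * (((n : ℝ) + 1) * (((n : ℝ) + 1) * T) * MD * T * T) := by
        apply mul_le_mul h7 _ (by positivity) (by positivity)
        gcongr
        linarith
    _ = ((n : ℝ) + 1) ^ 3 * T ^ 3 * MD := by ring

/-- the third sum in Vaughan's identity -/
lemma TB_third {n j : ℕ} {T MD : ℝ} {D : PA p} (hT : DivB p n T) (hj : n - n / 3 < j)
    (hjn : j ≤ n) (hD : Bd (n - j) MD D) :
    TB n (n / 3) (((n : ℝ) + 1) ^ 3 * T ^ 3 * MD)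
      ((∑ x ∈ HasAntidiagonal.antidiagonal j,
        (if n / 3 < x.1 then Lam p (fun _ => True) x.1 else 0) * EEc p (n / 3) x.2) * D) := by
  have h1T := hT.one_le
  have hMD := hD.nonneg
  rw [Finset.sum_mul]
  have h1 : ∀ x ∈ HasAntidiagonal.antidiagonal j, TB n (n / 3)
      ((n : ℝ) * ((((n : ℝ) + 1) * T) * MD * T) * T)
      ((if n / 3 < x.1 then Lam p (fun _ => True) x.1 else 0) * EEc p (n / 3) x.2 * D) := by
    intro x hx
    rw [HasAntidiagonal.mem_antidiagonal] at hx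
    by_cases hi : n / 3 < x.1
    · by_cases hm : x.2 ≤ n / 3
      · rw [EEc_zero hm, mul_zero, zero_mul]
        exact TB.zero _ _ (by positivity)
      · rw [if_pos hi, mul_assoc (Lam p (fun _ => True) x.1) (EEc p (n / 3) x.2) D]
        have h2 : Bd (n - x.1) ((((n : ℝ) + 1) * T) * MD * T) (EEc p (n / 3) x.2 * D) :=
          Bd.mul' hT (by omega) (by omega) (EEc_Bd hT (by omega)) hD
        have h3 := type_two hT (Lam_Bd (p := p) (fun _ => True) x.1) h2 hi.le (by omega)
        refine h3.mono ?_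
        have h6 : (x.1 : ℝ) ≤ n := by exact_mod_cast (by omega : x.1 ≤ n)
        gcongr
    · rw [if_neg hi, zero_mul, zero_mul]
      exact TB.zero _ _ (by positivity)
  refine (TB.sum _ h1).mono ?_
  rw [Finset.Nat.card_antidiagonal]
  have h7 : ((j + 1 : ℕ) : ℝ) ≤ (n : ℝ) + 1 := by exact_mod_cast (by omega : j + 1 ≤ n + 1)
  calc ((j + 1 : ℕ) : ℝ) * ((n : ℝ) * ((((n : ℝ) + 1) * T) * MD * T) * T)
      ≤ ((n : ℝ) + 1) * (((n : ℝ) + 1) * ((((n : ℝ) + 1) * T) * MD * T) * T) := by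
        apply mul_le_mul h7 _ (by positivity) (by positivity)
        gcongr
        linarith
    _ = ((n : ℝ) + 1) ^ 3 * T ^ 3 * MD := by ring

/-- the bound for the von Mangoldt function in large degree -/
theorem TB_Lam {n j : ℕ} {T MD : ℝ} {D : PA p} (hT : DivB p n T) (hj : n - n / 3 < j)
    (hjn : j ≤ n) (hD : Bd (n - j) MD D) :
    TB n (n / 3) (3 * ((n : ℝ) + 1) ^ 3 * T ^ 3 * MD) (Lam p (fun _ => True) j * D) := by
  have h1T := hT.one_le
  have hMD := hD.nonneg
  have h1 := TB_first hT hj hjn hD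
  have h2 := TB_second hT hj hjn hD
  have h3 := TB_third hT hj hjn hD
  rw [vaughan_anti (U := n / 3) (V := n / 3) (by omega), add_mul, sub_mul, sub_eq_add_neg]
  refine ((h1.add h2.neg).add h3).mono ?_
  have h4 : ((n : ℝ) + 1) ^ 2 * T ^ 2 * MD ≤ ((n : ℝ) + 1) ^ 3 * T ^ 3 * MD := by
    apply mul_le_mul_of_nonneg_right _ hMD
    apply mul_le_mul _ _ (by positivity) (by positivity)
    · exact pow_le_pow_right₀ (by linarith [Nat.cast_nonneg (α := ℝ) n]) (by norm_num)
    · exact pow_le_pow_right₀ h1T (by norm_num)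
  nlinarith [h4]

/-! ### prime powers and large degree -/

lemma tot_eq_mon {k : ℕ} {M : ℝ} {S : PA p} (h : Bd k M S) : tot p S = ∑ f ∈ mon p k, S.coeff f := by
  conv_lhs => rw [h.eq_sum]
  rw [map_sum]
  exact Finset.sum_congr rfl fun f _ => tot_single f _

lemma norm_SH_mul_le {n k l : ℕ} {M N : ℝ} (α : Fin n → ZMod p) {A B : PA p} (hA : Bd k M A)
    (hB : Bd l N B) :
    ‖SH n α (A * B)‖ ≤ (∑ a ∈ mon p k, |A.coeff a|) * ((p : ℝ) ^ l * N) := by
  rw [SH_mul α hA hB]
  refine (norm_sum_le _ _).trans ?_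
  rw [Finset.sum_mul]
  apply Finset.sum_le_sum
  intro a _
  refine (norm_sum_le _ _).trans ?_
  have h1 : ∀ b ∈ mon p l, ‖(A.coeff a : ℂ) * (B.coeff b : ℂ) *
      ZMod.stdAddChar (-(fa n α (a * b)))‖ ≤ |A.coeff a| * ‖(B.coeff b : ℂ)‖ := by
    intro b _
    rw [norm_mul, norm_mul, AddChar.norm_apply, mul_one, Complex.norm_real (A.coeff a),
      Real.norm_eq_abs]
  refine (Finset.sum_le_sum h1).trans ?_
  rw [← Finset.mul_sum]
  exact mul_le_mul_of_nonneg_left (sum_norm_coeff_le hB) (abs_nonneg _)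

lemma Lam_small {A : ℕ → Prop} {j : ℕ} (hA : ∀ d, A d → j < d) : Lam p A j = 0 := by
  classical
  unfold Lam
  apply Finset.sum_eq_zero
  intro d hd
  rw [Finset.mem_filter, Nat.mem_divisors] at hd
  have h1 := Nat.le_of_dvd (Nat.pos_of_ne_zero hd.1.2) hd.1.1
  have h2 := hA d hd.2
  omega

/-- proper prime powers are harmless -/
lemma TB_Lam_le {n j m : ℕ} {T MD : ℝ} {D : PA p} (hT : DivB p n T) (hm : m < j)
    (hj : n - n / 3 < j) (hjn : j ≤ n) (hD : Bd (n - j) MD D) :
    TB n (n / 3) (2 * ((n : ℝ) + 1) ^ 3 * T ^ 3 * MD) (Lam p (fun d => d ≤ m) j * D) := by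
  have h1T := hT.one_le
  have hMD := hD.nonneg
  have hjn' : (j : ℝ) ≤ n := by exact_mod_cast hjn
  have hn0 : (0 : ℝ) ≤ n := Nat.cast_nonneg n
  have key : (j : ℝ) ≤ ((n : ℝ) + 1) ^ 3 * T ^ 3 := by
    have h1 : (1 : ℝ) ≤ T ^ 3 := one_le_pow₀ h1T
    have h2 : (n : ℝ) + 1 ≤ ((n : ℝ) + 1) ^ 3 := le_self_pow₀ (by linarith) (by norm_num)
    calc (j : ℝ) ≤ (n : ℝ) + 1 := by linarith
      _ ≤ ((n : ℝ) + 1) ^ 3 := h2
      _ = ((n : ℝ) + 1) ^ 3 * 1 := by ring
      _ ≤ ((n : ℝ) + 1) ^ 3 * T ^ 3 := mul_le_mul_of_nonneg_left h1 (by positivity)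
  have hLB := Lam_Bd (p := p) (fun d => d ≤ m) j
  refine ⟨?_, fun r hr α _ => ?_⟩
  · refine (Bd.mul' hT (by omega : j + (n - j) = n) le_rfl hLB hD).mono ?_
    have h1 : T ≤ T ^ 3 := le_self_pow₀ h1T (by norm_num)
    have h2 : (j : ℝ) ≤ 2 * ((n : ℝ) + 1) ^ 3 := by
      have h2 : (n : ℝ) + 1 ≤ ((n : ℝ) + 1) ^ 3 := le_self_pow₀ (by linarith) (by norm_num)
      have h3 : (0 : ℝ) ≤ ((n : ℝ) + 1) ^ 3 := by positivity
      linarith
    calc (j : ℝ) * MD * T = (j : ℝ) * T * MD := by ring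
      _ ≤ (2 * ((n : ℝ) + 1) ^ 3) * T ^ 3 * MD := by gcongr
  · refine (norm_SH_mul_le α hLB hD).trans ?_
    have h1 : ∑ a ∈ mon p j, |(Lam p (fun d => d ≤ m) j).coeff a|
        = tot p (Lam p (fun d => d ≤ m) j) := by
      rw [tot_eq_mon hLB]
      exact Finset.sum_congr rfl fun f _ => abs_of_nonneg (Lam_nonneg _ _ _)
    rw [h1]
    have h2 := tot_Lam_gt (p := p) hm
    have hq0 := sqrt_p_pos (p := p)
    have hq1 := one_le_sqrt_p (p := p)
    have hpp : Real.sqrt (p : ℝ) ^ 2 = p := Real.sq_sqrt (by positivity)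
    rw [le_div_iff₀ (pow_pos hq0 r)]
    have h3 : (p : ℝ) ^ (j / 2) * (p : ℝ) ^ (n - j) * Real.sqrt (p : ℝ) ^ r ≤ (p : ℝ) ^ n := by
      calc (p : ℝ) ^ (j / 2) * (p : ℝ) ^ (n - j) * Real.sqrt (p : ℝ) ^ r
          = Real.sqrt (p : ℝ) ^ (2 * (j / 2) + 2 * (n - j) + r) := by
            have e1 : (p : ℝ) ^ (j / 2) = Real.sqrt (p : ℝ) ^ (2 * (j / 2)) := by
              rw [pow_mul, hpp]
            have e2 : (p : ℝ) ^ (n - j) = Real.sqrt (p : ℝ) ^ (2 * (n - j)) := by
              rw [pow_mul, hpp]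
            rw [e1, e2, ← pow_add, ← pow_add]
        _ ≤ Real.sqrt (p : ℝ) ^ (2 * n) := pow_le_pow_right₀ hq1 (by omega)
        _ = (p : ℝ) ^ n := by rw [pow_mul, hpp]
    calc tot p (Lam p (fun d => d ≤ m) j) * ((p : ℝ) ^ (n - j) * MD) * Real.sqrt (p : ℝ) ^ r
        ≤ (2 * j * (p : ℝ) ^ (j / 2)) * ((p : ℝ) ^ (n - j) * MD) * Real.sqrt (p : ℝ) ^ r := by
          gcongr
      _ = (2 * j) * MD * ((p : ℝ) ^ (j / 2) * (p : ℝ) ^ (n - j) * Real.sqrt (p : ℝ) ^ r) := by ring
      _ ≤ (2 * j) * MD * (p : ℝ) ^ n := by gcongr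
      _ ≤ (2 * (((n : ℝ) + 1) ^ 3 * T ^ 3)) * MD * (p : ℝ) ^ n := by gcongr
      _ = 2 * ((n : ℝ) + 1) ^ 3 * T ^ 3 * MD * (p : ℝ) ^ n := by ring

/-- the bound for the von Mangoldt function restricted to large primes -/
theorem TB_Lam_gt {n j m : ℕ} {T MD : ℝ} {D : PA p} (hT : DivB p n T) (hm : m < j)
    (hj : n - n / 3 < j) (hjn : j ≤ n) (hD : Bd (n - j) MD D) :
    TB n (n / 3) (5 * ((n : ℝ) + 1) ^ 3 * T ^ 3 * MD) (Lam p (fun d => m < d) j * D) := by
  have h1 : Lam p (fun d => m < d) j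
      = Lam p (fun _ => True) j - Lam p (fun d => d ≤ m) j := by
    rw [Lam_split (fun d => d ≤ m) j]
    simp only [not_le]
    rw [add_sub_cancel_left]
  rw [h1, sub_mul, sub_eq_add_neg]
  refine ((TB_Lam hT hj hjn hD).add (TB_Lam_le hT hm hj hjn hD).neg).mono (le_of_eq ?_)
  ring

/-! ### the recursion for the Möbius function -/

lemma KK_bounds {n : ℕ} {T : ℝ} (h1T : 1 ≤ T) {j : ℕ} (hj : j ≤ n) :
    1 ≤ 5 * ((n : ℝ) + 1) ^ 3 * T ^ 4 ∧ T ≤ 5 * ((n : ℝ) + 1) ^ 3 * T ^ 4 ∧
      (j : ℝ) * T ≤ 5 * ((n : ℝ) + 1) ^ 3 * T ^ 4 ∧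
      (j : ℝ) * T ^ 2 ≤ 5 * ((n : ℝ) + 1) ^ 3 * T ^ 4 := by
  have hn0 : (0 : ℝ) ≤ n := Nat.cast_nonneg n
  have hj' : (j : ℝ) ≤ n := by exact_mod_cast hj
  have hj0 : (0 : ℝ) ≤ j := Nat.cast_nonneg j
  have h1 : (n : ℝ) + 1 ≤ ((n : ℝ) + 1) ^ 3 := le_self_pow₀ (by linarith) (by norm_num)
  have h2 : T ^ 2 ≤ T ^ 4 := pow_le_pow_right₀ h1T (by norm_num)
  have h3 : T ≤ T ^ 2 := le_self_pow₀ h1T (by norm_num)
  have h4 : (1 : ℝ) ≤ 5 * ((n : ℝ) + 1) ^ 3 := by linarith
  have h5 : (j : ℝ) ≤ 5 * ((n : ℝ) + 1) ^ 3 := by linarith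
  have h6 : T ^ 4 ≤ 5 * ((n : ℝ) + 1) ^ 3 * T ^ 4 := le_mul_of_one_le_left (by positivity) h4
  refine ⟨by linarith, by linarith, ?_, ?_⟩
  · exact mul_le_mul h5 (h3.trans h2) (by linarith) (by positivity)
  · exact mul_le_mul h5 h2 (by positivity) (by positivity)

theorem TB_mu_mul_aux {n m : ℕ} {T : ℝ} (hT : DivB p n T) :
    ∀ R k : ℕ, n / 3 ≤ k → k ≤ n → k < (m + 1) * R → ∀ (M : ℝ) (C : PA p), Bd (n - k) M C →
      TB n (n / 3) ((5 * ((n : ℝ) + 1) ^ 3 * T ^ 4) ^ R * M) (mu p (fun d => m < d) k * C) := by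
  have h1T := hT.one_le
  intro R
  induction R with
  | zero =>
    intro k _ _ hk
    omega
  | succ R ih =>
    intro k hk1 hk2 hk3 M C hC
    have hM := hC.nonneg
    obtain ⟨hK1, hKT, -, -⟩ := KK_bounds (n := n) h1T (le_refl n)
    set K : ℝ := 5 * ((n : ℝ) + 1) ^ 3 * T ^ 4 with hK
    have hK0 : 0 ≤ K := by linarith
    have hKR : K ≤ K ^ (R + 1) := le_self_pow₀ hK1 (Nat.succ_ne_zero R)
    by_cases hkn : k ≤ n - n / 3
    · refine (type_two hT (mu_Bd (p := p) (fun d => m < d) k) hC hk1 (by omega)).mono ?_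
      rw [one_mul, mul_comm M T]
      exact mul_le_mul_of_nonneg_right (hKT.trans hKR) hM
    · have hk0 : 0 < k := by omega
      have hk0' : (0 : ℝ) < k := by exact_mod_cast hk0
      have e1 : ∑ j ∈ range (k + 1), Lam p (fun d => m < d) j * mu p (fun d => m < d) (k - j)
          = ∑ j ∈ Finset.Ioc m k, Lam p (fun d => m < d) j * mu p (fun d => m < d) (k - j) := by
        symm
        apply Finset.sum_subset
        · intro j hj
          rw [Finset.mem_Ioc] at hj
          rw [Finset.mem_range]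
          omega
        · intro j hj hj'
          rw [Finset.mem_range] at hj
          rw [Finset.mem_Ioc] at hj'
          rw [Lam_small (A := fun d => m < d) (j := j) (fun d hd => by omega), zero_mul]
      have e2 : mu p (fun d => m < d) k * C = (-(k : ℝ)⁻¹) •
          ∑ j ∈ Finset.Ioc m k, Lam p (fun d => m < d) j * mu p (fun d => m < d) (k - j) * C := by
        have h1 := mu_rec (p := p) (fun d => m < d) k
        rw [e1] at h1
        have h2 : mu p (fun d => m < d) k = (k : ℝ)⁻¹ • ((k : ℝ) • mu p (fun d => m < d) k) := by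
          rw [smul_smul, inv_mul_cancel₀ hk0'.ne', one_smul]
        rw [h2, h1, smul_neg, ← neg_smul, smul_mul_assoc, Finset.sum_mul]
      rw [e2]
      have h3 : ∀ j ∈ Finset.Ioc m k, TB n (n / 3) (K ^ (R + 1) * M)
          (Lam p (fun d => m < d) j * mu p (fun d => m < d) (k - j) * C) := by
        intro j hj
        rw [Finset.mem_Ioc] at hj
        have hjn : j ≤ n := by omega
        obtain ⟨-, -, hb1, hb2⟩ := KK_bounds (n := n) h1T hjn
        rw [← hK] at hb1 hb2
        by_cases hj1 : j < n / 3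
        · have e3 : Lam p (fun d => m < d) j * mu p (fun d => m < d) (k - j) * C
              = mu p (fun d => m < d) (k - j) * (Lam p (fun d => m < d) j * C) := by
            rw [mul_comm (Lam p (fun d => m < d) j), mul_assoc]
          rw [e3]
          have h4 : Bd (n - (k - j)) ((j : ℝ) * M * T) (Lam p (fun d => m < d) j * C) :=
            Bd.mul' hT (by omega) (by omega) (Lam_Bd _ _) hC
          have h5 : k - j < (m + 1) * R := by
            have : (m + 1) * (R + 1) = (m + 1) * R + (m + 1) := by ring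
            omega
          refine (ih (k - j) (by omega) (by omega) h5 _ _ h4).mono ?_
          calc K ^ R * ((j : ℝ) * M * T) = K ^ R * ((j : ℝ) * T) * M := by ring
            _ ≤ K ^ R * K * M := by gcongr
            _ = K ^ (R + 1) * M := by ring
        · have h4 : Bd (n - j) (1 * M * T) (mu p (fun d => m < d) (k - j) * C) :=
            Bd.mul' hT (by omega) (by omega) (mu_Bd _ _) hC
          rw [mul_assoc (Lam p (fun d => m < d) j)]
          by_cases hj2 : n - n / 3 < j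
          · refine (TB_Lam_gt hT hj.1 hj2 hjn h4).mono ?_
            calc 5 * ((n : ℝ) + 1) ^ 3 * T ^ 3 * (1 * M * T) = K * M := by rw [hK]; ring
              _ ≤ K ^ (R + 1) * M := mul_le_mul_of_nonneg_right hKR hM
          · refine (type_two hT (Lam_Bd (p := p) (fun d => m < d) j) h4 (by omega)
              (by omega)).mono ?_
            calc (j : ℝ) * (1 * M * T) * T = (j : ℝ) * T ^ 2 * M := by ring
              _ ≤ K * M := mul_le_mul_of_nonneg_right hb2 hM
              _ ≤ K ^ (R + 1) * M := mul_le_mul_of_nonneg_right hKR hM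
      refine ((TB.sum _ h3).smul _).mono ?_
      rw [abs_neg, abs_of_nonneg (inv_nonneg.2 hk0'.le), Nat.card_Ioc]
      have h6 : ((k - m : ℕ) : ℝ) ≤ k := by exact_mod_cast Nat.sub_le k m
      calc (k : ℝ)⁻¹ * (((k - m : ℕ) : ℝ) * (K ^ (R + 1) * M))
          ≤ (k : ℝ)⁻¹ * ((k : ℝ) * (K ^ (R + 1) * M)) := by gcongr
        _ = K ^ (R + 1) * M := by rw [← mul_assoc, inv_mul_cancel₀ hk0'.ne', one_mul]

/-- the bound for the Möbius function in large degree -/
theorem TB_mu_mul {n m R : ℕ} {T : ℝ} (hT : DivB p n T) (hR : n < (m + 1) * R) :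
    ∀ k, n / 3 ≤ k → k ≤ n → ∀ (M : ℝ) (C : PA p), Bd (n - k) M C →
      TB n (n / 3) ((5 * ((n : ℝ) + 1) ^ 3 * T ^ 4) ^ R * M) (mu p (fun d => m < d) k * C) :=
  fun k hk1 hk2 M C hC => TB_mu_mul_aux hT R k hk1 hk2 (lt_of_le_of_lt hk2 hR) M C hC

/-- the bound for the convolution of the Möbius function with one -/
theorem TB_mu_uno {n m R : ℕ} {T : ℝ} (hT : DivB p n T) (hR : n < (m + 1) * R) :
    ∀ k ≤ n, TB n (n / 3) ((5 * ((n : ℝ) + 1) ^ 3 * T ^ 4) ^ R)
      (mu p (fun d => m < d) k * uno p (n - k)) := by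
  intro k hk
  have h1T := hT.one_le
  by_cases hk1 : n / 3 ≤ k
  · have := TB_mu_mul hT hR k hk1 hk 1 _ (Bd_uno (n - k))
    rwa [mul_one] at this
  · refine (type_one (h := n / 3) hT (mu_Bd (p := p) (fun d => m < d) k) (by omega)
      (by omega)).mono ?_
    obtain ⟨hK1, hKT, -, -⟩ := KK_bounds (n := n) h1T (le_refl n)
    rw [one_mul]
    have hR0 : R ≠ 0 := by
      rintro rfl
      omega
    exact hKT.trans (le_self_pow₀ hK1 hR0)

end Pool.Agent.MP0a1886
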