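import Pool.Agent.MP0a1886.Tail
import Pool.Agent.MP0a1886.Vau

/-! The monic model for near-uniform laws: main range of the inclusion-exclusion (MP_0a1886_pr). -/

set_option autoImplicit false
set_option linter.unusedSectionVars false
open Finset Polynomial

namespace Pool.Agent.MP0a1886

variable {p : ℕ} [hp : Fact p.Prime]

lemma decay (K : ℕ) (A c : ℝ) (hc : 0 < c) : ∀ ε : ℝ, 0 < ε → ∃ N : ℕ, ∀ n : ℕ, N ≤ n →
    A * ((n : ℝ) + 2) ^ K * Real.exp (-(c * n)) ≤ ε := by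
  intro ε hε
  have h1 : Filter.Tendsto (fun y : ℝ => y ^ K * Real.exp (-y)) Filter.atTop (nhds 0) :=
    Real.tendsto_pow_mul_exp_neg_atTop_nhds_zero K
  have h2 : Filter.Tendsto (fun n : ℕ => c * ((n : ℝ) + 2)) Filter.atTop Filter.atTop := by
    apply Filter.Tendsto.const_mul_atTop hc
    exact Filter.tendsto_atTop_add_const_right _ _ tendsto_natCast_atTop_atTop
  have h3 := (h1.comp h2).const_mul (A / c ^ K * Real.exp (2 * c))
  rw [mul_zero] at h3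
  obtain ⟨N, hN⟩ := (h3.eventually (gt_mem_nhds hε)).exists_forall_of_atTop
  refine ⟨N, fun n hn => ?_⟩
  have h4 := (hN n hn).le
  simp only [Function.comp] at h4
  refine le_trans (le_of_eq ?_) h4
  rw [mul_pow]
  have h5 : Real.exp (-(c * n)) = Real.exp (2 * c) * Real.exp (-(c * ((n : ℝ) + 2))) := by
    rw [← Real.exp_add]; congr 1; ring
  rw [h5]
  field_simp

lemma G_eq (C1 n c b : ℝ) (R : ℕ) (hR : (0 : ℝ) < R) :
    (5 * (n + 1) ^ 3 * (C1 * Real.exp (c * b / (8 * R) * n)) ^ 4) ^ R =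
      (5 * C1 ^ 4) ^ R * (n + 1) ^ (3 * R) * Real.exp (c * b / 2 * n) := by
  have h3 : 5 * (n + 1) ^ 3 * (C1 * Real.exp (c * b / (8 * R) * n)) ^ 4 =
      (5 * C1 ^ 4) * (n + 1) ^ 3 * Real.exp (4 * (c * b / (8 * R) * n)) := by
    rw [mul_pow, ← Real.exp_nat_mul]
    push_cast
    ring
  have h4 : (R : ℝ) * (4 * (c * b / (8 * R) * n)) = c * b / 2 * n := by
    field_simp
    ring
  rw [h3, mul_pow, mul_pow, ← pow_mul, ← Real.exp_nat_mul, h4]

/-- The main range in the monic model. -/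
theorem monic_main (μ : ZMod p → ℝ) (h0 : ∀ a, 0 ≤ μ a) (h1 : ∑ a, μ a = 1) (t : ℝ)
    (ht1 : 1 ≤ t) (ht2 : t < 2) (hL : (∑ c, mw μ c ^ t) ^ 6 < (p : ℝ) ^ (2 - t))
    (x : ℝ) (hx : 0 < x) (R : ℕ) (hR : 1 ≤ x * R) (δ : ℝ) (hδ : 0 < δ) :
    ∀ ε : ℝ, 0 < ε → ∃ N : ℕ, ∀ n m k : ℕ, N ≤ n → x * n ≤ m → (k : ℝ) ≤ (1 - δ) * n →
      |EM μ n (mu p (fun d => m < d) k * uno p (n - k)) -
        tot p (mu p (fun d => m < d) k) / (p : ℝ) ^ k| ≤ ε / (n + 1) := by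
  classical
  intro ε hε
  have hp0 : (0 : ℝ) < p := by exact_mod_cast hp.out.pos
  obtain ⟨C, θ, hC, hθ0, hθ1, hsemi⟩ := semi (mw μ) (mw_nonneg μ) (mw_le_one μ h0 h1)
    (mw_zero μ h1) t ht1 ht2 hL
  -- the rate
  obtain ⟨c, hc⟩ : ∃ c, c = min (min x δ) (1 / 3) := ⟨_, rfl⟩
  have hc0 : 0 < c := by rw [hc]; positivity
  have hcx : c ≤ x := by rw [hc]; exact (min_le_left _ _).trans (min_le_left _ _)
  have hcδ : c ≤ δ := by rw [hc]; exact (min_le_left _ _).trans (min_le_right _ _)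
  have hc3 : c ≤ 1 / 3 := by rw [hc]; exact min_le_right _ _
  obtain ⟨b, hb⟩ : ∃ b, b = -Real.log θ := ⟨_, rfl⟩
  have hb0 : 0 < b := by
    rw [hb]
    have := Real.log_neg hθ0 hθ1
    linarith
  have hR0 : (0 : ℝ) < R := by
    rcases Nat.eq_zero_or_pos R with h | h
    · rw [h] at hR
      norm_num at hR
    · exact_mod_cast h
  obtain ⟨ε1, hε1⟩ : ∃ ε1, ε1 = c * b / (8 * R) := ⟨_, rfl⟩
  have hε10 : 0 < ε1 := by rw [hε1]; positivity
  obtain ⟨C1, hC1, hdiv⟩ := exists_divB p ε1 hε10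
  obtain ⟨N1, hN1⟩ := decay (3 * R + 3) (C * (5 * C1 ^ 4) ^ R * θ⁻¹) (c * b / 2) (by positivity) ε hε
  refine ⟨max N1 3, ?_⟩
  intro n m k hn hm hk
  have hn1 : N1 ≤ n := (le_max_left _ _).trans hn
  have hn3 : 3 ≤ n := (le_max_right _ _).trans hn
  have hn0 : (0 : ℝ) < n := by
    have : 0 < n := by omega
    exact_mod_cast this
  have hkn : k ≤ n := by
    have : (k : ℝ) ≤ n := by nlinarith
    exact_mod_cast this
  have hRn : n < (m + 1) * R := by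
    have h2 : (n : ℝ) < ((m : ℝ) + 1) * R := by
      calc (n : ℝ) ≤ (x * R) * n := by nlinarith
        _ = (x * n) * R := by ring
        _ ≤ m * R := by gcongr
        _ < ((m : ℝ) + 1) * R := by nlinarith
    exact_mod_cast h2
  have hTB := TB_mu_uno (p := p) (hdiv n) hRn k hkn
  obtain ⟨G, hG⟩ : ∃ G : ℝ, G = (5 * ((n : ℝ) + 1) ^ 3 * (C1 * Real.exp (ε1 * n)) ^ 4) ^ R :=
    ⟨_, rfl⟩
  rw [← hG] at hTB
  obtain ⟨ρ, hρ⟩ : ∃ ρ, ρ = min (min m (n - k)) (n / 3) := ⟨_, rfl⟩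
  have hρm : ρ ≤ m := by rw [hρ]; exact (min_le_left _ _).trans (min_le_left _ _)
  have hρk : ρ ≤ n - k := by rw [hρ]; exact (min_le_left _ _).trans (min_le_right _ _)
  have hρ3 : ρ ≤ n / 3 := by rw [hρ]; exact min_le_right _ _
  have hρc : c * n - 1 ≤ ρ := by
    have e1 : c * n - 1 ≤ m := by nlinarith
    have e2 : c * n - 1 ≤ ((n - k : ℕ) : ℝ) := by
      rw [Nat.cast_sub hkn]
      nlinarith
    have e3 : c * n - 1 ≤ ((n / 3 : ℕ) : ℝ) := by
      have h3 : n ≤ 3 * (n / 3) + 2 := by omega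
      have h4 : (n : ℝ) ≤ 3 * ((n / 3 : ℕ) : ℝ) + 2 := by exact_mod_cast h3
      nlinarith
    rw [hρ, Nat.cast_min, Nat.cast_min]
    exact le_min (le_min e1 e2) e3
  have hmain := EM_main μ h1 hTB.1 (ρ := ρ) (fun α hα hα0 =>
    SH_exact (mu_Bd (fun d => m < d) k) (fun f hf => mu_fac (fun d => m < d) k f hf) hρm
      (by omega) α hα hα0)
  have htot : tot p (mu p (fun d => m < d) k * uno p (n - k)) / (p : ℝ) ^ n =
      tot p (mu p (fun d => m < d) k) / (p : ℝ) ^ k := by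
    rw [map_mul, tot_uno]
    have h3 : (p : ℝ) ^ n = (p : ℝ) ^ k * (p : ℝ) ^ (n - k) := by
      rw [← pow_add]; congr 1; omega
    rw [h3]
    field_simp
  rw [htot] at hmain
  refine hmain.trans ((hsemi n ρ G _ hρ3 hTB).trans ?_)
  -- numerics
  have hθρ : θ ^ ρ ≤ θ⁻¹ * Real.exp (-(c * b * n)) := by
    have h3 : θ ^ ρ = Real.exp (-(b * ρ)) := by
      rw [hb, ← Real.exp_log (pow_pos hθ0 ρ), Real.log_pow]
      congr 1
      ring
    have h4 : θ⁻¹ = Real.exp b := by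
      rw [hb, Real.exp_neg, Real.exp_log hθ0]
    rw [h3, h4, ← Real.exp_add]
    apply Real.exp_le_exp.2
    nlinarith
  have hGeq : G = (5 * C1 ^ 4) ^ R * ((n : ℝ) + 1) ^ (3 * R) * Real.exp (c * b / 2 * n) := by
    rw [hG, hε1, G_eq C1 n c b R hR0]
  have hG0 : 0 ≤ G := hTB.nonneg
  have hn2 : (n : ℝ) + 1 ≤ n + 2 := by linarith
  have hG2 : G ≤ (5 * C1 ^ 4) ^ R * ((n : ℝ) + 2) ^ (3 * R) * Real.exp (c * b / 2 * n) := by
    rw [hGeq]
    apply mul_le_mul_of_nonneg_right _ (Real.exp_pos _).le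
    apply mul_le_mul_of_nonneg_left _ (by positivity)
    exact pow_le_pow_left₀ (by positivity) hn2 _
  rw [le_div_iff₀ (by positivity)]
  calc C * G * ((n : ℝ) + 2) ^ 2 * θ ^ ρ * (n + 1)
      = (C * ((n : ℝ) + 2) ^ 2) * G * (θ ^ ρ * (n + 1)) := by ring
    _ ≤ (C * ((n : ℝ) + 2) ^ 2) * ((5 * C1 ^ 4) ^ R * ((n : ℝ) + 2) ^ (3 * R) *
          Real.exp (c * b / 2 * n)) * ((θ⁻¹ * Real.exp (-(c * b * n))) * (n + 2)) := by
        apply mul_le_mul (mul_le_mul_of_nonneg_left hG2 (by positivity))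
          (mul_le_mul hθρ hn2 (by positivity) (by positivity)) (by positivity) (by positivity)
    _ = C * (5 * C1 ^ 4) ^ R * θ⁻¹ * ((n : ℝ) + 2) ^ (3 * R + 3) *
          (Real.exp (c * b / 2 * n) * Real.exp (-(c * b * n))) := by
        rw [pow_add ((n : ℝ) + 2) (3 * R) 3]
        ring
    _ = C * (5 * C1 ^ 4) ^ R * θ⁻¹ * ((n : ℝ) + 2) ^ (3 * R + 3) *
          Real.exp (-(c * b / 2 * n)) := by
        rw [← Real.exp_add]
        congr 2
        ring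
    _ ≤ ε := hN1 n hn1

end Pool.Agent.MP0a1886
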