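import Pool.Agent.MP0a1886.Final1

/-! Assembly for near-uniform laws (MP_0a1886_pr). -/

set_option autoImplicit false
set_option linter.unusedSectionVars false
open Finset Polynomial

namespace Pool.Agent.MP0a1886

variable {p : ℕ} [hp : Fact p.Prime]

open Classical in
lemma coeff_mul_uno {n k : ℕ} {M : ℝ} {A : PA p} (hA : Bd k M A)
    {f : (ZMod p)[X]} (hf : f ∈ mon p n) :
    (A * uno p (n - k)).coeff f = ∑ g ∈ (mon p k).filter (fun g => g ∣ f), A.coeff g := by
  rw [coeff_mul_mon hA (Bd_uno (p := p) (n - k)), Finset.sum_filter]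
  apply Finset.sum_congr rfl
  intro g hg
  split_ifs with hdvd
  · obtain ⟨b, hb⟩ := hdvd
    have hb' : b ∈ mon p (n - k) := by
      apply (mem_mon_of_mul hg (n := n) _).2
      rw [← hb]; exact hf
    rw [Finset.sum_eq_single b]
    · rw [if_pos hb.symm, coeff_uno, if_pos hb', mul_one]
    · intro b' _ hb'
      rw [if_neg]
      intro h2
      apply hb'
      rw [hb] at h2
      exact mul_left_cancel₀ (mem_mon.1 hg).1.ne_zero h2
    · intro h2
      exact absurd hb' h2
  · apply Finset.sum_eq_zero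
    intro b _
    rw [if_neg]
    rintro rfl
    exact hdvd (dvd_mul_right g b)

open Classical in
/-- partial sums of the inclusion-exclusion are bounded by the number of large-smooth divisors -/
lemma abs_partial {n m R : ℕ} (hR : n < (m + 1) * R) (K : Finset ℕ)
    {f : (ZMod p)[X]} (hf : f ∈ mon p n) :
    |(∑ k ∈ K, mu p (fun d => m < d) k * uno p (n - k)).coeff f| ≤
      if (∃ g : (ZMod p)[X], g ∣ f ∧ Fac (fun d => m < d) g ∧ g.natDegree ∈ K) then 2 ^ R
      else 0 := by
  set D := K.biUnion (fun k => (mon p k).filter (fun g => g ∣ f ∧ Fac (fun d => m < d) g)) with hD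
  have h1 : |(∑ k ∈ K, mu p (fun d => m < d) k * uno p (n - k)).coeff f| ≤ (D.card : ℝ) := by
    rw [MonoidAlgebra.coeff_sum, Finsupp.finsetSum_apply]
    refine (Finset.abs_sum_le_sum_abs _ _).trans ?_
    have h2 : ∀ k ∈ K, |(mu p (fun d => m < d) k * uno p (n - k)).coeff f| ≤
        (((mon p k).filter (fun g => g ∣ f ∧ Fac (fun d => m < d) g)).card : ℝ) := by
      intro k hk
      rw [coeff_mul_uno (mu_Bd (fun d => m < d) k) hf]
      refine (Finset.abs_sum_le_sum_abs _ _).trans ?_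
      have h3 : ∀ g ∈ (mon p k).filter (fun g => g ∣ f), |(mu p (fun d => m < d) k).coeff g| ≤
          if Fac (fun d => m < d) g then 1 else 0 := by
        intro g _
        split_ifs with hg
        · exact (mu_Bd (fun d => m < d) k).2 g
        · have : (mu p (fun d => m < d) k).coeff g = 0 := by
            by_contra h0
            exact hg (mu_fac _ k g h0)
          rw [this, abs_zero]
      refine (Finset.sum_le_sum h3).trans (le_of_eq ?_)
      rw [← Finset.sum_filter, Finset.filter_filter, Finset.sum_const, nsmul_eq_mul, mul_one]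
    refine (Finset.sum_le_sum h2).trans (le_of_eq ?_)
    rw [hD, Finset.card_biUnion]
    · push_cast
      rfl
    · intro i _ j _ hij
      rw [Function.onFun, Finset.disjoint_left]
      intro g hg hg'
      have e1 := (mem_mon.1 (Finset.mem_filter.1 hg).1).2
      have e2 := (mem_mon.1 (Finset.mem_filter.1 hg').1).2
      exact hij (e1.symm.trans e2)
  have hfm := mem_mon.1 hf
  split_ifs with hex
  · refine h1.trans (card_large_dvd hR hfm.1 (by rw [hfm.2]) D ?_)
    intro g hg
    rw [hD, Finset.mem_biUnion] at hg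
    obtain ⟨k, _, hg⟩ := hg
    rw [Finset.mem_filter, mem_mon] at hg
    exact ⟨hg.1.1, hg.2.1, hg.2.2⟩
  · have h2 : D = ∅ := by
      rw [Finset.eq_empty_iff_forall_notMem]
      intro g hg
      rw [hD, Finset.mem_biUnion] at hg
      obtain ⟨k, hk, hg⟩ := hg
      rw [Finset.mem_filter, mem_mon] at hg
      exact hex ⟨g, hg.2.1, hg.2.2, by rw [hg.1.2]; exact hk⟩
    rw [h2] at h1
    simpa using h1

lemma not_lt_eq (m : ℕ) : (fun d => ¬ m < d) = (fun d => d ≤ m) := by
  funext d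
  exact propext not_lt

open Classical in
/-- comparison with permutations in the monic model, up to the tail event -/
theorem monic_cmp (μ : ZMod p → ℝ) (h0 : ∀ a, 0 ≤ μ a) (h1 : ∑ a, μ a = 1) (t : ℝ)
    (ht1 : 1 ≤ t) (ht2 : t < 2) (hL : (∑ c, mw μ c ^ t) ^ 6 < (p : ℝ) ^ (2 - t))
    (x : ℝ) (hx : 0 < x) (R : ℕ) (hR : 1 ≤ x * R) (ε : ℝ) (hε : 0 < ε) (δ : ℝ) (hδ : 0 < δ)
    (hδ1 : δ < 1) (hδε : δ * (R + 1) / x ≤ ε / 4) :
    ∃ N : ℕ, ∀ n m : ℕ, N ≤ n → x * n ≤ m →
      |EMF μ n (fun f => if Fac (fun d => d ≤ m) f then 1 else 0) - cperm n m| ≤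
        ε + 2 ^ R * EMF μ n (fun f => if TailE m δ f then 1 else 0) := by
  obtain ⟨N1, hN1⟩ := monic_main μ h0 h1 t ht1 ht2 hL x hx R hR δ hδ (ε / 4) (by positivity)
  obtain ⟨M0, hM0⟩ := smooth_perm p (ε / 4) (by positivity)
  obtain ⟨N2, hN2⟩ := exists_nat_gt (max ((M0 : ℝ) / x) (4 * (R + 1) / (x * ε)))
  refine ⟨max N1 (max N2 1), ?_⟩
  intro n m hn hm
  have hnN1 : N1 ≤ n := (le_max_left _ _).trans hn
  have hnN2 : N2 ≤ n := (le_max_left _ _).trans ((le_max_right _ _).trans hn)
  have hn1 : 1 ≤ n := (le_max_right _ _).trans ((le_max_right _ _).trans hn)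
  have hn0 : (0 : ℝ) < n := by exact_mod_cast hn1
  have hN2' : max ((M0 : ℝ) / x) (4 * (R + 1) / (x * ε)) < n :=
    hN2.trans_le (by exact_mod_cast hnN2)
  have hnM : (M0 : ℝ) / x < n := (le_max_left _ _).trans_lt hN2'
  have hnε : 4 * ((R : ℝ) + 1) / (x * ε) < n := (le_max_right _ _).trans_lt hN2'
  have hmM : M0 ≤ m := by
    rw [div_lt_iff₀ hx] at hnM
    have : (M0 : ℝ) ≤ m := by linarith
    exact_mod_cast this
  have hR0 : (0 : ℝ) < R := by
    rcases Nat.eq_zero_or_pos R with h | h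
    · rw [h] at hR
      norm_num at hR
    · exact_mod_cast h
  have hRn : n < (m + 1) * R := by
    have h2 : (n : ℝ) < ((m : ℝ) + 1) * R := by
      calc (n : ℝ) ≤ (x * R) * n := by nlinarith
        _ = (x * n) * R := by ring
        _ ≤ m * R := by gcongr
        _ < ((m : ℝ) + 1) * R := by nlinarith
    exact_mod_cast h2
  have hp0 : (0 : ℝ) < p := by exact_mod_cast hp.out.pos
  set K1 := (Finset.range (n + 1)).filter (fun k : ℕ => (k : ℝ) ≤ (1 - δ) * n) with hK1
  set K2 := (Finset.range (n + 1)).filter (fun k : ℕ => ¬ (k : ℝ) ≤ (1 - δ) * n) with hK2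
  set u : ℕ → PA p := fun k => mu p (fun d => m < d) k * uno p (n - k) with hu
  have hsmo : smo p (fun d => d ≤ m) n = ∑ k ∈ K1, u k + ∑ k ∈ K2, u k := by
    rw [hK1, hK2, Finset.sum_filter_add_sum_filter_not, ← not_lt_eq, ← uno_mu]
  -- the expectation
  have hE : EMF μ n (fun f => if Fac (fun d => d ≤ m) f then 1 else 0) =
      EM μ n (∑ k ∈ K1, u k) + EM μ n (∑ k ∈ K2, u k) := by
    rw [← EM_add, ← hsmo]
    unfold EMF EM
    apply Finset.sum_congr rfl
    intro v _
    rw [coeff_smo]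
    have : monPoly n v ∈ mon p n := mem_mon.2 ⟨monPoly_monic n v, natDegree_monPoly n v⟩
    simp only [this, true_and]
  obtain ⟨β, hβ⟩ : ∃ β : ℕ → ℝ, β = fun k => tot p (mu p (fun d => m < d) k) / (p : ℝ) ^ k :=
    ⟨_, rfl⟩
  have hE1 : |EM μ n (∑ k ∈ K1, u k) - ∑ k ∈ K1, β k| ≤ ε / 4 := by
    rw [EM_sum, ← Finset.sum_sub_distrib]
    refine (Finset.abs_sum_le_sum_abs _ _).trans ?_
    have h2 : ∀ k ∈ K1, |EM μ n (u k) - β k| ≤ ε / 4 / (n + 1) := by
      intro k hk
      rw [hβ]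
      exact hN1 n m k hnN1 hm (Finset.mem_filter.1 hk).2
    refine (Finset.sum_le_card_nsmul _ _ _ h2).trans ?_
    rw [nsmul_eq_mul]
    have h3 : (K1.card : ℝ) ≤ n + 1 := by
      have : K1.card ≤ n + 1 := (Finset.card_filter_le _ _).trans (by rw [Finset.card_range])
      exact_mod_cast this
    calc (K1.card : ℝ) * (ε / 4 / (n + 1)) ≤ (n + 1) * (ε / 4 / (n + 1)) := by gcongr
      _ = ε / 4 := by field_simp
  -- the uniform model
  have hb : (((mon p n).filter (Fac (fun d => d ≤ m))).card : ℝ) / p ^ n =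
      ∑ k ∈ K1, β k + ∑ k ∈ K2, β k := by
    rw [← tot_smo, hsmo, map_add, map_sum, map_sum, add_div, Finset.sum_div, Finset.sum_div]
    have h2 : ∀ k ∈ Finset.range (n + 1), tot p (u k) / (p : ℝ) ^ n = β k := by
      intro k hk
      have hkn : k ≤ n := by have := Finset.mem_range.1 hk; omega
      rw [hu, hβ]
      simp only
      rw [map_mul, tot_uno]
      have h3 : (p : ℝ) ^ n = (p : ℝ) ^ k * (p : ℝ) ^ (n - k) := by
        rw [← pow_add]; congr 1; omega
      rw [h3]
      field_simp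
    congr 1
    · exact Finset.sum_congr rfl fun k hk => h2 k (Finset.mem_filter.1 hk).1
    · exact Finset.sum_congr rfl fun k hk => h2 k (Finset.mem_filter.1 hk).1
  have hm0 : (0 : ℝ) < (m : ℝ) + 1 := by positivity
  have hβ2 : |∑ k ∈ K2, β k| ≤ ε / 2 := by
    have h2 : ∀ k ∈ K2, |β k| ≤ ((R : ℝ) + 1) / (m + 1) := by
      intro k hk
      have hk' := Finset.mem_filter.1 hk
      have hkn : k ≤ n := by have := Finset.mem_range.1 hk'.1; omega
      have hk1 : 1 ≤ k := by
        rw [Nat.one_le_iff_ne_zero]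
        intro h3
        apply hk'.2
        rw [h3]
        push_cast
        have : 0 < 1 - δ := by linarith
        positivity
      have h3 : |β k| ≤ ((p : ℝ) ^ k)⁻¹ * ∑ f ∈ mon p k, |(mu p (fun d => m < d) k).coeff f| := by
        rw [hβ]
        simp only
        rw [tot_eq (mu_Bd (fun d => m < d) k), abs_div, abs_of_pos (pow_pos hp0 k), div_eq_inv_mul]
        exact mul_le_mul_of_nonneg_left (Finset.abs_sum_le_sum_abs _ _) (by positivity)
      refine h3.trans ((mu_mass m k hk1).trans ?_)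
      apply div_le_div_of_nonneg_right _ hm0.le
      have h4 : (k : ℝ) / (m + 1) ≤ R := by
        rw [div_le_iff₀ hm0]
        have : (k : ℝ) ≤ n := by exact_mod_cast hkn
        have h5 : (n : ℝ) < ((m : ℝ) + 1) * R := by exact_mod_cast hRn
        linarith
      linarith
    have hcard : (K2.card : ℝ) ≤ δ * n + 1 := by
      have h3 : K2 ⊆ Finset.Ioc (⌊(1 - δ) * n⌋₊) n := by
        intro k hk
        have hk' := Finset.mem_filter.1 hk
        rw [Finset.mem_Ioc]
        refine ⟨?_, by have := Finset.mem_range.1 hk'.1; omega⟩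
        have h1δ : 0 < 1 - δ := by linarith
        rw [Nat.floor_lt (by positivity)]
        exact not_le.1 hk'.2
      have h4 := Finset.card_le_card h3
      rw [Nat.card_Ioc] at h4
      have h1δ : 0 < 1 - δ := by linarith
      have h5 : (1 - δ) * n - 1 < ⌊(1 - δ) * n⌋₊ := Nat.sub_one_lt_floor _
      have h6 : ⌊(1 - δ) * (n : ℝ)⌋₊ ≤ n := by
        have : (⌊(1 - δ) * (n : ℝ)⌋₊ : ℝ) ≤ n := by
          refine (Nat.floor_le (by positivity)).trans ?_
          nlinarith
        exact_mod_cast this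
      have h7 : (K2.card : ℝ) ≤ ((n - ⌊(1 - δ) * (n : ℝ)⌋₊ : ℕ) : ℝ) := by exact_mod_cast h4
      rw [Nat.cast_sub h6] at h7
      linarith
    refine (Finset.abs_sum_le_sum_abs _ _).trans ((Finset.sum_le_card_nsmul _ _ _ h2).trans ?_)
    rw [nsmul_eq_mul]
    have hxn : 0 < x * n := by positivity
    calc (K2.card : ℝ) * (((R : ℝ) + 1) / (m + 1)) ≤ (δ * n + 1) * (((R : ℝ) + 1) / (x * n)) := by
          apply mul_le_mul hcard _ (by positivity) (by positivity)
          apply div_le_div_of_nonneg_left (by positivity) hxn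
          linarith
      _ = δ * (R + 1) / x + (R + 1) / (x * n) := by field_simp
      _ ≤ ε / 4 + ε / 4 := by
          apply add_le_add hδε
          rw [div_lt_iff₀ (by positivity)] at hnε
          rw [div_le_iff₀ hxn]
          nlinarith
      _ = ε / 2 := by ring
  have hperm := hM0 m hmM n
  -- the tail
  have hE2 : |EM μ n (∑ k ∈ K2, u k)| ≤
      2 ^ R * EMF μ n (fun f => if TailE m δ f then 1 else 0) := by
    rw [← EMF_mul_left, EM_eq_EMF]
    apply abs_EMF_le h0
    intro f hf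
    have h2 := abs_partial hRn K2 hf
    refine h2.trans ?_
    have hfm := mem_mon.1 hf
    by_cases hex : ∃ g : (ZMod p)[X], g ∣ f ∧ Fac (fun d => m < d) g ∧ g.natDegree ∈ K2
    · rw [if_pos hex, if_pos, mul_one]
      obtain ⟨g, hg1, hg2, hg3⟩ := hex
      refine ⟨hfm.1.ne_zero, g, hg1, hg2, ?_⟩
      rw [hfm.2]
      exact (not_le.1 (Finset.mem_filter.1 hg3).2).le
    · rw [if_neg hex]
      split_ifs <;> positivity
  rw [hE]
  have e1 : EM μ n (∑ k ∈ K1, u k) + EM μ n (∑ k ∈ K2, u k) - cperm n m =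
      (EM μ n (∑ k ∈ K1, u k) - ∑ k ∈ K1, β k) + EM μ n (∑ k ∈ K2, u k) - ∑ k ∈ K2, β k +
      ((((mon p n).filter (Fac (fun d => d ≤ m))).card : ℝ) / p ^ n - cperm n m) := by
    rw [hb]; ring
  rw [e1]
  have e2 := abs_le.1 hE1
  have e3 := abs_le.1 hE2
  have e4 := abs_le.1 hβ2
  have e5 := abs_le.1 hperm
  rw [abs_le]
  constructor <;> linarith [e2.1, e2.2, e3.1, e3.2, e4.1, e4.2, e5.1, e5.2]

lemma cperm_diff_le (D m : ℕ) (hm : 1 ≤ m) : ∀ j : ℕ,
    |cperm (D + j) m - cperm D m| ≤ (j : ℝ) / ((D : ℝ) + 1) := by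
  intro j
  induction j with
  | zero => simp
  | succ j ih =>
    have h1 := cperm_diff (D + j) m hm
    have h2 : cperm (D + (j + 1)) m - cperm D m =
        (cperm (D + j + 1) m - cperm (D + j) m) + (cperm (D + j) m - cperm D m) := by
      rw [show D + (j + 1) = D + j + 1 by ring]; ring
    rw [h2]
    refine (abs_add_le _ _).trans ?_
    have h3 : 1 / (((D + j : ℕ) : ℝ) + 1) ≤ 1 / ((D : ℝ) + 1) := by
      apply div_le_div_of_nonneg_left (by norm_num) (by positivity)
      push_cast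
      have : (0 : ℝ) ≤ j := by positivity
      linarith
    have h4 : ((j + 1 : ℕ) : ℝ) / ((D : ℝ) + 1) = 1 / ((D : ℝ) + 1) + j / ((D : ℝ) + 1) := by
      push_cast
      ring
    rw [h4]
    linarith

lemma Fac_C_mul (A : ℕ → Prop) (c : ZMod p) (hc : c ≠ 0) (f : (ZMod p)[X]) :
    Fac A (C c * f) ↔ Fac A f := by
  have hu : IsUnit (C c : (ZMod p)[X]) := Polynomial.isUnit_C.2 (isUnit_iff_ne_zero.2 hc)
  unfold Fac
  constructor
  · intro h P hP hPf
    exact h P hP (hPf.mul_left _)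
  · intro h P hP hPf
    rw [mul_comm, hu.dvd_mul_right] at hPf
    exact h P hP hPf

open Classical in
/-- The comparison with permutations for near-uniform laws. -/
theorem near_uniform (μ : ZMod p → ℝ) (h0 : ∀ a, 0 ≤ μ a) (h1 : ∑ a, μ a = 1)
    (hlt : ∀ a, μ a < 1) (t : ℝ) (ht1 : 1 ≤ t) (ht2 : t < 2)
    (hL : (∑ c, mw μ c ^ t) ^ 6 < (p : ℝ) ^ (2 - t)) (x : ℝ) (hx : 0 < x) :
    ∀ ε : ℝ, 0 < ε → ∃ N : ℕ, ∀ n m : ℕ, N ≤ n → x * n ≤ m →
      |Pr μ n (Fac (fun d => d ≤ m)) - cperm n m| ≤ ε := by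
  intro ε hε
  -- the number of large factors
  obtain ⟨R, hR'⟩ := exists_nat_gt (1 / x)
  have hR : 1 ≤ x * R := by
    rw [div_lt_iff₀ hx] at hR'
    linarith
  -- the tail
  obtain ⟨δ1, hδ10, hδ11, N1, htail⟩ := tail_rare μ h0 h1 hlt x hx (ε / (8 * 2 ^ R))
    (by positivity)
  obtain ⟨δ, hδ⟩ : ∃ δ, δ = min δ1 (ε / 4 / 4 * x / (R + 1)) := ⟨_, rfl⟩
  have hδ0 : 0 < δ := by rw [hδ]; positivity
  have hδδ1 : δ ≤ δ1 := by rw [hδ]; exact min_le_left _ _
  have hδ1 : δ < 1 := hδδ1.trans_lt hδ11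
  have hδε : δ * (R + 1) / x ≤ ε / 4 / 4 := by
    have h2 : δ ≤ ε / 4 / 4 * x / (R + 1) := by rw [hδ]; exact min_le_right _ _
    calc δ * (R + 1) / x ≤ (ε / 4 / 4 * x / (R + 1)) * (R + 1) / x := by gcongr
      _ = ε / 4 / 4 := by field_simp
  -- the monic models
  have hcmp : ∀ c : ZMod p, ∃ N : ℕ, c ≠ 0 → ∀ n m : ℕ, N ≤ n → x * n ≤ m →
      |EMF (mus μ c) n (fun f => if Fac (fun d => d ≤ m) f then 1 else 0) - cperm n m| ≤
        ε / 4 + 2 ^ R * EMF (mus μ c) n (fun f => if TailE m δ f then 1 else 0) := by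
    intro c
    by_cases hc : c = 0
    · exact ⟨0, fun h => absurd hc h⟩
    · obtain ⟨N, hN⟩ := monic_cmp (mus μ c) (mus_nonneg h0 c) (sum_mus h1 hc) t ht1 ht2
        (by rw [sum_mw_mus μ hc]; exact hL) x hx R hR (ε / 4) (by positivity) δ hδ0 hδ1 hδε
      exact ⟨N, fun _ => hN⟩
  choose Nc hNc using hcmp
  obtain ⟨N2, hN2⟩ : ∃ N2, N2 = ∑ c, Nc c := ⟨_, rfl⟩
  have hNcle : ∀ c, Nc c ≤ N2 := by
    intro c
    rw [hN2]
    exact Finset.single_le_sum (fun _ _ => Nat.zero_le _) (Finset.mem_univ c)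
  -- the degree
  have hμ0 := h0 0
  have hμ1 := hlt 0
  obtain ⟨K0, hK0⟩ := exists_pow_lt_of_lt_one (show 0 < ε / 8 by positivity) hμ1
  obtain ⟨N3, hN3⟩ := exists_nat_gt (8 * (K0 : ℝ) / ε)
  obtain ⟨N4, hN4⟩ := exists_nat_gt (1 / x)
  refine ⟨N1 + N2 + N3 + N4 + K0 + 1, ?_⟩
  intro n m hn hm
  have hn0 : (0 : ℝ) < n := by
    have : 0 < n := by omega
    exact_mod_cast this
  have hm1 : 1 ≤ m := by
    have h2 : (1 : ℝ) ≤ m := by
      rw [div_lt_iff₀ hx] at hN4
      have h3 : (N4 : ℝ) ≤ n := by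
        have : N4 ≤ n := by omega
        exact_mod_cast this
      nlinarith
    exact_mod_cast h2
  set F : (ZMod p)[X] → ℝ := fun f => if Fac (fun d => d ≤ m) f then 1 else 0 with hF
  set F2 : (ZMod p)[X] → ℝ := fun f => if (f = 0 ∨ f.natDegree + K0 < n) then 1 else 0 with hF2
  set F3 : (ZMod p)[X] → ℝ := fun f => if TailE m δ f then 1 else 0 with hF3
  set H : (ZMod p)[X] → ℝ := fun f => F2 f + (3 * ε / 8 + 2 ^ R * F3 f) with hH
  have hFinv : ∀ c : ZMod p, c ≠ 0 → ∀ f, F (C c * f) = F f := by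
    intro c hc f
    rw [hF]
    simp only [Fac_C_mul _ c hc]
  have hF01 : ∀ f, 0 ≤ F f ∧ F f ≤ 1 := by
    intro f
    rw [hF]
    simp only
    split_ifs <;> norm_num
  have hF2inv : ∀ c : ZMod p, c ≠ 0 → ∀ f, F2 (C c * f) = F2 f := by
    intro c hc f
    rw [hF2]
    simp only [Polynomial.natDegree_C_mul hc]
    have h2 : (C c * f = 0) ↔ f = 0 := by
      rw [mul_eq_zero, Polynomial.C_eq_zero]
      exact ⟨fun h => h.resolve_left hc, Or.inr⟩
    simp only [h2]
  have hF3inv : ∀ c : ZMod p, c ≠ 0 → ∀ f, F3 (C c * f) = F3 f := by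
    intro c hc f
    rw [hF3]
    simp only [TailE_mul m δ c hc]
  have hHinv : ∀ c : ZMod p, c ≠ 0 → ∀ f, H (C c * f) = H f := by
    intro c hc f
    rw [hH]
    simp only
    rw [hF2inv c hc, hF3inv c hc]
  have hF2nn : ∀ f, 0 ≤ F2 f := by
    intro f
    rw [hF2]
    simp only
    split_ifs <;> norm_num
  have hF3nn : ∀ f, 0 ≤ F3 f := by
    intro f
    rw [hF3]
    simp only
    split_ifs <;> norm_num
  have hHnn : ∀ f, 0 ≤ H f := by
    intro f
    have := hF2nn f
    have := hF3nn f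
    rw [hH]
    positivity
  have hPr : Pr μ n (Fac (fun d => d ≤ m)) = GG μ F (n + 1) := Pr_eq_GG μ n _
  have hone : (1 : ℝ) = GG μ (fun _ => 1) (n + 1) := by
    unfold GG
    simp only [mul_one]
    rw [sum_prod_pi (fun (_ : Fin (n + 1)) a => μ a)]
    simp [h1]
  have hGF := GG_decomp μ F hFinv (n + 1)
  have hG1 := GG_decomp μ (fun _ => (1 : ℝ)) (fun _ _ _ => rfl) (n + 1)
  have hGH := GG_decomp μ H hHinv (n + 1)
  -- the pointwise comparison
  have hpt : ∀ D ∈ Finset.range (n + 1), ∀ c ∈ (Finset.univ : Finset (ZMod p)).erase 0,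
      |EMF (mus μ c) D F - cperm n m| ≤ EMF (mus μ c) D H := by
    intro D hD c hc
    have hc0 : c ≠ 0 := (Finset.mem_erase.1 hc).1
    have hDn : D ≤ n := by have := Finset.mem_range.1 hD; omega
    have hms := sum_mus h1 hc0
    have hmn := mus_nonneg h0 c
    by_cases hDK : D + K0 < n
    · have h2 : |EMF (mus μ c) D F - cperm n m| ≤ 1 := by
        have h3 : 0 ≤ EMF (mus μ c) D F := EMF_nonneg hmn D (fun f => (hF01 f).1)
        have h4 : EMF (mus μ c) D F ≤ 1 := by
          rw [← EMF_const hms D 1]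
          exact EMF_mono hmn D (fun f _ => (hF01 f).2)
        have h5 := cperm_nonneg n m
        have h6 := cperm_le_one n m
        rw [abs_le]
        constructor <;> linarith
      refine h2.trans ?_
      rw [← EMF_const hms D 1]
      apply EMF_mono hmn
      intro f hf
      have hfm := mem_mon.1 hf
      have h3 : F2 f = 1 := by
        rw [hF2]
        simp only
        rw [if_pos]
        right
        rw [hfm.2]; exact hDK
      have := hF3nn f
      rw [hH]
      simp only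
      rw [h3]
      have : 0 ≤ 3 * ε / 8 + 2 ^ R * F3 f := by positivity
      linarith
    · have h2 := hNc c hc0 D m ((hNcle c).trans (by omega)) (by
        have : (D : ℝ) ≤ n := by exact_mod_cast hDn
        calc x * (D : ℝ) ≤ x * n := by gcongr
          _ ≤ m := hm)
      have h3 : |cperm n m - cperm D m| ≤ ε / 8 := by
        have h4 := cperm_diff_le D m hm1 (n - D)
        rw [show D + (n - D) = n by omega] at h4
        refine h4.trans ?_
        rw [div_le_iff₀ (by positivity)]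
        have h5 : ((n - D : ℕ) : ℝ) ≤ K0 := by
          have : n - D ≤ K0 := by omega
          exact_mod_cast this
        rw [div_lt_iff₀ hε] at hN3
        have h6 : (N3 : ℝ) ≤ D := by
          have : N3 ≤ D := by omega
          exact_mod_cast this
        nlinarith
      have h4 : EMF (mus μ c) D H = EMF (mus μ c) D F2 + (3 * ε / 8 +
          2 ^ R * EMF (mus μ c) D F3) := by
        rw [← EMF_mul_left, ← EMF_const hms D (3 * ε / 8)]
        unfold EMF
        rw [← Finset.sum_add_distrib, ← Finset.sum_add_distrib]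
        apply Finset.sum_congr rfl
        intro v _
        rw [hH]
        simp only
        ring
      have h5 : 0 ≤ EMF (mus μ c) D F2 := EMF_nonneg hmn D hF2nn
      rw [h4]
      rw [abs_le] at h2 h3 ⊢
      constructor <;> linarith [h2.1, h2.2, h3.1, h3.2]
  -- the total
  have hdiff : |GG μ F (n + 1) - cperm n m| ≤ μ 0 ^ (n + 1) + GG μ H (n + 1) := by
    have e1 : GG μ F (n + 1) - cperm n m = μ 0 ^ (n + 1) * (F 0 - cperm n m) +
        ∑ D ∈ Finset.range (n + 1), μ 0 ^ (n + 1 - 1 - D) *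
          ∑ c ∈ (Finset.univ : Finset (ZMod p)).erase 0,
            μ c * (EMF (mus μ c) D F - cperm n m) := by
      have e2 : cperm n m = cperm n m * GG μ (fun _ => 1) (n + 1) := by
        rw [← hone, mul_one]
      have e3 : ∀ D, ∑ c ∈ (Finset.univ : Finset (ZMod p)).erase 0,
            μ c * (EMF (mus μ c) D F - cperm n m) =
          ∑ c ∈ (Finset.univ : Finset (ZMod p)).erase 0, μ c * EMF (mus μ c) D F -
          cperm n m * ∑ c ∈ (Finset.univ : Finset (ZMod p)).erase 0,
            μ c * EMF (mus μ c) D (fun _ => 1) := by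
        intro D
        rw [Finset.mul_sum, ← Finset.sum_sub_distrib]
        apply Finset.sum_congr rfl
        intro c hc
        rw [EMF_const (sum_mus h1 (Finset.mem_erase.1 hc).1)]
        ring
      simp_rw [e3, mul_sub]
      rw [Finset.sum_sub_distrib]
      conv_lhs => rw [e2]
      rw [hGF, hG1, mul_add, Finset.mul_sum]
      have e4 : ∀ D, μ 0 ^ (n + 1 - 1 - D) * (cperm n m *
          ∑ c ∈ (Finset.univ : Finset (ZMod p)).erase 0, μ c * EMF (mus μ c) D (fun _ => 1)) =
          cperm n m * (μ 0 ^ (n + 1 - 1 - D) *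
          ∑ c ∈ (Finset.univ : Finset (ZMod p)).erase 0, μ c * EMF (mus μ c) D (fun _ => 1)) := by
        intro D; ring
      simp_rw [e4]
      ring
    rw [e1]
    refine (abs_add_le _ _).trans (add_le_add ?_ ?_)
    · rw [abs_mul, abs_of_nonneg (pow_nonneg hμ0 _)]
      apply mul_le_of_le_one_right (pow_nonneg hμ0 _)
      have h5 := cperm_nonneg n m
      have h6 := cperm_le_one n m
      have h7 := hF01 0
      rw [abs_le]
      constructor <;> linarith [h7.1, h7.2]
    · rw [hGH]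
      have h8 : 0 ≤ μ 0 ^ (n + 1) * H 0 := mul_nonneg (pow_nonneg hμ0 _) (hHnn 0)
      refine le_trans ?_ (le_add_of_nonneg_left h8)
      refine (Finset.abs_sum_le_sum_abs _ _).trans (Finset.sum_le_sum fun D hD => ?_)
      rw [abs_mul, abs_of_nonneg (pow_nonneg hμ0 _)]
      apply mul_le_mul_of_nonneg_left _ (pow_nonneg hμ0 _)
      refine (Finset.abs_sum_le_sum_abs _ _).trans (Finset.sum_le_sum fun c hc => ?_)
      rw [abs_mul, abs_of_nonneg (h0 c)]
      exact mul_le_mul_of_nonneg_left (hpt D hD c hc) (h0 c)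
  have hGHle : GG μ H (n + 1) ≤ ε / 8 + (3 * ε / 8 + ε / 8) := by
    have e1 : GG μ H (n + 1) = GG μ F2 (n + 1) + (3 * ε / 8 * GG μ (fun _ => 1) (n + 1) +
        2 ^ R * GG μ F3 (n + 1)) := by
      unfold GG
      rw [Finset.mul_sum, Finset.mul_sum, ← Finset.sum_add_distrib, ← Finset.sum_add_distrib]
      apply Finset.sum_congr rfl
      intro v _
      rw [hH]
      simp only
      ring
    have e2 : GG μ F2 (n + 1) ≤ ε / 8 := by
      have h2 := Pr_deg_small μ h0 h1 n K0 (by omega)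
      rw [Pr_eq_GG μ n (fun f => f = 0 ∨ f.natDegree + K0 < n)] at h2
      refine h2.trans ?_
      have h3 : μ 0 ^ (K0 + 1) ≤ μ 0 ^ K0 := pow_le_pow_of_le_one hμ0 hμ1.le (by omega)
      linarith
    have e3 : GG μ F3 (n + 1) ≤ ε / (8 * 2 ^ R) := by
      have h2 := htail n m (by omega) hm
      rw [Pr_eq_GG μ n (TailE m δ1)] at h2
      refine le_trans ?_ h2
      unfold GG
      apply Finset.sum_le_sum
      intro v _
      apply mul_le_mul_of_nonneg_left _ (Finset.prod_nonneg fun _ _ => h0 _)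
      rw [hF3]
      simp only
      by_cases h3 : TailE m δ (lowPoly (n + 1) v)
      · have h4 : TailE m δ1 (lowPoly (n + 1) v) := by
          obtain ⟨h5, g, h6, h7, h8⟩ := h3
          refine ⟨h5, g, h6, h7, le_trans ?_ h8⟩
          apply mul_le_mul_of_nonneg_right _ (by positivity)
          linarith
        rw [if_pos h3, if_pos h4]
      · rw [if_neg h3]
        split_ifs <;> norm_num
    have e4 : 2 ^ R * GG μ F3 (n + 1) ≤ ε / 8 := by
      calc 2 ^ R * GG μ F3 (n + 1) ≤ 2 ^ R * (ε / (8 * 2 ^ R)) := by gcongr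
        _ = ε / 8 := by field_simp
    rw [e1, ← hone]
    linarith
  have hμn : μ 0 ^ (n + 1) ≤ ε / 8 := by
    have h3 : μ 0 ^ (n + 1) ≤ μ 0 ^ K0 := pow_le_pow_of_le_one hμ0 hμ1.le (by omega)
    linarith
  rw [hPr]
  refine hdiff.trans ?_
  linarith

end Pool.Agent.MP0a1886
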