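import Pool.Agent.MP0a1886.Irr

/-! Fourier expansion of divisibility probabilities for MP_0a1886_pr. -/

set_option autoImplicit false
set_option linter.unusedSectionVars false
open Finset Polynomial

namespace Pool.Agent.MP0a1886

variable {p : ℕ} [hp : Fact p.Prime]

/-- the random polynomial of degree at most `n` with coefficient vector `ε` -/
noncomputable def rpoly (n : ℕ) (ε : Fin (n + 1) → ZMod p) : (ZMod p)[X] := lowPoly (n + 1) ε

/-- the weight of a coefficient vector -/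
noncomputable def wt (μ : ZMod p → ℝ) (n : ℕ) (ε : Fin (n + 1) → ZMod p) : ℝ := ∏ i, μ (ε i)

/-- Fourier coefficient of the law -/
noncomputable def muhat (μ : ZMod p → ℝ) (c : ZMod p) : ℂ :=
  ∑ a : ZMod p, (μ a : ℂ) * ZMod.stdAddChar (a * c)

/-- its absolute value -/
noncomputable def mw (μ : ZMod p → ℝ) (c : ZMod p) : ℝ := ‖muhat μ c‖

/-- the linear functional attached to `h` and the initial values `v` -/
noncomputable def fn (h : (ZMod p)[X]) (k : ℕ) (v : Fin k → ZMod p) :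
    (ZMod p)[X] →ₗ[ZMod p] ZMod p :=
  ∑ t : Fin k, v t • ((Polynomial.lcoeff (ZMod p) (t : ℕ)).comp (Polynomial.modByMonicHom h))

lemma fn_apply (h : (ZMod p)[X]) (k : ℕ) (v : Fin k → ZMod p) (f : (ZMod p)[X]) :
    fn h k v f = ∑ t : Fin k, v t * (f %ₘ h).coeff t := by
  unfold fn
  simp [LinearMap.sum_apply, Polynomial.modByMonicHom]

lemma fn_mul (h : (ZMod p)[X]) (hh : h.Monic) (k : ℕ) (v : Fin k → ZMod p) (g : (ZMod p)[X]) :
    fn h k v (h * g) = 0 := by
  rw [fn_apply]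
  have : (h * g) %ₘ h = 0 := by
    rw [Polynomial.modByMonic_eq_zero_iff_dvd hh]
    exact dvd_mul_right h g
  simp [this]

lemma fn_X_pow (h : (ZMod p)[X]) (hh : h.Monic) (k : ℕ) (hk : h.natDegree = k)
    (v : Fin k → ZMod p) (t : Fin k) : fn h k v (X ^ (t : ℕ)) = v t := by
  rw [fn_apply]
  have h1 : (X ^ (t : ℕ) : (ZMod p)[X]) %ₘ h = X ^ (t : ℕ) := by
    rw [Polynomial.modByMonic_eq_self_iff hh, Polynomial.degree_X_pow,
      Polynomial.degree_eq_natDegree hh.ne_zero, hk]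
    exact_mod_cast t.2
  rw [h1, Finset.sum_eq_single t]
  · simp
  · intro b _ hb
    rw [Polynomial.coeff_X_pow, if_neg, mul_zero]
    intro h'
    exact hb (Fin.ext h')
  · simp

lemma fn_injective (h : (ZMod p)[X]) (hh : h.Monic) (k : ℕ) (hk : h.natDegree = k) :
    Function.Injective (fn h k) := by
  intro v w hvw
  funext t
  rw [← fn_X_pow h hh k hk v t, ← fn_X_pow h hh k hk w t, hvw]

lemma sum_prod_pi {ι κ R : Type*} [Fintype ι] [DecidableEq ι] [Fintype κ] [CommSemiring R]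
    (g : ι → κ → R) : ∑ f : ι → κ, ∏ i, g i (f i) = ∏ i, ∑ j, g i j := by
  rw [Finset.prod_univ_sum, Fintype.piFinset_univ]

lemma addChar_sum {A R ι : Type*} [AddCommMonoid A] [CommMonoid R] (ψ : AddChar A R)
    (s : Finset ι) (f : ι → A) : ψ (∑ i ∈ s, f i) = ∏ i ∈ s, ψ (f i) := by
  classical
  induction s using Finset.induction_on with
  | empty => simp
  | insert a s ha ih =>
    rw [Finset.sum_insert ha, Finset.prod_insert ha, AddChar.map_add_eq_mul, ih]

lemma sum_stdAddChar (k : ℕ) (r : Fin k → ZMod p) :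
    ∑ v : Fin k → ZMod p, (ZMod.stdAddChar (∑ t, v t * r t) : ℂ)
      = if r = 0 then (p : ℂ) ^ k else 0 := by
  have h1 : ∀ v : Fin k → ZMod p, (ZMod.stdAddChar (∑ t, v t * r t) : ℂ)
      = ∏ t, (ZMod.stdAddChar (v t * r t) : ℂ) := by
    intro v
    exact addChar_sum _ _ _
  simp_rw [h1]
  rw [sum_prod_pi (fun t a => (ZMod.stdAddChar (a * r t) : ℂ))]
  simp_rw [AddChar.sum_mulShift _ (ZMod.isPrimitive_stdAddChar p)]
  split_ifs with h
  · subst h
    simp [ZMod.card]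
  · have : ∃ t, r t ≠ 0 := by
      by_contra hcon
      push Not at hcon
      exact h (funext hcon)
    obtain ⟨t, ht⟩ := this
    apply Finset.prod_eq_zero (Finset.mem_univ t)
    rw [if_neg ht]; simp

/-- detection of divisibility -/
lemma sum_fn (h : (ZMod p)[X]) (hh : h.Monic) (k : ℕ) (hk : h.natDegree = k)
    (f : (ZMod p)[X]) [Decidable (h ∣ f)] :
    ∑ v : Fin k → ZMod p, (ZMod.stdAddChar (fn h k v f) : ℂ) = if h ∣ f then (p : ℂ) ^ k else 0 := by
  simp_rw [fn_apply]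
  rw [sum_stdAddChar k (fun t => (f %ₘ h).coeff t)]
  congr 1
  rw [eq_iff_iff, ← Polynomial.modByMonic_eq_zero_iff_dvd hh]
  constructor
  · intro h0
    ext j
    rw [Polynomial.coeff_zero]
    by_cases hj : j < k
    · exact congrFun h0 ⟨j, hj⟩
    · apply Polynomial.coeff_eq_zero_of_degree_lt
      refine (Polynomial.degree_modByMonic_lt f hh).trans_le ?_
      rw [Polynomial.degree_eq_natDegree hh.ne_zero, hk]
      exact_mod_cast not_lt.1 hj
  · intro h0
    rw [h0]; rfl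

lemma muhat_zero (μ : ZMod p → ℝ) (h1 : ∑ a, μ a = 1) : muhat μ 0 = 1 := by
  unfold muhat
  simp only [mul_zero, AddChar.map_zero_eq_one, mul_one]
  exact_mod_cast h1

/-- expectation of a character -/
lemma sum_wt_char (μ : ZMod p → ℝ) (n : ℕ) (ℓ : (ZMod p)[X] →ₗ[ZMod p] ZMod p) :
    ∑ ε : Fin (n + 1) → ZMod p, (wt μ n ε : ℂ) * ZMod.stdAddChar (ℓ (rpoly n ε))
      = ∏ i : Fin (n + 1), muhat μ (ℓ (X ^ (i : ℕ))) := by
  unfold muhat
  rw [← sum_prod_pi]
  apply Finset.sum_congr rfl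
  intro ε _
  unfold wt rpoly lowPoly
  rw [map_sum, addChar_sum]
  push_cast
  rw [← Finset.prod_mul_distrib]
  apply Finset.prod_congr rfl
  intro i _
  congr 2
  rw [← Polynomial.smul_eq_C_mul, map_smul, smul_eq_mul]

/-- the probability that `E` holds for the random polynomial -/
noncomputable def Pr (μ : ZMod p → ℝ) (n : ℕ) (E : (ZMod p)[X] → Prop) : ℝ := by
  classical
  exact ∑ ε : Fin (n + 1) → ZMod p, if E (rpoly n ε) then wt μ n ε else 0

lemma Pr_dvd (μ : ZMod p → ℝ) (n : ℕ) (h : (ZMod p)[X]) (hh : h.Monic) (k : ℕ)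
    (hk : h.natDegree = k) :
    (p : ℂ) ^ k * (Pr μ n (fun f => h ∣ f) : ℂ)
      = ∑ v : Fin k → ZMod p, ∏ i : Fin (n + 1), muhat μ (fn h k v (X ^ (i : ℕ))) := by
  classical
  simp_rw [← sum_wt_char]
  rw [Finset.sum_comm]
  simp_rw [← Finset.mul_sum, sum_fn h hh k hk]
  unfold Pr
  push_cast
  rw [Finset.mul_sum]
  apply Finset.sum_congr rfl
  intro ε _
  split_ifs <;> simp [mul_comm]

/-- the error in the divisibility probability -/
noncomputable def Err (μ : ZMod p → ℝ) (n : ℕ) (h : (ZMod p)[X]) : ℝ :=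
  |Pr μ n (fun f => h ∣ f) - ((p : ℝ) ^ h.natDegree)⁻¹|

lemma Err_le (μ : ZMod p → ℝ) (h1 : ∑ a, μ a = 1) (n : ℕ) (h : (ZMod p)[X]) (hh : h.Monic)
    (k : ℕ) (hk : h.natDegree = k) :
    Err μ n h ≤ ((p : ℝ) ^ k)⁻¹ * ∑ v ∈ (Finset.univ : Finset (Fin k → ZMod p)).erase 0,
      ∏ i : Fin (n + 1), mw μ (fn h k v (X ^ (i : ℕ))) := by
  have hp0 : (p : ℂ) ≠ 0 := by exact_mod_cast hp.out.ne_zero
  have hpr : (0 : ℝ) < p := by exact_mod_cast hp.out.pos
  have h2 := Pr_dvd μ n h hh k hk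
  rw [← Finset.add_sum_erase _ _ (Finset.mem_univ (0 : Fin k → ZMod p))] at h2
  have h3 : ∏ i : Fin (n + 1), muhat μ (fn h k 0 (X ^ (i : ℕ))) = 1 := by
    apply Finset.prod_eq_one
    intro i _
    have : fn h k (0 : Fin k → ZMod p) (X ^ (i : ℕ)) = 0 := by
      rw [fn_apply]; simp
    rw [this, muhat_zero μ h1]
  rw [h3] at h2
  have h4 : ((Pr μ n (fun f => h ∣ f) - ((p : ℝ) ^ h.natDegree)⁻¹ : ℝ) : ℂ)
      = ((p : ℂ) ^ k)⁻¹ * ∑ v ∈ (Finset.univ : Finset (Fin k → ZMod p)).erase 0,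
      ∏ i : Fin (n + 1), muhat μ (fn h k v (X ^ (i : ℕ))) := by
    have h5 : ∑ v ∈ (Finset.univ : Finset (Fin k → ZMod p)).erase 0,
      ∏ i : Fin (n + 1), muhat μ (fn h k v (X ^ (i : ℕ)))
        = (p : ℂ) ^ k * (Pr μ n (fun f => h ∣ f) : ℂ) - 1 := by
      rw [h2]; ring
    rw [h5, hk]
    push_cast
    field_simp
  have h6 : Err μ n h = ‖((Pr μ n (fun f => h ∣ f) - ((p : ℝ) ^ h.natDegree)⁻¹ : ℝ) : ℂ)‖ := by
    rw [Complex.norm_real, Real.norm_eq_abs]; rfl
  rw [h6, h4, norm_mul]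
  have h7 : ‖((p : ℂ) ^ k)⁻¹‖ = ((p : ℝ) ^ k)⁻¹ := by
    rw [norm_inv, norm_pow, Complex.norm_natCast]
  rw [h7]
  apply mul_le_mul_of_nonneg_left _ (by positivity)
  refine (norm_sum_le _ _).trans (le_of_eq ?_)
  apply Finset.sum_congr rfl
  intro v _
  rw [norm_prod]
  rfl

/-! ### the Fourier coefficients of a law that is not a point mass -/

lemma mw_nonneg (μ : ZMod p → ℝ) (c : ZMod p) : 0 ≤ mw μ c := norm_nonneg _

lemma mw_le_one (μ : ZMod p → ℝ) (h0 : ∀ a, 0 ≤ μ a) (h1 : ∑ a, μ a = 1) (c : ZMod p) :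
    mw μ c ≤ 1 := by
  unfold mw muhat
  refine (norm_sum_le _ _).trans ?_
  rw [← h1]
  apply Finset.sum_le_sum
  intro a _
  rw [norm_mul, AddChar.norm_apply, mul_one, Complex.norm_real, Real.norm_eq_abs,
    abs_of_nonneg (h0 a)]

lemma mw_lt_one (μ : ZMod p → ℝ) (h0 : ∀ a, 0 ≤ μ a) (h1 : ∑ a, μ a = 1)
    (hlt : ∀ a, μ a < 1) (c : ZMod p) (hc : c ≠ 0) : mw μ c < 1 := by
  obtain ⟨i, hi⟩ : ∃ i, μ i ≠ 0 := by
    by_contra hcon
    push Not at hcon
    simp [hcon] at h1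
  obtain ⟨j, hj, hij⟩ : ∃ j, μ j ≠ 0 ∧ i ≠ j := by
    by_contra hcon
    push Not at hcon
    have h2 : ∑ a, μ a = μ i := by
      apply Finset.sum_eq_single i
      · intro b _ hb
        by_contra hb0
        exact hb (hcon b hb0).symm
      · simp
    have := hlt i
    linarith
  have h3 := norm_sum_lt_of_strictConvexSpace (t := (Finset.univ : Finset (ZMod p)))
    (w := μ) (r := 1) (z := fun a => (ZMod.stdAddChar (a * c) : ℂ)) (fun a _ => h0 a) h1
    (Finset.mem_univ i) (Finset.mem_univ j)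
    (by
      intro h
      have := ZMod.injective_stdAddChar h
      exact hij (mul_right_cancel₀ hc this))
    hi hj (fun a _ => by rw [AddChar.norm_apply])
  unfold mw muhat
  simpa only [Complex.real_smul] using h3

/-- a uniform bound for the nontrivial Fourier coefficients -/
lemma exists_rho (μ : ZMod p → ℝ) (h0 : ∀ a, 0 ≤ μ a) (h1 : ∑ a, μ a = 1)
    (hlt : ∀ a, μ a < 1) : ∃ ρ : ℝ, 0 < ρ ∧ ρ < 1 ∧ ∀ c : ZMod p, c ≠ 0 → mw μ c ≤ ρ := by
  classical
  have hne : ((Finset.univ : Finset (ZMod p)).erase 0).Nonempty := by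
    refine ⟨1, ?_⟩
    rw [Finset.mem_erase]
    exact ⟨one_ne_zero, Finset.mem_univ _⟩
  obtain ⟨c, hc, hmax⟩ := Finset.exists_max_image _ (mw μ) hne
  refine ⟨max (mw μ c) (1 / 2), by positivity, ?_, ?_⟩
  · rw [max_lt_iff]
    exact ⟨mw_lt_one μ h0 h1 hlt c (Finset.mem_erase.1 hc).1, by norm_num⟩
  · intro b hb
    exact (hmax b (Finset.mem_erase.2 ⟨hb, Finset.mem_univ _⟩)).trans (le_max_left _ _)

end Pool.Agent.MP0a1886
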