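import Mathlib

/-! Monic and irreducible polynomials over `ZMod p`: counting. For MP_0a1886_pr. -/

set_option autoImplicit false
set_option linter.unusedSectionVars false
open Finset Polynomial

namespace Pool.Agent.MP0a1886

variable {p : ℕ} [hp : Fact p.Prime]

/-- the polynomial with given low coefficients -/
noncomputable def lowPoly (k : ℕ) (v : Fin k → ZMod p) : (ZMod p)[X] :=
  ∑ i : Fin k, C (v i) * X ^ (i : ℕ)

/-- the monic polynomial of degree `k` with given low coefficients -/
noncomputable def monPoly (k : ℕ) (v : Fin k → ZMod p) : (ZMod p)[X] := X ^ k + lowPoly k v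

lemma coeff_lowPoly (k : ℕ) (v : Fin k → ZMod p) (j : ℕ) :
    (lowPoly k v).coeff j = if h : j < k then v ⟨j, h⟩ else 0 := by
  unfold lowPoly
  rw [finsetSum_coeff]
  simp_rw [coeff_C_mul, coeff_X_pow]
  split_ifs with h
  · rw [Finset.sum_eq_single ⟨j, h⟩]
    · simp
    · intro i _ hi
      rw [if_neg, mul_zero]
      intro h'
      apply hi
      exact Fin.ext h'.symm
    · simp
  · apply Finset.sum_eq_zero
    intro i _
    rw [if_neg, mul_zero]
    intro h'
    exact h (h' ▸ i.2)

lemma degree_lowPoly_lt (k : ℕ) (v : Fin k → ZMod p) : (lowPoly k v).degree < k := by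
  rw [Polynomial.degree_lt_iff_coeff_zero]
  intro j hj
  rw [coeff_lowPoly, dif_neg (by omega)]

lemma exists_lowPoly (k : ℕ) (f : (ZMod p)[X]) (hf : f.degree < k) :
    ∃ v : Fin k → ZMod p, lowPoly k v = f := by
  refine ⟨fun i => f.coeff i, ?_⟩
  ext j
  rw [coeff_lowPoly]
  split_ifs with h
  · rfl
  · rw [Polynomial.degree_lt_iff_coeff_zero] at hf
    exact (hf j (by omega)).symm

lemma lowPoly_injective (k : ℕ) : Function.Injective (lowPoly (p := p) k) := by
  intro v w h
  funext i
  have := congrArg (fun f : (ZMod p)[X] => f.coeff i) h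
  simp only [coeff_lowPoly, i.2, dif_pos] at this
  exact this

lemma monPoly_monic (k : ℕ) (v : Fin k → ZMod p) : (monPoly k v).Monic :=
  Polynomial.monic_X_pow_add (degree_lowPoly_lt k v)

lemma natDegree_monPoly (k : ℕ) (v : Fin k → ZMod p) : (monPoly k v).natDegree = k := by
  unfold monPoly
  have h : (X ^ k + lowPoly k v : (ZMod p)[X]).degree = k := by
    rw [Polynomial.degree_add_eq_left_of_degree_lt, Polynomial.degree_X_pow]
    rw [Polynomial.degree_X_pow]
    exact degree_lowPoly_lt k v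
  exact Polynomial.natDegree_eq_of_degree_eq_some h

lemma monPoly_injective (k : ℕ) : Function.Injective (monPoly (p := p) k) := by
  intro v w h
  apply lowPoly_injective k
  unfold monPoly at h
  exact add_left_cancel h

open Classical in
/-- monic polynomials of degree `k` -/
noncomputable def mon (p : ℕ) [Fact p.Prime] (k : ℕ) : Finset (ZMod p)[X] :=
  Finset.univ.image (monPoly k)

lemma mem_mon {k : ℕ} {f : (ZMod p)[X]} : f ∈ mon p k ↔ f.Monic ∧ f.natDegree = k := by
  unfold mon
  rw [Finset.mem_image]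
  constructor
  · rintro ⟨v, _, rfl⟩
    exact ⟨monPoly_monic k v, natDegree_monPoly k v⟩
  · rintro ⟨hm, hk⟩
    have h1 : (f - X ^ k).degree < (k : WithBot ℕ) := by
      by_cases hk0 : f = X ^ k
      · rw [hk0, sub_self, Polynomial.degree_zero]
        exact WithBot.bot_lt_coe k
      · have h2 : f.degree = (X ^ k : (ZMod p)[X]).degree := by
          rw [Polynomial.degree_X_pow, Polynomial.degree_eq_natDegree hm.ne_zero, hk]
        have h3 := Polynomial.degree_sub_lt_left h2 hm.ne_zero
          (by rw [hm.leadingCoeff, Polynomial.leadingCoeff_X_pow])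
        rwa [h2, Polynomial.degree_X_pow] at h3
    obtain ⟨v, hv⟩ := exists_lowPoly k _ h1
    refine ⟨v, Finset.mem_univ _, ?_⟩
    unfold monPoly
    rw [hv]; ring

lemma card_mon (k : ℕ) : (mon p k).card = p ^ k := by
  unfold mon
  rw [Finset.card_image_of_injective _ (monPoly_injective k), Finset.card_univ,
    Fintype.card_fun, ZMod.card, Fintype.card_fin]

/-- monic irreducible polynomials of degree `k` -/
noncomputable def irr (p : ℕ) [Fact p.Prime] (k : ℕ) : Finset (ZMod p)[X] := by
  classical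
  exact (mon p k).filter fun f => Irreducible f

lemma mem_irr {k : ℕ} {f : (ZMod p)[X]} :
    f ∈ irr p k ↔ f.Monic ∧ f.natDegree = k ∧ Irreducible f := by
  classical
  simp only [irr, Finset.mem_filter, mem_mon, and_assoc]

/-- Gauss' formula -/
lemma sum_divisors_irr (n : ℕ) (hn : n ≠ 0) :
    ∑ d ∈ n.divisors, d * (irr p d).card = p ^ n := by
  classical
  have hp1 : 1 < p := hp.out.one_lt
  set f : (ZMod p)[X] := X ^ p ^ n - X with hf
  have hf0 : f ≠ 0 := FiniteField.X_pow_card_pow_sub_X_ne_zero (ZMod p) hn hp1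
  have hdeg : f.natDegree = p ^ n := FiniteField.X_pow_card_pow_sub_X_natDegree_eq (ZMod p) hn hp1
  have hsep : f.Separable := galois_poly_separable p (p ^ n) (dvd_pow_self p hn)
  have hnodup : (UniqueFactorizationMonoid.normalizedFactors f).Nodup :=
    (UniqueFactorizationMonoid.squarefree_iff_nodup_normalizedFactors hf0).1 hsep.squarefree
  have hprod := Polynomial.leadingCoeff_mul_prod_normalizedFactors f
  have hlc : f.leadingCoeff ≠ 0 := Polynomial.leadingCoeff_ne_zero.2 hf0
  have h1 : f.natDegree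
      = ((UniqueFactorizationMonoid.normalizedFactors f).map Polynomial.natDegree).sum := by
    conv_lhs => rw [← hprod]
    rw [Polynomial.natDegree_C_mul hlc, Polynomial.natDegree_multiset_prod]
    intro h0
    exact UniqueFactorizationMonoid.zero_notMem_normalizedFactors f h0
  have h2 : (UniqueFactorizationMonoid.normalizedFactors f).toFinset
      = n.divisors.biUnion fun d => irr p d := by
    ext P
    rw [Multiset.mem_toFinset, Polynomial.mem_normalizedFactors_iff hf0, Finset.mem_biUnion]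
    constructor
    · rintro ⟨h3, h4, h5⟩
      refine ⟨P.natDegree, ?_, mem_irr.2 ⟨h4, rfl, h3⟩⟩
      rw [Nat.mem_divisors]
      refine ⟨?_, hn⟩
      rw [h3.natDegree_dvd_iff_dvd_X_pow_card_pow_sub_X, Nat.card_zmod]
      exact h5
    · rintro ⟨d, hd, hP⟩
      rw [mem_irr] at hP
      rw [Nat.mem_divisors] at hd
      refine ⟨hP.2.2, hP.1, ?_⟩
      have h6 := (hP.2.2.natDegree_dvd_iff_dvd_X_pow_card_pow_sub_X (n := n)).1
        (by rw [hP.2.1]; exact hd.1)
      rw [Nat.card_zmod] at h6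
      exact h6
  have h3 : ((UniqueFactorizationMonoid.normalizedFactors f).map Polynomial.natDegree).sum
      = ∑ P ∈ (UniqueFactorizationMonoid.normalizedFactors f).toFinset, P.natDegree := by
    rw [Finset.sum_eq_multiset_sum, Multiset.toFinset_val, Multiset.dedup_eq_self.2 hnodup]
  rw [← hdeg, h1, h3, h2, Finset.sum_biUnion]
  · apply Finset.sum_congr rfl
    intro d _
    rw [Finset.sum_congr rfl (fun P hP => (mem_irr.1 hP).2.1), Finset.sum_const, smul_eq_mul,
      mul_comm]
  · intro a _ b _ hab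
    rw [Function.onFun, Finset.disjoint_left]
    intro P hPa hPb
    exact hab ((mem_irr.1 hPa).2.1.symm.trans (mem_irr.1 hPb).2.1)

lemma mul_card_irr_le (n : ℕ) (hn : n ≠ 0) : n * (irr p n).card ≤ p ^ n := by
  rw [← sum_divisors_irr n hn]
  exact Finset.single_le_sum (f := fun d => d * (irr p d).card) (fun _ _ => Nat.zero_le _)
    (Nat.mem_divisors_self n hn)

lemma card_irr_div_le (n : ℕ) (hn : n ≠ 0) : ((irr p n).card : ℝ) / p ^ n ≤ 1 / n := by
  have h := mul_card_irr_le (p := p) n hn
  have hn' : (0 : ℝ) < n := by positivity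
  have hp' : (0 : ℝ) < (p : ℝ) ^ n := by
    have := hp.out.pos
    positivity
  rw [div_le_div_iff₀ hp' hn', one_mul, mul_comm]
  exact_mod_cast h

lemma le_mul_card_irr (n : ℕ) (hn : n ≠ 0) :
    (p : ℤ) ^ n - 2 * (p : ℤ) ^ (n / 2) ≤ n * (irr p n).card := by
  have h1 := sum_divisors_irr (p := p) n hn
  rw [← Finset.sum_erase_add _ _ (Nat.mem_divisors_self n hn)] at h1
  have h2 : ∑ d ∈ n.divisors.erase n, d * (irr p d).card ≤ ∑ d ∈ Finset.Icc 1 (n / 2), p ^ d := by
    have hsub : n.divisors.erase n ⊆ Finset.Icc 1 (n / 2) := by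
      intro d hd
      rw [Finset.mem_erase, Nat.mem_divisors] at hd
      obtain ⟨hne, ⟨c, hc⟩, _⟩ := hd
      rw [Finset.mem_Icc]
      have hd0 : 0 < d := by
        rcases Nat.eq_zero_or_pos d with h | h
        · subst h; simp at hc; omega
        · exact h
      have hc2 : 2 ≤ c := by
        rcases c with _ | _ | c
        · simp at hc; omega
        · simp at hc; omega
        · omega
      refine ⟨hd0, ?_⟩
      rw [Nat.le_div_iff_mul_le (by norm_num)]
      calc d * 2 ≤ d * c := Nat.mul_le_mul_left _ hc2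
        _ = n := hc.symm
    refine (Finset.sum_le_sum_of_subset hsub).trans ?_
    apply Finset.sum_le_sum
    intro d hd
    rw [Finset.mem_Icc] at hd
    exact mul_card_irr_le d (by omega)
  have h3 : ∀ m : ℕ, ∑ d ∈ Finset.Icc 1 m, p ^ d ≤ 2 * p ^ m := by
    intro m
    induction m with
    | zero => simp
    | succ m ih =>
      rw [Finset.sum_Icc_succ_top (by omega)]
      have hp2 : 2 ≤ p := hp.out.two_le
      have : 2 * p ^ m ≤ p ^ (m + 1) := by
        rw [pow_succ, mul_comm]
        exact Nat.mul_le_mul_left _ hp2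
      omega
  have h4 := h3 (n / 2)
  have h5 : p ^ n ≤ 2 * p ^ (n / 2) + n * (irr p n).card := by omega
  have h6 : (p : ℤ) ^ n ≤ 2 * (p : ℤ) ^ (n / 2) + n * (irr p n).card := by exact_mod_cast h5
  linarith

/-- lower bound for the weight of the irreducibles of degree `n` -/
lemma card_irr_div_ge (n : ℕ) (hn : n ≠ 0) :
    1 / (n : ℝ) - 2 * (1 / 2) ^ ((n + 1) / 2) ≤ ((irr p n).card : ℝ) / p ^ n := by
  have h := le_mul_card_irr (p := p) n hn
  have hn1 : (1 : ℝ) ≤ n := by exact_mod_cast Nat.one_le_iff_ne_zero.2 hn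
  have hn' : (0 : ℝ) < n := by linarith
  have hp2 : (2 : ℝ) ≤ p := by exact_mod_cast hp.out.two_le
  have hp0 : (0 : ℝ) < p := by linarith
  have hp' : (0 : ℝ) < (p : ℝ) ^ n := by positivity
  have h1 : (p : ℝ) ^ n - 2 * (p : ℝ) ^ (n / 2) ≤ n * (irr p n).card := by exact_mod_cast h
  have h2 : (p : ℝ) ^ (n / 2) = (p : ℝ) ^ n * (1 / p) ^ ((n + 1) / 2) := by
    have h3 : n = n / 2 + (n + 1) / 2 := by omega
    conv_rhs => rw [h3]
    have h4 : (n / 2 + (n + 1) / 2 + 1) / 2 = (n + 1) / 2 := by omega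
    rw [h4, pow_add, mul_assoc, ← mul_pow]
    rw [mul_one_div_cancel hp0.ne', one_pow, mul_one]
  have h5 : ((1 : ℝ) / p) ^ ((n + 1) / 2) ≤ (1 / 2) ^ ((n + 1) / 2) := by
    apply pow_le_pow_left₀ (by positivity)
    exact one_div_le_one_div_of_le (by norm_num) hp2
  rw [le_div_iff₀ hp']
  have h6 : (1 / (n : ℝ) - 2 * (1 / 2) ^ ((n + 1) / 2)) * (p : ℝ) ^ n ≤
      1 / n * ((p : ℝ) ^ n - 2 * (p : ℝ) ^ (n / 2)) := by
    have h7 : (1 / (n : ℝ)) * (2 * (p : ℝ) ^ (n / 2)) ≤ 2 * (1 / 2) ^ ((n + 1) / 2) * (p : ℝ) ^ n := by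
      have h8 : 1 / (n : ℝ) ≤ 1 := by
        rw [div_le_one hn']; exact hn1
      calc (1 / (n : ℝ)) * (2 * (p : ℝ) ^ (n / 2)) ≤ 1 * (2 * (p : ℝ) ^ (n / 2)) := by gcongr
        _ = 2 * ((p : ℝ) ^ n * (1 / p) ^ ((n + 1) / 2)) := by rw [h2]; ring
        _ ≤ 2 * ((p : ℝ) ^ n * (1 / 2) ^ ((n + 1) / 2)) := by gcongr
        _ = _ := by ring
    linarith
  refine h6.trans ?_
  calc 1 / (n : ℝ) * ((p : ℝ) ^ n - 2 * (p : ℝ) ^ (n / 2)) ≤ 1 / n * (n * (irr p n).card) := by
        gcongr
    _ = (irr p n).card := by field_simp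

end Pool.Agent.MP0a1886
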