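import Pool.Agent.MP0a1886.Fourier

/-! Kernels of truncated functionals (Hankel matrices) for MP_0a1886_pr, near-uniform laws. -/

set_option autoImplicit false
set_option linter.unusedSectionVars false
open Finset Polynomial

namespace Pool.Agent.MP0a1886

variable {p : ℕ} [hp : Fact p.Prime]

/-- forms of degree `s` (polynomials of degree at most `s`) annihilating the functional `l` on
polynomials of degree less than `n` -/
def KK (l : (ZMod p)[X] →ₗ[ZMod p] ZMod p) (n s : ℕ) : Set (ZMod p)[X] :=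
  {d | d.natDegree ≤ s ∧ ∀ i, i + s < n → l (d * X ^ i) = 0}

lemma KK_zero_mem (l : (ZMod p)[X] →ₗ[ZMod p] ZMod p) (n s : ℕ) : (0 : (ZMod p)[X]) ∈ KK l n s := by
  refine ⟨by simp, ?_⟩
  intro i _
  rw [zero_mul, map_zero]

lemma KK_mul (l : (ZMod p)[X] →ₗ[ZMod p] ZMod p) {n s : ℕ} {d : (ZMod p)[X]} (hd : d ∈ KK l n s)
    {u : (ZMod p)[X]} (hu : u.degree < ((n - s : ℕ) : WithBot ℕ)) : l (d * u) = 0 := by
  obtain ⟨v, hv⟩ := exists_lowPoly (n - s) u hu
  rw [← hv]
  unfold lowPoly
  rw [Finset.mul_sum, map_sum]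
  apply Finset.sum_eq_zero
  intro i _
  have h1 : d * (C (v i) * X ^ (i : ℕ)) = v i • (d * X ^ (i : ℕ)) := by
    rw [Polynomial.smul_eq_C_mul]; ring
  rw [h1, map_smul, hd.2 _ (by have := i.2; omega), smul_zero]

lemma KK_mono (l : (ZMod p)[X] →ₗ[ZMod p] ZMod p) {n s t : ℕ} (hst : s ≤ t)
    {d : (ZMod p)[X]} (hd : d ∈ KK l n s) : d ∈ KK l n t :=
  ⟨hd.1.trans hst, fun i hi => hd.2 i (by omega)⟩

lemma degree_lt_of_mul {a d : (ZMod p)[X]} {r m : ℕ} (hd : d ≠ 0) (hdr : d.natDegree = r)
    (h : (a * d).degree < (m : WithBot ℕ)) : a.degree < ((m - r : ℕ) : WithBot ℕ) := by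
  by_cases ha : a = 0
  · rw [ha, Polynomial.degree_zero]
    exact WithBot.bot_lt_coe _
  · rw [Polynomial.degree_eq_natDegree (mul_ne_zero ha hd), Polynomial.natDegree_mul ha hd,
      hdr] at h
    rw [Polynomial.degree_eq_natDegree ha]
    have h1 : a.natDegree + r < m := by exact_mod_cast h
    have h2 : a.natDegree < m - r := by omega
    exact_mod_cast h2

/-- one side of Sylvester's lemma -/
lemma sylvester_aux {d e v : (ZMod p)[X]} {r s m : ℕ} (hd : d ≠ 0)
    (hdr : d.natDegree = r) (hes : e.natDegree ≤ s) (hcop : IsCoprime d e) (hrs : r + s ≤ m)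
    (hv : v.degree < (m : WithBot ℕ)) :
    ∃ a b : (ZMod p)[X], v = a * d + b * e ∧ a.degree < ((m - r : ℕ) : WithBot ℕ) ∧
      b.degree < ((m - s : ℕ) : WithBot ℕ) := by
  obtain ⟨a0, b0, hab⟩ := hcop
  set b := (b0 * v) % d with hb
  have hbdeg : b.degree < (r : WithBot ℕ) := by
    have h1 := EuclideanDomain.mod_lt (b0 * v) hd
    have h2 : b.degree < d.degree := h1
    rwa [Polynomial.degree_eq_natDegree hd, hdr] at h2
  set a := a0 * v + (b0 * v) / d * e with ha
  have hv' : v = a * d + b * e := by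
    have h1 : b0 * v = d * ((b0 * v) / d) + (b0 * v) % d := (EuclideanDomain.div_add_mod _ _).symm
    calc v = (a0 * d + b0 * e) * v := by rw [hab, one_mul]
      _ = a0 * v * d + (b0 * v) * e := by ring
      _ = a0 * v * d + (d * ((b0 * v) / d) + (b0 * v) % d) * e := by rw [← h1]
      _ = a * d + b * e := by rw [ha, hb]; ring
  refine ⟨a, b, hv', ?_, ?_⟩
  · apply degree_lt_of_mul hd hdr
    have h1 : a * d = v - b * e := by rw [hv']; ring
    rw [h1]
    refine (Polynomial.degree_sub_le _ _).trans_lt ?_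
    rw [max_lt_iff]
    refine ⟨hv, ?_⟩
    by_cases hbe : b * e = 0
    · rw [hbe, Polynomial.degree_zero]; exact WithBot.bot_lt_coe _
    · have hb0 : b ≠ 0 := left_ne_zero_of_mul hbe
      have he0 : e ≠ 0 := right_ne_zero_of_mul hbe
      rw [Polynomial.degree_eq_natDegree hbe, Polynomial.natDegree_mul hb0 he0]
      rw [Polynomial.degree_eq_natDegree hb0] at hbdeg
      have h2 : b.natDegree < r := by exact_mod_cast hbdeg
      have h3 : b.natDegree + e.natDegree < m := by omega
      exact_mod_cast h3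
  · refine hbdeg.trans_le ?_
    have : r ≤ m - s := by omega
    exact_mod_cast this

lemma sylvester {d e v : (ZMod p)[X]} {r s m : ℕ} (hd : d ≠ 0) (he : e ≠ 0)
    (hdr : d.natDegree ≤ r) (hes : e.natDegree ≤ s)
    (heq : d.natDegree = r ∨ e.natDegree = s) (hcop : IsCoprime d e) (hrs : r + s ≤ m)
    (hv : v.degree < (m : WithBot ℕ)) :
    ∃ a b : (ZMod p)[X], v = a * d + b * e ∧ a.degree < ((m - r : ℕ) : WithBot ℕ) ∧
      b.degree < ((m - s : ℕ) : WithBot ℕ) := by
  rcases heq with h | h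
  · exact sylvester_aux hd h hes hcop hrs hv
  · obtain ⟨b, a, h1, h2, h3⟩ := sylvester_aux he h hdr hcop.symm (by omega) hv
    exact ⟨a, b, by rw [h1]; ring, h3, h2⟩

/-- Structure of the kernels. -/
theorem kk_structure (l : (ZMod p)[X] →ₗ[ZMod p] ZMod p) {n r s : ℕ} {d e : (ZMod p)[X]}
    (hd : d ∈ KK l n r) (hd0 : d ≠ 0) (hmin : ∀ t < r, ∀ d' ∈ KK l n t, d' = 0)
    (he : e ∈ KK l n s) (hrs : r + s ≤ n) (hrs' : r ≤ s) :
    ∃ u : (ZMod p)[X], e = d * u ∧ u.natDegree ≤ s - r := by
  classical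
  by_cases he0 : e = 0
  · exact ⟨0, by rw [he0, mul_zero], by simp⟩
  obtain ⟨g, hg⟩ : ∃ g, g = EuclideanDomain.gcd d e := ⟨_, rfl⟩
  have hg0 : g ≠ 0 := by
    intro h0
    rw [hg, EuclideanDomain.gcd_eq_zero_iff] at h0
    exact hd0 h0.1
  obtain ⟨d1, hd1⟩ := EuclideanDomain.gcd_dvd_left d e
  obtain ⟨e1, he1⟩ := EuclideanDomain.gcd_dvd_right d e
  rw [← hg] at hd1 he1
  have hd10 : d1 ≠ 0 := by
    rintro rfl
    rw [mul_zero] at hd1
    exact hd0 hd1
  have he10 : e1 ≠ 0 := by
    rintro rfl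
    rw [mul_zero] at he1
    exact he0 he1
  have hcop : IsCoprime d1 e1 := by
    have h1 : g = d * EuclideanDomain.gcdA d e + e * EuclideanDomain.gcdB d e := by
      rw [hg]; exact EuclideanDomain.gcd_eq_gcd_ab d e
    refine ⟨EuclideanDomain.gcdA d e, EuclideanDomain.gcdB d e, mul_left_cancel₀ hg0 ?_⟩
    calc g * (EuclideanDomain.gcdA d e * d1 + EuclideanDomain.gcdB d e * e1)
        = (g * d1) * EuclideanDomain.gcdA d e + (g * e1) * EuclideanDomain.gcdB d e := by ring
      _ = d * EuclideanDomain.gcdA d e + e * EuclideanDomain.gcdB d e := by rw [← hd1, ← he1]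
      _ = g * 1 := by rw [← h1, mul_one]
  have hdd : d.natDegree = g.natDegree + d1.natDegree := by
    rw [hd1, Polynomial.natDegree_mul hg0 hd10]
  have hde : e.natDegree = g.natDegree + e1.natDegree := by
    rw [he1, Polynomial.natDegree_mul hg0 he10]
  have hdr := hd.1
  have hes := he.1
  obtain ⟨δ, hδ⟩ : ∃ δ, δ = min (r - d.natDegree) (s - e.natDegree) := ⟨_, rfl⟩
  have hδ1 : δ ≤ r - d.natDegree := by rw [hδ]; exact min_le_left _ _
  have hδ2 : δ ≤ s - e.natDegree := by rw [hδ]; exact min_le_right _ _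
  have hδ3 : δ = r - d.natDegree ∨ δ = s - e.natDegree := by
    rw [hδ]
    rcases le_total (r - d.natDegree) (s - e.natDegree) with h | h
    · left; exact min_eq_left h
    · right; exact min_eq_right h
  obtain ⟨γ, hγ⟩ : ∃ γ, γ = g.natDegree + δ := ⟨_, rfl⟩
  -- the gcd form is in the kernel
  have hgK : g ∈ KK l n γ := by
    refine ⟨by omega, ?_⟩
    intro i hi
    have hv : (X ^ i : (ZMod p)[X]).degree < ((n - γ : ℕ) : WithBot ℕ) := by
      rw [Polynomial.degree_X_pow]
      have : i < n - γ := by omega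
      exact_mod_cast this
    obtain ⟨a, b, h1, h2, h3⟩ := sylvester (r := r - γ) (s := s - γ) hd10 he10 (by omega)
      (by omega) (by omega) hcop (by omega) hv
    have h4 : n - γ - (r - γ) = n - r := by omega
    have h5 : n - γ - (s - γ) = n - s := by omega
    rw [h4] at h2
    rw [h5] at h3
    have h6 : g * X ^ i = d * a + e * b := by
      rw [h1]
      calc g * (a * d1 + b * e1) = (g * d1) * a + (g * e1) * b := by ring
        _ = d * a + e * b := by rw [← hd1, ← he1]
    rw [h6, map_add, KK_mul l hd h2, KK_mul l he h3, add_zero]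
  have hγr : r ≤ γ := by
    by_contra hcon
    exact hg0 (hmin γ (by omega) g hgK)
  have hd1deg : d1.natDegree = 0 := by omega
  obtain ⟨c, hc⟩ := Polynomial.natDegree_eq_zero.1 hd1deg
  have hc0 : c ≠ 0 := by
    rintro rfl
    rw [Polynomial.C_0] at hc
    exact hd10 hc.symm
  refine ⟨C c⁻¹ * e1, ?_, ?_⟩
  · calc e = g * e1 := he1
      _ = g * (C c * C c⁻¹) * e1 := by
          rw [← Polynomial.C_mul, mul_inv_cancel₀ hc0, Polynomial.C_1, mul_one]
      _ = (g * C c) * (C c⁻¹ * e1) := by ring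
      _ = d * (C c⁻¹ * e1) := by rw [hc, ← hd1]
  · refine (Polynomial.natDegree_C_mul_le _ _).trans ?_
    omega

/-- the kernel as a finite set of polynomials has at most `p^(s-r+1)` elements -/
lemma card_KK_le (l : (ZMod p)[X] →ₗ[ZMod p] ZMod p) {n r s : ℕ} {d : (ZMod p)[X]}
    (hd : d ∈ KK l n r) (hd0 : d ≠ 0) (hmin : ∀ t < r, ∀ d' ∈ KK l n t, d' = 0)
    (hrs : r + s ≤ n) (hrs' : r ≤ s) (T : Finset (ZMod p)[X]) (hT : ∀ e ∈ T, e ∈ KK l n s) :
    T.card ≤ p ^ (s - r + 1) := by
  classical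
  have h1 : T ⊆ (Finset.univ : Finset (Fin (s - r + 1) → ZMod p)).image
      (fun v => d * lowPoly (s - r + 1) v) := by
    intro e he
    obtain ⟨u, hu, hud⟩ := kk_structure l hd hd0 hmin (hT e he) hrs hrs'
    rw [Finset.mem_image]
    obtain ⟨v, hv⟩ := exists_lowPoly (s - r + 1) u (by
      refine (Polynomial.degree_le_natDegree).trans_lt ?_
      have : u.natDegree < s - r + 1 := by omega
      exact_mod_cast this)
    exact ⟨v, Finset.mem_univ _, by rw [hv, hu]⟩
  refine (Finset.card_le_card h1).trans (Finset.card_image_le.trans ?_)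
  rw [Finset.card_univ, Fintype.card_fun, ZMod.card, Fintype.card_fin]

/-! ### counting functionals with a nontrivial kernel -/

/-- the functional attached to a vector of coordinates -/
noncomputable def fa (n : ℕ) (α : Fin n → ZMod p) : (ZMod p)[X] →ₗ[ZMod p] ZMod p :=
  ∑ i : Fin n, α i • Polynomial.lcoeff (ZMod p) (i : ℕ)

lemma fa_apply (n : ℕ) (α : Fin n → ZMod p) (f : (ZMod p)[X]) :
    fa n α f = ∑ i : Fin n, α i * f.coeff i := by
  unfold fa
  simp [LinearMap.sum_apply]

lemma fa_sub (n : ℕ) (α β : Fin n → ZMod p) (f : (ZMod p)[X]) :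
    fa n (α - β) f = fa n α f - fa n β f := by
  simp_rw [fa_apply, Pi.sub_apply, sub_mul, Finset.sum_sub_distrib]

/-- if `α` is killed by a polynomial of degree `2k` on a window, the middle coordinates are
determined by the others -/
lemma eq_zero_of_window (n r k : ℕ) (hk : k ≤ r) (α : Fin n → ZMod p) {q : (ZMod p)[X]}
    (hq : q ≠ 0) (hqd : q.natDegree = 2 * k) (hkill : ∀ i, i + 2 * r < n → fa n α (q * X ^ i) = 0)
    (h0 : ∀ i : Fin n, ((i : ℕ) < 2 * k ∨ n ≤ (i : ℕ) + 2 * (r - k)) → α i = 0) : α = 0 := by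
  have key : ∀ j : ℕ, ∀ hj : j < n, α ⟨j, hj⟩ = 0 := by
    intro j
    induction j using Nat.strong_induction_on with
    | _ j ih =>
      intro hj
      by_cases h1 : j < 2 * k ∨ n ≤ j + 2 * (r - k)
      · exact h0 ⟨j, hj⟩ h1
      · push Not at h1
        have h2 := hkill (j - 2 * k) (by omega)
        rw [fa_apply, Finset.sum_eq_single ⟨j, hj⟩] at h2
        · rw [Polynomial.coeff_mul_X_pow'] at h2
          rw [if_pos (by simp)] at h2
          have h3 : j - (j - 2 * k) = q.natDegree := by omega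
          simp only [h3] at h2
          have h4 : q.coeff q.natDegree ≠ 0 := Polynomial.leadingCoeff_ne_zero.2 hq
          exact (mul_eq_zero.1 h2).resolve_right h4
        · intro b _ hb
          rw [Polynomial.coeff_mul_X_pow']
          rcases lt_trichotomy (b : ℕ) j with h3 | h3 | h3
          · rw [ih b h3 b.2, zero_mul]
          · exact absurd (Fin.ext h3) hb
          · split_ifs with h4
            · rw [Polynomial.coeff_eq_zero_of_natDegree_lt (by omega), mul_zero]
            · rw [mul_zero]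
        · simp
  funext i
  exact key i i.2

open Classical in
/-- the functionals with a nonzero form of degree `r` in the kernel -/
noncomputable def bad (p : ℕ) [Fact p.Prime] (n r : ℕ) : Finset (Fin n → ZMod p) :=
  Finset.univ.filter fun α => ∃ d ∈ KK (fa n α) n r, d ≠ 0

lemma sum_bad_class (w : ZMod p → ℝ) (h0 : ∀ a, 0 ≤ w a) (h1 : ∀ a, w a ≤ 1) (n r k : ℕ)
    (hk : k ≤ r) (hr : 2 * r ≤ n) (S : Finset (Fin n → ZMod p))
    (hS : ∀ α ∈ S, ∃ d ∈ KK (fa n α) n r, d ≠ 0 ∧ d.natDegree = k) :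
    ∑ α ∈ S, ∏ i, w (α i) ≤ (∑ c, w c) ^ (2 * r) := by
  classical
  set J : Finset (Fin n) := Finset.univ.filter
    (fun i : Fin n => (i : ℕ) < 2 * k ∨ n ≤ (i : ℕ) + 2 * (r - k)) with hJ
  have hJcard : J.card = 2 * r := by
    have h2 : J = (Finset.univ.filter (fun i : Fin n => (i : ℕ) < 2 * k)) ∪
        (Finset.univ.filter (fun i : Fin n => ¬ (i : ℕ) < n - 2 * (r - k))) := by
      ext i
      simp only [hJ, Finset.mem_filter, Finset.mem_univ, true_and, Finset.mem_union]
      constructor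
      · rintro (h | h)
        · left; exact h
        · right; omega
      · rintro (h | h)
        · left; exact h
        · right; omega
    have h3 : Disjoint (Finset.univ.filter (fun i : Fin n => (i : ℕ) < 2 * k))
        (Finset.univ.filter (fun i : Fin n => ¬ (i : ℕ) < n - 2 * (r - k))) := by
      rw [Finset.disjoint_left]
      intro i hi hi'
      simp only [Finset.mem_filter, Finset.mem_univ, true_and] at hi hi'
      omega
    rw [h2, Finset.card_union_of_disjoint h3, Fin.card_filter_val_lt]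
    have h4 := Finset.card_filter_add_card_filter_not (s := (Finset.univ : Finset (Fin n)))
      (fun i : Fin n => (i : ℕ) < n - 2 * (r - k))
    rw [Fin.card_filter_val_lt, Finset.card_univ, Fintype.card_fin] at h4
    omega
  have hinj : Set.InjOn (fun (α : Fin n → ZMod p) (i : J) => α i) (S : Set _) := by
    intro α hα β hβ heq
    obtain ⟨d, hd, hd0, hdk⟩ := hS α hα
    obtain ⟨d', hd', hd0', hdk'⟩ := hS β hβ
    have h2 : α - β = 0 := by
      apply eq_zero_of_window n r k hk (α - β) (mul_ne_zero hd0 hd0')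
      · rw [Polynomial.natDegree_mul hd0 hd0', hdk, hdk']; ring
      · intro i hi
        rw [fa_sub]
        have e1 : fa n α (d * d' * X ^ i) = 0 := by
          rw [mul_assoc]
          apply KK_mul _ hd
          rw [Polynomial.degree_eq_natDegree (mul_ne_zero hd0' (pow_ne_zero _ Polynomial.X_ne_zero)),
            Polynomial.natDegree_mul hd0' (pow_ne_zero _ Polynomial.X_ne_zero),
            Polynomial.natDegree_X_pow, hdk']
          have : k + i < n - r := by omega
          exact_mod_cast this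
        have e2 : fa n β (d * d' * X ^ i) = 0 := by
          rw [mul_comm d d', mul_assoc]
          apply KK_mul _ hd'
          rw [Polynomial.degree_eq_natDegree (mul_ne_zero hd0 (pow_ne_zero _ Polynomial.X_ne_zero)),
            Polynomial.natDegree_mul hd0 (pow_ne_zero _ Polynomial.X_ne_zero),
            Polynomial.natDegree_X_pow, hdk]
          have : k + i < n - r := by omega
          exact_mod_cast this
        rw [e1, e2, sub_zero]
      · intro i hi
        have h3 := congrFun heq ⟨i, by rw [hJ, Finset.mem_filter]; exact ⟨Finset.mem_univ _, hi⟩⟩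
        rw [Pi.sub_apply, sub_eq_zero]
        exact h3
    exact sub_eq_zero.1 h2
  have h5 : ∀ α ∈ S, ∏ i, w (α i) ≤ (fun β : J → ZMod p => ∏ i, w (β i))
      (fun i : J => α i) := by
    intro α _
    beta_reduce
    rw [Finset.prod_coe_sort J (fun i => w (α i))]
    rw [← Finset.prod_mul_prod_compl J]
    apply mul_le_of_le_one_right
    · exact Finset.prod_nonneg fun _ _ => h0 _
    · exact Finset.prod_le_one (fun _ _ => h0 _) (fun _ _ => h1 _)
  refine (Finset.sum_le_sum h5).trans ?_
  rw [← Finset.sum_image (f := fun β : J → ZMod p => ∏ i, w (β i))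
    (g := fun (α : Fin n → ZMod p) (i : J) => α i) hinj]
  refine (Finset.sum_le_sum_of_subset_of_nonneg (Finset.subset_univ _) ?_).trans (le_of_eq ?_)
  · intro β _ _
    exact Finset.prod_nonneg fun _ _ => h0 _
  · rw [sum_prod_pi (fun (_ : J) c => w c), Finset.prod_const, Finset.card_univ,
      Fintype.card_coe, hJcard]

/-- (2a) the count -/
theorem sum_bad (w : ZMod p → ℝ) (h0 : ∀ a, 0 ≤ w a) (h1 : ∀ a, w a ≤ 1) (n r : ℕ)
    (hr : 2 * r ≤ n) :
    ∑ α ∈ bad p n r, ∏ i, w (α i) ≤ (r + 1) * (∑ c, w c) ^ (2 * r) := by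
  classical
  have hex : ∀ α ∈ bad p n r, ∃ k ∈ Finset.range (r + 1),
      ∃ d ∈ KK (fa n α) n r, d ≠ 0 ∧ d.natDegree = k := by
    intro α hα
    unfold bad at hα
    rw [Finset.mem_filter] at hα
    obtain ⟨-, d, hd, hd0⟩ := hα
    exact ⟨d.natDegree, Finset.mem_range.2 (by have := hd.1; omega), d, hd, hd0, rfl⟩
  have hnn : ∀ α : Fin n → ZMod p, 0 ≤ ∏ i, w (α i) := fun α =>
    Finset.prod_nonneg fun _ _ => h0 _
  have h2 : ∀ α ∈ bad p n r, ∏ i, w (α i) ≤ ∑ k ∈ Finset.range (r + 1),
      if (∃ d ∈ KK (fa n α) n r, d ≠ 0 ∧ d.natDegree = k) then ∏ i, w (α i) else 0 := by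
    intro α hα
    obtain ⟨k, hk, hd⟩ := hex α hα
    refine le_trans (le_of_eq ?_) (Finset.single_le_sum (f := fun k =>
      if (∃ d ∈ KK (fa n α) n r, d ≠ 0 ∧ d.natDegree = k) then ∏ i, w (α i) else 0)
      (fun j _ => ?_) hk)
    · rw [if_pos hd]
    · split_ifs
      · exact hnn α
      · exact le_rfl
  refine (Finset.sum_le_sum h2).trans ?_
  rw [Finset.sum_comm]
  have h3 : ∀ k ∈ Finset.range (r + 1), ∑ α ∈ bad p n r,
      (if (∃ d ∈ KK (fa n α) n r, d ≠ 0 ∧ d.natDegree = k) then ∏ i, w (α i) else 0) ≤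
      (∑ c, w c) ^ (2 * r) := by
    intro k hk
    rw [← Finset.sum_filter]
    apply sum_bad_class w h0 h1 n r k (by have := Finset.mem_range.1 hk; omega) hr
    intro α hα
    exact (Finset.mem_filter.1 hα).2
  refine (Finset.sum_le_card_nsmul _ _ _ h3).trans (le_of_eq ?_)
  rw [Finset.card_range, nsmul_eq_mul]
  push_cast
  ring

end Pool.Agent.MP0a1886
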