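import Pool.Agent.MP0a1886.Fourier

/-! Linear recurring sequences (as functionals) and the level of distribution. -/

set_option autoImplicit false
set_option linter.unusedSectionVars false
open Finset Polynomial

namespace Pool.Agent.MP0a1886

variable {p : ℕ} [hp : Fact p.Prime]

/-- `h` annihilates the functional -/
def Kills (h : (ZMod p)[X]) (l : (ZMod p)[X] →ₗ[ZMod p] ZMod p) : Prop := ∀ g, l (h * g) = 0

/-- `m` is the minimal polynomial of the functional -/
def IsMin (m : (ZMod p)[X]) (l : (ZMod p)[X] →ₗ[ZMod p] ZMod p) : Prop :=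
  m.Monic ∧ ∀ h, Kills h l ↔ m ∣ h

lemma IsMin.kills {m : (ZMod p)[X]} {l : (ZMod p)[X] →ₗ[ZMod p] ZMod p} (h : IsMin m l) :
    Kills m l := (h.2 m).2 dvd_rfl

lemma IsMin.unique {m m' : (ZMod p)[X]} {l : (ZMod p)[X] →ₗ[ZMod p] ZMod p}
    (h : IsMin m l) (h' : IsMin m' l) : m = m' :=
  Polynomial.eq_of_monic_of_associated h.1 h'.1
    (associated_of_dvd_dvd ((h.2 m').1 h'.kills) ((h'.2 m).1 h.kills))

lemma exists_isMin {h : (ZMod p)[X]} (hh : h ≠ 0) {l : (ZMod p)[X] →ₗ[ZMod p] ZMod p}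
    (hk : Kills h l) : ∃ m, IsMin m l := by
  classical
  let I : Ideal (ZMod p)[X] :=
    { carrier := {g | Kills g l}
      add_mem' := by
        intro a b ha hb g
        rw [add_mul, map_add, ha g, hb g, add_zero]
      zero_mem' := by
        intro g
        rw [zero_mul, map_zero]
      smul_mem' := by
        intro c a ha g
        rw [smul_eq_mul, mul_comm c a, mul_assoc]
        exact ha _ }
  have hI : ∀ g, g ∈ I ↔ Kills g l := fun g => Iff.rfl
  have hprin : Submodule.IsPrincipal I := IsPrincipalIdealRing.principal I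
  set g := Submodule.IsPrincipal.generator I with hg
  have hdvd : ∀ f, f ∈ I ↔ g ∣ f := fun f => Submodule.IsPrincipal.mem_iff_generator_dvd I
  have hg0 : g ≠ 0 := by
    intro h0
    have h1 := (hdvd h).1 ((hI h).2 hk)
    rw [h0, zero_dvd_iff] at h1
    exact hh h1
  refine ⟨normalize g, Polynomial.monic_normalize hg0, ?_⟩
  intro f
  rw [normalize_dvd_iff, ← hdvd f, hI f]

lemma eq_zero_of_kills {h : (ZMod p)[X]} (hh : h.Monic)
    {l : (ZMod p)[X] →ₗ[ZMod p] ZMod p} (hk : Kills h l)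
    (h0 : ∀ i < h.natDegree, l (X ^ i) = 0) : l = 0 := by
  apply LinearMap.ext
  intro f
  rw [LinearMap.zero_apply]
  have h1 : f = f %ₘ h + h * (f /ₘ h) := (Polynomial.modByMonic_add_div f h).symm
  rw [h1, map_add, hk, add_zero]
  have h2 : (f %ₘ h).degree < (h.natDegree : WithBot ℕ) := by
    rw [← Polynomial.degree_eq_natDegree hh.ne_zero]
    exact Polynomial.degree_modByMonic_lt f hh
  obtain ⟨v, hv⟩ := exists_lowPoly h.natDegree _ h2
  rw [← hv]
  unfold lowPoly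
  rw [map_sum]
  apply Finset.sum_eq_zero
  intro t _
  rw [← Polynomial.smul_eq_C_mul, map_smul, h0 _ t.2, smul_zero]

/-- functionals with minimal polynomial of degree `j` prime to `X` -/
def SS (p : ℕ) [Fact p.Prime] (j : ℕ) : Set ((ZMod p)[X] →ₗ[ZMod p] ZMod p) :=
  {l | ∃ m, IsMin m l ∧ m.natDegree = j ∧ m.coeff 0 ≠ 0}

/-- initial values -/
noncomputable def ini (j : ℕ) (l : (ZMod p)[X] →ₗ[ZMod p] ZMod p) : Fin (2 * j) → ZMod p :=
  fun i => l (X ^ (i : ℕ))

lemma ini_injOn (j : ℕ) : Set.InjOn (ini (p := p) j) (SS p j) := by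
  rintro l ⟨m, hm, hmj, -⟩ l' ⟨m', hm', hmj', -⟩ heq
  have h1 : Kills (m * m') (l - l') := by
    intro g
    rw [LinearMap.sub_apply]
    have h2 : l (m * m' * g) = 0 := by rw [mul_assoc]; exact hm.kills _
    have h3 : l' (m * m' * g) = 0 := by
      rw [mul_comm m m', mul_assoc]; exact hm'.kills _
    rw [h2, h3, sub_zero]
  have h2 : l - l' = 0 := by
    apply eq_zero_of_kills (hm.1.mul hm'.1) h1
    intro i hi
    rw [hm.1.natDegree_mul hm'.1, hmj, hmj'] at hi
    rw [LinearMap.sub_apply, sub_eq_zero]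
    exact congrFun heq ⟨i, by omega⟩
  exact sub_eq_zero.1 h2

lemma SS_finite (j : ℕ) : (SS p j).Finite :=
  Set.Finite.of_finite_image (Set.toFinite (ini j '' SS p j)) (ini_injOn j)

/-- the finite set `SS` as a finset -/
noncomputable def SF (p : ℕ) [Fact p.Prime] (j : ℕ) :
    Finset ((ZMod p)[X] →ₗ[ZMod p] ZMod p) := (SS_finite (p := p) j).toFinset

lemma mem_SF {j : ℕ} {l : (ZMod p)[X] →ₗ[ZMod p] ZMod p} :
    l ∈ SF p j ↔ ∃ m, IsMin m l ∧ m.natDegree = j ∧ m.coeff 0 ≠ 0 := by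
  unfold SF
  rw [Set.Finite.mem_toFinset]
  rfl

lemma ini_ne_zero {j : ℕ} (hj : 1 ≤ j) {l : (ZMod p)[X] →ₗ[ZMod p] ZMod p} (hl : l ∈ SF p j) :
    ini j l ≠ 0 := by
  rw [mem_SF] at hl
  obtain ⟨m, hm, hmj, -⟩ := hl
  intro h0
  have h1 : l = 0 := by
    apply eq_zero_of_kills hm.1 hm.kills
    intro i hi
    exact congrFun h0 ⟨i, by omega⟩
  have h2 : m ∣ 1 := by
    rw [← hm.2]
    intro g
    rw [h1, LinearMap.zero_apply]
  have h3 : m = 1 := hm.1.eq_one_of_isUnit (isUnit_of_dvd_one h2)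
  rw [h3, Polynomial.natDegree_one] at hmj
  omega

/-- the shift -/
noncomputable def shift (s : ℕ) (l : (ZMod p)[X] →ₗ[ZMod p] ZMod p) :
    (ZMod p)[X] →ₗ[ZMod p] ZMod p := l.comp (LinearMap.mulLeft (ZMod p) (X ^ s))

lemma shift_apply (s : ℕ) (l : (ZMod p)[X] →ₗ[ZMod p] ZMod p) (f : (ZMod p)[X]) :
    shift s l f = l (X ^ s * f) := rfl

lemma coprime_X_pow {m : (ZMod p)[X]} (h : m.coeff 0 ≠ 0) (s : ℕ) : IsCoprime m (X ^ s) := by
  apply IsCoprime.pow_right
  have h1 : ¬ (X : (ZMod p)[X]) ∣ m := by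
    rw [Polynomial.X_dvd_iff]
    exact h
  exact ((Polynomial.irreducible_X.coprime_iff_not_dvd).2 h1).symm

lemma shift_isMin {s : ℕ} {m : (ZMod p)[X]} {l : (ZMod p)[X] →ₗ[ZMod p] ZMod p}
    (hm : IsMin m l) (h0 : m.coeff 0 ≠ 0) : IsMin m (shift s l) := by
  refine ⟨hm.1, ?_⟩
  intro h
  have h1 : Kills h (shift s l) ↔ Kills (X ^ s * h) l := by
    unfold Kills
    simp only [shift_apply, mul_assoc]
  rw [h1, hm.2]
  constructor
  · intro h2
    exact (coprime_X_pow h0 s).dvd_of_dvd_mul_left h2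
  · intro h2
    exact h2.mul_left _

lemma shift_mem {s j : ℕ} {l : (ZMod p)[X] →ₗ[ZMod p] ZMod p} (hl : l ∈ SF p j) :
    shift s l ∈ SF p j := by
  rw [mem_SF] at hl ⊢
  obtain ⟨m, hm, hmj, h0⟩ := hl
  exact ⟨m, shift_isMin hm h0, hmj, h0⟩

lemma shift_injOn (s j : ℕ) : Set.InjOn (shift (p := p) s) (SF p j : Set _) := by
  intro l hl l' hl' heq
  rw [Finset.mem_coe, mem_SF] at hl hl'
  obtain ⟨m, hm, hmj, h0⟩ := hl
  obtain ⟨m', hm', hmj', h0'⟩ := hl'
  have h1 := shift_isMin (s := s) hm h0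
  have h2 := shift_isMin (s := s) hm' h0'
  rw [← heq] at h2
  have h3 : m = m' := h1.unique h2
  subst h3
  obtain ⟨a, b, hab⟩ := coprime_X_pow h0 s
  have h4 : ∀ f, l f = l' f := by
    intro f
    have h5 : f = m * (a * f) + X ^ s * (b * f) := by
      calc f = (a * m + b * X ^ s) * f := by rw [hab, one_mul]
        _ = _ := by ring
    rw [h5, map_add, map_add, hm.kills, hm'.kills, ← shift_apply, ← shift_apply, heq]
  exact LinearMap.ext h4

lemma sum_shift_le (s j : ℕ) (G : ((ZMod p)[X] →ₗ[ZMod p] ZMod p) → ℝ) (hG : ∀ l, 0 ≤ G l) :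
    ∑ l ∈ SF p j, G (shift s l) ≤ ∑ l ∈ SF p j, G l := by
  classical
  rw [← Finset.sum_image (f := G) (g := shift s) (shift_injOn s j)]
  apply Finset.sum_le_sum_of_subset_of_nonneg
  · intro l hl
    rw [Finset.mem_image] at hl
    obtain ⟨l', hl', rfl⟩ := hl
    exact shift_mem hl'
  · intro l _ _
    exact hG l

lemma prod_le_mean (J : ℕ) (hJ : 0 < J) (a : ℕ → ℝ) (ha : ∀ b, 0 ≤ a b) :
    ∏ b ∈ Finset.range J, a b ≤ (1 / J) * ∑ b ∈ Finset.range J, a b ^ J := by
  have hJ' : (0 : ℝ) < J := by exact_mod_cast hJ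
  have h := Real.geom_mean_le_arith_mean_weighted (Finset.range J) (fun _ => (1 / J : ℝ))
    (fun b => a b ^ J) (fun _ _ => by positivity)
    (by rw [Finset.sum_const, Finset.card_range, nsmul_eq_mul]; field_simp)
    (fun b _ => pow_nonneg (ha b) _)
  have h1 : ∀ b ∈ Finset.range J, (a b ^ J) ^ (1 / J : ℝ) = a b := by
    intro b _
    rw [← Real.rpow_natCast, ← Real.rpow_mul (ha b), mul_one_div_cancel hJ'.ne', Real.rpow_one]
  rw [Finset.prod_congr rfl h1, ← Finset.mul_sum] at h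
  exact h

lemma prod_range_blocks (w : ℕ → ℝ) (L : ℕ) : ∀ J : ℕ,
    ∏ i ∈ Finset.range (L * J), w i = ∏ b ∈ Finset.range J, ∏ i ∈ Finset.range L, w (L * b + i) := by
  intro J
  induction J with
  | zero => simp
  | succ J ih =>
    rw [Nat.mul_succ, Finset.prod_range_add, ih, Finset.prod_range_succ]

/-- the weight of the first `N` values of the functional -/
noncomputable def GW (μ : ZMod p → ℝ) (N : ℕ) (l : (ZMod p)[X] →ₗ[ZMod p] ZMod p) : ℝ :=
  ∏ i ∈ Finset.range N, mw μ (l (X ^ i))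

lemma GW_nonneg (μ : ZMod p → ℝ) (N : ℕ) (l : (ZMod p)[X] →ₗ[ZMod p] ZMod p) :
    0 ≤ GW μ N l := Finset.prod_nonneg fun _ _ => mw_nonneg _ _

lemma GW_anti (μ : ZMod p → ℝ) (h0 : ∀ a, 0 ≤ μ a) (h1 : ∑ a, μ a = 1) {M N : ℕ} (h : M ≤ N)
    (l : (ZMod p)[X] →ₗ[ZMod p] ZMod p) : GW μ N l ≤ GW μ M l := by
  unfold GW
  obtain ⟨K, rfl⟩ := Nat.exists_eq_add_of_le h
  rw [Finset.prod_range_add]
  apply mul_le_of_le_one_right
  · exact Finset.prod_nonneg fun _ _ => mw_nonneg _ _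
  · exact Finset.prod_le_one (fun _ _ => mw_nonneg _ _) (fun _ _ => mw_le_one μ h0 h1 _)

lemma GW_shift (μ : ZMod p → ℝ) (L s : ℕ) (l : (ZMod p)[X] →ₗ[ZMod p] ZMod p) :
    GW μ L (shift s l) = ∏ i ∈ Finset.range L, mw μ (l (X ^ (s + i))) := by
  unfold GW
  apply Finset.prod_congr rfl
  intro i _
  rw [shift_apply, pow_add]

/-- Hoelder plus shift invariance -/
lemma sum_GW_le (μ : ZMod p → ℝ) (j J : ℕ) (hJ : 0 < J) :
    ∑ l ∈ SF p j, GW μ (2 * j * J) l ≤ ∑ l ∈ SF p j, GW μ (2 * j) l ^ J := by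
  have hJ' : (0 : ℝ) < J := by exact_mod_cast hJ
  have h1 : ∀ l ∈ SF p j, GW μ (2 * j * J) l ≤
      (1 / J) * ∑ b ∈ Finset.range J, GW μ (2 * j) (shift (2 * j * b) l) ^ J := by
    intro l _
    have h2 : GW μ (2 * j * J) l = ∏ b ∈ Finset.range J, GW μ (2 * j) (shift (2 * j * b) l) := by
      unfold GW
      rw [prod_range_blocks]
      apply Finset.prod_congr rfl
      intro b _
      have := GW_shift μ (2 * j) (2 * j * b) l
      unfold GW at this
      rw [this]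
    rw [h2]
    exact prod_le_mean J hJ _ (fun b => GW_nonneg _ _ _)
  refine (Finset.sum_le_sum h1).trans ?_
  rw [← Finset.mul_sum, Finset.sum_comm]
  have h3 : ∀ b ∈ Finset.range J, ∑ l ∈ SF p j, GW μ (2 * j) (shift (2 * j * b) l) ^ J ≤
      ∑ l ∈ SF p j, GW μ (2 * j) l ^ J := by
    intro b _
    exact sum_shift_le (2 * j * b) j (fun l => GW μ (2 * j) l ^ J)
      (fun l => pow_nonneg (GW_nonneg _ _ _) _)
  calc (1 / J : ℝ) * ∑ b ∈ Finset.range J, ∑ l ∈ SF p j, GW μ (2 * j) (shift (2 * j * b) l) ^ J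
      ≤ (1 / J) * ∑ b ∈ Finset.range J, ∑ l ∈ SF p j, GW μ (2 * j) l ^ J :=
        mul_le_mul_of_nonneg_left (Finset.sum_le_sum h3) (by positivity)
    _ = _ := by
        rw [Finset.sum_const, Finset.card_range, nsmul_eq_mul]
        field_simp

lemma sum_GW_pow_le (μ : ZMod p → ℝ) (h1 : ∑ a, μ a = 1) (j J : ℕ) (hj : 1 ≤ j) :
    ∑ l ∈ SF p j, GW μ (2 * j) l ^ J ≤ (∑ c : ZMod p, mw μ c ^ J) ^ (2 * j) - 1 := by
  classical
  have h2 : ∀ l ∈ SF p j, GW μ (2 * j) l ^ J = (fun v : Fin (2 * j) → ZMod p =>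
      ∏ i, mw μ (v i) ^ J) (ini j l) := by
    intro l _
    unfold GW ini
    beta_reduce
    rw [Finset.prod_pow, ← Finset.prod_range (fun i => mw μ (l (X ^ i)))]
  rw [Finset.sum_congr rfl h2, ← Finset.sum_image (f := fun v : Fin (2 * j) → ZMod p =>
      ∏ i, mw μ (v i) ^ J) (g := ini j)]
  · have h3 : (SF p j).image (ini j) ⊆ (Finset.univ : Finset (Fin (2 * j) → ZMod p)).erase 0 := by
      intro v hv
      rw [Finset.mem_image] at hv
      obtain ⟨l, hl, rfl⟩ := hv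
      rw [Finset.mem_erase]
      exact ⟨ini_ne_zero hj hl, Finset.mem_univ _⟩
    refine (Finset.sum_le_sum_of_subset_of_nonneg h3 ?_).trans (le_of_eq ?_)
    · intro v _ _
      exact Finset.prod_nonneg fun _ _ => pow_nonneg (mw_nonneg _ _) _
    · have h4 := sum_prod_pi (ι := Fin (2 * j)) (fun _ (c : ZMod p) => mw μ c ^ J)
      rw [Finset.prod_const, Finset.card_univ, Fintype.card_fin] at h4
      rw [← h4, ← Finset.add_sum_erase _ _ (Finset.mem_univ (0 : Fin (2 * j) → ZMod p))]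
      have h5 : ∏ i : Fin (2 * j), mw μ ((0 : Fin (2 * j) → ZMod p) i) ^ J = 1 := by
        apply Finset.prod_eq_one
        intro i _
        rw [Pi.zero_apply]
        unfold mw
        rw [muhat_zero μ h1]
        simp
      rw [h5]
      ring
  · intro l hl l' hl' heq
    rw [Finset.mem_coe, mem_SF] at hl hl'
    exact ini_injOn j hl hl' heq

/-- the basic bound -/
lemma sum_GW_bound (μ : ZMod p → ℝ) (h0 : ∀ a, 0 ≤ μ a) (h1 : ∑ a, μ a = 1) (ρ : ℝ)
    (hρ : ∀ c : ZMod p, c ≠ 0 → mw μ c ≤ ρ) (j J N : ℕ) (hj : 1 ≤ j) (hJ : 0 < J)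
    (hN : 2 * j * J ≤ N) :
    ∑ l ∈ SF p j, GW μ N l ≤ (1 + p * ρ ^ J) ^ (2 * j) - 1 := by
  classical
  have hρ0 : 0 ≤ ρ := (mw_nonneg μ 1).trans (hρ 1 one_ne_zero)
  have h2 : ∑ l ∈ SF p j, GW μ N l ≤ ∑ l ∈ SF p j, GW μ (2 * j * J) l :=
    Finset.sum_le_sum fun l _ => GW_anti μ h0 h1 hN l
  refine h2.trans ((sum_GW_le μ j J hJ).trans ((sum_GW_pow_le μ h1 j J hj).trans ?_))
  apply sub_le_sub_right
  apply pow_le_pow_left₀
  · exact Finset.sum_nonneg fun c _ => pow_nonneg (mw_nonneg μ c) J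
  · rw [← Finset.add_sum_erase _ _ (Finset.mem_univ (0 : ZMod p))]
    have h5 : mw μ 0 = 1 := by
      unfold mw
      rw [muhat_zero μ h1]
      simp
    rw [h5, one_pow]
    apply add_le_add_right
    have h6 : ∑ c ∈ (Finset.univ : Finset (ZMod p)).erase 0, mw μ c ^ J ≤
        ∑ c ∈ (Finset.univ : Finset (ZMod p)).erase 0, ρ ^ J := by
      apply Finset.sum_le_sum
      intro c hc
      exact pow_le_pow_left₀ (mw_nonneg μ c) (hρ c (Finset.mem_erase.1 hc).1) J
    refine h6.trans ?_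
    rw [Finset.sum_const, nsmul_eq_mul]
    apply mul_le_mul_of_nonneg_right _ (pow_nonneg hρ0 J)
    have h7 : ((Finset.univ : Finset (ZMod p)).erase 0).card ≤ p := by
      refine (Finset.card_le_card (Finset.erase_subset _ _)).trans ?_
      rw [Finset.card_univ, ZMod.card]
    exact_mod_cast h7

open Classical in
/-- The weighted level of distribution inequality. -/
theorem level_main (μ : ZMod p → ℝ) (h1 : ∑ a, μ a = 1) (n K : ℕ)
    (H : Finset (ZMod p)[X]) (hmon : ∀ h ∈ H, h.Monic) (hdeg : ∀ h ∈ H, h.natDegree ≤ K)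
    (hc : ∀ h ∈ H, h.coeff 0 ≠ 0) (v : (ZMod p)[X] → ℝ) (hv : ∀ h ∈ H, 0 ≤ v h)
    (V : ℕ → ℝ) (hV0 : ∀ j, 0 ≤ V j)
    (hV : ∀ m : (ZMod p)[X], m.Monic → 1 ≤ m.natDegree → (∃ h ∈ H, m ∣ h) →
      ∑ h ∈ H, (if m ∣ h then v h * ((p : ℝ) ^ h.natDegree)⁻¹ else 0) ≤ V m.natDegree) :
    ∑ h ∈ H, v h * Err μ n h ≤
      ∑ j ∈ Finset.Icc 1 K, V j * ∑ l ∈ SF p j, GW μ (n + 1) l := by
  have hpr : (0 : ℝ) < p := by exact_mod_cast hp.out.pos
  -- step 1
  have hstep1 : ∀ h ∈ H, Err μ n h ≤ ((p : ℝ) ^ h.natDegree)⁻¹ *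
      ∑ j ∈ Finset.Icc 1 K, ∑ l ∈ SF p j, if Kills h l then GW μ (n + 1) l else 0 := by
    intro h hh
    have hm := hmon h hh
    refine (Err_le μ h1 n h hm h.natDegree rfl).trans ?_
    apply mul_le_mul_of_nonneg_left _ (by positivity)
    have h2 : ∀ v : Fin h.natDegree → ZMod p,
        ∏ i : Fin (n + 1), mw μ (fn h h.natDegree v (X ^ (i : ℕ)))
          = GW μ (n + 1) (fn h h.natDegree v) := by
      intro v
      unfold GW
      rw [← Finset.prod_range (fun i => mw μ (fn h h.natDegree v (X ^ i)))]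
    simp_rw [h2]
    rw [← Finset.sum_image (f := fun l => GW μ (n + 1) l) (g := fn h h.natDegree)
      (fun a _ b _ hab => fn_injective h hm _ rfl hab)]
    have h3 : ∑ j ∈ Finset.Icc 1 K, ∑ l ∈ SF p j, (if Kills h l then GW μ (n + 1) l else 0)
        = ∑ l ∈ (Finset.Icc 1 K).biUnion (SF p), (if Kills h l then GW μ (n + 1) l else 0) := by
      rw [Finset.sum_biUnion]
      intro a _ b _ hab
      rw [Function.onFun, Finset.disjoint_left]
      intro l hl hl'
      rw [mem_SF] at hl hl'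
      obtain ⟨m, hm1, hma, -⟩ := hl
      obtain ⟨m', hm1', hmb, -⟩ := hl'
      apply hab
      rw [← hma, ← hmb, hm1.unique hm1']
    rw [h3, ← Finset.sum_filter]
    apply Finset.sum_le_sum_of_subset_of_nonneg
    · intro l hl
      rw [Finset.mem_image] at hl
      obtain ⟨v, hv', rfl⟩ := hl
      rw [Finset.mem_erase] at hv'
      have hk : Kills h (fn h h.natDegree v) := fun g => fn_mul h hm _ v g
      rw [Finset.mem_filter]
      refine ⟨?_, hk⟩
      obtain ⟨m, hmin⟩ := exists_isMin hm.ne_zero hk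
      have hmh : m ∣ h := (hmin.2 h).1 hk
      rw [Finset.mem_biUnion]
      refine ⟨m.natDegree, ?_, ?_⟩
      · rw [Finset.mem_Icc]
        constructor
        · by_contra hcon
          have hm0 : m.natDegree = 0 := by omega
          have hm1 : m = 1 := by
            exact (Polynomial.Monic.natDegree_eq_zero hmin.1).1 hm0
          apply hv'.1
          apply fn_injective h hm _ rfl
          apply LinearMap.ext
          intro f
          have h5 := hmin.kills f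
          rw [hm1, one_mul] at h5
          rw [h5, fn_apply]
          simp
        · exact (Polynomial.natDegree_le_of_dvd hmh hm.ne_zero).trans (hdeg h hh)
      · rw [mem_SF]
        refine ⟨m, hmin, rfl, ?_⟩
        intro h0
        apply hc h hh
        rw [← Polynomial.X_dvd_iff] at h0 ⊢
        exact h0.trans hmh
    · intro l _ _
      exact GW_nonneg _ _ _
  -- step 2
  have hstep2 : ∑ h ∈ H, v h * Err μ n h ≤ ∑ j ∈ Finset.Icc 1 K, ∑ l ∈ SF p j,
      GW μ (n + 1) l * ∑ h ∈ H, if Kills h l then v h * ((p : ℝ) ^ h.natDegree)⁻¹ else 0 := by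
    refine (Finset.sum_le_sum fun h hh => mul_le_mul_of_nonneg_left (hstep1 h hh)
      (hv h hh)).trans (le_of_eq ?_)
    simp_rw [Finset.mul_sum]
    rw [Finset.sum_comm]
    apply Finset.sum_congr rfl
    intro j _
    rw [Finset.sum_comm]
    apply Finset.sum_congr rfl
    intro l _
    apply Finset.sum_congr rfl
    intro h _
    split_ifs
    · ring
    · ring
  refine hstep2.trans ?_
  apply Finset.sum_le_sum
  intro j hj
  rw [Finset.mem_Icc] at hj
  rw [Finset.mul_sum]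
  apply Finset.sum_le_sum
  intro l hl
  rw [mem_SF] at hl
  obtain ⟨m, hmin, hmj, -⟩ := hl
  rw [mul_comm (V j)]
  apply mul_le_mul_of_nonneg_left _ (GW_nonneg _ _ _)
  have h6 : ∑ h ∈ H, (if Kills h l then v h * ((p : ℝ) ^ h.natDegree)⁻¹ else 0)
      = ∑ h ∈ H, (if m ∣ h then v h * ((p : ℝ) ^ h.natDegree)⁻¹ else 0) := by
    apply Finset.sum_congr rfl
    intro h _
    by_cases h7 : m ∣ h
    · rw [if_pos h7, if_pos ((hmin.2 h).2 h7)]
    · rw [if_neg h7, if_neg (fun h8 => h7 ((hmin.2 h).1 h8))]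
  rw [h6]
  by_cases h9 : ∃ h ∈ H, m ∣ h
  · rw [← hmj]
    exact hV m hmin.1 (by omega) h9
  · push Not at h9
    rw [Finset.sum_eq_zero]
    · exact hV0 j
    · intro h hh
      rw [if_neg (h9 h hh)]

end Pool.Agent.MP0a1886
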