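import Pool.Agent.MP0a1886.TV

/-! Estimates for the largest irreducible factor. -/

set_option autoImplicit false
set_option linter.unusedSectionVars false
open Finset Polynomial

namespace Pool.Agent.MP0a1886

variable {p : ℕ} [hp : Fact p.Prime]

/-! ### deterministic part -/

lemma count_sq_dvd {N : Multiset (ZMod p)[X]} {h P : (ZMod p)[X]} (hN : N.prod ∣ h) (k : ℕ)
    (hc : k ≤ N.count P) : P ^ k ∣ h := by
  have h1 : Multiset.replicate k P ≤ N := Multiset.le_count_iff_replicate_le.1 hc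
  have h2 := Multiset.prod_dvd_prod_of_le h1
  rw [Multiset.prod_replicate] at h2
  exact h2.trans hN

/-- a polynomial with few distinct irreducible factors and all of them small has a square divisor
of prescribed size -/
lemma exists_square (n t0 t K m : ℕ) (hm : 1 ≤ m) (hn : 2 * t0 + K + 2 * t ≤ n)
    (f : (ZMod p)[X]) (hf : f ≠ 0) (hdeg : n ≤ f.natDegree + t0) (hX : ¬ X ^ (t0 + 1) ∣ f)
    (hsm : ∀ P : (ZMod p)[X], Irreducible P → P ∣ f → P.natDegree ≤ m)
    (hK : ∑ P ∈ facs (prs p 0 m) f, P.natDegree ≤ K) :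
    ∃ g : (ZMod p)[X], g.Monic ∧ g.coeff 0 ≠ 0 ∧ t ≤ g.natDegree ∧ g.natDegree < t + m ∧
      g ^ 2 ∣ f := by
  classical
  -- a square divisor of maximal degree
  let S : Set ℕ := {d | ∃ g : (ZMod p)[X], g.Monic ∧ g.coeff 0 ≠ 0 ∧ g ^ 2 ∣ f ∧ g.natDegree = d}
  have hSne : S.Nonempty := ⟨0, 1, Polynomial.monic_one, by simp, by simp, Polynomial.natDegree_one⟩
  have hSbdd : BddAbove S := by
    refine ⟨f.natDegree, ?_⟩
    rintro d ⟨g, hg, -, hgf, rfl⟩
    have h1 := Polynomial.natDegree_le_of_dvd hgf hf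
    rw [hg.natDegree_pow] at h1
    omega
  obtain ⟨g, hg, hg0, hgf, hgd⟩ := Nat.sSup_mem hSne hSbdd
  have hmax : ∀ g' : (ZMod p)[X], g'.Monic → g'.coeff 0 ≠ 0 → g' ^ 2 ∣ f →
      g'.natDegree ≤ g.natDegree := by
    intro g' h1 h2 h3
    rw [hgd]
    exact le_csSup hSbdd ⟨g', h1, h2, h3, rfl⟩
  obtain ⟨h, hh⟩ := hgf
  have hh0 : h ≠ 0 := by
    rintro rfl
    rw [mul_zero] at hh
    exact hf hh
  set N := UniqueFactorizationMonoid.normalizedFactors h with hN
  have hNprod : N.prod ∣ h := (UniqueFactorizationMonoid.prod_normalizedFactors hh0).dvd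
  have hNdeg : h.natDegree = (N.map Polynomial.natDegree).sum := by
    have hprod := Polynomial.leadingCoeff_mul_prod_normalizedFactors h
    conv_lhs => rw [← hprod]
    rw [Polynomial.natDegree_C_mul (Polynomial.leadingCoeff_ne_zero.2 hh0),
      Polynomial.natDegree_multiset_prod]
    intro h0
    exact UniqueFactorizationMonoid.zero_notMem_normalizedFactors h h0
  have hNmem : ∀ P ∈ N, Irreducible P ∧ P.Monic ∧ P ∣ h := fun P hP =>
    (Polynomial.mem_normalizedFactors_iff hh0).1 hP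
  have hhf : h ∣ f := ⟨g ^ 2, by rw [hh]; ring⟩
  have hcX : N.count X ≤ t0 := by
    by_contra hcon
    exact hX ((count_sq_dvd hNprod (t0 + 1) (by omega)).trans hhf)
  have hcP : ∀ P ∈ N, P ≠ X → N.count P ≤ 1 := by
    intro P hP hPX
    by_contra hcon
    have h1 : P ^ 2 ∣ h := count_sq_dvd hNprod 2 (by omega)
    obtain ⟨hPi, hPm, -⟩ := hNmem P hP
    have hP0 : P.coeff 0 ≠ 0 := by
      intro h0
      rw [← Polynomial.X_dvd_iff] at h0
      exact hPX (Polynomial.eq_of_monic_of_associated Polynomial.monic_X hPm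
        (Polynomial.irreducible_X.associated_of_dvd hPi h0)).symm
    have h2 := hmax (g * P) (hg.mul hPm)
      (by rw [Polynomial.mul_coeff_zero]; exact mul_ne_zero hg0 hP0)
      (by
        rw [mul_pow, hh]
        exact mul_dvd_mul_left _ h1)
    rw [hg.natDegree_mul hPm] at h2
    have := hPi.natDegree_pos
    omega
  have hhdeg : h.natDegree ≤ t0 + K := by
    rw [hNdeg, Finset.sum_multiset_map_count]
    have h1 : N.toFinset ⊆ insert X (facs (prs p 0 m) f) := by
      intro P hP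
      rw [Multiset.mem_toFinset] at hP
      obtain ⟨hPi, hPm, hPh⟩ := hNmem P hP
      rw [Finset.mem_insert]
      by_cases hPX : P = X
      · exact Or.inl hPX
      · right
        unfold facs
        rw [Finset.mem_filter, mem_prs]
        exact ⟨⟨hPX, hPi.natDegree_pos, hsm P hPi (hPh.trans hhf), hPm, hPi⟩, hPh.trans hhf⟩
    have hXnot : (X : (ZMod p)[X]) ∉ facs (prs p 0 m) f := by
      unfold facs
      rw [Finset.mem_filter, mem_prs]
      tauto
    refine (Finset.sum_le_sum_of_subset (h := h1)).trans ?_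
    rw [Finset.sum_insert hXnot, Polynomial.natDegree_X, smul_eq_mul, mul_one]
    apply add_le_add hcX
    refine le_trans (Finset.sum_le_sum ?_) hK
    intro P hP
    rw [smul_eq_mul]
    by_cases hPN : P ∈ N
    · have hPX : P ≠ X := fun h2 => hXnot (h2 ▸ hP)
      calc N.count P * P.natDegree ≤ 1 * P.natDegree := Nat.mul_le_mul_right _ (hcP P hPN hPX)
        _ = P.natDegree := one_mul _
    · rw [Multiset.count_eq_zero_of_notMem hPN, zero_mul]
      exact Nat.zero_le _
  have hgt : t ≤ g.natDegree := by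
    have h1 : f.natDegree = 2 * g.natDegree + h.natDegree := by
      rw [hh, Polynomial.natDegree_mul (pow_ne_zero _ hg.ne_zero) hh0, hg.natDegree_pow]
    omega
  -- cut down to the right size
  have hex : ∃ d, t ≤ d ∧ ∃ g' : (ZMod p)[X], g'.Monic ∧ g' ∣ g ∧ g'.natDegree = d :=
    ⟨g.natDegree, hgt, g, hg, dvd_rfl, rfl⟩
  obtain ⟨hd1, g', hg'm, hg'g, hg'd⟩ := Nat.find_spec hex
  have hmin := fun d (hd : d < Nat.find hex) => Nat.find_min hex hd
  refine ⟨g', hg'm, ?_, by omega, ?_, ?_⟩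
  · intro h0
    apply hg0
    rw [← Polynomial.X_dvd_iff] at h0 ⊢
    exact h0.trans hg'g
  · by_contra hcon
    have h1 : g'.natDegree ≠ 0 := by omega
    obtain ⟨P, hPm, hPi, hPg⟩ := Polynomial.exists_monic_irreducible_factor g' (by
      intro hu
      exact h1 (Polynomial.natDegree_eq_zero_of_isUnit hu))
    obtain ⟨g'', hg''⟩ := hPg
    have hg''m : g''.Monic := by
      rw [hg''] at hg'm
      exact hPm.of_mul_monic_left hg'm
    have h2 : g'.natDegree = P.natDegree + g''.natDegree := by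
      rw [hg'', hPm.natDegree_mul hg''m]
    have h3 : P.natDegree ≤ m := by
      apply hsm P hPi
      have : P ∣ g := (Dvd.intro _ hg''.symm).trans hg'g
      exact this.trans ((dvd_pow_self g (by norm_num)).trans (Dvd.intro _ hh.symm))
    have h4 := hPi.natDegree_pos
    apply hmin g''.natDegree (by omega)
    refine ⟨by omega, g'', hg''m, ?_, rfl⟩
    exact (Dvd.intro_left _ hg''.symm).trans hg'g
  · exact (pow_dvd_pow_of_dvd hg'g 2).trans (Dvd.intro _ hh.symm)

/-! ### probability of elementary events -/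

lemma Pr_mono (μ : ZMod p → ℝ) (h0 : ∀ a, 0 ≤ μ a) (n : ℕ) {E E' : (ZMod p)[X] → Prop}
    (h : ∀ ε : Fin (n + 1) → ZMod p, E (rpoly n ε) → E' (rpoly n ε)) :
    Pr μ n E ≤ Pr μ n E' := by
  classical
  rw [Pr_eq, Pr_eq]
  apply Finset.sum_le_sum
  intro ε _
  split_ifs with h1 h2 h2
  · exact le_rfl
  · exact absurd (h ε h1) h2
  · exact wt_nonneg μ h0 n ε
  · exact le_rfl

lemma Pr_or_le (μ : ZMod p → ℝ) (h0 : ∀ a, 0 ≤ μ a) (n : ℕ) (E E' : (ZMod p)[X] → Prop) :
    Pr μ n (fun f => E f ∨ E' f) ≤ Pr μ n E + Pr μ n E' := by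
  classical
  rw [Pr_eq, Pr_eq, Pr_eq, ← Finset.sum_add_distrib]
  apply Finset.sum_le_sum
  intro ε _
  have := wt_nonneg μ h0 n ε
  by_cases h1 : E (rpoly n ε) <;> by_cases h2 : E' (rpoly n ε) <;> simp [h1, h2, this]

lemma Pr_exists_le (μ : ZMod p → ℝ) (h0 : ∀ a, 0 ≤ μ a) (n : ℕ) {ι : Type*} (s : Finset ι)
    (E : ι → (ZMod p)[X] → Prop) :
    Pr μ n (fun f => ∃ i ∈ s, E i f) ≤ ∑ i ∈ s, Pr μ n (E i) := by
  classical
  simp_rw [Pr_eq]
  rw [Finset.sum_comm]
  apply Finset.sum_le_sum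
  intro ε _
  have hw := wt_nonneg μ h0 n ε
  split_ifs with h1
  · obtain ⟨i, hi, hE⟩ := h1
    refine le_trans (le_of_eq ?_) (Finset.single_le_sum (f := fun i =>
      if E i (rpoly n ε) then wt μ n ε else 0) (fun j _ => ?_) hi)
    · rw [if_pos hE]
    · split_ifs
      · exact hw
      · exact le_rfl
  · apply Finset.sum_nonneg
    intro j _
    split_ifs
    · exact hw
    · exact le_rfl

lemma coeff_rpoly (n : ℕ) (ε : Fin (n + 1) → ZMod p) (i : Fin (n + 1)) :
    (rpoly n ε).coeff i = ε i := by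
  unfold rpoly
  rw [coeff_lowPoly, dif_pos i.2]

/-- probability that a set of coefficients vanishes -/
lemma Pr_coeff_zero (μ : ZMod p → ℝ) (h1 : ∑ a, μ a = 1) (n : ℕ) (S : Finset (Fin (n + 1))) :
    Pr μ n (fun f => ∀ i ∈ S, f.coeff (i : ℕ) = 0) = μ 0 ^ S.card := by
  classical
  rw [Pr_eq]
  have h2 : ∀ ε : Fin (n + 1) → ZMod p,
      (if (∀ i ∈ S, (rpoly n ε).coeff (i : ℕ) = 0) then wt μ n ε else 0)
        = ∏ i : Fin (n + 1), (if i ∈ S ∧ ε i ≠ 0 then 0 else μ (ε i)) := by
    intro ε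
    simp_rw [coeff_rpoly]
    split_ifs with h3
    · unfold wt
      apply Finset.prod_congr rfl
      intro i _
      rw [if_neg]
      rintro ⟨h4, h5⟩
      exact h5 (h3 i h4)
    · push Not at h3
      obtain ⟨i, hi, hne⟩ := h3
      symm
      apply Finset.prod_eq_zero (Finset.mem_univ i)
      rw [if_pos ⟨hi, hne⟩]
  simp_rw [h2]
  rw [sum_prod_pi (fun (i : Fin (n + 1)) (a : ZMod p) => if i ∈ S ∧ a ≠ 0 then 0 else μ a)]
  have h3 : ∀ i : Fin (n + 1), ∑ a : ZMod p, (if i ∈ S ∧ a ≠ 0 then 0 else μ a)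
      = if i ∈ S then μ 0 else 1 := by
    intro i
    split_ifs with h4
    · rw [Finset.sum_eq_single (0 : ZMod p)]
      · simp
      · intro b _ hb
        rw [if_pos ⟨h4, hb⟩]
      · simp
    · rw [← h1]
      apply Finset.sum_congr rfl
      intro a _
      rw [if_neg]
      tauto
  simp_rw [h3]
  rw [Finset.prod_ite, Finset.prod_const, Finset.prod_const_one, mul_one]
  congr 1
  congr 1
  ext i
  simp

/-- the degree is rarely small -/
lemma Pr_deg_small (μ : ZMod p → ℝ) (h0 : ∀ a, 0 ≤ μ a) (h1 : ∑ a, μ a = 1) (n t : ℕ)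
    (ht : t < n) : Pr μ n (fun f => f = 0 ∨ f.natDegree + t < n) ≤ μ 0 ^ (t + 1) := by
  classical
  set S := (Finset.univ : Finset (Fin (n + 1))).filter fun i : Fin (n + 1) => ¬ (i : ℕ) < n - t
    with hS
  have hcard : S.card = t + 1 := by
    have h3 := Finset.card_filter_add_card_filter_not (s := (Finset.univ : Finset (Fin (n + 1))))
      (fun i : Fin (n + 1) => (i : ℕ) < n - t)
    rw [Fin.card_filter_val_lt, Finset.card_univ, Fintype.card_fin, ← hS] at h3
    omega
  rw [← hcard, ← Pr_coeff_zero μ h1 n S]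
  apply Pr_mono μ h0
  intro ε hε i hi
  rw [hS, Finset.mem_filter] at hi
  rcases hε with h | h
  · rw [h, Polynomial.coeff_zero]
  · apply Polynomial.coeff_eq_zero_of_natDegree_lt
    have := hi.2
    omega

/-- high powers of `X` rarely divide -/
lemma Pr_X_pow_dvd (μ : ZMod p → ℝ) (h0 : ∀ a, 0 ≤ μ a) (h1 : ∑ a, μ a = 1) (n t : ℕ)
    (ht : t ≤ n) : Pr μ n (fun f => X ^ (t + 1) ∣ f) ≤ μ 0 ^ (t + 1) := by
  classical
  set S := (Finset.univ : Finset (Fin (n + 1))).filter fun i : Fin (n + 1) => (i : ℕ) < t + 1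
    with hS
  have hcard : S.card = t + 1 := by
    rw [hS, Fin.card_filter_val_lt]
    omega
  rw [← hcard, ← Pr_coeff_zero μ h1 n S]
  apply Pr_mono μ h0
  intro ε hε i hi
  rw [hcard] at hε
  rw [hS, Finset.mem_filter] at hi
  exact (Polynomial.X_pow_dvd_iff.1 hε) _ hi.2

/-! ### unweighted level of distribution -/

lemma level_plain (μ : ZMod p → ℝ) (h1 : ∑ a, μ a = 1) (n k : ℕ) :
    ∑ h ∈ (mon p k).filter (fun h => h.coeff 0 ≠ 0), Err μ n h ≤
      ∑ j ∈ Finset.Icc 1 k, (Real.sqrt 2 ^ p * (1 / Real.sqrt 2) ^ j) *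
        ∑ l ∈ SF p j, GW μ (n + 1) l := by
  classical
  have hpr : (0 : ℝ) < p := by exact_mod_cast hp.out.pos
  have hp2 : (2 : ℝ) ≤ p := by exact_mod_cast hp.out.two_le
  have hs0 : 0 < Real.sqrt 2 := by positivity
  have hs2 : Real.sqrt 2 * Real.sqrt 2 = 2 := Real.mul_self_sqrt (by norm_num)
  have hs1 : 1 ≤ Real.sqrt 2 := by
    apply Real.one_le_sqrt.2; norm_num
  have h := level_main μ h1 n k ((mon p k).filter (fun h => h.coeff 0 ≠ 0))
    (fun h hh => (mem_mon.1 (Finset.mem_filter.1 hh).1).1)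
    (fun h hh => (mem_mon.1 (Finset.mem_filter.1 hh).1).2.le)
    (fun h hh => (Finset.mem_filter.1 hh).2)
    (fun _ => 1) (fun _ _ => zero_le_one)
    (fun j => Real.sqrt 2 ^ p * (1 / Real.sqrt 2) ^ j) (fun j => by positivity)
    (by
      intro m hm hm1 hex
      obtain ⟨h', hh', hmh'⟩ := hex
      have hh'' := mem_mon.1 (Finset.mem_filter.1 hh').1
      have hmk : m.natDegree ≤ k := by
        rw [← hh''.2]
        exact Polynomial.natDegree_le_of_dvd hmh' hh''.1.ne_zero
      have h2 : ∑ h ∈ (mon p k).filter (fun h => h.coeff 0 ≠ 0),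
          (if m ∣ h then (1 : ℝ) * ((p : ℝ) ^ h.natDegree)⁻¹ else 0) ≤
          ((p : ℝ) ^ k)⁻¹ * ((mon p (k - m.natDegree)).card : ℝ) := by
        rw [← Finset.sum_filter]
        have h3 : ((mon p k).filter (fun h => h.coeff 0 ≠ 0)).filter (fun h => m ∣ h) ⊆
            (mon p (k - m.natDegree)).image (fun q => m * q) := by
          intro h hh
          rw [Finset.mem_filter, Finset.mem_filter, mem_mon] at hh
          obtain ⟨⟨⟨h4, h5⟩, -⟩, ⟨q, hq⟩⟩ := hh
          rw [Finset.mem_image]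
          have hqm : q.Monic := by
            rw [hq] at h4
            exact hm.of_mul_monic_left h4
          refine ⟨q, mem_mon.2 ⟨hqm, ?_⟩, hq.symm⟩
          rw [hq, hm.natDegree_mul hqm] at h5
          omega
        have h4 : ∀ h ∈ ((mon p k).filter (fun h => h.coeff 0 ≠ 0)).filter (fun h => m ∣ h),
            (1 : ℝ) * ((p : ℝ) ^ h.natDegree)⁻¹ = ((p : ℝ) ^ k)⁻¹ := by
          intro h hh
          rw [Finset.mem_filter, Finset.mem_filter, mem_mon] at hh
          rw [hh.1.1.2, one_mul]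
        rw [Finset.sum_congr rfl h4, Finset.sum_const, nsmul_eq_mul, mul_comm]
        apply mul_le_mul_of_nonneg_left _ (by positivity)
        exact_mod_cast (Finset.card_le_card h3).trans Finset.card_image_le
      refine h2.trans ?_
      rw [card_mon]
      have h5 : ((p : ℝ) ^ k)⁻¹ * ((p ^ (k - m.natDegree) : ℕ) : ℝ)
          = ((p : ℝ) ^ m.natDegree)⁻¹ := by
        have h6 : (p : ℝ) ^ k = (p : ℝ) ^ (k - m.natDegree) * (p : ℝ) ^ m.natDegree := by
          rw [← pow_add]
          congr 1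
          omega
        push_cast
        rw [h6]
        field_simp
      rw [h5]
      have h7 : ((p : ℝ) ^ m.natDegree)⁻¹ ≤ ((Real.sqrt 2) ^ m.natDegree)⁻¹ := by
        apply inv_anti₀ (by positivity)
        apply pow_le_pow_left₀ (by positivity)
        nlinarith
      have h8 : 1 ≤ Real.sqrt 2 ^ p := one_le_pow₀ hs1
      calc ((p : ℝ) ^ m.natDegree)⁻¹ ≤ ((Real.sqrt 2) ^ m.natDegree)⁻¹ := h7
        _ = 1 * (1 / Real.sqrt 2) ^ m.natDegree := by rw [one_div, inv_pow, one_mul]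
        _ ≤ _ := by gcongr)
  simpa using h

/-- squares rarely divide -/
lemma Pr_square (μ : ZMod p → ℝ) (h0 : ∀ a, 0 ≤ μ a) (h1 : ∑ a, μ a = 1) (n k : ℕ) :
    Pr μ n (fun f => ∃ g ∈ (mon p k).filter (fun g => g.coeff 0 ≠ 0), g ^ 2 ∣ f) ≤
      (1 / 2) ^ k + ∑ j ∈ Finset.Icc 1 (2 * k), (Real.sqrt 2 ^ p * (1 / Real.sqrt 2) ^ j) *
        ∑ l ∈ SF p j, GW μ (n + 1) l := by
  classical
  have hpr : (0 : ℝ) < p := by exact_mod_cast hp.out.pos
  have hp2 : (2 : ℝ) ≤ p := by exact_mod_cast hp.out.two_le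
  refine (Pr_exists_le μ h0 n _ (fun g f => g ^ 2 ∣ f)).trans ?_
  have h2 : ∀ g ∈ (mon p k).filter (fun g => g.coeff 0 ≠ 0),
      Pr μ n (fun f => g ^ 2 ∣ f) ≤ ((p : ℝ) ^ (2 * k))⁻¹ + Err μ n (g ^ 2) := by
    intro g hg
    rw [Finset.mem_filter, mem_mon] at hg
    have h3 : (g ^ 2).natDegree = 2 * k := by
      rw [hg.1.1.natDegree_pow, hg.1.2]
    unfold Err
    rw [h3]
    have := le_abs_self (Pr μ n (fun f => g ^ 2 ∣ f) - ((p : ℝ) ^ (2 * k))⁻¹)
    linarith
  refine (Finset.sum_le_sum h2).trans ?_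
  rw [Finset.sum_add_distrib]
  apply add_le_add
  · rw [Finset.sum_const, nsmul_eq_mul]
    have h4 : (((mon p k).filter (fun g => g.coeff 0 ≠ 0)).card : ℝ) ≤ (p : ℝ) ^ k := by
      have := (Finset.card_le_card (Finset.filter_subset (fun g : (ZMod p)[X] => g.coeff 0 ≠ 0)
        (mon p k)))
      rw [card_mon] at this
      exact_mod_cast this
    calc (((mon p k).filter (fun g => g.coeff 0 ≠ 0)).card : ℝ) * ((p : ℝ) ^ (2 * k))⁻¹
        ≤ (p : ℝ) ^ k * ((p : ℝ) ^ (2 * k))⁻¹ := by gcongr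
      _ = (1 / p) ^ k := by
          rw [two_mul, pow_add, mul_inv, one_div, inv_pow]
          field_simp
      _ ≤ (1 / 2) ^ k := by
          apply pow_le_pow_left₀ (by positivity)
          exact one_div_le_one_div_of_le (by norm_num) hp2
  · refine le_trans ?_ (level_plain μ h1 n (2 * k))
    rw [← Finset.sum_image (f := fun h => Err μ n h) (g := fun g : (ZMod p)[X] => g ^ 2)]
    · apply Finset.sum_le_sum_of_subset_of_nonneg
      · intro h hh
        rw [Finset.mem_image] at hh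
        obtain ⟨g, hg, rfl⟩ := hh
        rw [Finset.mem_filter, mem_mon] at hg ⊢
        refine ⟨⟨hg.1.1.pow 2, by rw [hg.1.1.natDegree_pow, hg.1.2]⟩, ?_⟩
        rw [pow_two, Polynomial.mul_coeff_zero]
        exact mul_ne_zero hg.2 hg.2
      · intro h _ _
        exact abs_nonneg _
    · intro g hg g' hg' heq
      rw [Finset.mem_coe, Finset.mem_filter, mem_mon] at hg hg'
      simp only at heq
      rcases sq_eq_sq_iff_eq_or_eq_neg.1 heq with h | h
      · exact h
      · have h5 := hg.1.1.leadingCoeff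
        rw [h, Polynomial.leadingCoeff_neg, hg'.1.1.leadingCoeff] at h5
        have h6 : C (-1 : ZMod p) = C 1 := by rw [h5]
        rw [Polynomial.C_neg, Polynomial.C_1] at h6
        rw [h]
        calc -g' = (-1) * g' := by ring
          _ = 1 * g' := by rw [h6]
          _ = g' := one_mul _

/-! ### the two estimates for the largest factor -/

/-- level of distribution and comparison with the independent model, with common constants -/
theorem exists_params (μ : ZMod p → ℝ) (h0 : ∀ a, 0 ≤ μ a) (h1 : ∑ a, μ a = 1)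
    (hlt : ∀ a, μ a < 1) : ∃ J0 : ℕ, 0 < J0 ∧ ∃ B c : ℝ, 0 < B ∧ 0 < c ∧
      (∀ n k : ℕ, 1 ≤ n → J0 * (2 * k) ≤ n + 1 →
        ∑ j ∈ Finset.Icc 1 k, (Real.sqrt 2 ^ p * (1 / Real.sqrt 2) ^ j) *
          ∑ l ∈ SF p j, GW μ (n + 1) l ≤ B * Real.exp (-(c * Real.sqrt n)) / n ^ 3) ∧
      (∀ n m R : ℕ, 1 ≤ m → m ≤ n → 16 * J0 * m * (2 * R + 3) ≤ n →
        ∀ (E : Finset (ZMod p)[X] → Prop) [DecidablePred E],
          |Pr μ n (fun f => E (facs (prs p 0 m) f))
            - ∑ Q ∈ (prs p 0 m).powerset, if E Q then model xw (prs p 0 m) Q else 0|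
          ≤ (11 * Real.exp 11 + 1) * (1 / 4) ^ R + B * Real.exp (-(c * Real.sqrt n))) := by
  classical
  obtain ⟨J0, hJ0, C1, c1, hC1, hc1, hlev⟩ := exists_level μ h0 h1 hlt
  obtain ⟨C2, hC2, hpoly⟩ := poly_exp_bound 4 c1 hc1
  have hJr : (0 : ℝ) < J0 := by exact_mod_cast hJ0
  refine ⟨J0, hJ0, (6 * Real.exp 2 + 2) * C1 * C2, c1 / 2, by positivity, by positivity, ?_, ?_⟩
  · intro n k hn hk
    have hn0 : (0 : ℝ) < n := by exact_mod_cast hn
    have hkn : k ≤ n := by
      have : 2 * k ≤ J0 * (2 * k) := Nat.le_mul_of_pos_left _ hJ0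
      omega
    have hkr : (k : ℝ) ≤ n := by exact_mod_cast hkn
    refine (hlev n k hk).trans ?_
    rw [le_div_iff₀ (by positivity)]
    calc C1 * k * Real.exp (-(c1 * Real.sqrt n)) * (n : ℝ) ^ 3
        ≤ C1 * n * Real.exp (-(c1 * Real.sqrt n)) * (n : ℝ) ^ 3 := by gcongr
      _ = C1 * ((n : ℝ) ^ 4 * Real.exp (-(c1 * Real.sqrt n))) := by ring
      _ ≤ C1 * (C2 * Real.exp (-(c1 / 2 * Real.sqrt n))) := by
          apply mul_le_mul_of_nonneg_left (hpoly n) (by positivity)
      _ = 1 * (C1 * C2 * Real.exp (-(c1 / 2 * Real.sqrt n))) := by ring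
      _ ≤ (6 * Real.exp 2 + 2) * (C1 * C2 * Real.exp (-(c1 / 2 * Real.sqrt n))) := by
          apply mul_le_mul_of_nonneg_right _ (by positivity)
          have := Real.exp_pos 2
          linarith
      _ = _ := by ring
  · intro n m R hm hmn hp1 EE _
    have hm0 : (0 : ℝ) < m := by exact_mod_cast hm
    have hn1 : 1 ≤ n := hm.trans hmn
    have hnr : (1 : ℝ) ≤ n := by exact_mod_cast hn1
    set PP := prs p 0 m with hPP
    have hPs : ∀ P ∈ PP, P.Monic ∧ Irreducible P := prs_spec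
    have hcR := tv_core (wt μ n) (rpoly n) (wt_nonneg μ h0 n) (sum_wt μ h1 n) m R hm EE
    rw [← hPP] at hcR
    have hKn : 2 * (4 * m * (2 * R + 3)) ≤ n := by
      have : 16 * J0 * m * (2 * R + 3) ≥ 2 * (4 * m * (2 * R + 3)) := by
        have h5 : 1 ≤ J0 := hJ0
        calc 2 * (4 * m * (2 * R + 3)) = 8 * m * (2 * R + 3) * 1 := by ring
          _ ≤ 8 * m * (2 * R + 3) * (2 * J0) := Nat.mul_le_mul_left _ (by omega)
          _ = 16 * J0 * m * (2 * R + 3) := by ring
      omega
    have hR0 : ∑ H ∈ PP.powerset,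
          (if ∑ P ∈ H, P.natDegree ≤ 2 * (4 * m * (2 * R + 3)) then
            2 ^ H.card * |hit (wt μ n) (fun ω => facs PP (rpoly n ω)) H - ∏ P ∈ H, xw P| else 0)
        ≤ Real.exp (2 * ∑ P ∈ PP, xw P) * (C1 * (2 * (4 * m * (2 * R + 3)) : ℕ) *
          Real.exp (-(c1 * Real.sqrt n))) := by
      have h7 := level_weighted μ h1 n (2 * (4 * m * (2 * R + 3))) PP
        (fun P hP => ⟨(hPs P hP).1, (hPs P hP).2, prs_coeff hP⟩)
      have h8 := hlev n (2 * (4 * m * (2 * R + 3))) (by
        calc J0 * (2 * (2 * (4 * m * (2 * R + 3)))) = 16 * J0 * m * (2 * R + 3) := by ring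
          _ ≤ n + 1 := by omega)
      have h9 : ∑ H ∈ PP.powerset,
          (if ∑ P ∈ H, P.natDegree ≤ 2 * (4 * m * (2 * R + 3)) then
            2 ^ H.card * |hit (wt μ n) (fun ω => facs PP (rpoly n ω)) H - ∏ P ∈ H, xw P| else 0)
          = ∑ T ∈ PP.powerset, (if ∑ P ∈ T, P.natDegree ≤ 2 * (4 * m * (2 * R + 3)) then
              2 ^ T.card * Err μ n (∏ P ∈ T, P) else 0) := by
        apply Finset.sum_congr rfl
        intro T hT
        rw [Finset.mem_powerset] at hT
        rw [hit_err μ n PP hPs T hT]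
      rw [h9]
      refine h7.trans ?_
      simp_rw [mul_assoc (Real.exp (2 * ∑ P ∈ PP, xw P))]
      rw [← Finset.mul_sum]
      exact mul_le_mul_of_nonneg_left h8 (Real.exp_pos _).le
    have hS : Real.exp (2 * ∑ P ∈ PP, xw P) ≤ Real.exp 2 * (m : ℝ) ^ 2 := by
      have h10 := sum_xw_le (p := p) m
      have h11 : Real.exp 2 * (m : ℝ) ^ 2 = Real.exp (2 * (1 + Real.log m)) := by
        rw [mul_add, Real.exp_add, mul_one]
        congr 1
        rw [show (2 : ℝ) * Real.log m = ((2 : ℕ) : ℝ) * Real.log m by norm_num,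
          Real.exp_nat_mul, Real.exp_log hm0]
      rw [h11]
      apply Real.exp_le_exp.2
      linarith
    have hmnr : (m : ℝ) ≤ n := by exact_mod_cast hmn
    have hKr : ((2 * (4 * m * (2 * R + 3)) : ℕ) : ℝ) ≤ n := by exact_mod_cast hKn
    have hRlev : ((m : ℝ) + 2) * ∑ H ∈ PP.powerset,
          (if ∑ P ∈ H, P.natDegree ≤ 2 * (4 * m * (2 * R + 3)) then
            2 ^ H.card * |hit (wt μ n) (fun ω => facs PP (rpoly n ω)) H - ∏ P ∈ H, xw P| else 0)
        ≤ (6 * Real.exp 2 + 2) * C1 * C2 * Real.exp (-(c1 / 2 * Real.sqrt n)) := by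
      calc _ ≤ (3 * (n : ℝ)) * ((Real.exp 2 * (n : ℝ) ^ 2) * (C1 * n *
            Real.exp (-(c1 * Real.sqrt n)))) := by
            apply mul_le_mul (by linarith) _ _ (by positivity)
            · refine hR0.trans ?_
              apply mul_le_mul
              · refine hS.trans ?_
                gcongr
              · gcongr
              · positivity
              · positivity
            · apply Finset.sum_nonneg
              intro H _
              split_ifs
              · positivity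
              · exact le_rfl
        _ = 3 * Real.exp 2 * C1 * ((n : ℝ) ^ 4 * Real.exp (-(c1 * Real.sqrt n))) := by ring
        _ ≤ 3 * Real.exp 2 * C1 * (C2 * Real.exp (-(c1 / 2 * Real.sqrt n))) := by
            apply mul_le_mul_of_nonneg_left (hpoly n) (by positivity)
        _ ≤ (6 * Real.exp 2 + 2) * C1 * C2 * Real.exp (-(c1 / 2 * Real.sqrt n)) := by
            have h12 : 0 < Real.exp 2 * C1 * C2 * Real.exp (-(c1 / 2 * Real.sqrt n)) := by
              positivity
            have h13 : 0 < C1 * C2 * Real.exp (-(c1 / 2 * Real.sqrt n)) := by positivity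
            nlinarith
    have e1 : Pr μ n (fun f => EE (facs PP f))
        = ∑ ε, if EE (facs PP (rpoly n ε)) then wt μ n ε else 0 := Pr_eq μ n _
    rw [e1]
    have hc2 : (∑ ω, if EE (facs PP (rpoly n ω)) then wt μ n ω else 0) -
        (∑ Q ∈ PP.powerset, if EE Q then model xw PP Q else 0) =
        (∑ ω, @ite _ (EE (facs PP (rpoly n ω))) (Classical.propDecidable _) (wt μ n ω) 0) -
        (∑ Q ∈ PP.powerset, @ite _ (EE Q) (Classical.propDecidable _) (model xw PP Q) 0) := by
      congr 1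
      · apply Finset.sum_congr rfl
        intro ω _
        congr
      · apply Finset.sum_congr rfl
        intro Q _
        congr
    rw [hc2]
    linarith

end Pool.Agent.MP0a1886
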