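import Pool.Agent.MP0a1886.Largest

/-! Estimates for the largest irreducible factor, continued. -/

set_option autoImplicit false
set_option linter.unusedSectionVars false
open Finset Polynomial

namespace Pool.Agent.MP0a1886

variable {p : ℕ} [hp : Fact p.Prime]

lemma model_tail_prs (m R : ℕ) (hm : 1 ≤ m) :
    ∑ Q ∈ (prs p 0 m).powerset, (if 4 * m * (2 * R + 3) < ∑ P ∈ Q, P.natDegree then
      model xw (prs p 0 m) Q else 0) ≤ (1 / 4) ^ R := by
  set PP := prs p 0 m with hPP
  set K := 4 * m * (2 * R + 3) with hK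
  have hpos : ∀ P ∈ PP, 1 ≤ P.natDegree := by
    intro P hP
    rw [hPP, mem_prs] at hP
    omega
  have hm0 : (0 : ℝ) < m := by exact_mod_cast hm
  have h5 := model_tail xw (fun P : (ZMod p)[X] => (P.natDegree : ℝ) / m) PP
      (fun P _ => xw_nonneg P) (fun P hP => (xw_le_half (hpos P hP)).trans (by norm_num))
      ((K : ℝ) / m)
  have h6 : ∑ Q ∈ PP.powerset, (if K < ∑ P ∈ Q, P.natDegree then model xw PP Q else 0)
        = ∑ Q ∈ PP.powerset, (if (K : ℝ) / m < ∑ P ∈ Q, (P.natDegree : ℝ) / m then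
            model xw PP Q else 0) := by
    apply Finset.sum_congr rfl
    intro Q _
    have h7 : (K : ℝ) / m < ∑ P ∈ Q, (P.natDegree : ℝ) / m ↔ K < ∑ P ∈ Q, P.natDegree := by
      rw [← Finset.sum_div, div_lt_div_iff_of_pos_right hm0]
      constructor
      · intro h; exact_mod_cast h
      · intro h; exact_mod_cast h
    by_cases h8 : K < ∑ P ∈ Q, P.natDegree
    · rw [if_pos h8, if_pos (h7.2 h8)]
    · rw [if_neg h8, if_neg (fun h9 => h8 (h7.1 h9))]
  rw [h6]
  refine h5.trans ?_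
  have h9 : ∑ P ∈ PP, xw P * (Real.exp ((P.natDegree : ℝ) / m) - 1) ≤ 2 := by
    have h10 : ∀ P ∈ PP, xw P * (Real.exp ((P.natDegree : ℝ) / m) - 1) ≤
        (2 / m) * (xw P * (P.natDegree : ℝ)) := by
      intro P hP
      have h11 : (P.natDegree : ℝ) / m ≤ 1 := by
        rw [div_le_one hm0]
        rw [hPP, mem_prs] at hP
        exact_mod_cast hP.2.2.1
      have h12 := exp_sub_one_le (t := (P.natDegree : ℝ) / m) (by positivity) h11
      calc xw P * (Real.exp ((P.natDegree : ℝ) / m) - 1)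
          ≤ xw P * (2 * ((P.natDegree : ℝ) / m)) :=
            mul_le_mul_of_nonneg_left h12 (xw_nonneg P)
        _ = _ := by ring
    refine (Finset.sum_le_sum h10).trans ?_
    rw [← Finset.mul_sum]
    calc (2 / (m : ℝ)) * ∑ P ∈ PP, xw P * (P.natDegree : ℝ) ≤ (2 / m) * m := by
          apply mul_le_mul_of_nonneg_left (sum_xw_deg_le m) (by positivity)
      _ = 2 := by field_simp
  rw [← Real.exp_add]
  have h13 : (K : ℝ) / m = 8 * R + 12 := by
    rw [hK]; push_cast; field_simp; ring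
  rw [h13]
  have h14 : (1 / 4 : ℝ) ^ R = Real.exp (- (Real.log 4 * R)) := by
    rw [← Real.exp_log (by norm_num : (0 : ℝ) < 1 / 4), ← Real.exp_nat_mul]
    congr 1
    rw [one_div, Real.log_inv]; ring
  rw [h14]
  apply Real.exp_le_exp.2
  have h15 : Real.log 4 ≤ 8 := by
    have := Real.log_le_sub_one_of_pos (by norm_num : (0 : ℝ) < 4)
    linarith
  have h16 : (0 : ℝ) ≤ R := by positivity
  nlinarith

lemma pow_le_exp_sqrt (a : ℝ) (ha0 : 0 ≤ a) (ha1 : a < 1) (D : ℕ) (hD : 0 < D) :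
    ∃ C c : ℝ, 0 < C ∧ 0 < c ∧ ∀ n : ℕ, (n : ℝ) * a ^ (n / D) ≤
      C * Real.exp (-(c * Real.sqrt n)) := by
  set b := max a (1 / 2) with hb
  have hb0 : 0 < b := by positivity
  have hb1 : b < 1 := by
    rw [hb, max_lt_iff]; exact ⟨ha1, by norm_num⟩
  have hDr : (0 : ℝ) < D := by exact_mod_cast hD
  set L := Real.log b⁻¹ with hL
  have hLpos : 0 < L := Real.log_pos ((one_lt_inv₀ hb0).2 hb1)
  obtain ⟨C, hC, hpoly⟩ := poly_exp_bound 1 (L / D) (by positivity)
  refine ⟨b⁻¹ * C, L / D / 2, by positivity, by positivity, ?_⟩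
  intro n
  have h1 : a ^ (n / D) ≤ b ^ (n / D) := pow_le_pow_left₀ ha0 (le_max_left _ _) _
  have h2 : b ^ (n / D) ≤ b⁻¹ * Real.exp (-(L / D * n)) := by
    have h4 : b ^ (n / D) = Real.exp (-((n / D : ℕ) * L)) := by
      rw [hL, Real.log_inv, ← Real.exp_log hb0, ← Real.exp_nat_mul, Real.exp_log hb0]
      ring_nf
    have h5 : b⁻¹ = Real.exp L := by
      rw [hL, Real.exp_log (inv_pos.2 hb0)]
    rw [h4, h5, ← Real.exp_add]
    apply Real.exp_le_exp.2
    have h6 : (n : ℝ) / D < (n / D : ℕ) + 1 := by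
      have h7 : n < (n / D + 1) * D := by
        have := Nat.div_add_mod n D
        have := Nat.mod_lt n hD
        nlinarith
      rw [div_lt_iff₀ hDr]
      exact_mod_cast h7
    have h8 : L / D * n = L * (n / D) := by ring
    rw [h8]
    nlinarith
  have h3 : Real.exp (-(L / D * n)) ≤ Real.exp (-(L / D * Real.sqrt n)) := by
    apply Real.exp_le_exp.2
    apply neg_le_neg
    apply mul_le_mul_of_nonneg_left _ (by positivity)
    rcases Nat.eq_zero_or_pos n with h | h
    · subst h; simp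
    · rw [Real.sqrt_le_left (by positivity)]
      have : (1 : ℝ) ≤ n := by exact_mod_cast h
      nlinarith
  have h4 := hpoly n
  rw [pow_one] at h4
  calc (n : ℝ) * a ^ (n / D) ≤ n * (b⁻¹ * Real.exp (-(L / D * Real.sqrt n))) := by
        apply mul_le_mul_of_nonneg_left _ (by positivity)
        exact h1.trans (h2.trans (by gcongr))
    _ = b⁻¹ * (n * Real.exp (-(L / D * Real.sqrt n))) := by ring
    _ ≤ b⁻¹ * (C * Real.exp (-(L / D / 2 * Real.sqrt n))) := by gcongr
    _ = _ := by ring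

/-- smooth random polynomials are rare -/
theorem smooth_rare (μ : ZMod p → ℝ) (h0 : ∀ a, 0 ≤ μ a) (h1 : ∑ a, μ a = 1)
    (hlt : ∀ a, μ a < 1) : ∃ C c : ℝ, 0 < C ∧ 0 < c ∧ ∀ n m : ℕ, 1 ≤ m → m ≤ n →
      Pr μ n (fun f => f = 0 ∨ ∀ P : (ZMod p)[X], Irreducible P → P ∣ f → P.natDegree ≤ m) ≤
          C * Real.exp (-(c * min ((n : ℝ) / m) (Real.sqrt n))) := by
  classical
  obtain ⟨J0, hJ0, B, c1, hB, hc1, hlev, htv⟩ := exists_params μ h0 h1 hlt
  obtain ⟨C2, c2, hC2, hc2, hpow2⟩ := pow_le_exp_sqrt (μ 0) (h0 0) (hlt 0) 8 (by norm_num)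
  obtain ⟨C3, c3, hC3, hc3, hpow3⟩ := pow_le_exp_sqrt (1 / 2) (by norm_num) (by norm_num)
    (8 * J0) (by positivity)
  have hJr : (0 : ℝ) < J0 := by exact_mod_cast hJ0
  set A : ℝ := (11 * Real.exp 11 + 2) * Real.exp 3 with hA
  have hA0 : 0 < A := by positivity
  set c : ℝ := min (min (1 / (32 * J0)) c1) (min c2 c3) with hc
  have hc0 : 0 < c := by
    rw [hc, lt_min_iff, lt_min_iff, lt_min_iff]
    exact ⟨⟨by positivity, hc1⟩, ⟨hc2, hc3⟩⟩
  refine ⟨2 * C2 + A + 2 * B + C3 + Real.exp (c * (48 * J0)), c, by positivity, hc0, ?_⟩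
  intro n m hm hmn
  have hm0 : (0 : ℝ) < m := by exact_mod_cast hm
  have hn1 : 1 ≤ n := hm.trans hmn
  have hnr : (1 : ℝ) ≤ n := by exact_mod_cast hn1
  have hmnr : (m : ℝ) ≤ n := by exact_mod_cast hmn
  set M := min ((n : ℝ) / m) (Real.sqrt n) with hM
  by_cases hq : 3 ≤ n / (16 * J0 * m)
  swap
  · refine (Pr_le_one μ h0 h1 n _).trans ?_
    have h3 : M ≤ 48 * J0 := by
      rw [hM]
      refine (min_le_left _ _).trans ?_
      have hpos : 0 < 16 * J0 * m := by positivity
      have h4 : n < 16 * J0 * m * 3 := by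
        rw [not_le, Nat.div_lt_iff_lt_mul hpos] at hq
        linarith
      rw [div_le_iff₀ hm0]
      have h5 : (n : ℝ) < 16 * J0 * m * 3 := by exact_mod_cast h4
      linarith
    have h4 : Real.exp (-(c * (48 * J0))) ≤ Real.exp (-(c * M)) := by
      apply Real.exp_le_exp.2
      have := mul_le_mul_of_nonneg_left h3 hc0.le
      linarith
    calc (1 : ℝ) = Real.exp (c * (48 * J0)) * Real.exp (-(c * (48 * J0))) := by
          rw [← Real.exp_add]; simp
      _ ≤ Real.exp (c * (48 * J0)) * Real.exp (-(c * M)) := by gcongr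
      _ ≤ _ := by
          apply mul_le_mul_of_nonneg_right _ (Real.exp_pos _).le
          linarith
  · set R := (n / (16 * J0 * m) - 3) / 2 with hR
    obtain ⟨hp1, hp2⟩ := param_bound J0 n m hJ0 hm hq
    rw [← hR] at hp1 hp2
    set K := 4 * m * (2 * R + 3) with hK
    have hJ1 : 1 ≤ J0 := hJ0
    have hKn : 4 * K ≤ n := by
      calc 4 * K = 16 * 1 * m * (2 * R + 3) := by rw [hK]; ring
        _ ≤ 16 * J0 * m * (2 * R + 3) := by gcongr
        _ ≤ n := hp1
    have h48 : 48 * J0 * m ≤ n := by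
      have hpos : 0 < 16 * J0 * m := by positivity
      rw [Nat.le_div_iff_mul_le hpos] at hq
      linarith
    set t0 := n / 8 with ht0
    set t := n / (8 * J0) with ht
    have ht0n : 8 * t0 ≤ n := Nat.mul_div_le _ _
    have htn : 8 * J0 * t ≤ n := Nat.mul_div_le _ _
    have htn' : 8 * t ≤ n := by
      calc 8 * t = 8 * 1 * t := by ring
        _ ≤ 8 * J0 * t := by gcongr
        _ ≤ n := htn
    -- inclusion of events
    have hincl : Pr μ n (fun f => f = 0 ∨ ∀ P : (ZMod p)[X], Irreducible P → P ∣ f →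
        P.natDegree ≤ m) ≤ Pr μ n (fun f => ((f = 0 ∨ f.natDegree + t0 < n) ∨
          X ^ (t0 + 1) ∣ f) ∨ ((fun Q : Finset (ZMod p)[X] => K < ∑ P ∈ Q, P.natDegree)
            (facs (prs p 0 m) f) ∨ ∃ k ∈ Finset.Ico t (t + m),
              ∃ g ∈ (mon p k).filter (fun g => g.coeff 0 ≠ 0), g ^ 2 ∣ f)) := by
      apply Pr_mono μ h0
      intro ε hε
      by_cases ha : rpoly n ε = 0
      · exact Or.inl (Or.inl (Or.inl ha))
      by_cases hb : (rpoly n ε).natDegree + t0 < n
      · exact Or.inl (Or.inl (Or.inr hb))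
      by_cases hcx : X ^ (t0 + 1) ∣ rpoly n ε
      · exact Or.inl (Or.inr hcx)
      by_cases hd : K < ∑ P ∈ facs (prs p 0 m) (rpoly n ε), P.natDegree
      · exact Or.inr (Or.inl hd)
      · right; right
        have hsm := hε.resolve_left ha
        obtain ⟨g, hg1, hg2, hg3, hg4, hg5⟩ := exists_square n t0 t K m hm (by omega)
          (rpoly n ε) ha (by omega) hcx hsm (by omega)
        refine ⟨g.natDegree, Finset.mem_Ico.2 ⟨hg3, hg4⟩, g, ?_, hg5⟩
        rw [Finset.mem_filter, mem_mon]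
        exact ⟨⟨hg1, rfl⟩, hg2⟩
    refine hincl.trans ?_
    refine (Pr_or_le μ h0 n _ _).trans ?_
    have hE1 : Pr μ n (fun f => (f = 0 ∨ f.natDegree + t0 < n) ∨ X ^ (t0 + 1) ∣ f) ≤
        2 * C2 * Real.exp (-(c2 * Real.sqrt n)) := by
      refine (Pr_or_le μ h0 n _ _).trans ?_
      have h2 := Pr_deg_small μ h0 h1 n t0 (by omega)
      have h3 := Pr_X_pow_dvd μ h0 h1 n t0 (by omega)
      have h4 : μ 0 ^ (t0 + 1) ≤ C2 * Real.exp (-(c2 * Real.sqrt n)) := by
        refine le_trans ?_ (hpow2 n)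
        have h5 : μ 0 ^ (t0 + 1) ≤ μ 0 ^ t0 :=
          pow_le_pow_of_le_one (h0 0) (hlt 0).le (by omega)
        have h6 : 0 ≤ μ 0 ^ t0 := pow_nonneg (h0 0) _
        rw [ht0] at *
        nlinarith
      linarith
    have hE2 : Pr μ n (fun f => (fun Q : Finset (ZMod p)[X] => K < ∑ P ∈ Q, P.natDegree)
            (facs (prs p 0 m) f)) ≤ A * Real.exp (-(1 / (32 * J0) * ((n : ℝ) / m))) +
              B * Real.exp (-(c1 * Real.sqrt n)) := by
      have h2 := htv n m R hm hmn hp1 (fun Q : Finset (ZMod p)[X] => K < ∑ P ∈ Q, P.natDegree)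
      have h3 := model_tail_prs (p := p) m R hm
      rw [← hK] at h3
      have h4 := (abs_le.1 h2).2
      have h5 : (11 * Real.exp 11 + 1) * (1 / 4 : ℝ) ^ R + (1 / 4) ^ R ≤
          A * Real.exp (-(1 / (32 * J0) * ((n : ℝ) / m))) := by
        calc (11 * Real.exp 11 + 1) * (1 / 4 : ℝ) ^ R + (1 / 4) ^ R
            = (11 * Real.exp 11 + 2) * (1 / 4 : ℝ) ^ R := by ring
          _ ≤ (11 * Real.exp 11 + 2) * (Real.exp 3 *
            Real.exp (-(1 / (32 * J0) * ((n : ℝ) / m)))) := by gcongr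
          _ = _ := by rw [hA]; ring
      linarith
    have hE3 : Pr μ n (fun f => ∃ k ∈ Finset.Ico t (t + m),
              ∃ g ∈ (mon p k).filter (fun g => g.coeff 0 ≠ 0), g ^ 2 ∣ f) ≤
        C3 * Real.exp (-(c3 * Real.sqrt n)) + B * Real.exp (-(c1 * Real.sqrt n)) := by
      refine (Pr_exists_le μ h0 n _ _).trans ?_
      have h2 : ∀ k ∈ Finset.Ico t (t + m), Pr μ n (fun f =>
          ∃ g ∈ (mon p k).filter (fun g => g.coeff 0 ≠ 0), g ^ 2 ∣ f) ≤
          (1 / 2) ^ t + B * Real.exp (-(c1 * Real.sqrt n)) / n ^ 3 := by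
        intro k hk
        rw [Finset.mem_Ico] at hk
        refine (Pr_square μ h0 h1 n k).trans ?_
        apply add_le_add
        · exact pow_le_pow_of_le_one (by norm_num) (by norm_num) hk.1
        · apply hlev n (2 * k) hn1
          have h3 : k ≤ t + m := by omega
          have h4 : 4 * J0 * k ≤ 4 * J0 * (t + m) := Nat.mul_le_mul_left _ h3
          nlinarith
      refine (Finset.sum_le_card_nsmul _ _ _ h2).trans ?_
      rw [Nat.card_Ico, nsmul_eq_mul, add_tsub_cancel_left, mul_add]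
      apply add_le_add
      · refine le_trans ?_ (hpow3 n)
        rw [← ht]
        gcongr
      · calc (m : ℝ) * (B * Real.exp (-(c1 * Real.sqrt n)) / n ^ 3)
            ≤ n * (B * Real.exp (-(c1 * Real.sqrt n)) / n ^ 3) := by gcongr
          _ = B * Real.exp (-(c1 * Real.sqrt n)) * (n / n ^ 3) := by ring
          _ ≤ B * Real.exp (-(c1 * Real.sqrt n)) * 1 := by
              apply mul_le_mul_of_nonneg_left _ (by positivity)
              rw [div_le_one (by positivity)]
              have : (1 : ℝ) ≤ n ^ 2 := one_le_pow₀ hnr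
              calc (n : ℝ) = 1 * n := by ring
                _ ≤ n ^ 2 * n := by gcongr
                _ = n ^ 3 := by ring
          _ = _ := by ring
    have hE23 := Pr_or_le μ h0 n (fun f => (fun Q : Finset (ZMod p)[X] =>
      K < ∑ P ∈ Q, P.natDegree) (facs (prs p 0 m) f)) (fun f => ∃ k ∈ Finset.Ico t (t + m),
              ∃ g ∈ (mon p k).filter (fun g => g.coeff 0 ≠ 0), g ^ 2 ∣ f)
    -- comparison of exponentials
    have hexpJ : Real.exp (-(1 / (32 * J0) * ((n : ℝ) / m))) ≤ Real.exp (-(c * M)) := by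
      apply Real.exp_le_exp.2
      apply neg_le_neg
      apply mul_le_mul _ (min_le_left _ _) _ (by positivity)
      · exact (min_le_left _ _).trans (min_le_left _ _)
      · positivity
    have hexp : ∀ c' : ℝ, c ≤ c' → Real.exp (-(c' * Real.sqrt n)) ≤ Real.exp (-(c * M)) := by
      intro c' hc'
      apply Real.exp_le_exp.2
      apply neg_le_neg
      apply mul_le_mul hc' (min_le_right _ _) _ (hc0.le.trans hc')
      positivity
    have hx1 := hexp c1 ((min_le_left _ _).trans (min_le_right _ _))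
    have hx2 := hexp c2 ((min_le_right _ _).trans (min_le_left _ _))
    have hx3 := hexp c3 ((min_le_right _ _).trans (min_le_right _ _))
    have y1 : 2 * C2 * Real.exp (-(c2 * Real.sqrt n)) ≤ 2 * C2 * Real.exp (-(c * M)) := by gcongr
    have y2 : A * Real.exp (-(1 / (32 * J0) * ((n : ℝ) / m))) ≤ A * Real.exp (-(c * M)) := by
      gcongr
    have y3 : B * Real.exp (-(c1 * Real.sqrt n)) ≤ B * Real.exp (-(c * M)) := by gcongr
    have y4 : C3 * Real.exp (-(c3 * Real.sqrt n)) ≤ C3 * Real.exp (-(c * M)) := by gcongr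
    have y5 : 0 < Real.exp (c * (48 * J0)) * Real.exp (-(c * M)) := by positivity
    nlinarith

end Pool.Agent.MP0a1886
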