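import Pool.Agent.MP0a1886.Largest2

/-! The upper bound sieve and the event that the largest factor is nearly everything. -/

set_option autoImplicit false
set_option linter.unusedSectionVars false
open Finset Polynomial

namespace Pool.Agent.MP0a1886

variable {p : ℕ} [hp : Fact p.Prime]

lemma log_ratio_le_sum (a b : ℕ) (hab : a ≤ b) :
    Real.log ((b + 1) / (a + 1)) ≤ ∑ d ∈ Finset.Ioc a b, 1 / (d : ℝ) := by
  induction b, hab using Nat.le_induction with
  | base =>
    have : (a : ℝ) + 1 ≠ 0 := by positivity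
    simp [div_self this]
  | succ b hab ih =>
    rw [Finset.sum_Ioc_succ_top hab]
    have h1 : ((b + 1 : ℕ) : ℝ) = b + 1 := by push_cast; ring
    have h2 : ((((b + 1 : ℕ) : ℝ) + 1) / (a + 1)) = ((b + 1) / (a + 1)) * (1 + 1 / (b + 1)) := by
      rw [h1]; field_simp
    rw [h2, Real.log_mul (by positivity) (by positivity)]
    have h3 : Real.log (1 + 1 / ((b : ℝ) + 1)) ≤ 1 / (b + 1) := by
      have := Real.log_le_sub_one_of_pos (by positivity : (0 : ℝ) < 1 + 1 / ((b : ℝ) + 1))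
      linarith
    rw [h1]
    linarith

lemma sum_half_le (a b : ℕ) : ∑ d ∈ Finset.Ioc a b, 2 * (1 / 2 : ℝ) ^ ((d + 1) / 2) ≤ 8 := by
  have h1 : ∀ d ∈ Finset.Ioc a b, 2 * (1 / 2 : ℝ) ^ ((d + 1) / 2) ≤ 2 * (3 / 4) ^ d := by
    intro d _
    apply mul_le_mul_of_nonneg_left _ (by norm_num)
    calc (1 / 2 : ℝ) ^ ((d + 1) / 2) ≤ ((3 / 4) ^ 2) ^ ((d + 1) / 2) := by
          apply pow_le_pow_left₀ (by norm_num); norm_num
      _ = (3 / 4) ^ (2 * ((d + 1) / 2)) := by rw [pow_mul]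
      _ ≤ (3 / 4) ^ d := by
          apply pow_le_pow_of_le_one (by norm_num) (by norm_num); omega
  refine (Finset.sum_le_sum h1).trans ?_
  rw [← Finset.mul_sum]
  have h2 : ∑ d ∈ Finset.Ioc a b, (3 / 4 : ℝ) ^ d ≤ ∑ d ∈ Finset.range (b + 1), (3 / 4 : ℝ) ^ d := by
    apply Finset.sum_le_sum_of_subset_of_nonneg
    · intro d hd
      rw [Finset.mem_Ioc] at hd
      rw [Finset.mem_range]; omega
    · intro d _ _; positivity
  have h3 : ∑ d ∈ Finset.range (b + 1), (3 / 4 : ℝ) ^ d ≤ 4 := by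
    rw [geom_sum_eq (by norm_num), div_le_iff_of_neg (by norm_num)]
    have : (0 : ℝ) < (3 / 4) ^ (b + 1) := by positivity
    linarith
  linarith

lemma sum_xw_ge (a b : ℕ) (ha : 1 ≤ a) (hab : a ≤ b) :
    Real.log ((b + 1) / (a + 1)) - 8 ≤ ∑ P ∈ prs p a b, xw P := by
  have h1 : ∑ P ∈ prs p a b, xw P = ∑ d ∈ Finset.Ioc a b, ((irr p d).card : ℝ) / (p : ℝ) ^ d := by
    have h2 : prs p a b = (Finset.Ioc a b).biUnion (irr p) := by
      unfold prs
      rw [Finset.erase_eq_self]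
      intro h
      rw [Finset.mem_biUnion] at h
      obtain ⟨d, hd, hX⟩ := h
      rw [mem_irr, Polynomial.natDegree_X] at hX
      rw [Finset.mem_Ioc] at hd
      omega
    rw [h2, Finset.sum_biUnion]
    · apply Finset.sum_congr rfl
      intro d _
      have h3 : ∀ P ∈ irr p d, xw P = ((p : ℝ) ^ d)⁻¹ := by
        intro P hP
        unfold xw
        rw [(mem_irr.1 hP).2.1]
      rw [Finset.sum_congr rfl h3, Finset.sum_const, nsmul_eq_mul, div_eq_mul_inv]
    · intro d _ d' _ hdd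
      rw [Function.onFun, Finset.disjoint_left]
      intro P hP hP'
      exact hdd ((mem_irr.1 hP).2.1.symm.trans (mem_irr.1 hP').2.1)
  rw [h1]
  have h4 : ∑ d ∈ Finset.Ioc a b, (1 / (d : ℝ) - 2 * (1 / 2 : ℝ) ^ ((d + 1) / 2)) ≤
      ∑ d ∈ Finset.Ioc a b, ((irr p d).card : ℝ) / (p : ℝ) ^ d := by
    apply Finset.sum_le_sum
    intro d hd
    rw [Finset.mem_Ioc] at hd
    exact card_irr_div_ge d (by omega)
  rw [Finset.sum_sub_distrib] at h4
  have h5 := log_ratio_le_sum a b hab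
  have h6 := sum_half_le a b
  linarith

lemma adm_deg {α : Type*} [DecidableEq α] (r : α → ℕ) (t : ℕ) (u : ℕ → ℕ) (d : α → ℕ)
    (D : ℕ → ℕ) (PP : Finset α) (hr : ∀ P ∈ PP, r P < t) (hd : ∀ P ∈ PP, d P ≤ D (r P))
    (B : Finset α) (hB : B ⊆ PP) (hadm : Adm r t u B) :
    ∑ P ∈ B, d P ≤ ∑ i ∈ Finset.range t, (2 * u i + 1) * D i := by
  rw [← Finset.sum_fiberwise_of_maps_to (g := r) (t := Finset.range t)
    (fun P hP => Finset.mem_range.2 (hr P (hB hP)))]
  apply Finset.sum_le_sum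
  intro i hi
  refine (Finset.sum_le_card_nsmul _ _ (D i) ?_).trans ?_
  · intro P hP
    rw [Finset.mem_filter] at hP
    have := hd P (hB hP.1)
    rwa [hP.2] at this
  · rw [smul_eq_mul]
    exact Nat.mul_le_mul_right _ (hadm i (Finset.mem_range.1 hi))

/-- the probability of having no irreducible factor with degree in `(a, b]` -/
theorem gap_bound (μ : ZMod p → ℝ) (h0 : ∀ a, 0 ≤ μ a) (h1 : ∑ a, μ a = 1) (n a b : ℕ)
    (ha : 1 ≤ a) (hab : a ≤ b) :
    Pr μ n (fun f => facs (prs p a b) f = ∅) ≤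
      Real.exp 19 * ((a + 1) / (b + 1)) + Real.exp 2 * (b : ℝ) ^ 2 *
        ∑ j ∈ Finset.Icc 1 (12 * b), (Real.sqrt 2 ^ p * (1 / Real.sqrt 2) ^ j) *
          ∑ l ∈ SF p j, GW μ (n + 1) l := by
  classical
  set I := Nat.log 2 b with hI
  set PP := prs p a b with hPP
  have hb1 : 1 ≤ b := ha.trans hab
  have hb0 : (0 : ℝ) < b := by exact_mod_cast hb1
  have hlog : ∀ P ∈ PP, Nat.log 2 P.natDegree < I + 1 := by
    intro P hP
    rw [hPP, mem_prs] at hP
    have := Nat.log_mono_right (b := 2) hP.2.2.1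
    omega
  have hpos : ∀ P ∈ PP, 1 ≤ P.natDegree := by
    intro P hP
    rw [hPP, mem_prs] at hP
    omega
  have h2 := sieve_upper (wt μ n) (fun ε => facs PP (rpoly n ε)) (wt_nonneg μ h0 n) PP
    (fun ε => facs_subset PP _) (fun P => Nat.log 2 P.natDegree) (I + 1)
    (fun i => 0 + (I - i)) xw hlog
  have h3 := prod_altSum_le (fun P : (ZMod p)[X] => Nat.log 2 P.natDegree) (I + 1)
    (fun i => 0 + (I - i)) xw PP hlog (fun P _ => xw_nonneg P)
    (fun P hP => xw_le_half (hpos P hP)) (fun i _ => kappa_le a b i)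
  have h4 : ∑ i ∈ Finset.range (I + 1), eta (fun i => 0 + (I - i)) i ≤ 11 := by
    have := sum_eta_le 0 I
    rw [pow_zero, mul_one] at this
    exact this
  have h5 : ∏ P ∈ PP, (1 - xw P) ≤ Real.exp 8 * ((a + 1) / (b + 1)) := by
    have h6 : ∏ P ∈ PP, (1 - xw P) ≤ Real.exp (-∑ P ∈ PP, xw P) := by
      rw [← Finset.sum_neg_distrib, Real.exp_sum]
      apply Finset.prod_le_prod
      · intro P hP
        linarith [xw_le_half (hpos P hP)]
      · intro P _
        have := Real.add_one_le_exp (-(xw P))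
        linarith
    refine h6.trans ?_
    have h7 := sum_xw_ge (p := p) a b ha hab
    have hr0 : (0 : ℝ) < (b + 1) / (a + 1) := by positivity
    have h8 : ((a : ℝ) + 1) / (b + 1) = Real.exp (-Real.log ((b + 1) / (a + 1))) := by
      rw [Real.exp_neg, Real.exp_log hr0, inv_div]
    rw [h8, ← Real.exp_add]
    apply Real.exp_le_exp.2
    rw [← hPP] at h7
    linarith
  have hv0 : 0 ≤ ∏ P ∈ PP, (1 - xw P) := Finset.prod_nonneg fun P hP => by
    linarith [xw_le_half (hpos P hP)]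
  have h9 : (∏ P ∈ PP, (1 - xw P)) *
      Real.exp (∑ i ∈ Finset.range (I + 1), eta (fun i => 0 + (I - i)) i) ≤
      Real.exp 19 * ((a + 1) / (b + 1)) := by
    calc _ ≤ (Real.exp 8 * ((a + 1) / (b + 1))) * Real.exp 11 := by
          apply mul_le_mul h5 (Real.exp_le_exp.2 h4) (Real.exp_pos _).le (by positivity)
      _ = Real.exp 19 * ((a + 1) / (b + 1)) := by
          rw [show (19 : ℝ) = 8 + 11 by norm_num, Real.exp_add]; ring
  have hPs : ∀ P ∈ PP, P.Monic ∧ Irreducible P := prs_spec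
  have h10 : ∑ B ∈ PP.powerset, (if Adm (fun P => Nat.log 2 P.natDegree) (I + 1)
      (fun i => 0 + (I - i)) B then |hit (wt μ n) (fun ε => facs PP (rpoly n ε)) B -
        ∏ P ∈ B, xw P| else 0) ≤ ∑ T ∈ PP.powerset, (if ∑ P ∈ T, P.natDegree ≤ 12 * b then
        2 ^ T.card * Err μ n (∏ P ∈ T, P) else 0) := by
    apply Finset.sum_le_sum
    intro B hB
    rw [Finset.mem_powerset] at hB
    have hE : 0 ≤ Err μ n (∏ P ∈ B, P) := abs_nonneg _
    split_ifs with h11 h12 h12
    · rw [hit_err μ n PP hPs B hB]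
      have : (1 : ℝ) ≤ 2 ^ B.card := one_le_pow₀ (by norm_num)
      nlinarith
    · exfalso
      apply h12
      have h13 := adm_deg (fun P : (ZMod p)[X] => Nat.log 2 P.natDegree) (I + 1)
        (fun i => 0 + (I - i)) Polynomial.natDegree (fun i => 2 ^ (i + 1)) PP hlog
        (fun P _ => (Nat.lt_pow_succ_log_self (by norm_num) _).le) B hB h11
      have h14 := sum_params 0 I
      have h15 : 2 ^ (I + 2) * (2 * 0 + 3) ≤ 12 * b := by
        have : 2 ^ I ≤ b := Nat.pow_log_le_self 2 (by omega)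
        calc 2 ^ (I + 2) * (2 * 0 + 3) = 12 * 2 ^ I := by ring
          _ ≤ 12 * b := Nat.mul_le_mul_left _ this
      omega
    · positivity
    · exact le_rfl
  have h16 := level_weighted μ h1 n (12 * b) PP
    (fun P hP => ⟨(hPs P hP).1, (hPs P hP).2, prs_coeff hP⟩)
  have hS : Real.exp (2 * ∑ P ∈ PP, xw P) ≤ Real.exp 2 * (b : ℝ) ^ 2 := by
    have h17 := sum_xw_le (p := p) b
    have h18 : ∑ P ∈ PP, xw P ≤ ∑ P ∈ prs p 0 b, xw P := by
      apply Finset.sum_le_sum_of_subset_of_nonneg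
      · intro P hP
        rw [hPP, mem_prs] at hP
        rw [mem_prs]
        exact ⟨hP.1, by omega, hP.2.2⟩
      · intro P _ _
        exact xw_nonneg P
    have h11 : Real.exp 2 * (b : ℝ) ^ 2 = Real.exp (2 * (1 + Real.log b)) := by
      rw [mul_add, Real.exp_add, mul_one]
      congr 1
      rw [show (2 : ℝ) * Real.log b = ((2 : ℕ) : ℝ) * Real.log b by norm_num,
        Real.exp_nat_mul, Real.exp_log hb0]
    rw [h11]
    apply Real.exp_le_exp.2
    linarith
  have h19 : ∑ j ∈ Finset.Icc 1 (12 * b), (Real.exp (2 * ∑ P ∈ PP, xw P) *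
        (Real.sqrt 2 ^ p * (1 / Real.sqrt 2) ^ j)) * ∑ l ∈ SF p j, GW μ (n + 1) l ≤
      Real.exp 2 * (b : ℝ) ^ 2 * ∑ j ∈ Finset.Icc 1 (12 * b),
        (Real.sqrt 2 ^ p * (1 / Real.sqrt 2) ^ j) * ∑ l ∈ SF p j, GW μ (n + 1) l := by
    simp_rw [mul_assoc (Real.exp (2 * ∑ P ∈ PP, xw P))]
    rw [← Finset.mul_sum]
    apply mul_le_mul_of_nonneg_right hS
    apply Finset.sum_nonneg
    intro j _
    apply mul_nonneg
    · positivity
    · exact Finset.sum_nonneg fun l _ => GW_nonneg _ _ _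
  rw [Pr_eq]
  refine h2.trans ?_
  refine add_le_add (h3.trans h9) ?_
  refine le_trans ?_ (h10.trans (h16.trans h19))
  apply le_of_eq
  apply Finset.sum_congr rfl
  intro B _
  congr

/-- The largest irreducible factor rarely has degree at least `n - m`. -/
theorem big_rare (μ : ZMod p → ℝ) (h0 : ∀ a, 0 ≤ μ a) (h1 : ∑ a, μ a = 1)
    (hlt : ∀ a, μ a < 1) : ∃ C : ℝ, 0 < C ∧ ∀ n m : ℕ, 1 ≤ m → m < n →
      Pr μ n (fun f => f ≠ 0 ∧ ∃ P : (ZMod p)[X], Irreducible P ∧ P ∣ f ∧
        n ≤ P.natDegree + m) ≤ C * (m / n) := by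
  classical
  obtain ⟨J0, hJ0, B, c1, hB, hc1, hlev, -⟩ := exists_params μ h0 h1 hlt
  have hJr : (0 : ℝ) < J0 := by exact_mod_cast hJ0
  refine ⟨48 * J0 * Real.exp 19 + Real.exp 2 * B + 48 * J0, by positivity, ?_⟩
  intro n m hm hmn
  have hm0 : (0 : ℝ) < m := by exact_mod_cast hm
  have hm1 : (1 : ℝ) ≤ m := by exact_mod_cast hm
  have hn1 : 1 ≤ n := by omega
  have hn0 : (0 : ℝ) < n := by exact_mod_cast hn1
  set b := n / (24 * J0) with hb
  have hJ1 : 1 ≤ J0 := hJ0
  have hbn : 24 * J0 * b ≤ n := Nat.mul_div_le _ _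
  have hbn' : n < 24 * J0 * (b + 1) := by
    have := Nat.div_add_mod n (24 * J0)
    have := Nat.mod_lt n (by positivity : 0 < 24 * J0)
    rw [← hb] at *
    nlinarith
  have hbnr : (n : ℝ) < 24 * J0 * (b + 1) := by exact_mod_cast hbn'
  by_cases hmb : m ≤ b
  swap
  · -- trivial case
    refine (Pr_le_one μ h0 h1 n _).trans ?_
    have h2 : b + 1 ≤ m := by omega
    have h3 : (n : ℝ) < 24 * J0 * m := by
      refine hbnr.trans_le ?_
      have : ((b : ℝ) + 1) ≤ m := by exact_mod_cast h2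
      gcongr
    have h4 : (1 : ℝ) ≤ 48 * J0 * (m / n) := by
      rw [mul_div_assoc', le_div_iff₀ hn0]
      nlinarith
    refine h4.trans ?_
    apply mul_le_mul_of_nonneg_right _ (by positivity)
    have : 0 < 48 * J0 * Real.exp 19 + Real.exp 2 * B := by positivity
    linarith
  · have hb1 : 1 ≤ b := hm.trans hmb
    have hb24 : 24 * b ≤ n := by
      calc 24 * b = 24 * 1 * b := by ring
        _ ≤ 24 * J0 * b := by gcongr
        _ ≤ n := hbn
    have hincl : Pr μ n (fun f => f ≠ 0 ∧ ∃ P : (ZMod p)[X], Irreducible P ∧ P ∣ f ∧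
        n ≤ P.natDegree + m) ≤ Pr μ n (fun f => facs (prs p m b) f = ∅) := by
      apply Pr_mono μ h0
      rintro ε ⟨hf0, P, hPi, hPf, hPd⟩
      rw [Finset.eq_empty_iff_forall_notMem]
      intro Q hQ
      unfold facs at hQ
      rw [Finset.mem_filter, mem_prs] at hQ
      obtain ⟨⟨-, hQ2, hQ3, hQ4, hQ5⟩, hQf⟩ := hQ
      have hcop : IsCoprime P Q := by
        rw [hPi.coprime_iff_not_dvd]
        intro hd
        have h2 := Polynomial.natDegree_le_of_dvd hd hQ5.ne_zero
        omega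
      have hPQ : P * Q ∣ rpoly n ε := hcop.mul_dvd hPf hQf
      have h3 := Polynomial.natDegree_le_of_dvd hPQ hf0
      rw [Polynomial.natDegree_mul hPi.ne_zero hQ5.ne_zero] at h3
      have h4 : (rpoly n ε).natDegree ≤ n := by
        have h5 := degree_lowPoly_lt (n + 1) ε
        have h6 : (rpoly n ε).degree < ((n + 1 : ℕ) : WithBot ℕ) := h5
        have := (Polynomial.natDegree_lt_iff_degree_lt hf0).2 h6
        omega
      omega
    refine hincl.trans ((gap_bound μ h0 h1 n m b hm hmb).trans ?_)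
    have h2 := hlev n (12 * b) hn1 (by
      calc J0 * (2 * (12 * b)) = 24 * J0 * b := by ring
        _ ≤ n + 1 := by omega)
    have hbr : (b : ℝ) ≤ n := by
      have : b ≤ n := by omega
      exact_mod_cast this
    have h3 : Real.exp 2 * (b : ℝ) ^ 2 * ∑ j ∈ Finset.Icc 1 (12 * b),
        (Real.sqrt 2 ^ p * (1 / Real.sqrt 2) ^ j) * ∑ l ∈ SF p j, GW μ (n + 1) l ≤
        Real.exp 2 * B * (m / n) := by
      have h4 : Real.exp (-(c1 * Real.sqrt n)) ≤ 1 := by
        apply Real.exp_le_one_iff.2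
        have : 0 ≤ c1 * Real.sqrt n := by positivity
        linarith
      calc _ ≤ Real.exp 2 * (n : ℝ) ^ 2 * (B * Real.exp (-(c1 * Real.sqrt n)) / n ^ 3) := by
            apply mul_le_mul _ h2 _ (by positivity)
            · gcongr
            · apply Finset.sum_nonneg
              intro j _
              apply mul_nonneg
              · positivity
              · exact Finset.sum_nonneg fun l _ => GW_nonneg _ _ _
        _ ≤ Real.exp 2 * (n : ℝ) ^ 2 * (B * 1 / n ^ 3) := by gcongr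
        _ = Real.exp 2 * B * (1 / n) := by field_simp
        _ ≤ Real.exp 2 * B * (m / n) := by gcongr
    have h5 : Real.exp 19 * (((m : ℝ) + 1) / (b + 1)) ≤ 48 * J0 * Real.exp 19 * (m / n) := by
      have h6 : ((m : ℝ) + 1) / (b + 1) ≤ 48 * J0 * (m / n) := by
        rw [mul_div_assoc', div_le_div_iff₀ (by positivity) hn0]
        nlinarith
      calc Real.exp 19 * (((m : ℝ) + 1) / (b + 1)) ≤ Real.exp 19 * (48 * J0 * (m / n)) := by
            gcongr
        _ = _ := by ring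
    have h7 : 0 ≤ 48 * J0 * ((m : ℝ) / n) := by positivity
    linarith

end Pool.Agent.MP0a1886
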