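import Mathlib

/-! Numerical estimates for MP_0a1886_pr. -/

set_option autoImplicit false
open Finset

namespace Pool.Agent.MP0a1886

lemma one_add_pow_sub_one_le {x : ℝ} (hx : 0 ≤ x) : ∀ N : ℕ,
    (1 + x) ^ N - 1 ≤ N * x * (1 + x) ^ N := by
  intro N
  induction N with
  | zero => simp
  | succ N ih =>
    have h1 : 0 ≤ (1 + x) ^ N := by positivity
    rw [pow_succ]
    push_cast
    have h2 : (1 + x) ^ N * (1 + x) - 1 = ((1 + x) ^ N - 1) + (1 + x) ^ N * x := by ring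
    rw [h2]
    have h3 : (↑N + 1) * x * ((1 + x) ^ N * (1 + x))
        = N * x * (1 + x) ^ N + (1 + x) ^ N * x + (N + 1) * x * x * (1 + x) ^ N := by ring
    rw [h3]
    have h4 : 0 ≤ ((N : ℝ) + 1) * x * x * (1 + x) ^ N := by positivity
    linarith

lemma mul_pow_nine_tenths (j : ℕ) : (j : ℝ) * (9 / 10) ^ j ≤ 9 := by
  have h1 : 1 + (j : ℝ) * (1 / 9) ≤ (1 + 1 / 9) ^ j :=
    one_add_mul_le_pow (by norm_num) j
  have h2 : ((1 : ℝ) + 1 / 9) ^ j * (9 / 10) ^ j = 1 := by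
    rw [← mul_pow]; norm_num
  have h3 : (0 : ℝ) < (9 / 10) ^ j := by positivity
  nlinarith

/-- existence of a good exponent -/
lemma exists_J0 (p : ℕ) (ρ : ℝ) (hρ0 : 0 < ρ) (hρ1 : ρ < 1) :
    ∃ J0 : ℕ, 0 < J0 ∧ (1 + p * ρ ^ J0) ^ 2 ≤ 11 / 10 := by
  have h1 : Filter.Tendsto (fun J : ℕ => ((1 : ℝ) + p * ρ ^ J) ^ 2) Filter.atTop
      (nhds ((1 + p * 0) ^ 2)) := by
    have h2 := tendsto_pow_atTop_nhds_zero_of_lt_one hρ0.le hρ1
    exact ((h2.const_mul (p : ℝ)).const_add 1).pow 2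
  have h3 : ((1 : ℝ) + p * 0) ^ 2 < 11 / 10 := by norm_num
  have h4 := (h1.eventually (gt_mem_nhds h3)).and (Filter.eventually_gt_atTop 0)
  obtain ⟨J0, hJ0, hpos⟩ := h4.exists
  exact ⟨J0, hpos, hJ0.le⟩

lemma sqrt_am_gm {a b n j : ℝ} (ha : 0 ≤ a) (hb : 0 ≤ b) (hn : 0 ≤ n) (hj : 0 < j) :
    Real.sqrt (4 * a * b) * Real.sqrt n ≤ a * n / j + b * j := by
  rw [← Real.sqrt_mul (by positivity)]
  apply Real.sqrt_le_iff.2
  refine ⟨by positivity, ?_⟩
  have h1 : a * n / j * (b * j) = a * b * n := by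
    field_simp
  nlinarith [sq_nonneg (a * n / j - b * j)]

/-- the term-by-term bound -/
lemma term_bound (p : ℕ) (ρ : ℝ) (hρ0 : 0 < ρ) (hρ1 : ρ < 1) (J0 : ℕ)
    (hJ : (1 + p * ρ ^ J0) ^ 2 ≤ 11 / 10) (n j : ℕ) (hj : 1 ≤ j) (hjn : J0 * (2 * j) ≤ n + 1) :
    (1 / Real.sqrt 2) ^ j * ((1 + p * ρ ^ ((n + 1) / (2 * j))) ^ (2 * j) - 1) ≤
      18 * p * ρ⁻¹ * Real.exp (- (Real.sqrt (4 * (Real.log ρ⁻¹ / 2) * Real.log (9 / 8)) *
        Real.sqrt n)) := by
  set J := (n + 1) / (2 * j) with hJdef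
  have hj2 : 0 < 2 * j := by omega
  have hJ0J : J0 ≤ J := by
    rw [hJdef, Nat.le_div_iff_mul_le hj2]; exact hjn
  set x : ℝ := p * ρ ^ J with hx
  have hx0 : 0 ≤ x := by positivity
  have hxle : x ≤ p * ρ ^ J0 := by
    apply mul_le_mul_of_nonneg_left _ (by positivity)
    exact pow_le_pow_of_le_one hρ0.le hρ1.le hJ0J
  have h1 := one_add_pow_sub_one_le hx0 (2 * j)
  have h2 : (1 + x) ^ (2 * j) ≤ (11 / 10) ^ j := by
    rw [pow_mul]
    apply pow_le_pow_left₀ (by positivity)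
    refine le_trans ?_ hJ
    apply pow_le_pow_left₀ (by positivity)
    linarith
  have hs : (1 / Real.sqrt 2) ≤ 8 / 11 := by
    rw [div_le_div_iff₀ (by positivity) (by norm_num)]
    have : (11 / 8 : ℝ) ≤ Real.sqrt 2 := by
      apply Real.le_sqrt_of_sq_le; norm_num
    linarith
  have hs' : (1 / Real.sqrt 2) ^ j ≤ (8 / 11) ^ j := pow_le_pow_left₀ (by positivity) hs j
  -- bound for rho^J
  set L := Real.log ρ⁻¹ with hL
  have hLpos : 0 < L := Real.log_pos ((one_lt_inv₀ hρ0).2 hρ1)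
  have hjr : (0 : ℝ) < j := by exact_mod_cast hj
  have h3 : ρ ^ J ≤ ρ⁻¹ * Real.exp (- (L / 2 * n / j)) := by
    have h4 : ρ ^ J = Real.exp (-(J * L)) := by
      rw [hL, Real.log_inv, ← Real.exp_log hρ0, ← Real.exp_nat_mul, Real.exp_log hρ0]
      ring_nf
    have h5 : ρ⁻¹ = Real.exp L := by
      rw [hL, Real.exp_log (inv_pos.2 hρ0)]
    rw [h4, h5, ← Real.exp_add]
    apply Real.exp_le_exp.2
    have h6 : ((n : ℝ) + 1) / (2 * j) < J + 1 := by
      have h7 : n + 1 < (J + 1) * (2 * j) := by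
        rw [hJdef]
        have := Nat.div_add_mod (n + 1) (2 * j)
        have := Nat.mod_lt (n + 1) hj2
        nlinarith
      rw [div_lt_iff₀ (by positivity)]
      exact_mod_cast h7
    have h8 : (n : ℝ) / (2 * j) ≤ (n + 1) / (2 * j) := by
      apply div_le_div_of_nonneg_right _ (by positivity)
      linarith
    have h9 : L / 2 * n / j = L * (n / (2 * j)) := by
      field_simp
    rw [h9]
    nlinarith
  have h10 : (8 / 11 : ℝ) ^ j * (11 / 10) ^ j = (9 / 10) ^ j * (8 / 9) ^ j := by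
    rw [← mul_pow, ← mul_pow]; norm_num
  have h11 : ((8 : ℝ) / 9) ^ j = Real.exp (- (Real.log (9 / 8) * j)) := by
    rw [← Real.exp_log (by norm_num : (0 : ℝ) < 8 / 9), ← Real.exp_nat_mul]
    congr 1
    rw [show (8 : ℝ) / 9 = (9 / 8)⁻¹ by norm_num, Real.log_inv]
    ring
  have hb : 0 ≤ Real.log (9 / 8) := Real.log_nonneg (by norm_num)
  have h12 := sqrt_am_gm (a := L / 2) (b := Real.log (9 / 8)) (n := n) (j := j)
    (by positivity) hb (by positivity) hjr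
  have h13 := mul_pow_nine_tenths j
  calc (1 / Real.sqrt 2) ^ j * ((1 + x) ^ (2 * j) - 1)
      ≤ (8 / 11) ^ j * (((2 * j : ℕ) : ℝ) * x * (11 / 10) ^ j) := by
        apply mul_le_mul hs' _ _ (by positivity)
        · exact h1.trans (mul_le_mul_of_nonneg_left h2 (by positivity))
        · have : 1 ≤ (1 + x) ^ (2 * j) := one_le_pow₀ (by linarith)
          linarith
    _ = 2 * (j * (9 / 10) ^ j) * (8 / 9) ^ j * x := by
        push_cast
        calc (8 / 11 : ℝ) ^ j * (2 * ↑j * x * (11 / 10) ^ j)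
            = 2 * j * x * ((8 / 11 : ℝ) ^ j * (11 / 10) ^ j) := by ring
          _ = _ := by rw [h10]; ring
    _ ≤ 2 * 9 * (8 / 9) ^ j * x := by gcongr
    _ ≤ 2 * 9 * (8 / 9) ^ j * (p * (ρ⁻¹ * Real.exp (- (L / 2 * n / j)))) := by
        rw [hx]; gcongr
    _ = 18 * p * ρ⁻¹ * (Real.exp (- (Real.log (9 / 8) * j)) * Real.exp (- (L / 2 * n / j))) := by
        rw [h11]; ring
    _ ≤ _ := by
        rw [← Real.exp_add]
        have : (0 : ℝ) < ρ⁻¹ := inv_pos.2 hρ0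
        gcongr
        linarith

/-- polynomial factors are absorbed -/
lemma poly_exp_bound (k : ℕ) (c : ℝ) (hc : 0 < c) : ∃ C : ℝ, 0 < C ∧ ∀ n : ℕ,
    (n : ℝ) ^ k * Real.exp (-(c * Real.sqrt n)) ≤ C * Real.exp (-(c / 2 * Real.sqrt n)) := by
  -- x^(2k) exp(-(c/2) x) is bounded
  have h1 : ∀ x : ℝ, 0 ≤ x → x ^ (2 * k) ≤ (((2 * k).factorial : ℝ) * (2 / c) ^ (2 * k)) *
      Real.exp (c / 2 * x) := by
    intro x hx
    have h2 := Real.pow_div_factorial_le_exp (c / 2 * x) (by positivity) (2 * k)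
    have h3 : x ^ (2 * k) = (2 / c) ^ (2 * k) * (c / 2 * x) ^ (2 * k) := by
      rw [← mul_pow]
      congr 1
      field_simp
    rw [h3]
    have h4 : (c / 2 * x) ^ (2 * k) ≤ ((2 * k).factorial : ℝ) * Real.exp (c / 2 * x) := by
      rw [div_le_iff₀ (by positivity)] at h2
      linarith
    calc (2 / c) ^ (2 * k) * (c / 2 * x) ^ (2 * k)
        ≤ (2 / c) ^ (2 * k) * (((2 * k).factorial : ℝ) * Real.exp (c / 2 * x)) := by gcongr
      _ = _ := by ring
  refine ⟨((2 * k).factorial : ℝ) * (2 / c) ^ (2 * k), by positivity, ?_⟩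
  intro n
  have h5 := h1 (Real.sqrt n) (Real.sqrt_nonneg _)
  rw [pow_mul, Real.sq_sqrt (by positivity)] at h5
  calc (n : ℝ) ^ k * Real.exp (-(c * Real.sqrt n))
      ≤ (((2 * k).factorial : ℝ) * (2 / c) ^ (2 * k) * Real.exp (c / 2 * Real.sqrt n)) *
        Real.exp (-(c * Real.sqrt n)) := by gcongr
    _ = ((2 * k).factorial : ℝ) * (2 / c) ^ (2 * k) *
        (Real.exp (c / 2 * Real.sqrt n) * Real.exp (-(c * Real.sqrt n))) := by ring
    _ = _ := by
        rw [← Real.exp_add]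
        ring_nf

/-! ### sieve parameters -/

lemma sum_params (R : ℕ) : ∀ I : ℕ,
    ∑ i ∈ Finset.range (I + 1), (2 * (R + (I - i)) + 1) * 2 ^ (i + 1) + (4 * I + 4 * R + 10)
      = 2 ^ (I + 2) * (2 * R + 3) := by
  intro I
  induction I with
  | zero => simp; ring
  | succ I ih =>
    rw [Finset.sum_range_succ']
    have h1 : ∀ i ∈ Finset.range (I + 1), (2 * (R + (I + 1 - (i + 1))) + 1) * 2 ^ (i + 1 + 1)
        = 2 * ((2 * (R + (I - i)) + 1) * 2 ^ (i + 1)) := by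
      intro i _
      rw [show I + 1 - (i + 1) = I - i by omega, pow_succ 2 (i + 1)]
      ring
    rw [Finset.sum_congr rfl h1, ← Finset.mul_sum]
    have h2 : 2 ^ (I + 1 + 2) * (2 * R + 3) = 2 * (2 ^ (I + 2) * (2 * R + 3)) := by ring
    rw [h2, ← ih]
    simp only [Nat.sub_zero, zero_add, pow_one]
    ring

lemma factorial_ge (N : ℕ) : 2 ^ N ≤ (N + 1).factorial := by
  induction N with
  | zero => simp
  | succ N ih =>
    rw [pow_succ, Nat.factorial_succ (N + 1), mul_comm]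
    exact Nat.mul_le_mul (by omega) ih

lemma sum_eta_le (R I : ℕ) :
    ∑ i ∈ Finset.range (I + 1), (8 : ℝ) / ((2 * (R + (I - i)) + 1).factorial : ℝ)
      ≤ 11 * (1 / 4) ^ R := by
  have h1 : ∀ i ∈ Finset.range (I + 1), (8 : ℝ) / ((2 * (R + (I - i)) + 1).factorial : ℝ)
      ≤ 8 * (1 / 4) ^ R * (1 / 4) ^ (I - i) := by
    intro i _
    have h2 := factorial_ge (2 * (R + (I - i)))
    have h3 : (2 : ℝ) ^ (2 * (R + (I - i))) ≤ ((2 * (R + (I - i)) + 1).factorial : ℝ) := by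
      exact_mod_cast h2
    calc (8 : ℝ) / ((2 * (R + (I - i)) + 1).factorial : ℝ) ≤ 8 / 2 ^ (2 * (R + (I - i))) := by
          apply div_le_div_of_nonneg_left (by norm_num) (by positivity) h3
      _ = _ := by
          rw [pow_mul, mul_assoc, ← pow_add]
          rw [show ((2 : ℝ) ^ 2) = 4 by norm_num, one_div, inv_pow]
          ring
  refine (Finset.sum_le_sum h1).trans ?_
  rw [← Finset.mul_sum]
  have h4 : ∑ i ∈ Finset.range (I + 1), ((1 : ℝ) / 4) ^ (I - i) ≤ 4 / 3 := by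
    have h5 : ∑ i ∈ Finset.range (I + 1), ((1 : ℝ) / 4) ^ (I - i)
        = ∑ i ∈ Finset.range (I + 1), ((1 : ℝ) / 4) ^ i := by
      rw [← Finset.sum_range_reflect (fun i => ((1 : ℝ) / 4) ^ i) (I + 1)]
      apply Finset.sum_congr rfl
      intro i _
      congr 1
    rw [h5, geom_sum_eq (by norm_num)]
    have : (0 : ℝ) < (1 / 4) ^ (I + 1) := by positivity
    rw [div_le_iff_of_neg (by norm_num)]
    linarith
  have h6 : (0 : ℝ) < (1 / 4) ^ R := by positivity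
  nlinarith

end Pool.Agent.MP0a1886
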