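import Pool.Agent.MP0a1886.LRS
import Pool.Agent.MP0a1886.Numeric
import Pool.Agent.MP0a1886.Sieve

/-! The level of distribution for sets of irreducible polynomials. -/

set_option autoImplicit false
set_option linter.unusedSectionVars false
open Finset Polynomial

namespace Pool.Agent.MP0a1886

variable {p : ℕ} [hp : Fact p.Prime]

/-- monic irreducible polynomials with degree in `(a, b]`, different from `X` -/
noncomputable def prs (p : ℕ) [Fact p.Prime] (a b : ℕ) : Finset (ZMod p)[X] :=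
  ((Finset.Ioc a b).biUnion (irr p)).erase X

lemma mem_prs {a b : ℕ} {P : (ZMod p)[X]} :
    P ∈ prs p a b ↔ P ≠ X ∧ a < P.natDegree ∧ P.natDegree ≤ b ∧ P.Monic ∧ Irreducible P := by
  unfold prs
  rw [Finset.mem_erase, Finset.mem_biUnion]
  constructor
  · rintro ⟨h1, d, hd, hP⟩
    rw [mem_irr] at hP
    rw [Finset.mem_Ioc] at hd
    obtain ⟨h2, h3, h4⟩ := hP
    subst h3
    exact ⟨h1, hd.1, hd.2, h2, h4⟩
  · rintro ⟨h1, h2, h3, h4, h5⟩
    exact ⟨h1, P.natDegree, Finset.mem_Ioc.2 ⟨h2, h3⟩, mem_irr.2 ⟨h4, rfl, h5⟩⟩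

/-- the density of multiples of `P` -/
noncomputable def xw (P : (ZMod p)[X]) : ℝ := ((p : ℝ) ^ P.natDegree)⁻¹

lemma xw_nonneg (P : (ZMod p)[X]) : 0 ≤ xw P := by unfold xw; positivity

lemma xw_le_half {P : (ZMod p)[X]} (h : 1 ≤ P.natDegree) : xw P ≤ 1 / 2 := by
  unfold xw
  have hp2 : (2 : ℝ) ≤ p := by exact_mod_cast hp.out.two_le
  rw [one_div]
  apply inv_anti₀ (by norm_num)
  calc (2 : ℝ) ≤ p := hp2
    _ = (p : ℝ) ^ 1 := (pow_one _).symm
    _ ≤ (p : ℝ) ^ P.natDegree := pow_le_pow_right₀ (by linarith) h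

lemma prod_xw (T : Finset (ZMod p)[X]) (hT : ∀ P ∈ T, P.Monic) :
    ∏ P ∈ T, xw P = ((p : ℝ) ^ (∏ P ∈ T, P).natDegree)⁻¹ := by
  unfold xw
  rw [Polynomial.natDegree_prod_of_monic _ _ hT, Finset.prod_inv_distrib, Finset.prod_pow_eq_pow_sum]

lemma sum_irr_le (s : Finset ℕ) (hs : ∀ d ∈ s, d ≠ 0) (g : ℕ → ℝ) (hg : ∀ d ∈ s, 0 ≤ g d)
    (T : Finset (ZMod p)[X]) (hT : ∀ P ∈ T, P.Monic ∧ Irreducible P ∧ P.natDegree ∈ s) :
    ∑ P ∈ T, xw P * g P.natDegree ≤ ∑ d ∈ s, 1 / (d : ℝ) * g d := by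
  rw [← Finset.sum_fiberwise_of_maps_to (g := Polynomial.natDegree) (t := s)
    (fun P hP => (hT P hP).2.2)]
  apply Finset.sum_le_sum
  intro d hd
  have h1 : ∀ P ∈ T.filter (fun P => P.natDegree = d), xw P * g P.natDegree
      = ((p : ℝ) ^ d)⁻¹ * g d := by
    intro P hP
    rw [Finset.mem_filter] at hP
    unfold xw
    rw [hP.2]
  rw [Finset.sum_congr rfl h1, Finset.sum_const, nsmul_eq_mul, ← mul_assoc]
  apply mul_le_mul_of_nonneg_right _ (hg d hd)
  have h2 : (T.filter (fun P => P.natDegree = d)).card ≤ (irr p d).card := by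
    apply Finset.card_le_card
    intro P hP
    rw [Finset.mem_filter] at hP
    exact mem_irr.2 ⟨(hT P hP.1).1, hP.2, (hT P hP.1).2.1⟩
  have h3 := card_irr_div_le (p := p) d (hs d hd)
  have h4 : (((T.filter (fun P => P.natDegree = d)).card : ℕ) : ℝ) ≤ ((irr p d).card : ℝ) := by
    exact_mod_cast h2
  have hpr : (0 : ℝ) < p := by exact_mod_cast hp.out.pos
  calc ((T.filter (fun P => P.natDegree = d)).card : ℝ) * ((p : ℝ) ^ d)⁻¹
      ≤ ((irr p d).card : ℝ) * ((p : ℝ) ^ d)⁻¹ := by gcongr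
    _ = ((irr p d).card : ℝ) / (p : ℝ) ^ d := by rw [div_eq_mul_inv]
    _ ≤ _ := h3

/-! ### products of distinct irreducibles -/

lemma coprime_of_ne {P Q : (ZMod p)[X]} (hP : P.Monic) (hP' : Irreducible P) (hQ : Q.Monic)
    (hQ' : Irreducible Q) (h : P ≠ Q) : IsCoprime P Q := by
  rw [hP'.coprime_iff_not_dvd]
  intro hd
  exact h (Polynomial.eq_of_monic_of_associated hP hQ (hP'.associated_of_dvd hQ' hd))

lemma prod_dvd_iff (T : Finset (ZMod p)[X]) (hT : ∀ P ∈ T, P.Monic ∧ Irreducible P)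
    (f : (ZMod p)[X]) : (∏ P ∈ T, P) ∣ f ↔ ∀ P ∈ T, P ∣ f := by
  constructor
  · intro h P hP
    exact (Finset.dvd_prod_of_mem _ hP).trans h
  · intro h
    apply Finset.prod_dvd_of_coprime _ h
    intro P hP Q hQ hPQ
    exact coprime_of_ne (hT P hP).1 (hT P hP).2 (hT Q hQ).1 (hT Q hQ).2 hPQ

lemma dvd_prod_iff_mem (T : Finset (ZMod p)[X]) (hT : ∀ P ∈ T, P.Monic ∧ Irreducible P)
    {P : (ZMod p)[X]} (hP : P.Monic) (hP' : Irreducible P) : P ∣ ∏ Q ∈ T, Q ↔ P ∈ T := by
  constructor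
  · intro h
    obtain ⟨Q, hQ, hPQ⟩ := (hP'.prime.dvd_finsetProd_iff _).1 h
    have := Polynomial.eq_of_monic_of_associated hP (hT Q hQ).1
      (hP'.associated_of_dvd (hT Q hQ).2 hPQ)
    rwa [this]
  · intro h
    exact Finset.dvd_prod_of_mem _ h

open Classical in
/-- a monic divisor of a product of distinct irreducibles is a subproduct -/
lemma eq_subprod (T : Finset (ZMod p)[X]) (hT : ∀ P ∈ T, P.Monic ∧ Irreducible P)
    {m : (ZMod p)[X]} (hm : m.Monic) (hmT : m ∣ ∏ P ∈ T, P) :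
    m = ∏ P ∈ T.filter (fun P => P ∣ m), P := by
  have h1 : (∏ P ∈ T.filter (fun P => P ∣ m), P) ∣ m := by
    rw [prod_dvd_iff]
    · intro P hP
      exact (Finset.mem_filter.1 hP).2
    · intro P hP
      exact hT P (Finset.mem_filter.1 hP).1
  have h2 : m ∣ ∏ P ∈ T.filter (fun P => P ∣ m), P := by
    rw [← Finset.prod_filter_mul_prod_filter_not T (fun P => P ∣ m)] at hmT
    refine IsCoprime.dvd_of_dvd_mul_right ?_ hmT
    apply IsCoprime.prod_right
    intro P hP
    rw [Finset.mem_filter] at hP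
    exact (((hT P hP.1).2.coprime_iff_not_dvd).2 hP.2).symm
  exact Polynomial.eq_of_monic_of_associated hm
    (Polynomial.monic_prod_of_monic _ _ fun P hP => (hT P (Finset.mem_filter.1 hP).1).1)
    (associated_of_dvd_dvd h2 h1)

lemma card_deg_one_le (T : Finset (ZMod p)[X]) (hT : ∀ P ∈ T, P.Monic) :
    (T.filter fun P => P.natDegree = 1).card ≤ p := by
  have h : (T.filter fun P => P.natDegree = 1) ⊆ mon p 1 := by
    intro P hP
    rw [Finset.mem_filter] at hP
    exact mem_mon.2 ⟨hT P hP.1, hP.2⟩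
  have := Finset.card_le_card h
  rwa [card_mon, pow_one] at this

lemma two_card_le (T : Finset (ZMod p)[X]) (hT : ∀ P ∈ T, P.Monic ∧ Irreducible P) :
    2 * T.card ≤ (∏ P ∈ T, P).natDegree + p := by
  rw [Polynomial.natDegree_prod_of_monic _ _ fun P hP => (hT P hP).1]
  have h1 := card_deg_one_le T fun P hP => (hT P hP).1
  have h2 : 2 * T.card ≤ ∑ P ∈ T, (P.natDegree + if P.natDegree = 1 then 1 else 0) := by
    rw [mul_comm, ← smul_eq_mul, ← Finset.sum_const]
    apply Finset.sum_le_sum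
    intro P hP
    have := (hT P hP).2.natDegree_pos
    split_ifs with h
    · omega
    · omega
  rw [Finset.sum_add_distrib, ← Finset.card_filter] at h2
  omega

lemma prs_coeff {a b : ℕ} {P : (ZMod p)[X]} (hP : P ∈ prs p a b) : P.coeff 0 ≠ 0 := by
  rw [mem_prs] at hP
  obtain ⟨h1, -, -, h4, h5⟩ := hP
  intro h0
  rw [← Polynomial.X_dvd_iff] at h0
  apply h1
  exact (Polynomial.eq_of_monic_of_associated Polynomial.monic_X h4
    (Polynomial.irreducible_X.associated_of_dvd h5 h0)).symm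

open Classical in
/-- Weighted level of distribution for products of distinct irreducibles. -/
theorem level_weighted (μ : ZMod p → ℝ) (h1 : ∑ a, μ a = 1) (n K : ℕ)
    (PP : Finset (ZMod p)[X]) (hPP : ∀ P ∈ PP, P.Monic ∧ Irreducible P ∧ P.coeff 0 ≠ 0) :
    ∑ T ∈ PP.powerset, (if ∑ P ∈ T, P.natDegree ≤ K then
        2 ^ T.card * Err μ n (∏ P ∈ T, P) else 0) ≤
      ∑ j ∈ Finset.Icc 1 K, (Real.exp (2 * ∑ P ∈ PP, xw P) *
        (Real.sqrt 2 ^ p * (1 / Real.sqrt 2) ^ j)) * ∑ l ∈ SF p j, GW μ (n + 1) l := by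
  have hmi : ∀ T ⊆ PP, ∀ P ∈ T, P.Monic ∧ Irreducible P := fun T hT P hP =>
    ⟨(hPP P (hT hP)).1, (hPP P (hT hP)).2.1⟩
  have hpr : (0 : ℝ) < p := by exact_mod_cast hp.out.pos
  have hp2 : (2 : ℝ) ≤ p := by exact_mod_cast hp.out.two_le
  set s := Real.sqrt 2 with hs
  have hs0 : 0 < s := by positivity
  have hs2 : s * s = 2 := Real.mul_self_sqrt (by norm_num)
  have hs1 : 1 ≤ s := by
    apply Real.one_le_sqrt.2; norm_num
  set TT := PP.powerset.filter (fun T => ∑ P ∈ T, P.natDegree ≤ K) with hTT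
  set v : (ZMod p)[X] → ℝ := fun h => 2 ^ (PP.filter fun P => P ∣ h).card with hv
  have hvT : ∀ T ⊆ PP, v (∏ P ∈ T, P) = 2 ^ T.card := by
    intro T hT
    simp only [hv]
    congr 2
    ext P
    rw [Finset.mem_filter]
    constructor
    · rintro ⟨h2, h3⟩
      exact (dvd_prod_iff_mem T (hmi T hT) (hPP P h2).1 (hPP P h2).2.1).1 h3
    · intro h2
      exact ⟨hT h2, Finset.dvd_prod_of_mem _ h2⟩
  have hinj : Set.InjOn (fun T : Finset (ZMod p)[X] => ∏ P ∈ T, P) (TT : Set _) := by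
    intro T hT T' hT' heq
    simp only at heq
    rw [Finset.mem_coe, hTT, Finset.mem_filter, Finset.mem_powerset] at hT hT'
    ext P
    constructor
    · intro h2
      have h3 := hPP P (hT.1 h2)
      rw [← dvd_prod_iff_mem T' (hmi T' hT'.1) h3.1 h3.2.1, ← heq]
      exact Finset.dvd_prod_of_mem _ h2
    · intro h2
      have h3 := hPP P (hT'.1 h2)
      rw [← dvd_prod_iff_mem T (hmi T hT.1) h3.1 h3.2.1, heq]
      exact Finset.dvd_prod_of_mem _ h2
  set H := TT.image (fun T : Finset (ZMod p)[X] => ∏ P ∈ T, P) with hH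
  have hHmem : ∀ h ∈ H, ∃ T ⊆ PP, ∑ P ∈ T, P.natDegree ≤ K ∧ h = ∏ P ∈ T, P := by
    intro h hh
    rw [hH, Finset.mem_image] at hh
    obtain ⟨T, hT, rfl⟩ := hh
    rw [hTT, Finset.mem_filter, Finset.mem_powerset] at hT
    exact ⟨T, hT.1, hT.2, rfl⟩
  have hlevel := level_main μ h1 n K H
    (by
      intro h hh
      obtain ⟨T, hT, -, rfl⟩ := hHmem h hh
      exact Polynomial.monic_prod_of_monic _ _ fun P hP => (hmi T hT P hP).1)
    (by
      intro h hh
      obtain ⟨T, hT, hK, rfl⟩ := hHmem h hh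
      rw [Polynomial.natDegree_prod_of_monic _ _ fun P hP => (hmi T hT P hP).1]
      exact hK)
    (by
      intro h hh
      obtain ⟨T, hT, -, rfl⟩ := hHmem h hh
      rw [Polynomial.coeff_zero_prod]
      exact Finset.prod_ne_zero_iff.2 fun P hP => (hPP P (hT hP)).2.2)
    v (fun h _ => by positivity)
    (fun j => Real.exp (2 * ∑ P ∈ PP, xw P) * (s ^ p * (1 / s) ^ j))
    (fun j => by positivity)
    (by
      intro m hm hm1 hex
      obtain ⟨h, hh, hmh⟩ := hex
      obtain ⟨T0, hT0, -, rfl⟩ := hHmem h hh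
      set Tm := PP.filter (fun P => P ∣ m) with hTm
      have hTmPP : Tm ⊆ PP := Finset.filter_subset _ _
      have hmT : m = ∏ P ∈ Tm, P := by
        conv_lhs => rw [eq_subprod T0 (hmi T0 hT0) hm hmh]
        apply Finset.prod_congr _ (fun _ _ => rfl)
        ext P
        rw [Finset.mem_filter, hTm, Finset.mem_filter]
        constructor
        · rintro ⟨h2, h3⟩
          exact ⟨hT0 h2, h3⟩
        · rintro ⟨h2, h3⟩
          refine ⟨?_, h3⟩
          exact (dvd_prod_iff_mem T0 (hmi T0 hT0) (hPP P h2).1 (hPP P h2).2.1).1 (h3.trans hmh)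
      rw [hH, Finset.sum_image hinj]
      have h2 : ∀ T ∈ TT, (if m ∣ ∏ P ∈ T, P then v (∏ P ∈ T, P) *
          ((p : ℝ) ^ (∏ P ∈ T, P).natDegree)⁻¹ else 0) ≤
          (∏ P ∈ T, (2 * xw P)) * ∏ P ∈ PP \ T, (if P ∈ Tm then 0 else 1 : ℝ) := by
        intro T hT
        rw [hTT, Finset.mem_filter, Finset.mem_powerset] at hT
        split_ifs with h3
        · have h4 : Tm ⊆ T := by
            intro P hP
            rw [hTm, Finset.mem_filter] at hP
            exact (dvd_prod_iff_mem T (hmi T hT.1) (hPP P hP.1).1 (hPP P hP.1).2.1).1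
              (hP.2.trans h3)
          rw [hvT T hT.1, ← prod_xw T fun P hP => (hmi T hT.1 P hP).1, Finset.prod_mul_distrib,
            Finset.prod_const]
          have h5 : ∏ P ∈ PP \ T, (if P ∈ Tm then 0 else 1 : ℝ) = 1 := by
            apply Finset.prod_eq_one
            intro P hP
            rw [if_neg]
            intro h6
            exact (Finset.mem_sdiff.1 hP).2 (h4 h6)
          rw [h5, mul_one]
        · apply mul_nonneg
          · exact Finset.prod_nonneg fun P _ => mul_nonneg (by norm_num) (xw_nonneg P)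
          · apply Finset.prod_nonneg
            intro P _
            split_ifs <;> norm_num
      refine (Finset.sum_le_sum h2).trans ?_
      have h3 : ∑ T ∈ TT, (∏ P ∈ T, (2 * xw P)) * ∏ P ∈ PP \ T, (if P ∈ Tm then 0 else 1 : ℝ) ≤
          ∑ T ∈ PP.powerset, (∏ P ∈ T, (2 * xw P)) *
            ∏ P ∈ PP \ T, (if P ∈ Tm then 0 else 1 : ℝ) := by
        apply Finset.sum_le_sum_of_subset_of_nonneg (Finset.filter_subset _ _)
        intro T _ _
        apply mul_nonneg
        · exact Finset.prod_nonneg fun P _ => mul_nonneg (by norm_num) (xw_nonneg P)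
        · apply Finset.prod_nonneg
          intro P _
          split_ifs <;> norm_num
      refine h3.trans ?_
      rw [← Finset.prod_add, ← Finset.prod_filter_mul_prod_filter_not PP (fun P => P ∣ m), ← hTm]
      have h4 : ∏ P ∈ Tm, (2 * xw P + if P ∈ Tm then 0 else 1 : ℝ) = 2 ^ Tm.card *
          ((p : ℝ) ^ m.natDegree)⁻¹ := by
        conv_rhs => rw [hmT]
        rw [← prod_xw Tm fun P hP => (hmi Tm hTmPP P hP).1, ← Finset.prod_const,
          ← Finset.prod_mul_distrib]
        apply Finset.prod_congr rfl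
        intro P hP
        rw [if_pos hP, add_zero]
      have h5 : ∏ P ∈ PP.filter (fun P => ¬ P ∣ m), (2 * xw P + if P ∈ Tm then 0 else 1 : ℝ) ≤
          Real.exp (2 * ∑ P ∈ PP, xw P) := by
        rw [Finset.mul_sum, Real.exp_sum, ← Finset.prod_filter_mul_prod_filter_not PP
          (fun P => P ∣ m) (f := fun P => Real.exp (2 * xw P))]
        have h6 : (1 : ℝ) ≤ ∏ P ∈ PP.filter (fun P => P ∣ m), Real.exp (2 * xw P) := by
          rw [← Real.exp_sum]
          apply Real.one_le_exp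
          exact Finset.sum_nonneg fun P _ => mul_nonneg (by norm_num) (xw_nonneg P)
        have h7 : ∏ P ∈ PP.filter (fun P => ¬ P ∣ m), (2 * xw P + if P ∈ Tm then 0 else 1 : ℝ) ≤
            ∏ P ∈ PP.filter (fun P => ¬ P ∣ m), Real.exp (2 * xw P) := by
          apply Finset.prod_le_prod
          · intro P _
            have := xw_nonneg P
            split_ifs <;> linarith
          · intro P hP
            rw [Finset.mem_filter] at hP
            rw [if_neg]
            · exact Real.add_one_le_exp _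
            · intro h8
              exact hP.2 (Finset.mem_filter.1 h8).2
        have h8 : 0 ≤ ∏ P ∈ PP.filter (fun P => ¬ P ∣ m), Real.exp (2 * xw P) := by positivity
        nlinarith
      have h6 : (2 : ℝ) ^ Tm.card * ((p : ℝ) ^ m.natDegree)⁻¹ ≤ s ^ p * (1 / s) ^ m.natDegree := by
        have h7 := two_card_le Tm (hmi Tm hTmPP)
        rw [← hmT] at h7
        have h8 : (2 : ℝ) ^ Tm.card = s ^ (2 * Tm.card) := by
          rw [pow_mul, pow_two, hs2]
        have h9 : s ^ (2 * Tm.card) ≤ s ^ (m.natDegree + p) := pow_le_pow_right₀ hs1 h7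
        have h10 : ((p : ℝ) ^ m.natDegree)⁻¹ ≤ ((s * s) ^ m.natDegree)⁻¹ := by
          apply inv_anti₀ (by positivity)
          apply pow_le_pow_left₀ (by positivity)
          rw [hs2]; exact hp2
        calc (2 : ℝ) ^ Tm.card * ((p : ℝ) ^ m.natDegree)⁻¹
            ≤ s ^ (m.natDegree + p) * ((s * s) ^ m.natDegree)⁻¹ := by
              rw [h8]
              exact mul_le_mul h9 h10 (by positivity) (by positivity)
          _ = _ := by
              rw [mul_pow, pow_add, one_div, inv_pow, mul_inv]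
              field_simp
      have h7 : 0 ≤ ∏ P ∈ PP.filter (fun P => ¬ P ∣ m),
          (2 * xw P + if P ∈ Tm then 0 else 1 : ℝ) := by
        apply Finset.prod_nonneg
        intro P _
        have := xw_nonneg P
        split_ifs <;> linarith
      calc (∏ P ∈ Tm, (2 * xw P + if P ∈ Tm then 0 else 1 : ℝ)) *
            ∏ P ∈ PP.filter (fun P => ¬ P ∣ m), (2 * xw P + if P ∈ Tm then 0 else 1 : ℝ)
          ≤ (s ^ p * (1 / s) ^ m.natDegree) * Real.exp (2 * ∑ P ∈ PP, xw P) := by
            rw [h4]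
            exact mul_le_mul h6 h5 h7 (by positivity)
        _ = _ := by ring)
  refine le_trans (le_of_eq ?_) hlevel
  rw [hH, Finset.sum_image hinj, hTT, Finset.sum_filter]
  apply Finset.sum_congr rfl
  intro T hT
  rw [Finset.mem_powerset] at hT
  split_ifs
  · rw [hvT T hT]
  · rfl

end Pool.Agent.MP0a1886
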