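import Pool.Agent.MP0a1886.Decomp
import Pool.Agent.MP0a1886.Div
import Pool.Agent.MP0a1886.Largest3

/-! The tail of the inclusion-exclusion for MP_0a1886_pr (near-uniform laws). -/

set_option autoImplicit false
set_option linter.unusedSectionVars false
open Finset Polynomial

namespace Pool.Agent.MP0a1886

variable {p : ℕ} [hp : Fact p.Prime]

/-- a long interval of degrees is rarely missed -/
theorem gap_rare (μ : ZMod p → ℝ) (h0 : ∀ a, 0 ≤ μ a) (h1 : ∑ a, μ a = 1)
    (hlt : ∀ a, μ a < 1) : ∃ (C : ℝ) (J : ℕ), 0 < C ∧ 0 < J ∧ ∀ n a b : ℕ, 1 ≤ a → a ≤ b →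
      J * b ≤ n → Pr μ n (fun f => facs (prs p a b) f = ∅) ≤ C * ((a : ℝ) / b + 1 / n) := by
  classical
  obtain ⟨J0, hJ0, B, c1, hB, hc1, hlev, -⟩ := exists_params μ h0 h1 hlt
  have hJr : (0 : ℝ) < J0 := by exact_mod_cast hJ0
  refine ⟨2 * Real.exp 19 + Real.exp 2 * B, 24 * J0, by positivity, by positivity, ?_⟩
  intro n a b ha hab hbn
  have ha0 : (0 : ℝ) < a := by exact_mod_cast ha
  have ha1 : (1 : ℝ) ≤ a := by exact_mod_cast ha
  have hb1 : 1 ≤ b := ha.trans hab
  have hb0 : (0 : ℝ) < b := by exact_mod_cast hb1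
  have hJ1 : 1 ≤ J0 := hJ0
  have hb24 : 24 * b ≤ n := by
    calc 24 * b = 24 * 1 * b := by ring
      _ ≤ 24 * J0 * b := by gcongr
      _ ≤ n := hbn
  have hn1 : 1 ≤ n := by omega
  have hn0 : (0 : ℝ) < n := by exact_mod_cast hn1
  refine (gap_bound μ h0 h1 n a b ha hab).trans ?_
  have h2 := hlev n (12 * b) hn1 (by
    calc J0 * (2 * (12 * b)) = 24 * J0 * b := by ring
      _ ≤ n + 1 := by omega)
  have hbr : (b : ℝ) ≤ n := by
    have : b ≤ n := by omega
    exact_mod_cast this
  have h3 : Real.exp 2 * (b : ℝ) ^ 2 * ∑ j ∈ Finset.Icc 1 (12 * b),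
      (Real.sqrt 2 ^ p * (1 / Real.sqrt 2) ^ j) * ∑ l ∈ SF p j, GW μ (n + 1) l ≤
      Real.exp 2 * B * (1 / n) := by
    have h4 : Real.exp (-(c1 * Real.sqrt n)) ≤ 1 := by
      apply Real.exp_le_one_iff.2
      have : 0 ≤ c1 * Real.sqrt n := by positivity
      linarith
    calc _ ≤ Real.exp 2 * (n : ℝ) ^ 2 * (B * Real.exp (-(c1 * Real.sqrt n)) / n ^ 3) := by
          apply mul_le_mul _ h2 _ (by positivity)
          · gcongr
          · apply Finset.sum_nonneg
            intro j _
            apply mul_nonneg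
            · positivity
            · exact Finset.sum_nonneg fun l _ => GW_nonneg _ _ _
      _ ≤ Real.exp 2 * (n : ℝ) ^ 2 * (B * 1 / n ^ 3) := by gcongr
      _ = Real.exp 2 * B * (1 / n) := by field_simp
  have h5 : Real.exp 19 * (((a : ℝ) + 1) / (b + 1)) ≤ 2 * Real.exp 19 * (a / b) := by
    have h6 : ((a : ℝ) + 1) / (b + 1) ≤ 2 * (a / b) := by
      rw [mul_div_assoc', div_le_div_iff₀ (by positivity) hb0]
      nlinarith
    calc Real.exp 19 * (((a : ℝ) + 1) / (b + 1)) ≤ Real.exp 19 * (2 * (a / b)) := by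
          gcongr
      _ = _ := by ring
  have h7 : 0 ≤ Real.exp 2 * B * ((a : ℝ) / b) := by positivity
  have h8 : 0 ≤ 2 * Real.exp 19 * (1 / (n : ℝ)) := by positivity
  linarith

open UniqueFactorizationMonoid in
open Classical in
/-- the number of divisors that are products of large irreducible polynomials -/
lemma card_large_dvd {n m R : ℕ} (hR : n < (m + 1) * R) {f : (ZMod p)[X]} (hf : f.Monic)
    (hfn : f.natDegree ≤ n) (D : Finset (ZMod p)[X])
    (hD : ∀ g ∈ D, g.Monic ∧ g ∣ f ∧ Fac (fun d => m < d) g) : (D.card : ℝ) ≤ 2 ^ R := by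
  set s := (normalizedFactors f).filter (fun P => m < P.natDegree) with hs
  have hsR : Multiset.card s ≤ R := by
    have h1 : (m + 1) * Multiset.card s ≤ f.natDegree := by
      have h2 : f.natDegree = ((normalizedFactors f).map Polynomial.natDegree).sum := by
        conv_lhs => rw [Div.monic_eq_prod hf]
        rw [Polynomial.natDegree_multiset_prod]
        intro h0
        exact zero_notMem_normalizedFactors f h0
      have h3 : (s.map Polynomial.natDegree).sum ≤ f.natDegree := by
        obtain ⟨t, ht⟩ := Multiset.le_iff_exists_add.1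
          (Multiset.filter_le (fun P => m < P.natDegree) (normalizedFactors f))
        rw [h2, ht, Multiset.map_add, Multiset.sum_add]
        exact Nat.le_add_right _ _
      have h4 : (m + 1) * Multiset.card s ≤ (s.map Polynomial.natDegree).sum := by
        have h5 := Multiset.card_nsmul_le_sum (s := s.map Polynomial.natDegree) (a := m + 1) (by
          intro x hx
          rw [Multiset.mem_map] at hx
          obtain ⟨P, hP, rfl⟩ := hx
          exact (Multiset.mem_filter.1 hP).2)
        rw [Multiset.card_map, smul_eq_mul] at h5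
        rw [mul_comm]
        exact h5
      exact h4.trans h3
    by_contra hcon
    push Not at hcon
    have : (m + 1) * R ≤ (m + 1) * Multiset.card s := Nat.mul_le_mul_left _ hcon.le
    omega
  have h6 : D.card ≤ (s.powerset.toFinset).card := by
    apply Finset.card_le_card_of_injOn (fun g => normalizedFactors g)
    · intro g hg
      obtain ⟨hm, hd, hF⟩ := hD g hg
      rw [Finset.mem_coe, Multiset.mem_toFinset, Multiset.mem_powerset]
      have h7 := (dvd_iff_normalizedFactors_le_normalizedFactors hm.ne_zero hf.ne_zero).1 hd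
      rw [hs]
      have h8 : (normalizedFactors g).filter (fun P => m < P.natDegree) = normalizedFactors g := by
        rw [Multiset.filter_eq_self]
        intro P hP
        exact hF P (irreducible_of_normalized_factor P hP) (dvd_of_mem_normalizedFactors hP)
      beta_reduce
      rw [← h8]
      exact Multiset.filter_le_filter _ h7
    · intro g hg g' hg' hgg
      rw [Div.monic_eq_prod (hD g hg).1, Div.monic_eq_prod (hD g' hg').1]
      exact congrArg Multiset.prod hgg
  have h9 : (s.powerset.toFinset).card ≤ 2 ^ R := by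
    refine (Multiset.toFinset_card_le _).trans ?_
    rw [Multiset.card_powerset]
    exact Nat.pow_le_pow_right (by norm_num) hsR
  exact_mod_cast h6.trans h9

/-- the event that forces the tail: a large-smooth divisor of almost full degree -/
def TailE (m : ℕ) (δ : ℝ) (f : (ZMod p)[X]) : Prop :=
  f ≠ 0 ∧ ∃ g : (ZMod p)[X], g ∣ f ∧ Fac (fun d => m < d) g ∧
    (1 - δ) * (f.natDegree : ℝ) ≤ g.natDegree

lemma TailE_mul (m : ℕ) (δ : ℝ) (c : ZMod p) (hc : c ≠ 0) (f : (ZMod p)[X]) :
    TailE m δ (C c * f) ↔ TailE m δ f := by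
  have hu : IsUnit (C c : (ZMod p)[X]) := Polynomial.isUnit_C.2 (isUnit_iff_ne_zero.2 hc)
  unfold TailE
  rw [Polynomial.natDegree_C_mul hc]
  constructor
  · rintro ⟨h1, g, h2, h3⟩
    refine ⟨right_ne_zero_of_mul h1, g, ?_, h3⟩
    rwa [mul_comm, hu.dvd_mul_right] at h2
  · rintro ⟨h1, g, h2, h3⟩
    exact ⟨mul_ne_zero hu.ne_zero h1, g, h2.mul_left _, h3⟩

/-- the tail event has small probability -/
theorem tail_rare (μ : ZMod p → ℝ) (h0 : ∀ a, 0 ≤ μ a) (h1 : ∑ a, μ a = 1)
    (hlt : ∀ a, μ a < 1) (x : ℝ) (hx : 0 < x) : ∀ ε : ℝ, 0 < ε → ∃ δ : ℝ, 0 < δ ∧ δ < 1 ∧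
      ∃ N : ℕ, ∀ n m : ℕ, N ≤ n → x * n ≤ m → Pr μ n (TailE m δ) ≤ ε := by
  classical
  intro ε hε
  obtain ⟨C, J, hC, hJ, hgap⟩ := gap_rare μ h0 h1 hlt
  have hJr : (0 : ℝ) < J := by exact_mod_cast hJ
  -- `b = ⌊y n⌋` with `y = min x (1/J)`
  set y : ℝ := min x (1 / J) with hy
  have hy0 : 0 < y := lt_min hx (by positivity)
  have hyJ : y * J ≤ 1 := by
    calc y * J ≤ 1 / J * J := mul_le_mul_of_nonneg_right (min_le_right _ _) hJr.le
      _ = 1 := by field_simp
  have hyx : y ≤ x := min_le_left _ _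
  set δ : ℝ := min (1 / 2) (min (y / 4) (ε * y / (8 * C))) with hδ
  have hδ0 : 0 < δ := by
    rw [hδ]; positivity
  have hδ1 : δ ≤ 1 / 2 := min_le_left _ _
  have hδ2 : δ ≤ y / 4 := (min_le_right _ _).trans (min_le_left _ _)
  have hδ3 : δ ≤ ε * y / (8 * C) := (min_le_right _ _).trans (min_le_right _ _)
  obtain ⟨N, hN⟩ := exists_nat_gt (max (8 / y) (max (1 / δ) (8 * C / (ε * y) + 4 * C / ε)))
  refine ⟨δ, hδ0, by linarith, N, ?_⟩
  intro n m hn hm
  have hnr : max (8 / y) (max (1 / δ) (8 * C / (ε * y) + 4 * C / ε)) < n :=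
    hN.trans_le (by exact_mod_cast hn)
  have hn8 : 8 / y < n := (le_max_left _ _).trans_lt hnr
  have hnδ : 1 / δ < n := (le_max_left _ _).trans_lt ((le_max_right _ _).trans_lt hnr)
  have hnC : 8 * C / (ε * y) + 4 * C / ε < n :=
    (le_max_right _ _).trans_lt ((le_max_right _ _).trans_lt hnr)
  have hn0 : (0 : ℝ) < n := by
    have : 0 < 8 / y := by positivity
    linarith
  have hyn : 8 < y * n := by
    rw [div_lt_iff₀ hy0] at hn8
    linarith
  have hδn : 1 < δ * n := by
    rw [div_lt_iff₀ hδ0] at hnδ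
    linarith
  set b := ⌊y * n⌋₊ with hb
  set a := ⌈δ * n⌉₊ with ha
  have hbr : (b : ℝ) ≤ y * n := Nat.floor_le (by positivity)
  have hbr' : y * n - 1 < b := Nat.sub_one_lt_floor _
  have har : δ * n ≤ a := Nat.le_ceil _
  have har' : (a : ℝ) < δ * n + 1 := Nat.ceil_lt_add_one (by positivity)
  have ha1 : 1 ≤ a := by
    rw [Nat.one_le_iff_ne_zero]
    intro h2
    rw [h2] at har
    push_cast at har
    linarith
  have hb0 : (0 : ℝ) < b := by linarith
  have hab : a ≤ b := by
    have : (a : ℝ) ≤ b := by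
      have h2 : δ * n ≤ y / 4 * n := mul_le_mul_of_nonneg_right hδ2 hn0.le
      nlinarith
    exact_mod_cast this
  have hJb : J * b ≤ n := by
    have : (J : ℝ) * b ≤ n := by
      calc (J : ℝ) * b ≤ J * (y * n) := by gcongr
        _ = (y * J) * n := by ring
        _ ≤ 1 * n := by gcongr
        _ = n := one_mul _
    exact_mod_cast this
  have hbm : b ≤ m := by
    have : (b : ℝ) ≤ m := by
      calc (b : ℝ) ≤ y * n := hbr
        _ ≤ x * n := by gcongr
        _ ≤ m := hm
    exact_mod_cast this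
  have hincl : Pr μ n (TailE m δ) ≤ Pr μ n (fun f => facs (prs p a b) f = ∅) := by
    apply Pr_mono μ h0
    rintro v ⟨hf0, g, hgf, hgF, hgd⟩
    rw [Finset.eq_empty_iff_forall_notMem]
    intro Q hQ
    unfold facs at hQ
    rw [Finset.mem_filter, mem_prs] at hQ
    obtain ⟨⟨-, hQ2, hQ3, hQ4, hQ5⟩, hQf⟩ := hQ
    obtain ⟨u, hu⟩ := hgf
    have hQg : ¬ Q ∣ g := by
      intro h2
      have := hgF Q hQ5 h2
      simp only at this
      omega
    have hQu : Q ∣ u := by
      rw [hu] at hQf
      exact (hQ5.prime.dvd_or_dvd hQf).resolve_left hQg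
    have hg0 : g ≠ 0 := by
      rintro rfl
      rw [zero_mul] at hu
      exact hf0 hu
    have hu0 : u ≠ 0 := by
      rintro rfl
      rw [mul_zero] at hu
      exact hf0 hu
    have h2 := Polynomial.natDegree_le_of_dvd hQu hu0
    have h3 : (rpoly n v).natDegree = g.natDegree + u.natDegree := by
      rw [hu, Polynomial.natDegree_mul hg0 hu0]
    have h4 : (rpoly n v).natDegree ≤ n := by
      have h5 : (rpoly n v).degree < ((n + 1 : ℕ) : WithBot ℕ) := degree_lowPoly_lt (n + 1) v
      have := (Polynomial.natDegree_lt_iff_degree_lt hf0).2 h5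
      omega
    have h4' : ((rpoly n v).natDegree : ℝ) ≤ n := by exact_mod_cast h4
    have h3' : ((rpoly n v).natDegree : ℝ) = g.natDegree + u.natDegree := by exact_mod_cast h3
    have h6 : (u.natDegree : ℝ) ≤ a := by
      have : (u.natDegree : ℝ) ≤ δ * (rpoly n v).natDegree := by linarith
      calc (u.natDegree : ℝ) ≤ δ * (rpoly n v).natDegree := this
        _ ≤ δ * n := by gcongr
        _ ≤ a := har
    have h7 : u.natDegree ≤ a := by exact_mod_cast h6
    omega
  refine hincl.trans ((hgap n a b ha1 hab hJb).trans ?_)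
  have hbn : y * n / 2 ≤ b := by linarith
  have h2 : (a : ℝ) / b ≤ 2 * δ / y + 2 / (y * n) := by
    calc (a : ℝ) / b ≤ (δ * n + 1) / (y * n / 2) := by gcongr
      _ = 2 * δ / y + 2 / (y * n) := by field_simp
  have h3 : C * (2 * δ / y) ≤ ε / 4 := by
    calc C * (2 * δ / y) ≤ C * (2 * (ε * y / (8 * C)) / y) := by gcongr
      _ = ε / 4 := by field_simp; norm_num
  have h4 : C * (2 / (y * n)) ≤ ε / 4 := by
    have h5 : 8 * C / (ε * y) < n := by
      have : 0 < 4 * C / ε := by positivity
      linarith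
    rw [div_lt_iff₀ (by positivity)] at h5
    rw [mul_div_assoc', div_le_iff₀ (by positivity)]
    nlinarith
  have h6 : C * (1 / n) ≤ ε / 4 := by
    have h5 : 4 * C / ε < n := by
      have : 0 < 8 * C / (ε * y) := by positivity
      linarith
    rw [div_lt_iff₀ hε] at h5
    rw [mul_div_assoc', div_le_iff₀ hn0]
    nlinarith
  calc C * ((a : ℝ) / b + 1 / n) ≤ C * (2 * δ / y + 2 / (y * n) + 1 / n) := by gcongr
    _ = C * (2 * δ / y) + C * (2 / (y * n)) + C * (1 / n) := by ring
    _ ≤ ε := by linarith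

end Pool.Agent.MP0a1886
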