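import Pool.Agent.MP0a1886.ExpSum2

/-! The weighted sum over generic frequencies for MP_0a1886_pr. -/

set_option autoImplicit false
set_option linter.unusedSectionVars false
open Finset Polynomial

namespace Pool.Agent.MP0a1886

variable {p : ℕ} [hp : Fact p.Prime]

lemma coeff_monPoly_lt (n : ℕ) (v : Fin n → ZMod p) (i : Fin n) :
    (monPoly n v).coeff (i : ℕ) = v i := by
  unfold monPoly
  rw [Polynomial.coeff_add, Polynomial.coeff_X_pow, if_neg (by have := i.2; omega), zero_add,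
    coeff_lowPoly]
  simp

lemma fa_monPoly (n : ℕ) (α v : Fin n → ZMod p) : fa n α (monPoly n v) = ∑ i, α i * v i := by
  rw [fa_apply]
  apply Finset.sum_congr rfl
  intro i _
  rw [coeff_monPoly_lt]

lemma SH_vec {n : ℕ} {M : ℝ} (α : Fin n → ZMod p) {S : PA p} (h : Bd n M S) :
    SH n α S = ∑ v : Fin n → ZMod p, (S.coeff (monPoly n v) : ℂ) *
      ZMod.stdAddChar (-(∑ i, α i * v i)) := by
  rw [SH_eq α h, sum_mon_eq]
  apply Finset.sum_congr rfl
  intro v _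
  rw [fa_monPoly]

/-- Parseval's identity -/
lemma parseval {n : ℕ} {M : ℝ} {S : PA p} (h : Bd n M S) :
    ∑ α : Fin n → ZMod p, ‖SH n α S‖ ^ 2 = (p : ℝ) ^ n * ∑ f ∈ mon p n, (S.coeff f) ^ 2 := by
  classical
  have h1 : ((∑ α : Fin n → ZMod p, ‖SH n α S‖ ^ 2 : ℝ) : ℂ) =
      (((p : ℝ) ^ n * ∑ f ∈ mon p n, (S.coeff f) ^ 2 : ℝ) : ℂ) := by
    push_cast
    have h2 : ∀ α : Fin n → ZMod p, ((‖SH n α S‖ : ℂ)) ^ 2 = ∑ v : Fin n → ZMod p,
        ∑ v' : Fin n → ZMod p, (S.coeff (monPoly n v) : ℂ) * (S.coeff (monPoly n v') : ℂ) *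
          ZMod.stdAddChar (∑ i, α i * (v' i - v i)) := by
      intro α
      rw [← Complex.mul_conj', SH_vec α h, map_sum, Finset.sum_mul_sum]
      apply Finset.sum_congr rfl
      intro v _
      apply Finset.sum_congr rfl
      intro v' _
      rw [(starRingEnd ℂ).map_mul, Complex.conj_ofReal, ← AddChar.map_neg_eq_conj, neg_neg]
      have h3 : ∑ i, α i * (v' i - v i) = -(∑ i, α i * v i) + ∑ i, α i * v' i := by
        simp_rw [mul_sub, Finset.sum_sub_distrib]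
        ring
      rw [h3, AddChar.map_add_eq_mul]
      ring
    rw [Finset.sum_congr rfl (fun α _ => h2 α), Finset.sum_comm, sum_mon_eq, Finset.mul_sum]
    apply Finset.sum_congr rfl
    intro v _
    rw [Finset.sum_comm, Finset.sum_eq_single v]
    · rw [← Finset.mul_sum, sum_stdAddChar, if_pos (by funext t; simp)]
      ring
    · intro v' _ hv'
      rw [← Finset.mul_sum, sum_stdAddChar, if_neg, mul_zero]
      intro h4
      apply hv'
      funext t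
      exact sub_eq_zero.1 (congrFun h4 t)
    · simp
  exact_mod_cast h1

/-- interpolation between the sup norm and the square norm -/
lemma interp {w a κ T t : ℝ} (hw : 0 ≤ w) (ha0 : 0 ≤ a) (haκ : a ≤ κ) (hT : 0 < T) (ht1 : 1 ≤ t)
    (ht2 : t ≤ 2) : w * a ≤ w ^ t * T ^ (1 - t) * κ ^ (2 - t) + T * a ^ 2 := by
  have hκ : 0 ≤ κ := ha0.trans haκ
  rcases eq_or_lt_of_le ha0 with h0 | h0
  · rw [← h0]
    have : 0 ≤ w ^ t * T ^ (1 - t) * κ ^ (2 - t) := by positivity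
    simpa using this
  · by_cases h1 : w ≤ T * a
    · have h2 : w * a ≤ T * a ^ 2 := by
        calc w * a ≤ T * a * a := mul_le_mul_of_nonneg_right h1 ha0
          _ = T * a ^ 2 := by ring
      have : 0 ≤ w ^ t * T ^ (1 - t) * κ ^ (2 - t) := by positivity
      linarith
    · push Not at h1
      have hTa : 0 < T * a := by positivity
      have hw0 : 0 < w := hTa.trans h1
      have h2 : w = w ^ t * w ^ (1 - t) := by
        rw [← Real.rpow_add hw0]
        simp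
      have h3 : w ^ (1 - t) ≤ (T * a) ^ (1 - t) :=
        Real.rpow_le_rpow_of_nonpos hTa h1.le (by linarith)
      have h4 : (T * a) ^ (1 - t) * a = T ^ (1 - t) * a ^ (2 - t) := by
        rw [Real.mul_rpow hT.le ha0, mul_assoc]
        congr 1
        nth_rewrite 2 [← Real.rpow_one a]
        rw [← Real.rpow_add h0]
        congr 1
        ring
      have h5 : a ^ (2 - t) ≤ κ ^ (2 - t) := Real.rpow_le_rpow ha0 haκ (by linarith)
      calc w * a = w ^ t * w ^ (1 - t) * a := by rw [← h2]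
        _ ≤ w ^ t * (T * a) ^ (1 - t) * a := by gcongr
        _ = w ^ t * ((T * a) ^ (1 - t) * a) := by ring
        _ = w ^ t * (T ^ (1 - t) * a ^ (2 - t)) := by rw [h4]
        _ ≤ w ^ t * (T ^ (1 - t) * κ ^ (2 - t)) := by gcongr
        _ ≤ w ^ t * T ^ (1 - t) * κ ^ (2 - t) + T * a ^ 2 := by
            have : 0 ≤ T * a ^ 2 := by positivity
            linarith

lemma interp_sum {ι : Type*} (s : Finset ι) (W a : ι → ℝ) {κ T t : ℝ} (hW : ∀ i ∈ s, 0 ≤ W i)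
    (ha0 : ∀ i ∈ s, 0 ≤ a i) (haκ : ∀ i ∈ s, a i ≤ κ) (hT : 0 < T) (ht1 : 1 ≤ t) (ht2 : t ≤ 2)
    (h2 : ∑ i ∈ s, a i ^ 2 ≤ 1) :
    ∑ i ∈ s, W i * a i ≤ T ^ (1 - t) * κ ^ (2 - t) * ∑ i ∈ s, W i ^ t + T := by
  calc ∑ i ∈ s, W i * a i ≤ ∑ i ∈ s, (W i ^ t * T ^ (1 - t) * κ ^ (2 - t) + T * a i ^ 2) :=
        Finset.sum_le_sum fun i hi => interp (hW i hi) (ha0 i hi) (haκ i hi) hT ht1 ht2
    _ = T ^ (1 - t) * κ ^ (2 - t) * ∑ i ∈ s, W i ^ t + T * ∑ i ∈ s, a i ^ 2 := by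
        rw [Finset.sum_add_distrib, Finset.mul_sum, Finset.mul_sum]
        congr 1
        apply Finset.sum_congr rfl
        intro i _
        ring
    _ ≤ T ^ (1 - t) * κ ^ (2 - t) * ∑ i ∈ s, W i ^ t + T := by
        have : T * ∑ i ∈ s, a i ^ 2 ≤ T * 1 := mul_le_mul_of_nonneg_left h2 hT.le
        linarith

open Classical in
/-- the weighted sum over the frequencies that are not bad at level `ρ` -/
noncomputable def EGen (w : ZMod p → ℝ) (n ρ : ℕ) (S : PA p) : ℝ :=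
  ((p : ℝ) ^ n)⁻¹ * ∑ α ∈ Finset.univ.filter (fun α : Fin n → ZMod p => α ∉ bad p n ρ),
    (∏ i, w (α i)) * ‖SH n α S‖

lemma bad_mono {n r s : ℕ} (h : r ≤ s) : bad p n r ⊆ bad p n s := by
  classical
  intro α hα
  unfold bad at hα ⊢
  rw [Finset.mem_filter] at hα ⊢
  obtain ⟨h1, d, hd, hd0⟩ := hα
  exact ⟨h1, d, KK_mono _ h hd, hd0⟩

lemma prod_rpow_le_sum (w : ZMod p → ℝ) (h0 : ∀ a, 0 ≤ w a) (t : ℝ) (n : ℕ)
    (α : Fin n → ZMod p) : (∏ i, w (α i)) ^ t = ∏ i, (w (α i)) ^ t :=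
  (Real.finsetProd_rpow _ _ (fun _ _ => h0 _) t).symm

/-- The main estimate: the generic frequencies contribute an exponentially small amount. -/
theorem semi (w : ZMod p → ℝ) (h0 : ∀ a, 0 ≤ w a) (h1 : ∀ a, w a ≤ 1) (hw0 : w 0 = 1) (t : ℝ)
    (ht1 : 1 ≤ t) (ht2 : t < 2) (hL : (∑ c, w c ^ t) ^ 6 < (p : ℝ) ^ (2 - t)) :
    ∃ C θ : ℝ, 0 < C ∧ 0 < θ ∧ θ < 1 ∧ ∀ (n ρ : ℕ) (M : ℝ) (S : PA p), ρ ≤ n / 3 →
      TB n (n / 3) M S → EGen w n ρ S ≤ C * M * ((n : ℝ) + 2) ^ 2 * θ ^ ρ := by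
  classical
  have hp0 : (0 : ℝ) < p := by exact_mod_cast hp.out.pos
  have hp1 : (1 : ℝ) ≤ p := by exact_mod_cast hp.out.one_lt.le
  have hq0 := sqrt_p_pos (p := p)
  have hq1 := one_le_sqrt_p (p := p)
  obtain ⟨q, hq⟩ : ∃ q, q = Real.sqrt (p : ℝ) := ⟨_, rfl⟩
  rw [← hq] at hq0 hq1
  have hqq : q ^ 2 = p := by rw [hq]; exact Real.sq_sqrt hp0.le
  obtain ⟨lam, hlam⟩ : ∃ lam, lam = ∑ c, w c ^ t := ⟨_, rfl⟩
  rw [← hlam] at hL
  have hlam1 : 1 ≤ lam := by
    rw [hlam]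
    have : (1 : ℝ) = w 0 ^ t := by rw [hw0, Real.one_rpow]
    rw [this]
    exact Finset.single_le_sum (f := fun c => w c ^ t)
      (fun c _ => Real.rpow_nonneg (h0 c) t) (Finset.mem_univ 0)
  have hlam0 : 0 < lam := by linarith
  obtain ⟨Q, hQ⟩ : ∃ Q, Q = q ^ (2 - t) := ⟨_, rfl⟩
  have hQ0 : 0 < Q := by rw [hQ]; positivity
  have hQQ : Q ^ 2 = (p : ℝ) ^ (2 - t) := by
    rw [hQ, ← Real.rpow_natCast, ← Real.rpow_mul hq0.le, mul_comm, Real.rpow_mul hq0.le,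
      Real.rpow_natCast, hqq]
  have hQp : Q ≤ p := by
    rw [hQ, ← hqq, ← Real.rpow_natCast]
    apply Real.rpow_le_rpow_of_exponent_le hq1
    push_cast
    linarith
  have hlQ : lam ^ 3 < Q := by
    apply lt_of_pow_lt_pow_left₀ 2 hQ0.le
    rw [hQQ, ← pow_mul]
    exact hL
  obtain ⟨θ, hθ⟩ : ∃ θ, θ = Real.sqrt (lam ^ 3 / Q) := ⟨_, rfl⟩
  have hg0 : 0 < lam ^ 3 / Q := by positivity
  have hg1 : lam ^ 3 / Q < 1 := by rw [div_lt_one hQ0]; exact hlQ
  have hθ0 : 0 < θ := by rw [hθ]; exact Real.sqrt_pos.2 hg0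
  have hθ1 : θ < 1 := by
    rw [hθ, Real.sqrt_lt' one_pos]
    simpa using hg1
  have hθθ : θ ^ 2 = lam ^ 3 / Q := by rw [hθ]; exact Real.sq_sqrt hg0.le
  have hlamQ : lam ^ 3 = θ ^ 2 * Q := by rw [hθθ]; field_simp
  refine ⟨p + lam ^ 2 + 2, θ, by positivity, hθ0, hθ1, ?_⟩
  intro n ρ M S hρ hS
  have hM := hS.nonneg
  obtain ⟨h, hh⟩ : ∃ h, h = n / 3 := ⟨_, rfl⟩
  rw [← hh] at hρ hS
  rcases eq_or_lt_of_le hM with hM0 | hM0
  · -- `M = 0`
    have hz : EGen w n ρ S = 0 := by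
      unfold EGen
      rw [Finset.sum_eq_zero, mul_zero]
      intro α hα
      have h2 := hS.2 ρ hρ α (Finset.mem_filter.1 hα).2
      rw [← hM0] at h2
      simp only [zero_mul, zero_div] at h2
      have h3 : ‖SH n α S‖ = 0 := le_antisymm h2 (norm_nonneg _)
      rw [h3, mul_zero]
    rw [hz, ← hM0]
    simp
  -- normalisation
  set a : (Fin n → ZMod p) → ℝ := fun α => ‖SH n α S‖ / (M * (p : ℝ) ^ n) with ha
  set W : (Fin n → ZMod p) → ℝ := fun α => ∏ i, w (α i) with hW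
  have hW0 : ∀ α, 0 ≤ W α := fun α => Finset.prod_nonneg fun _ _ => h0 _
  have ha0 : ∀ α, 0 ≤ a α := fun α => by rw [ha]; positivity
  have hasum : ∑ α, a α ^ 2 ≤ 1 := by
    have h2 : ∑ α, a α ^ 2 = (∑ α, ‖SH n α S‖ ^ 2) / (M * (p : ℝ) ^ n) ^ 2 := by
      rw [Finset.sum_div]
      apply Finset.sum_congr rfl
      intro α _
      rw [ha, div_pow]
    rw [h2, parseval hS.1, div_le_one (by positivity)]
    have h3 : ∀ f ∈ mon p n, (S.coeff f) ^ 2 ≤ M ^ 2 := by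
      intro f _
      rw [← sq_abs]
      exact pow_le_pow_left₀ (abs_nonneg _) (hS.1.2 f) 2
    have h4 := Finset.sum_le_card_nsmul _ _ _ h3
    rw [card_mon, nsmul_eq_mul] at h4
    push_cast at h4
    calc (p : ℝ) ^ n * ∑ f ∈ mon p n, (S.coeff f) ^ 2 ≤ (p : ℝ) ^ n * ((p : ℝ) ^ n * M ^ 2) :=
          mul_le_mul_of_nonneg_left h4 (by positivity)
      _ = (M * (p : ℝ) ^ n) ^ 2 := by ring
  have hasum' : ∀ s : Finset (Fin n → ZMod p), ∑ α ∈ s, a α ^ 2 ≤ 1 := fun s =>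
    (Finset.sum_le_sum_of_subset_of_nonneg (Finset.subset_univ s)
      (fun _ _ _ => by positivity)).trans hasum
  have hak : ∀ r ≤ h, ∀ α ∉ bad p n r, a α ≤ (q ^ r)⁻¹ := by
    intro r hr α hα
    rw [ha]
    have h2 := hS.2 r hr α hα
    rw [← hq] at h2
    rw [div_le_iff₀ (by positivity)]
    calc ‖SH n α S‖ ≤ M * (p : ℝ) ^ n / q ^ r := h2
      _ = (q ^ r)⁻¹ * (M * (p : ℝ) ^ n) := by ring
  -- the function summed over the complement of `bad r`
  set g : ℕ → ℝ := fun r => ∑ α ∈ Finset.univ.filter (fun α => α ∉ bad p n r), W α * a α with hg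
  have hEGen : EGen w n ρ S = M * g ρ := by
    unfold EGen
    rw [hg]
    simp only
    rw [Finset.mul_sum, Finset.mul_sum]
    apply Finset.sum_congr rfl
    intro α _
    rw [ha, hW]
    field_simp
  have hκpow : ∀ r : ℕ, ((q ^ r)⁻¹) ^ (2 - t) = (Q ^ r)⁻¹ := by
    intro r
    rw [Real.inv_rpow (by positivity), hQ, ← Real.rpow_natCast, ← Real.rpow_natCast,
      ← Real.rpow_mul hq0.le, ← Real.rpow_mul hq0.le, mul_comm]
  have hTpow : ∀ r : ℕ, (θ ^ r) ^ (1 - t) ≤ (θ ^ r)⁻¹ := by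
    intro r
    rw [← Real.rpow_neg_one]
    apply Real.rpow_le_rpow_of_exponent_ge (by positivity) (pow_le_one₀ hθ0.le hθ1.le)
    linarith
  -- the generic part
  have hgen : g h ≤ (lam ^ 2 + 1) * θ ^ ρ := by
    have h2 := interp_sum (Finset.univ.filter (fun α => α ∉ bad p n h)) W a (κ := (q ^ h)⁻¹)
      (T := θ ^ h) (t := t) (fun α _ => hW0 α) (fun α _ => ha0 α)
      (fun α hα => hak h le_rfl α (Finset.mem_filter.1 hα).2) (by positivity) ht1 ht2.le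
      (hasum' _)
    rw [hκpow] at h2
    have h3 : ∑ α ∈ Finset.univ.filter (fun α => α ∉ bad p n h), W α ^ t ≤ lam ^ n := by
      refine (Finset.sum_le_sum_of_subset_of_nonneg (Finset.filter_subset _ _)
        (fun α _ _ => Real.rpow_nonneg (hW0 α) t)).trans (le_of_eq ?_)
      have h4 : ∀ α : Fin n → ZMod p, W α ^ t = ∏ i, (w (α i)) ^ t := fun α =>
        prod_rpow_le_sum w h0 t n α
      rw [Finset.sum_congr rfl (fun α _ => h4 α)]
      rw [sum_prod_pi (fun (_ : Fin n) c => w c ^ t), Finset.prod_const, Finset.card_univ,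
        Fintype.card_fin, ← hlam]
    have h5 : lam ^ n ≤ lam ^ 2 * lam ^ (3 * h) := by
      rw [← pow_add]
      exact pow_le_pow_right₀ hlam1 (by omega)
    have h6 : (Q ^ h)⁻¹ * lam ^ (3 * h) = (θ ^ h) ^ 2 := by
      rw [pow_mul, hlamQ, mul_pow, ← pow_mul, ← pow_mul, mul_comm 2 h]
      field_simp
    have hθh : θ ^ h ≤ θ ^ ρ := pow_le_pow_of_le_one hθ0.le hθ1.le hρ
    calc g h ≤ (θ ^ h) ^ (1 - t) * (Q ^ h)⁻¹ *
          ∑ α ∈ Finset.univ.filter (fun α => α ∉ bad p n h), W α ^ t + θ ^ h := h2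
      _ ≤ (θ ^ h)⁻¹ * (Q ^ h)⁻¹ * (lam ^ 2 * lam ^ (3 * h)) + θ ^ h := by
          have hs0 : 0 ≤ ∑ α ∈ Finset.univ.filter (fun α => α ∉ bad p n h), W α ^ t :=
            Finset.sum_nonneg fun α _ => Real.rpow_nonneg (hW0 α) t
          have e1 : (θ ^ h) ^ (1 - t) * (Q ^ h)⁻¹ ≤ (θ ^ h)⁻¹ * (Q ^ h)⁻¹ :=
            mul_le_mul_of_nonneg_right (hTpow h) (by positivity)
          have e2 := mul_le_mul e1 (h3.trans h5) hs0 (by positivity)
          linarith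
      _ = (θ ^ h)⁻¹ * lam ^ 2 * ((Q ^ h)⁻¹ * lam ^ (3 * h)) + θ ^ h := by ring
      _ = (lam ^ 2 + 1) * θ ^ h := by
          rw [h6]
          field_simp
      _ ≤ (lam ^ 2 + 1) * θ ^ ρ := by gcongr
  -- one layer
  have hlayer : ∀ r, ρ ≤ r → r < h → g r ≤ g (r + 1) + ((p + 1) * ((n : ℝ) + 2)) * θ ^ ρ := by
    intro r hρr hrh
    have h2 : g r = g (r + 1) + ∑ α ∈ (bad p n (r + 1)).filter (fun α => α ∉ bad p n r),
        W α * a α := by
      rw [hg]
      simp only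
      rw [← Finset.sum_union]
      · apply Finset.sum_congr _ (fun _ _ => rfl)
        ext α
        simp only [Finset.mem_filter, Finset.mem_univ, true_and, Finset.mem_union]
        constructor
        · intro h3
          by_cases h4 : α ∈ bad p n (r + 1)
          · exact Or.inr ⟨h4, h3⟩
          · exact Or.inl h4
        · rintro (h3 | h3)
          · intro h4
            exact h3 (bad_mono (by omega) h4)
          · exact h3.2
      · rw [Finset.disjoint_left]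
        intro α h3 h4
        exact (Finset.mem_filter.1 h3).2 (Finset.mem_filter.1 h4).1
    rw [h2]
    apply add_le_add le_rfl
    have h3 := interp_sum ((bad p n (r + 1)).filter (fun α => α ∉ bad p n r)) W a
      (κ := (q ^ r)⁻¹) (T := θ ^ (r + 1)) (t := t) (fun α _ => hW0 α) (fun α _ => ha0 α)
      (fun α hα => hak r hrh.le α (Finset.mem_filter.1 hα).2) (by positivity) ht1 ht2.le
      (hasum' _)
    rw [hκpow] at h3
    have h4 : ∑ α ∈ (bad p n (r + 1)).filter (fun α => α ∉ bad p n r), W α ^ t ≤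
        ((r : ℝ) + 2) * lam ^ (2 * (r + 1)) := by
      refine (Finset.sum_le_sum_of_subset_of_nonneg (Finset.filter_subset _ _)
        (fun α _ _ => Real.rpow_nonneg (hW0 α) t)).trans ?_
      have h5 : ∀ α : Fin n → ZMod p, W α ^ t = ∏ i, (w (α i)) ^ t := fun α =>
        prod_rpow_le_sum w h0 t n α
      rw [Finset.sum_congr rfl (fun α _ => h5 α)]
      have h6 := sum_bad (fun c => w c ^ t) (fun c => Real.rpow_nonneg (h0 c) t)
        (fun c => Real.rpow_le_one (h0 c) (h1 c) (by linarith)) n (r + 1) (by omega)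
      rw [← hlam] at h6
      refine h6.trans (le_of_eq ?_)
      push_cast
      ring
    have h5 : (Q ^ (r + 1))⁻¹ * lam ^ (3 * (r + 1)) = (θ ^ (r + 1)) ^ 2 := by
      rw [pow_mul, hlamQ, mul_pow, ← pow_mul, ← pow_mul, mul_comm 2 (r + 1)]
      field_simp
    have h6 : (Q ^ r)⁻¹ * lam ^ (2 * (r + 1)) ≤ Q * (θ ^ (r + 1)) ^ 2 := by
      rw [← h5]
      have h7 : (Q ^ r)⁻¹ = Q * (Q ^ (r + 1))⁻¹ := by
        rw [pow_succ]; field_simp
      rw [h7, mul_assoc]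
      apply mul_le_mul_of_nonneg_left _ hQ0.le
      apply mul_le_mul_of_nonneg_left _ (by positivity)
      exact pow_le_pow_right₀ hlam1 (by omega)
    have hrn : (r : ℝ) + 2 ≤ n + 2 := by
      have : r ≤ n := by omega
      have : (r : ℝ) ≤ n := by exact_mod_cast this
      linarith
    have hθr : θ ^ (r + 1) ≤ θ ^ ρ := pow_le_pow_of_le_one hθ0.le hθ1.le (by omega)
    calc ∑ α ∈ (bad p n (r + 1)).filter (fun α => α ∉ bad p n r), W α * a α
        ≤ (θ ^ (r + 1)) ^ (1 - t) * (Q ^ r)⁻¹ *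
          ∑ α ∈ (bad p n (r + 1)).filter (fun α => α ∉ bad p n r), W α ^ t + θ ^ (r + 1) := h3
      _ ≤ (θ ^ (r + 1))⁻¹ * (Q ^ r)⁻¹ * (((r : ℝ) + 2) * lam ^ (2 * (r + 1))) + θ ^ (r + 1) := by
          have hs0 : 0 ≤ ∑ α ∈ (bad p n (r + 1)).filter (fun α => α ∉ bad p n r), W α ^ t :=
            Finset.sum_nonneg fun α _ => Real.rpow_nonneg (hW0 α) t
          have e1 : (θ ^ (r + 1)) ^ (1 - t) * (Q ^ r)⁻¹ ≤ (θ ^ (r + 1))⁻¹ * (Q ^ r)⁻¹ :=
            mul_le_mul_of_nonneg_right (hTpow (r + 1)) (by positivity)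
          have e2 := mul_le_mul e1 h4 hs0 (by positivity)
          linarith
      _ = (θ ^ (r + 1))⁻¹ * ((r : ℝ) + 2) * ((Q ^ r)⁻¹ * lam ^ (2 * (r + 1))) + θ ^ (r + 1) := by
          ring
      _ ≤ (θ ^ (r + 1))⁻¹ * ((r : ℝ) + 2) * (Q * (θ ^ (r + 1)) ^ 2) + θ ^ (r + 1) := by
          gcongr
      _ = (((r : ℝ) + 2) * Q + 1) * θ ^ (r + 1) := by
          field_simp
      _ ≤ ((p + 1) * ((n : ℝ) + 2)) * θ ^ ρ := by
          apply mul_le_mul _ hθr (by positivity) (by positivity)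
          have h8 : ((r : ℝ) + 2) * Q ≤ ((n : ℝ) + 2) * p := by gcongr
          have h9 : (0 : ℝ) ≤ n := by positivity
          nlinarith
  have hind : ∀ j, j ≤ h - ρ → g (h - j) ≤ (lam ^ 2 + 1) * θ ^ ρ +
      j * (((p + 1) * ((n : ℝ) + 2)) * θ ^ ρ) := by
    intro j
    induction j with
    | zero => intro _; simpa using hgen
    | succ j ih =>
      intro hj
      have h2 := hlayer (h - (j + 1)) (by omega) (by omega)
      rw [show h - (j + 1) + 1 = h - j by omega] at h2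
      refine h2.trans ?_
      have h3 := ih (by omega)
      push_cast
      linarith
  have hfin := hind (h - ρ) le_rfl
  rw [show h - (h - ρ) = ρ by omega] at hfin
  rw [hEGen]
  have hn0 : (0 : ℝ) ≤ n := by positivity
  have h2 : ((h - ρ : ℕ) : ℝ) ≤ n := by
    have : h - ρ ≤ n := by omega
    exact_mod_cast this
  have h3 : g ρ ≤ (p + lam ^ 2 + 2) * ((n : ℝ) + 2) ^ 2 * θ ^ ρ := by
    refine hfin.trans ?_
    have h4 : (lam ^ 2 + 1) * θ ^ ρ + ((h - ρ : ℕ) : ℝ) * (((p + 1) * ((n : ℝ) + 2)) * θ ^ ρ)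
        ≤ (lam ^ 2 + 1) * θ ^ ρ + (n : ℝ) * (((p + 1) * ((n : ℝ) + 2)) * θ ^ ρ) := by
      gcongr
    refine h4.trans ?_
    have h5 : (lam ^ 2 + 1) * θ ^ ρ + (n : ℝ) * (((p + 1) * ((n : ℝ) + 2)) * θ ^ ρ)
        = ((lam ^ 2 + 1) + (n : ℝ) * ((p + 1) * ((n : ℝ) + 2))) * θ ^ ρ := by ring
    rw [h5]
    apply mul_le_mul_of_nonneg_right _ (by positivity)
    have h6 : 0 ≤ lam ^ 2 := by positivity
    have h7 : (1 : ℝ) ≤ ((n : ℝ) + 2) ^ 2 := by nlinarith
    have h8 : (n : ℝ) * ((n : ℝ) + 2) ≤ ((n : ℝ) + 2) ^ 2 := by nlinarith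
    have h9 : (lam ^ 2 + 1) * 1 ≤ (lam ^ 2 + 1) * ((n : ℝ) + 2) ^ 2 :=
      mul_le_mul_of_nonneg_left h7 (by positivity)
    have h10 : ((p : ℝ) + 1) * ((n : ℝ) * ((n : ℝ) + 2)) ≤ ((p : ℝ) + 1) * ((n : ℝ) + 2) ^ 2 :=
      mul_le_mul_of_nonneg_left h8 (by positivity)
    linarith
  calc M * g ρ ≤ M * ((p + lam ^ 2 + 2) * ((n : ℝ) + 2) ^ 2 * θ ^ ρ) :=
        mul_le_mul_of_nonneg_left h3 hM
    _ = (p + lam ^ 2 + 2) * M * ((n : ℝ) + 2) ^ 2 * θ ^ ρ := by ring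

end Pool.Agent.MP0a1886
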