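import Pool.Agent.MP0a1886.Cor

/-! Laws of small variation for MP_0a1886_pr. -/

set_option autoImplicit false
set_option linter.unusedSectionVars false
open Finset Polynomial

namespace Pool.Agent.MP0a1886

variable {p : ℕ} [hp : Fact p.Prime]

/-- `2 x (1 - x) ≤ sin (π x)` on the unit interval -/
lemma sin_pi_ge {x : ℝ} (h0 : 0 ≤ x) (h1 : x ≤ 1) : 2 * (x * (1 - x)) ≤ Real.sin (Real.pi * x) := by
  have hpi := Real.pi_pos
  rcases le_total x (1 / 2) with h | h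
  · have h2 := Real.mul_le_sin (x := Real.pi * x) (by positivity) (by nlinarith)
    have h3 : 2 / Real.pi * (Real.pi * x) = 2 * x := by field_simp
    rw [h3] at h2
    nlinarith
  · have h2 := Real.mul_le_sin (x := Real.pi * (1 - x)) (by nlinarith) (by nlinarith)
    have h3 : 2 / Real.pi * (Real.pi * (1 - x)) = 2 * (1 - x) := by field_simp
    have h4 : Real.sin (Real.pi * (1 - x)) = Real.sin (Real.pi * x) := by
      rw [mul_sub, mul_one, Real.sin_pi_sub]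
    rw [h3, h4] at h2
    nlinarith

lemma norm_one_sub_char (c : ZMod p) :
    4 * (((c.val : ℝ) / p) * (1 - (c.val : ℝ) / p)) ≤ ‖1 - ZMod.stdAddChar c‖ := by
  have hp0 : (0 : ℝ) < p := by exact_mod_cast hp.out.pos
  have h1 : ZMod.stdAddChar c = Complex.exp (Complex.I * ((2 * Real.pi * ((c.val : ℝ) / p) : ℝ) : ℂ)) := by
    have h2 : c = (((c.val : ℕ) : ℤ) : ZMod p) := by
      rw [Int.cast_natCast, ZMod.natCast_zmod_val]
    conv_lhs => rw [h2]
    rw [ZMod.stdAddChar_coe]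
    congr 1
    push_cast
    ring
  rw [h1, norm_sub_rev, Complex.norm_exp_I_mul_ofReal_sub_one, Real.norm_eq_abs]
  have h3 : (2 * Real.pi * ((c.val : ℝ) / p)) / 2 = Real.pi * ((c.val : ℝ) / p) := by ring
  rw [h3]
  have h4 : (c.val : ℝ) / p ≤ 1 := by
    rw [div_le_one hp0]
    exact_mod_cast (ZMod.val_lt c).le
  have h5 := sin_pi_ge (x := (c.val : ℝ) / p) (by positivity) h4
  refine le_trans ?_ (le_abs_self _)
  linarith

lemma inv_norm_le (c : ZMod p) (hc : c ≠ 0) :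
    ‖1 - ZMod.stdAddChar c‖⁻¹ ≤ (p : ℝ) / 4 * ((c.val : ℝ)⁻¹ + ((-c).val : ℝ)⁻¹) := by
  have hp0 : (0 : ℝ) < p := by exact_mod_cast hp.out.pos
  have hv : 0 < c.val := by
    rw [Nat.pos_iff_ne_zero]
    intro h
    exact hc ((ZMod.val_eq_zero c).1 h)
  have hv' : (0 : ℝ) < c.val := by exact_mod_cast hv
  have hlt : (c.val : ℝ) < p := by exact_mod_cast ZMod.val_lt c
  have hneg : ((-c).val : ℝ) = p - c.val := by
    have : NeZero c := ⟨hc⟩
    rw [ZMod.val_neg_of_ne_zero, Nat.cast_sub (ZMod.val_lt c).le]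
  have hd : (0 : ℝ) < p - c.val := by linarith
  have h1 := norm_one_sub_char c
  have h2 : 0 < 4 * (((c.val : ℝ) / p) * (1 - (c.val : ℝ) / p)) := by
    have : 0 < 1 - (c.val : ℝ) / p := by
      rw [sub_pos, div_lt_one hp0]; exact hlt
    positivity
  refine (inv_anti₀ h2 h1).trans (le_of_eq ?_)
  rw [hneg]
  field_simp
  ring

lemma sum_inv_val_le : ∑ c ∈ (Finset.univ : Finset (ZMod p)).erase 0, ((c.val : ℝ))⁻¹ ≤
    1 + Real.log p := by
  classical
  have hp0 : (0 : ℝ) < p := by exact_mod_cast hp.out.pos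
  have h1 : ∑ c ∈ (Finset.univ : Finset (ZMod p)).erase 0, ((c.val : ℝ))⁻¹ =
      ∑ i ∈ Finset.range (p - 1), (((i + 1 : ℕ) : ℝ))⁻¹ := by
    symm
    refine Finset.sum_bij (fun i _ => ((i + 1 : ℕ) : ZMod p)) ?_ ?_ ?_ ?_
    · intro i hi
      rw [Finset.mem_range] at hi
      refine Finset.mem_erase.2 ⟨?_, Finset.mem_univ _⟩
      intro h
      rw [ZMod.natCast_eq_zero_iff] at h
      have := Nat.le_of_dvd (by omega) h
      omega
    · intro i hi j hj h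
      rw [Finset.mem_range] at hi hj
      have h2 := congrArg ZMod.val h
      rw [ZMod.val_natCast_of_lt (by omega), ZMod.val_natCast_of_lt (by omega)] at h2
      omega
    · intro c hc
      have hc' := (Finset.mem_erase.1 hc).1
      have hv : 0 < c.val := by
        rw [Nat.pos_iff_ne_zero]
        intro h
        exact hc' ((ZMod.val_eq_zero c).1 h)
      have hlt := ZMod.val_lt c
      refine ⟨c.val - 1, Finset.mem_range.2 (by omega), ?_⟩
      have h2 : c.val - 1 + 1 = c.val := by omega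
      rw [h2, ZMod.natCast_zmod_val]
    · intro i hi
      rw [Finset.mem_range] at hi
      rw [ZMod.val_natCast_of_lt (by omega)]
  rw [h1]
  have h2 := harmonic_le_one_add_log (p - 1)
  have h3 : ((harmonic (p - 1) : ℚ) : ℝ) = ∑ i ∈ Finset.range (p - 1), (((i + 1 : ℕ) : ℝ))⁻¹ := by
    unfold harmonic
    push_cast
    rfl
  rw [h3] at h2
  refine h2.trans ?_
  have hp2 : 2 ≤ p := hp.out.two_le
  have h4 : Real.log ((p - 1 : ℕ) : ℝ) ≤ Real.log p := by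
    apply Real.log_le_log
    · have : 0 < p - 1 := by omega
      exact_mod_cast this
    · exact_mod_cast Nat.sub_le p 1
  linarith

lemma sum_inv_norm_le :
    ∑ c ∈ (Finset.univ : Finset (ZMod p)).erase 0, ‖1 - ZMod.stdAddChar c‖⁻¹ ≤
      (p : ℝ) / 2 * (1 + Real.log p) := by
  classical
  have hp0 : (0 : ℝ) < p := by exact_mod_cast hp.out.pos
  have h1 : ∑ c ∈ (Finset.univ : Finset (ZMod p)).erase 0, ‖1 - ZMod.stdAddChar c‖⁻¹ ≤
      ∑ c ∈ (Finset.univ : Finset (ZMod p)).erase 0,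
        (p : ℝ) / 4 * ((c.val : ℝ)⁻¹ + ((-c).val : ℝ)⁻¹) :=
    Finset.sum_le_sum fun c hc => inv_norm_le c (Finset.mem_erase.1 hc).1
  have h2 : ∑ c ∈ (Finset.univ : Finset (ZMod p)).erase 0, ((-c).val : ℝ)⁻¹ =
      ∑ c ∈ (Finset.univ : Finset (ZMod p)).erase 0, (c.val : ℝ)⁻¹ := by
    refine Finset.sum_bij (fun c _ => -c) ?_ ?_ ?_ ?_
    · intro c hc
      have hc' := (Finset.mem_erase.1 hc).1
      exact Finset.mem_erase.2 ⟨neg_ne_zero.2 hc', Finset.mem_univ _⟩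
    · intro c _ d _ h
      exact neg_injective h
    · intro c hc
      have hc' := (Finset.mem_erase.1 hc).1
      exact ⟨-c, Finset.mem_erase.2 ⟨neg_ne_zero.2 hc', Finset.mem_univ _⟩, neg_neg c⟩
    · intro c _
      rfl
  rw [← Finset.mul_sum, Finset.sum_add_distrib, h2] at h1
  have h3 := sum_inv_val_le (p := p)
  refine h1.trans ?_
  nlinarith

lemma mw_mul_le (μ : ZMod p → ℝ) (b c : ZMod p) :
    mw μ c * ‖1 - ZMod.stdAddChar (b * c)‖ ≤ ∑ a, |μ (a + b) - μ a| := by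
  classical
  have h1 : muhat μ c * (1 - ZMod.stdAddChar (b * c)) =
      ZMod.stdAddChar (b * c) * ∑ a : ZMod p, ((μ (a + b) - μ a : ℝ) : ℂ) * ZMod.stdAddChar (a * c) := by
    have h2 : ZMod.stdAddChar (b * c) * ∑ a : ZMod p, ((μ (a + b) : ℝ) : ℂ) * ZMod.stdAddChar (a * c) =
        muhat μ c := by
      unfold muhat
      rw [Finset.mul_sum, ← Equiv.sum_comp (Equiv.addRight b)
        (fun a => ((μ a : ℝ) : ℂ) * ZMod.stdAddChar (a * c))]
      apply Finset.sum_congr rfl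
      intro a _
      rw [Equiv.coe_addRight, add_mul, AddChar.map_add_eq_mul]
      ring
    have h3 : ∑ a : ZMod p, ((μ (a + b) - μ a : ℝ) : ℂ) * ZMod.stdAddChar (a * c) =
        ∑ a : ZMod p, ((μ (a + b) : ℝ) : ℂ) * ZMod.stdAddChar (a * c) - muhat μ c := by
      unfold muhat
      rw [← Finset.sum_sub_distrib]
      apply Finset.sum_congr rfl
      intro a _
      push_cast
      ring
    rw [h3]
    calc muhat μ c * (1 - ZMod.stdAddChar (b * c)) =
        muhat μ c - ZMod.stdAddChar (b * c) * muhat μ c := by ring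
      _ = ZMod.stdAddChar (b * c) * ∑ a : ZMod p, ((μ (a + b) : ℝ) : ℂ) * ZMod.stdAddChar (a * c) -
          ZMod.stdAddChar (b * c) * muhat μ c := by rw [h2]
      _ = _ := by ring
  have h4 : mw μ c * ‖1 - ZMod.stdAddChar (b * c)‖ =
      ‖∑ a : ZMod p, ((μ (a + b) - μ a : ℝ) : ℂ) * ZMod.stdAddChar (a * c)‖ := by
    unfold mw
    rw [← norm_mul, h1, norm_mul, AddChar.norm_apply, one_mul]
  rw [h4]
  refine (norm_sum_le _ _).trans (Finset.sum_le_sum fun a _ => ?_)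
  rw [norm_mul, AddChar.norm_apply, mul_one, Complex.norm_real, Real.norm_eq_abs]

lemma sum_mw_le (μ : ZMod p → ℝ) (h1 : ∑ a, μ a = 1) (b : ZMod p) (hb : b ≠ 0) :
    ∑ c, mw μ c ≤ 1 + (∑ a, |μ (a + b) - μ a|) * ((p : ℝ) / 2 * (1 + Real.log p)) := by
  classical
  have hp0 : (0 : ℝ) < p := by exact_mod_cast hp.out.pos
  rw [← Finset.add_sum_erase _ _ (Finset.mem_univ (0 : ZMod p)), mw_zero μ h1]
  have hV0 : 0 ≤ ∑ a, |μ (a + b) - μ a| := Finset.sum_nonneg fun _ _ => abs_nonneg _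
  have h2 : ∑ c ∈ (Finset.univ : Finset (ZMod p)).erase 0, mw μ c ≤
      ∑ c ∈ (Finset.univ : Finset (ZMod p)).erase 0,
        (∑ a, |μ (a + b) - μ a|) * ‖1 - ZMod.stdAddChar (b * c)‖⁻¹ := by
    apply Finset.sum_le_sum
    intro c hc
    have hc' := (Finset.mem_erase.1 hc).1
    have hbc : b * c ≠ 0 := mul_ne_zero hb hc'
    have hpos : 0 < ‖1 - ZMod.stdAddChar (b * c)‖ := by
      refine lt_of_lt_of_le ?_ (norm_one_sub_char (b * c))
      have hv : 0 < (b * c).val := by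
        rw [Nat.pos_iff_ne_zero]
        intro h
        exact hbc ((ZMod.val_eq_zero _).1 h)
      have hv' : (0 : ℝ) < (b * c).val := by exact_mod_cast hv
      have hlt : ((b * c).val : ℝ) < p := by exact_mod_cast ZMod.val_lt (b * c)
      have : 0 < 1 - ((b * c).val : ℝ) / p := by
        rw [sub_pos, div_lt_one hp0]; exact hlt
      positivity
    rw [← div_eq_mul_inv, le_div_iff₀ hpos]
    exact mw_mul_le μ b c
  have h3 : ∑ c ∈ (Finset.univ : Finset (ZMod p)).erase 0, ‖1 - ZMod.stdAddChar (b * c)‖⁻¹ =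
      ∑ c ∈ (Finset.univ : Finset (ZMod p)).erase 0, ‖1 - ZMod.stdAddChar c‖⁻¹ := by
    refine Finset.sum_bij (fun c _ => b * c) ?_ ?_ ?_ ?_
    · intro c hc
      have hc' := (Finset.mem_erase.1 hc).1
      exact Finset.mem_erase.2 ⟨mul_ne_zero hb hc', Finset.mem_univ _⟩
    · intro c _ d _ h
      exact mul_left_cancel₀ hb h
    · intro c hc
      have hc' := (Finset.mem_erase.1 hc).1
      exact ⟨b⁻¹ * c, Finset.mem_erase.2 ⟨mul_ne_zero (inv_ne_zero hb) hc', Finset.mem_univ _⟩,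
        mul_inv_cancel_left₀ hb c⟩
    · intro c _
      rfl
  rw [← Finset.mul_sum, h3] at h2
  have h4 := mul_le_mul_of_nonneg_left (sum_inv_norm_le (p := p)) hV0
  linarith

/-- the numerical condition, for large `p` -/
lemma var_asym (s : ℝ) (hs : 5 / 6 < s) : ∃ N : ℕ, ∀ n : ℕ, N ≤ n →
    (1 + (n : ℝ) ^ (-s) * ((n : ℝ) / 2 * (1 + Real.log n))) ^ 6 < (n : ℝ) := by
  have hδ : 0 < s - 5 / 6 := by linarith
  have t1 : Filter.Tendsto (fun x : ℝ => x ^ (-(s - 5 / 6))) Filter.atTop (nhds 0) :=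
    tendsto_rpow_neg_atTop hδ
  have t2 : Filter.Tendsto (fun x : ℝ => Real.log x / x ^ (s - 5 / 6)) Filter.atTop (nhds 0) :=
    (isLittleO_log_rpow_atTop hδ).tendsto_div_nhds_zero
  have t3 : Filter.Tendsto (fun x : ℝ => x ^ (1 / 6 : ℝ)) Filter.atTop Filter.atTop :=
    tendsto_rpow_atTop (by norm_num)
  have e1 := (t1.comp tendsto_natCast_atTop_atTop).eventually (gt_mem_nhds (show (0 : ℝ) < 1 / 2 by norm_num))
  have e2 := (t2.comp tendsto_natCast_atTop_atTop).eventually (gt_mem_nhds (show (0 : ℝ) < 1 / 2 by norm_num))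
  have e3 := (t3.comp tendsto_natCast_atTop_atTop).eventually (Filter.eventually_gt_atTop 2)
  obtain ⟨N, hN⟩ := ((e1.and (e2.and e3)).and (Filter.eventually_ge_atTop 1)).exists_forall_of_atTop
  refine ⟨N, fun n hn => ?_⟩
  obtain ⟨⟨h1, h2, h3⟩, h4⟩ := hN n hn
  simp only [Function.comp_apply] at h1 h2 h3
  have hn1 : (1 : ℝ) ≤ n := by exact_mod_cast h4
  have hn0 : (0 : ℝ) < n := by linarith
  have hlog : 0 ≤ Real.log n := Real.log_nonneg hn1
  have k1 : (n : ℝ) ^ (-s) * (n : ℝ) = (n : ℝ) ^ (1 / 6 : ℝ) * (n : ℝ) ^ (-(s - 5 / 6)) := by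
    rw [← Real.rpow_add hn0]
    nth_rewrite 2 [← Real.rpow_one (n : ℝ)]
    rw [← Real.rpow_add hn0]
    congr 1
    ring
  have k2 : (n : ℝ) ^ (-(s - 5 / 6)) * Real.log n = Real.log n / (n : ℝ) ^ (s - 5 / 6) := by
    rw [Real.rpow_neg hn0.le]
    exact (div_eq_inv_mul _ _).symm
  have k3 : (n : ℝ) ^ (-s) * ((n : ℝ) / 2 * (1 + Real.log n)) =
      (n : ℝ) ^ (1 / 6 : ℝ) * (((n : ℝ) ^ (-(s - 5 / 6)) + Real.log n / (n : ℝ) ^ (s - 5 / 6)) / 2) := by
    rw [← k2]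
    obtain ⟨A, hA⟩ : ∃ A, A = (n : ℝ) ^ (-(s - 5 / 6)) := ⟨_, rfl⟩
    obtain ⟨B, hB⟩ : ∃ B, B = (n : ℝ) ^ (1 / 6 : ℝ) := ⟨_, rfl⟩
    rw [← hA, ← hB] at k1
    rw [← hA, ← hB]
    calc (n : ℝ) ^ (-s) * ((n : ℝ) / 2 * (1 + Real.log n)) =
        ((n : ℝ) ^ (-s) * (n : ℝ)) * ((1 + Real.log n) / 2) := by ring
      _ = _ := by rw [k1]; ring
  have hx0 : 0 < (n : ℝ) ^ (1 / 6 : ℝ) := Real.rpow_pos_of_pos hn0 _
  have k4 : 1 + (n : ℝ) ^ (-s) * ((n : ℝ) / 2 * (1 + Real.log n)) < (n : ℝ) ^ (1 / 6 : ℝ) := by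
    rw [k3]
    nlinarith
  have k5 : 0 ≤ (n : ℝ) ^ (-s) * ((n : ℝ) / 2 * (1 + Real.log n)) := by positivity
  have k6 : ((n : ℝ) ^ (1 / 6 : ℝ)) ^ 6 = n := by
    rw [← Real.rpow_natCast, ← Real.rpow_mul hn0.le]
    norm_num
  have k7 := pow_lt_pow_left₀ k4 (by linarith) (show (6 : ℕ) ≠ 0 by norm_num)
  rw [k6] at k7
  exact k7

/-- laws of small variation satisfy the criterion, for large `p` -/
lemma crit_var (s : ℝ) (hs : 5 / 6 < s) : ∃ p0 : ℕ, ∀ p : ℕ, ∀ _ : Fact p.Prime, p0 ≤ p →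
    ∀ μ : ZMod p → ℝ, ∑ a, μ a = 1 → ∀ b : ZMod p, b ≠ 0 →
    ∑ a, |μ (a + b) - μ a| ≤ (p : ℝ) ^ (-s) →
    ∃ t : ℝ, 1 ≤ t ∧ t < 2 ∧ (∑ c, mw μ c ^ t) ^ 6 < (p : ℝ) ^ (2 - t) := by
  obtain ⟨N, hN⟩ := var_asym s hs
  refine ⟨N, ?_⟩
  intro p hp hpN μ h1 b hb hV
  have hp0 : (0 : ℝ) < p := by exact_mod_cast hp.out.pos
  have hp1 : (1 : ℝ) ≤ p := by exact_mod_cast hp.out.one_le
  have hlog : 0 ≤ Real.log p := Real.log_nonneg hp1
  refine ⟨1, le_rfl, by norm_num, ?_⟩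
  have h2 := sum_mw_le μ h1 b hb
  have h3 : (∑ a, |μ (a + b) - μ a|) * ((p : ℝ) / 2 * (1 + Real.log p)) ≤
      (p : ℝ) ^ (-s) * ((p : ℝ) / 2 * (1 + Real.log p)) := by
    apply mul_le_mul_of_nonneg_right hV
    positivity
  have h4 : ∑ c, mw μ c ^ (1 : ℝ) = ∑ c, mw μ c :=
    Finset.sum_congr rfl fun c _ => Real.rpow_one _
  have h5 : (2 : ℝ) - 1 = 1 := by norm_num
  rw [h4, h5, Real.rpow_one]
  have h6 : 0 ≤ ∑ c, mw μ c := Finset.sum_nonneg fun c _ => norm_nonneg _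
  refine lt_of_le_of_lt ?_ (hN p hpN)
  exact pow_le_pow_left₀ h6 (by linarith) 6

end Pool.Agent.MP0a1886
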